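import Pool.Agent.Work.MP_b7dc8a_pr.B.Four

/-! Module CAPA (M): capacity of a set `S`: many good boundary edges.

Let `P f = nb (cubeE m) f / m` (so `P 1 = 1`, `P` is symmetric: `∑_x f x P g x = ∑_x P f x g x`,
`P^k 1_S s <= 4 |S| / 2^m` for `k >= TT m` by `four_mix`, and `P^k 1_S <= 1`). Define
`esc 0 = 1`, `esc (n+1) = P (1_{S^c} esc n)` (probability that the walk from `x` avoids `S` at the
times `1..n+1`; decreasing in `n`, values in `[0,1]`). By induction on `n`:
  (*) `1 = esc n + ∑_{k=1}^n P^k (1_S esc (n-k))`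
(`1 = P 1 = P (1_{S^c} esc (n-1)) + P (1_S esc (n-1)) + ∑_{k=1}^{n-1} P^{k+1} (1_S esc (n-1-k))`).
Sum (*) over `x ∈ S` and use symmetry: `|S| = ∑_{k=0}^n ∑_{s ∈ S} esc (n-k) s * P^k 1_S s`.
Take `T = TT m`, `n = 2T+1`. For `k <= T`: `n - k >= T+1`, `esc (n-k) <= esc (T+1)`, `P^k 1_S <= 1`:
these terms give `<= (T+1) ∑_{s ∈ S} esc (T+1) s`. For `T < k <= n` (at most `T+1` values):
`P^k 1_S s <= 4 |S| / 2^m`, so they give `<= (T+1) |S| 4 |S| / 2^m <= |S|/2`. Hence
`∑_{s ∈ S} esc (T+1) s >= |S| / (2 (T+1)) >= |S| / (2 (T+2))`. For `y ∉ S`: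
`(nb (offE (cubeE m) S))^[T] 1 y / m^T = (P' )^T 1 y` is the probability that the walk from `y`
stays outside `S` (times `0..T`), so `esc (T+1) s = (1/m) nb (cubeE m) (fun y => if y ∈ S then 0
else (nb (offE (cubeE m) S))^[T] 1 y / m^T) s` (induction on `T`). This is `b_capa`.

`b_capa_good`: the left sum of `b_capa` runs over at most `m |S|` pairs `(s,y)`, each term is `<= 1`,
and the terms of pairs which are not good are `< 1/(4 (T+2))`. -/

namespace Pool.Agent.Work.MP_b7dc8a_pr

open Finset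

private theorem capa_off_mem {V : Type} (E : Finset (Sym2 V)) (S : Finset V) (e : Sym2 V) :
    e ∈ offE E S ↔ e ∈ E ∧ ∀ x ∈ e, x ∉ S := by
  classical
  unfold offE
  simp

open Classical in
private theorem capa_nb_ite {V : Type} [Fintype V] (E : Finset (Sym2 V)) (f : V → ℝ) (x : V) :
    nb E f x = ∑ z, if s(x, z) ∈ E then f z else 0 := by
  unfold nb
  rw [Finset.sum_filter]

/-- the probability that the walk from `x` avoids `S` at the times `1, ..., n` -/
private noncomputable def capaEsc (m : ℕ) (S : Finset (Q m)) : ℕ → Q m → ℝ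
  | 0 => fun _ => 1
  | n + 1 => fun x => nb (cubeE m) (fun z => if z ∈ S then 0 else capaEsc m S n z) x / m

private theorem capa_nb_add (m : ℕ) (f g : Q m → ℝ) (x : Q m) :
    nb (cubeE m) (fun z => f z + g z) x = nb (cubeE m) f x + nb (cubeE m) g x := by
  unfold nb
  exact Finset.sum_add_distrib

private theorem capa_nb_div (m : ℕ) (f : Q m → ℝ) (c : ℝ) (x : Q m) :
    nb (cubeE m) (fun z => f z / c) x = nb (cubeE m) f x / c := by
  unfold nb
  rw [Finset.sum_div]

private theorem capa_nb_sum {ι : Type} (m : ℕ) (I : Finset ι) (f : ι → Q m → ℝ) (x : Q m) :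
    nb (cubeE m) (fun z => ∑ i ∈ I, f i z) x = ∑ i ∈ I, nb (cubeE m) (f i) x := by
  unfold nb
  exact Finset.sum_comm

private theorem capa_esc_nonneg (m : ℕ) (S : Finset (Q m)) :
    ∀ n x, 0 ≤ capaEsc m S n x := by
  intro n
  induction n with
  | zero => intro x; exact zero_le_one
  | succ n ih =>
    intro x
    refine div_nonneg ?_ (Nat.cast_nonneg m)
    unfold nb
    refine Finset.sum_nonneg (fun z _ => ?_)
    split_ifs
    · exact le_rfl
    · exact ih z

private theorem capa_esc_succ_le (m : ℕ) (hm : 2 ≤ m) (S : Finset (Q m)) :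
    ∀ n x, capaEsc m S (n + 1) x ≤ capaEsc m S n x := by
  have hm0 : (0 : ℝ) < m := by
    have : 0 < m := by omega
    exact_mod_cast this
  intro n
  induction n with
  | zero =>
    intro x
    show nb (cubeE m) (fun z => if z ∈ S then 0 else capaEsc m S 0 z) x / m ≤ 1
    rw [div_le_one hm0]
    have h1 : nb (cubeE m) (fun z => if z ∈ S then 0 else capaEsc m S 0 z) x ≤
        nb (cubeE m) (fun _ => 1) x := by
      refine nb_mono _ _ _ (fun z => ?_) x
      split_ifs
      · exact zero_le_one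
      · exact le_rfl
    rwa [nb_cube_one] at h1
  | succ n ih =>
    intro x
    show nb (cubeE m) (fun z => if z ∈ S then 0 else capaEsc m S (n + 1) z) x / m ≤
      nb (cubeE m) (fun z => if z ∈ S then 0 else capaEsc m S n z) x / m
    refine div_le_div_of_nonneg_right ?_ hm0.le
    refine nb_mono _ _ _ (fun z => ?_) x
    split_ifs
    · exact le_rfl
    · exact ih z

private theorem capa_esc_anti (m : ℕ) (hm : 2 ≤ m) (S : Finset (Q m)) {a b : ℕ} (hab : a ≤ b)
    (x : Q m) : capaEsc m S b x ≤ capaEsc m S a x :=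
  antitone_nat_of_succ_le (f := fun n => capaEsc m S n x)
    (fun n => capa_esc_succ_le m hm S n x) hab

/-- last exit decomposition -/
private theorem capa_last (m : ℕ) (hm : 2 ≤ m) (S : Finset (Q m)) :
    ∀ n x, (1 : ℝ) = capaEsc m S n x + ∑ k ∈ range n, (nb (cubeE m))^[k + 1]
      (fun z => if z ∈ S then capaEsc m S (n - 1 - k) z else 0) x / (m : ℝ) ^ (k + 1) := by
  have hm0 : (0 : ℝ) < m := by
    have : 0 < m := by omega
    exact_mod_cast this
  intro n
  induction n with
  | zero => intro x; simp [capaEsc]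
  | succ n ih =>
    intro x
    have h1 : (1 : ℝ) = nb (cubeE m) (fun _ => 1) x / m := by
      rw [nb_cube_one, div_self hm0.ne']
    have h2 : (fun _ : Q m => (1 : ℝ)) = fun z => ((if z ∈ S then 0 else capaEsc m S n z) +
        (if z ∈ S then capaEsc m S n z else 0)) + ∑ k ∈ range n, (nb (cubeE m))^[k + 1]
      (fun z => if z ∈ S then capaEsc m S (n - 1 - k) z else 0) z / (m : ℝ) ^ (k + 1) := by
      funext z
      rw [ih z]
      congr 1
      split_ifs <;> simp
    have h3 : nb (cubeE m) (fun _ => 1) x = (nb (cubeE m)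
        (fun z => if z ∈ S then 0 else capaEsc m S n z) x +
        nb (cubeE m) (fun z => if z ∈ S then capaEsc m S n z else 0) x) +
        ∑ k ∈ range n, (nb (cubeE m))^[k + 2]
      (fun z => if z ∈ S then capaEsc m S (n - 1 - k) z else 0) x / (m : ℝ) ^ (k + 1) := by
      conv_lhs => rw [h2]
      rw [capa_nb_add, capa_nb_add, capa_nb_sum]
      congr 1
      refine Finset.sum_congr rfl (fun k _ => ?_)
      rw [capa_nb_div, ← Function.iterate_succ_apply' (nb (cubeE m)) (k + 1)]
    rw [h1, h3, Finset.sum_range_succ']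
    have h4 : capaEsc m S (n + 1) x =
      nb (cubeE m) (fun z => if z ∈ S then 0 else capaEsc m S n z) x / m := rfl
    rw [h4, add_div, add_div, Finset.sum_div]
    have h5 : ∀ k, n + 1 - 1 - (k + 1) = n - 1 - k := fun k => by omega
    have h6 : ∀ k ∈ range n, (nb (cubeE m))^[k + 2]
        (fun z => if z ∈ S then capaEsc m S (n - 1 - k) z else 0) x / (m : ℝ) ^ (k + 1) / m =
        (nb (cubeE m))^[k + 1 + 1]
        (fun z => if z ∈ S then capaEsc m S (n + 1 - 1 - (k + 1)) z else 0) x /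
          (m : ℝ) ^ (k + 1 + 1) := by
      intro k _
      rw [h5, div_div, ← pow_succ]
    rw [Finset.sum_congr rfl h6]
    have h7 : (nb (cubeE m))^[0 + 1] (fun z => if z ∈ S then capaEsc m S (n + 1 - 1 - 0) z else 0) x
        / (m : ℝ) ^ (0 + 1) =
        nb (cubeE m) (fun z => if z ∈ S then capaEsc m S n z else 0) x / m := by
      simp
    rw [h7]
    ring

/-- the terms of the decomposition, summed over `S` -/
private theorem capa_term (m : ℕ) (S : Finset (Q m)) (K : ℕ) (h : Q m → ℝ) :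
    ∑ s ∈ S, (nb (cubeE m))^[K] (fun z => if z ∈ S then h z else 0) s =
      ∑ y ∈ S, h y * ∑ s ∈ S, wk (cubeE m) K y s := by
  have h1 : ∀ s, (nb (cubeE m))^[K] (fun z => if z ∈ S then h z else 0) s =
      ∑ y ∈ S, wk (cubeE m) K s y * h y := by
    intro s
    rw [nb_iter_eq, ← Finset.sum_filter_add_sum_filter_not univ (fun y => y ∈ S)]
    have e1 : ∑ y ∈ univ.filter (fun y => ¬ y ∈ S), wk (cubeE m) K s y *
        (if y ∈ S then h y else 0) = 0 := by
      refine Finset.sum_eq_zero (fun y hy => ?_)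
      rw [if_neg (Finset.mem_filter.mp hy).2, mul_zero]
    rw [e1, add_zero, Finset.filter_mem_eq_inter, Finset.univ_inter]
    refine Finset.sum_congr rfl (fun y hy => ?_)
    rw [if_pos hy]
  rw [Finset.sum_congr rfl (fun s _ => h1 s), Finset.sum_comm]
  refine Finset.sum_congr rfl (fun y _ => ?_)
  rw [Finset.mul_sum]
  refine Finset.sum_congr rfl (fun s _ => ?_)
  rw [wk_comm, mul_comm]

private theorem capa_walk (m : ℕ) (S : Finset (Q m)) :
    ∀ n, ∀ y ∉ S, capaEsc m S n y =
      (nb (offE (cubeE m) S))^[n] (fun _ => 1) y / (m : ℝ) ^ n := by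
  classical
  intro n
  induction n with
  | zero => intro y _; simp [capaEsc]
  | succ n ih =>
    intro y hy
    have hmem : ∀ z, s(y, z) ∈ offE (cubeE m) S ↔ s(y, z) ∈ cubeE m ∧ z ∉ S := by
      intro z
      rw [capa_off_mem]
      simp only [Sym2.mem_iff, forall_eq_or_imp, forall_eq]
      exact ⟨fun h => ⟨h.1, h.2.2⟩, fun h => ⟨h.1, hy, h.2⟩⟩
    have h1 : nb (cubeE m) (fun z => if z ∈ S then 0 else capaEsc m S n z) y =
        nb (offE (cubeE m) S) ((nb (offE (cubeE m) S))^[n] (fun _ => 1)) y / (m : ℝ) ^ n := by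
      rw [capa_nb_ite, capa_nb_ite, Finset.sum_div]
      refine Finset.sum_congr rfl (fun z _ => ?_)
      by_cases hz1 : s(y, z) ∈ cubeE m
      · by_cases hz2 : z ∈ S
        · have hno : ¬ s(y, z) ∈ offE (cubeE m) S := fun h => ((hmem z).mp h).2 hz2
          rw [if_pos hz1, if_pos hz2, if_neg hno, zero_div]
        · have hyes : s(y, z) ∈ offE (cubeE m) S := (hmem z).mpr ⟨hz1, hz2⟩
          rw [if_pos hz1, if_neg hz2, if_pos hyes, ih z hz2]
      · have hno : ¬ s(y, z) ∈ offE (cubeE m) S := fun h => hz1 ((hmem z).mp h).1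
        rw [if_neg hz1, if_neg hno, zero_div]
    have h3 : capaEsc m S (n + 1) y =
      nb (cubeE m) (fun z => if z ∈ S then 0 else capaEsc m S n z) y / m := rfl
    rw [h3, h1, Function.iterate_succ_apply', pow_succ, div_div]

theorem b_capa (m : ℕ) (hm : 2 ≤ m) (S : Finset (Q m))
    (hS : (S.card : ℝ) * (8 * ((TT m : ℝ) + 2)) ≤ 2 ^ m) :
    (m : ℝ) * S.card / (2 * ((TT m : ℝ) + 2)) ≤
      ∑ s ∈ S, nb (cubeE m) (fun y => if y ∈ S then 0 else
        (nb (offE (cubeE m) S))^[TT m] (fun _ => 1) y / (m : ℝ) ^ TT m) s := by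
  have hm0 : (0 : ℝ) < m := by
    have : 0 < m := by omega
    exact_mod_cast this
  set T := TT m with hT
  set E : ℝ := ∑ s ∈ S, capaEsc m S (T + 1) s with hE
  have hE0 : 0 ≤ E := Finset.sum_nonneg (fun s _ => capa_esc_nonneg m S _ s)
  have hR : ∑ s ∈ S, nb (cubeE m) (fun y => if y ∈ S then 0 else
        (nb (offE (cubeE m) S))^[T] (fun _ => 1) y / (m : ℝ) ^ T) s = m * E := by
    rw [hE, Finset.mul_sum]
    refine Finset.sum_congr rfl (fun s _ => ?_)
    have h3 : capaEsc m S (T + 1) s =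
      nb (cubeE m) (fun z => if z ∈ S then 0 else capaEsc m S T z) s / m := rfl
    rw [h3, mul_div_cancel₀ _ hm0.ne']
    congr 1
    funext y
    split_ifs with hy
    · rfl
    · rw [capa_walk m S T y hy]
  rw [hR]
  -- the decomposition
  have hsum : (S.card : ℝ) = ∑ s ∈ S, capaEsc m S (2 * T + 1) s +
      ∑ k ∈ range (2 * T + 1), (∑ y ∈ S, capaEsc m S (2 * T + 1 - 1 - k) y *
        ∑ s ∈ S, wk (cubeE m) (k + 1) y s) / (m : ℝ) ^ (k + 1) := by
    have h1 : (S.card : ℝ) = ∑ s ∈ S, (1 : ℝ) := by simp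
    rw [h1, Finset.sum_congr rfl (fun s _ => capa_last m hm S (2 * T + 1) s),
      Finset.sum_add_distrib, Finset.sum_comm]
    congr 1
    refine Finset.sum_congr rfl (fun k _ => ?_)
    rw [← Finset.sum_div, capa_term]
  have hpowpos : ∀ k : ℕ, (0 : ℝ) < (m : ℝ) ^ k := fun k => pow_pos hm0 k
  have hfirst : ∑ s ∈ S, capaEsc m S (2 * T + 1) s ≤ E :=
    Finset.sum_le_sum (fun s _ => capa_esc_anti m hm S (by omega) s)
  set q : ℝ := S.card * (4 * S.card / 2 ^ m) with hq
  have hq0 : 0 ≤ q := by positivity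
  have hterm : ∀ k ∈ range (2 * T + 1), (∑ y ∈ S, capaEsc m S (2 * T + 1 - 1 - k) y *
        ∑ s ∈ S, wk (cubeE m) (k + 1) y s) / (m : ℝ) ^ (k + 1) ≤ if k < T then E else q := by
    intro k hk
    rw [div_le_iff₀ (hpowpos _)]
    split_ifs with hkT
    · rw [hE, Finset.sum_mul]
      refine Finset.sum_le_sum (fun y _ => ?_)
      have e1 : capaEsc m S (2 * T + 1 - 1 - k) y ≤ capaEsc m S (T + 1) y :=
        capa_esc_anti m hm S (by omega) y
      have e2 : ∑ s ∈ S, wk (cubeE m) (k + 1) y s ≤ (m : ℝ) ^ (k + 1) := by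
        rw [← wk_cube_sum m (k + 1) y]
        exact Finset.sum_le_sum_of_subset_of_nonneg (Finset.subset_univ _)
          (fun s _ _ => wk_nonneg _ _ _ _)
      exact mul_le_mul e1 e2 (Finset.sum_nonneg (fun s _ => wk_nonneg _ _ _ _))
        (capa_esc_nonneg m S _ y)
    · have e3 : ∀ y ∈ S, capaEsc m S (2 * T + 1 - 1 - k) y *
          ∑ s ∈ S, wk (cubeE m) (k + 1) y s ≤ 1 * (S.card * (4 * (m : ℝ) ^ (k + 1) / 2 ^ m)) := by
        intro y _
        have e4 : capaEsc m S (2 * T + 1 - 1 - k) y ≤ 1 :=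
          capa_esc_anti m hm S (Nat.zero_le _) y
        have e5 : ∑ s ∈ S, wk (cubeE m) (k + 1) y s ≤ S.card * (4 * (m : ℝ) ^ (k + 1) / 2 ^ m) := by
          rw [← nsmul_eq_mul]
          exact Finset.sum_le_card_nsmul _ _ _
            (fun s _ => four_mix m hm (k + 1) (by omega) y s)
        exact mul_le_mul e4 e5 (Finset.sum_nonneg (fun s _ => wk_nonneg _ _ _ _)) zero_le_one
      refine (Finset.sum_le_sum e3).trans (le_of_eq ?_)
      rw [Finset.sum_const, nsmul_eq_mul, hq]
      ring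
  have hcount : ∑ k ∈ range (2 * T + 1), (if k < T then E else q) = T * E + (T + 1) * q := by
    have e1 : 2 * T + 1 = T + (T + 1) := by ring
    rw [e1, Finset.sum_range_add]
    have e2 : ∑ k ∈ range T, (if k < T then E else q) = T * E := by
      rw [Finset.sum_congr rfl (fun k hk => if_pos (Finset.mem_range.mp hk)), Finset.sum_const,
        Finset.card_range, nsmul_eq_mul]
    have e3 : ∑ k ∈ range (T + 1), (if T + k < T then E else q) = (T + 1) * q := by
      rw [Finset.sum_congr rfl (fun k _ => if_neg (by omega : ¬ T + k < T)), Finset.sum_const,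
        Finset.card_range, nsmul_eq_mul]
      push_cast
      ring
    rw [e2, e3]
  have hmain : (S.card : ℝ) ≤ (T + 1) * E + (T + 1) * q := by
    calc (S.card : ℝ) = _ := hsum
      _ ≤ E + ∑ k ∈ range (2 * T + 1), (if k < T then E else q) :=
          add_le_add hfirst (Finset.sum_le_sum hterm)
      _ = (T + 1) * E + (T + 1) * q := by rw [hcount]; ring
  have hTn : (0 : ℝ) ≤ T := Nat.cast_nonneg T
  have hqhalf : (T + 1) * q ≤ S.card / 2 := by
    have h2m : (0 : ℝ) < 2 ^ m := by positivity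
    have e1 : (T + 1) * q = S.card * ((4 * S.card * (T + 1)) / 2 ^ m) := by
      rw [hq]; ring
    have e2 : (4 * S.card * ((T : ℝ) + 1)) / 2 ^ m ≤ 1 / 2 := by
      rw [div_le_iff₀ h2m]
      have hc : (0 : ℝ) ≤ S.card := Nat.cast_nonneg _
      nlinarith
    rw [e1]
    have hc : (0 : ℝ) ≤ S.card := Nat.cast_nonneg _
    nlinarith
  have hfin : (S.card : ℝ) / 2 ≤ (T + 1) * E := by linarith
  have hpos : (0 : ℝ) < 2 * ((T : ℝ) + 2) := by positivity
  rw [div_le_iff₀ hpos]
  have h8 : (S.card : ℝ) ≤ 2 * ((T : ℝ) + 2) * E := by nlinarith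
  nlinarith [mul_le_mul_of_nonneg_left h8 hm0.le]

open Classical in
theorem b_capa_good (m : ℕ) (hm : 2 ≤ m) (S : Finset (Q m))
    (hS : (S.card : ℝ) * (8 * ((TT m : ℝ) + 2)) ≤ 2 ^ m) :
    (m : ℝ) * S.card / (4 * ((TT m : ℝ) + 2)) ≤
      ∑ s ∈ S, ((univ.filter fun y => s(s, y) ∈ cubeE m ∧ good m S y).card : ℝ) := by
  have hm0 : (0 : ℝ) < m := by
    have : 0 < m := by omega
    exact_mod_cast this
  have h := b_capa m hm S hS
  set T := TT m with hT
  have hTn : (0 : ℝ) ≤ T := Nat.cast_nonneg T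
  set c : ℝ := 1 / (4 * ((T : ℝ) + 2)) with hc
  have hc0 : 0 ≤ c := by positivity
  have hsub : offE (cubeE m) S ⊆ cubeE m := fun e he => ((capa_off_mem _ _ _).mp he).1
  have hle : ∀ s, nb (cubeE m) (fun y => if y ∈ S then 0 else
        (nb (offE (cubeE m) S))^[T] (fun _ => 1) y / (m : ℝ) ^ T) s ≤
      ((univ.filter fun y => s(s, y) ∈ cubeE m ∧ good m S y).card : ℝ) + m * c := by
    intro s
    have h1 : nb (cubeE m) (fun y => if y ∈ S then 0 else
        (nb (offE (cubeE m) S))^[T] (fun _ => 1) y / (m : ℝ) ^ T) s ≤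
        nb (cubeE m) (fun y => (if good m S y then 1 else 0) + c) s := by
      refine nb_mono _ _ _ (fun y => ?_) s
      by_cases hy : y ∈ S
      · rw [if_pos hy]
        split_ifs <;> linarith
      · rw [if_neg hy]
        by_cases hg : good m S y
        · rw [if_pos hg]
          have h2 := nb_iter_le m T (offE (cubeE m) S) hsub (fun _ => 1) 1 zero_le_one
            (fun _ => le_rfl) y
          have h3 : (nb (offE (cubeE m) S))^[T] (fun _ => 1) y / (m : ℝ) ^ T ≤ 1 := by
            rw [div_le_one (pow_pos hm0 T)]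
            linarith
          linarith
        · rw [if_neg hg, zero_add]
          unfold good at hg
          push Not at hg
          exact (hg hy).le
    refine h1.trans (le_of_eq ?_)
    rw [capa_nb_add]
    have h4 : nb (cubeE m) (fun _ => c) s = m * c := by
      have h5 := nb_cube_one m s
      unfold nb at h5 ⊢
      rw [Finset.sum_const, nsmul_eq_mul] at h5 ⊢
      rw [mul_one] at h5
      rw [h5]
    rw [h4]
    congr 1
    rw [capa_nb_ite, Finset.natCast_card_filter]
    refine Finset.sum_congr rfl (fun z _ => ?_)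
    by_cases hz1 : s(s, z) ∈ cubeE m
    · by_cases hz2 : good m S z
      · rw [if_pos hz1, if_pos hz2, if_pos ⟨hz1, hz2⟩]
      · rw [if_pos hz1, if_neg hz2, if_neg (fun h => hz2 h.2)]
    · rw [if_neg hz1, if_neg (fun h => hz1 h.1)]
  have h2 : ∑ s ∈ S, nb (cubeE m) (fun y => if y ∈ S then 0 else
        (nb (offE (cubeE m) S))^[T] (fun _ => 1) y / (m : ℝ) ^ T) s ≤
      ∑ s ∈ S, ((univ.filter fun y => s(s, y) ∈ cubeE m ∧ good m S y).card : ℝ) +
        S.card * (m * c) := by
    refine (Finset.sum_le_sum (fun s _ => hle s)).trans (le_of_eq ?_)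
    rw [Finset.sum_add_distrib, Finset.sum_const, nsmul_eq_mul]
  have h3 : (m : ℝ) * S.card / (2 * ((T : ℝ) + 2)) =
      (m : ℝ) * S.card / (4 * ((T : ℝ) + 2)) + S.card * (m * c) := by
    rw [hc]
    field_simp
    ring
  linarith

end Pool.Agent.Work.MP_b7dc8a_pr
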