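import Pool.Agent.Work.MP_b7dc8a_pr.B.Four

/-! Module CAPB (M): many short excursions from `S` to `T`.

Let `P f = nb (cubeE m) f / m`, `W = S ∪ T` (disjoint). Define `al 0 = 0`,
`al (n+1) = P (1_T + 1_{W^c} al n)` (probability that the walk from `x` hits `T` at some time `j`
with `1 <= j <= n+1` and avoids `W` at the times `1..j-1`), increasing in `n`, values in `[0,1]`.
CLAIM for `n >= 1`: `P^n 1_T <= al n + ∑_{k=1}^n P^k (1_S al (n-k))`. Induction on `n`: `n = 1` clear
(`P 1_T = al 1`). Step: for `y ∈ T`: `P^n 1_T y <= 1`; for `y ∉ T` use the claim for `n`; so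
`P^{n+1} 1_T <= P 1_T + P ((1_S + 1_{W^c}) (al n + ∑_k P^k (1_S al (n-k))))
 <= P (1_T + 1_{W^c} al n) + P (1_S al n) + ∑_k P^{k+1} (1_S al (n-k))`.
Sum over `x ∈ S` (`<=` sum over all `x` for the terms `k >= 1`, `∑_x P^k f x = ∑_x f x`):
`∑_{s ∈ S} P^n 1_T s <= ∑_{k=0}^n ∑_{s ∈ S} al (n-k) s <= (n+1) ∑_{s ∈ S} al n s`.
With `n = TT m` and `n = TT m + 1` and `four_lower` (summed over `s ∈ S`, `t ∈ T`):
`|S| |T| / 2^m <= 2 (TT m + 2) ∑_{s ∈ S} al (TT m + 1) s`.
Finally `al (n+1) s = g s / m + ∑_{i < n} (1/m) nb (cubeE m) (1_{W^c} (nb (offE (cubeE m) W))^[i] g / m^(i+1)) s`,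
`g = gT T` (induction on `n`). -/

namespace Pool.Agent.Work.MP_b7dc8a_pr

open Finset

/-- the probability that the walk from `x` has hit `T` by time `n`, before returning to `W` -/
private noncomputable def capbAl (m : ℕ) (S T : Finset (Q m)) : ℕ → Q m → ℝ
  | 0 => fun _ => 0
  | n + 1 => fun x => nb (cubeE m) (fun z => (if z ∈ T then 1 else 0) +
      if z ∈ S ∪ T then 0 else capbAl m S T n z) x / m

private theorem capb_off_mem {V : Type} (E : Finset (Sym2 V)) (S : Finset V) (e : Sym2 V) :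
    e ∈ offE E S ↔ e ∈ E ∧ ∀ x ∈ e, x ∉ S := by
  classical
  unfold offE
  simp

open Classical in
private theorem capb_nb_ite {V : Type} [Fintype V] (E : Finset (Sym2 V)) (f : V → ℝ) (x : V) :
    nb E f x = ∑ z, if s(x, z) ∈ E then f z else 0 := by
  unfold nb
  rw [Finset.sum_filter]

private theorem capb_nb_add {V : Type} [Fintype V] (E : Finset (Sym2 V)) (f g : V → ℝ) (x : V) :
    nb E (fun z => f z + g z) x = nb E f x + nb E g x := by
  unfold nb
  exact Finset.sum_add_distrib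

private theorem capb_nb_div {V : Type} [Fintype V] (E : Finset (Sym2 V)) (f : V → ℝ) (c : ℝ)
    (x : V) : nb E (fun z => f z / c) x = nb E f x / c := by
  unfold nb
  rw [Finset.sum_div]

private theorem capb_nb_sum {V : Type} [Fintype V] {ι : Type} (E : Finset (Sym2 V)) (I : Finset ι)
    (f : ι → V → ℝ) (x : V) :
    nb E (fun z => ∑ i ∈ I, f i z) x = ∑ i ∈ I, nb E (f i) x := by
  unfold nb
  exact Finset.sum_comm

private theorem capb_al_nonneg (m : ℕ) (S T : Finset (Q m)) :
    ∀ n x, 0 ≤ capbAl m S T n x := by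
  intro n
  induction n with
  | zero => intro x; exact le_rfl
  | succ n ih =>
    intro x
    refine div_nonneg ?_ (Nat.cast_nonneg m)
    unfold nb
    refine Finset.sum_nonneg (fun z _ => ?_)
    have := ih z
    split_ifs <;> linarith

private theorem capb_al_succ (m : ℕ) (S T : Finset (Q m)) :
    ∀ n x, capbAl m S T n x ≤ capbAl m S T (n + 1) x := by
  intro n
  induction n with
  | zero => intro x; exact capb_al_nonneg m S T 1 x
  | succ n ih =>
    intro x
    refine div_le_div_of_nonneg_right ?_ (Nat.cast_nonneg m)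
    refine nb_mono _ _ _ (fun z => ?_) x
    have := ih z
    split_ifs <;> linarith

private theorem capb_al_mono (m : ℕ) (S T : Finset (Q m)) {a b : ℕ} (hab : a ≤ b)
    (x : Q m) : capbAl m S T a x ≤ capbAl m S T b x :=
  monotone_nat_of_le_succ (f := fun n => capbAl m S T n x)
    (fun n => capb_al_succ m S T n x) hab

/-- the decomposition -/
private theorem capb_last (m : ℕ) (hm : 1 ≤ m) (S T : Finset (Q m)) :
    ∀ n, 1 ≤ n → ∀ x, (nb (cubeE m))^[n] (fun z => if z ∈ T then 1 else 0) x / (m : ℝ) ^ n ≤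
      capbAl m S T n x + ∑ k ∈ range n, (nb (cubeE m))^[k + 1]
      (fun z => if z ∈ S then capbAl m S T (n - 1 - k) z else 0) x / (m : ℝ) ^ (k + 1) := by
  have hm0 : (0 : ℝ) < m := by
    have : 0 < m := by omega
    exact_mod_cast this
  have hterm0 : ∀ n k x, 0 ≤ (nb (cubeE m))^[k + 1]
      (fun z => if z ∈ S then capbAl m S T (n - 1 - k) z else 0) x / (m : ℝ) ^ (k + 1) := by
    intro n k x
    refine div_nonneg (nb_iter_nonneg _ _ _ (fun z => ?_) x) (pow_pos hm0 _).le
    split_ifs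
    · exact capb_al_nonneg m S T _ z
    · exact le_rfl
  intro n hn
  induction n, hn using Nat.le_induction with
  | base =>
    intro x
    have h1 : capbAl m S T 1 x = nb (cubeE m) (fun z => (if z ∈ T then 1 else 0) +
      if z ∈ S ∪ T then 0 else capbAl m S T 0 z) x / m := rfl
    have h2 : (nb (cubeE m))^[1] (fun z => if z ∈ T then 1 else 0) x / (m : ℝ) ^ 1 ≤
        capbAl m S T 1 x := by
      rw [h1, Function.iterate_one, pow_one]
      refine div_le_div_of_nonneg_right (nb_mono _ _ _ (fun z => ?_) x) hm0.le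
      have : capbAl m S T 0 z = 0 := rfl
      rw [this]
      split_ifs <;> norm_num
    have h3 : 0 ≤ ∑ k ∈ range 1, (nb (cubeE m))^[k + 1]
      (fun z => if z ∈ S then capbAl m S T (1 - 1 - k) z else 0) x / (m : ℝ) ^ (k + 1) :=
      Finset.sum_nonneg (fun k _ => hterm0 1 k x)
    linarith
  | succ n hn ih =>
    intro x
    have h1 : ∀ y, (nb (cubeE m))^[n] (fun z => if z ∈ T then 1 else 0) y / (m : ℝ) ^ n ≤
        (((if y ∈ T then 1 else 0) + if y ∈ S ∪ T then 0 else capbAl m S T n y) +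
          (if y ∈ S then capbAl m S T n y else 0)) + ∑ k ∈ range n, (nb (cubeE m))^[k + 1]
      (fun z => if z ∈ S then capbAl m S T (n - 1 - k) z else 0) y / (m : ℝ) ^ (k + 1) := by
      intro y
      have hs0 : 0 ≤ ∑ k ∈ range n, (nb (cubeE m))^[k + 1]
        (fun z => if z ∈ S then capbAl m S T (n - 1 - k) z else 0) y / (m : ℝ) ^ (k + 1) :=
        Finset.sum_nonneg (fun k _ => hterm0 n k y)
      have hal := capb_al_nonneg m S T n y
      by_cases hy : y ∈ T
      · have h2 := nb_iter_le m n (cubeE m) subset_rfl (fun z => if z ∈ T then 1 else 0) 1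
          zero_le_one (fun z => by split_ifs <;> norm_num) y
        have h3 : (nb (cubeE m))^[n] (fun z => if z ∈ T then 1 else 0) y / (m : ℝ) ^ n ≤ 1 := by
          rw [div_le_one (pow_pos hm0 n)]
          linarith
        have h4 : y ∈ S ∪ T := Finset.mem_union_right _ hy
        rw [if_pos hy, if_pos h4]
        split_ifs <;> linarith
      · have h2 := ih y
        by_cases hyS : y ∈ S
        · have h4 : y ∈ S ∪ T := Finset.mem_union_left _ hyS
          rw [if_neg hy, if_pos h4, if_pos hyS]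
          linarith
        · have h4 : y ∉ S ∪ T := fun h => by
            rcases Finset.mem_union.mp h with h | h
            · exact hyS h
            · exact hy h
          rw [if_neg hy, if_neg h4, if_neg hyS]
          linarith
    have h2 : (nb (cubeE m))^[n + 1] (fun z => if z ∈ T then 1 else 0) x / (m : ℝ) ^ (n + 1) =
        nb (cubeE m) (fun y => (nb (cubeE m))^[n] (fun z => if z ∈ T then 1 else 0) y /
          (m : ℝ) ^ n) x / m := by
      rw [capb_nb_div, Function.iterate_succ_apply', div_div, pow_succ]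
    rw [h2]
    have h3 := nb_mono (cubeE m) _ _ h1 x
    rw [capb_nb_add, capb_nb_add, capb_nb_sum] at h3
    have h4 : capbAl m S T (n + 1) x = nb (cubeE m) (fun z => (if z ∈ T then 1 else 0) +
      if z ∈ S ∪ T then 0 else capbAl m S T n z) x / m := rfl
    rw [h4, Finset.sum_range_succ']
    have h5 : ∀ k, n + 1 - 1 - (k + 1) = n - 1 - k := fun k => by omega
    have h6 : ∀ k ∈ range n, nb (cubeE m) (fun y => (nb (cubeE m))^[k + 1]
        (fun z => if z ∈ S then capbAl m S T (n - 1 - k) z else 0) y / (m : ℝ) ^ (k + 1)) x / m =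
        (nb (cubeE m))^[k + 1 + 1]
        (fun z => if z ∈ S then capbAl m S T (n + 1 - 1 - (k + 1)) z else 0) x /
          (m : ℝ) ^ (k + 1 + 1) := by
      intro k _
      rw [h5, capb_nb_div, ← Function.iterate_succ_apply' (nb (cubeE m)) (k + 1), div_div,
        ← pow_succ]
    rw [← Finset.sum_congr rfl h6, ← Finset.sum_div]
    have h7 : (nb (cubeE m))^[0 + 1]
        (fun z => if z ∈ S then capbAl m S T (n + 1 - 1 - 0) z else 0) x / (m : ℝ) ^ (0 + 1) =
        nb (cubeE m) (fun z => if z ∈ S then capbAl m S T n z else 0) x / m := by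
      simp
    rw [h7, ← add_div, ← add_div]
    refine div_le_div_of_nonneg_right ?_ hm0.le
    linarith

/-- the terms of the decomposition, summed over `S` -/
private theorem capb_term (m : ℕ) (S : Finset (Q m)) (K : ℕ) (h : Q m → ℝ) :
    ∑ s ∈ S, (nb (cubeE m))^[K] (fun z => if z ∈ S then h z else 0) s =
      ∑ y ∈ S, h y * ∑ s ∈ S, wk (cubeE m) K y s := by
  have h1 : ∀ s, (nb (cubeE m))^[K] (fun z => if z ∈ S then h z else 0) s =
      ∑ y ∈ S, wk (cubeE m) K s y * h y := by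
    intro s
    rw [nb_iter_eq, ← Finset.sum_filter_add_sum_filter_not univ (fun y => y ∈ S)]
    have e1 : ∑ y ∈ univ.filter (fun y => ¬ y ∈ S), wk (cubeE m) K s y *
        (if y ∈ S then h y else 0) = 0 := by
      refine Finset.sum_eq_zero (fun y hy => ?_)
      rw [if_neg (Finset.mem_filter.mp hy).2, mul_zero]
    rw [e1, add_zero, Finset.filter_mem_eq_inter, Finset.univ_inter]
    refine Finset.sum_congr rfl (fun y hy => ?_)
    rw [if_pos hy]
  rw [Finset.sum_congr rfl (fun s _ => h1 s), Finset.sum_comm]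
  refine Finset.sum_congr rfl (fun y _ => ?_)
  rw [Finset.mul_sum]
  refine Finset.sum_congr rfl (fun s _ => ?_)
  rw [wk_comm, mul_comm]

/-- the sum over `S` is at most `(n+1)` times the sum of `al n` -/
private theorem capb_sum (m : ℕ) (hm : 1 ≤ m) (S T : Finset (Q m)) (n : ℕ) (hn : 1 ≤ n) :
    ∑ s ∈ S, ∑ t ∈ T, wk (cubeE m) n s t / (m : ℝ) ^ n ≤
      ((n : ℝ) + 1) * ∑ s ∈ S, capbAl m S T n s := by
  have hm0 : (0 : ℝ) < m := by
    have : 0 < m := by omega
    exact_mod_cast this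
  have h1 : ∀ s, ∑ t ∈ T, wk (cubeE m) n s t / (m : ℝ) ^ n =
      (nb (cubeE m))^[n] (fun z => if z ∈ T then 1 else 0) s / (m : ℝ) ^ n := by
    intro s
    rw [nb_iter_eq, ← Finset.sum_div]
    congr 1
    simp [Finset.sum_ite_mem]
  rw [Finset.sum_congr rfl (fun s _ => h1 s)]
  refine (Finset.sum_le_sum (fun s _ => capb_last m hm S T n hn s)).trans ?_
  rw [Finset.sum_add_distrib, Finset.sum_comm]
  have h2 : ∀ k ∈ range n, ∑ s ∈ S, (nb (cubeE m))^[k + 1]
      (fun z => if z ∈ S then capbAl m S T (n - 1 - k) z else 0) s / (m : ℝ) ^ (k + 1) ≤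
      ∑ s ∈ S, capbAl m S T n s := by
    intro k _
    rw [← Finset.sum_div, capb_term, div_le_iff₀ (pow_pos hm0 _), Finset.sum_mul]
    refine Finset.sum_le_sum (fun y _ => ?_)
    have e1 : capbAl m S T (n - 1 - k) y ≤ capbAl m S T n y := capb_al_mono m S T (by omega) y
    have e2 : ∑ s ∈ S, wk (cubeE m) (k + 1) y s ≤ (m : ℝ) ^ (k + 1) := by
      rw [← wk_cube_sum m (k + 1) y]
      exact Finset.sum_le_sum_of_subset_of_nonneg (Finset.subset_univ _)
        (fun s _ _ => wk_nonneg _ _ _ _)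
    exact mul_le_mul e1 e2 (Finset.sum_nonneg (fun s _ => wk_nonneg _ _ _ _))
      (capb_al_nonneg m S T _ y)
  have h3 := Finset.sum_le_sum h2
  rw [Finset.sum_const, Finset.card_range, nsmul_eq_mul] at h3
  linarith

private theorem capb_gT (m : ℕ) (T : Finset (Q m)) (y : Q m) :
    nb (cubeE m) (fun z => if z ∈ T then 1 else 0) y = gT T y := by
  classical
  rw [capb_nb_ite]
  unfold gT
  rw [Finset.natCast_card_filter]
  rw [← Finset.sum_subset (Finset.subset_univ T) (fun z _ hz => by simp [hz])]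
  refine Finset.sum_congr rfl (fun z hz => ?_)
  by_cases h : s(y, z) ∈ cubeE m
  · rw [if_pos h, if_pos h, if_pos hz]
  · rw [if_neg h, if_neg h]

private theorem capb_step (m : ℕ) (S T : Finset (Q m)) (n : ℕ) (x : Q m) :
    capbAl m S T (n + 1) x = gT T x / m +
      nb (cubeE m) (fun z => if z ∈ S ∪ T then 0 else capbAl m S T n z) x / m := by
  have h4 : capbAl m S T (n + 1) x = nb (cubeE m) (fun z => (if z ∈ T then 1 else 0) +
      if z ∈ S ∪ T then 0 else capbAl m S T n z) x / m := rfl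
  rw [h4, capb_nb_add, capb_gT, add_div]

private theorem capb_walk (m : ℕ) (S T : Finset (Q m)) :
    ∀ n, ∀ y ∉ S ∪ T, capbAl m S T n y =
      ∑ i ∈ range n, (nb (offE (cubeE m) (S ∪ T)))^[i] (gT T) y / (m : ℝ) ^ (i + 1) := by
  classical
  intro n
  induction n with
  | zero => intro y _; simp [capbAl]
  | succ n ih =>
    intro y hy
    have hmem : ∀ z, s(y, z) ∈ offE (cubeE m) (S ∪ T) ↔ s(y, z) ∈ cubeE m ∧ z ∉ S ∪ T := by
      intro z
      rw [capb_off_mem]
      simp only [Sym2.mem_iff, forall_eq_or_imp, forall_eq]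
      exact ⟨fun h => ⟨h.1, h.2.2⟩, fun h => ⟨h.1, hy, h.2⟩⟩
    have h1 : nb (cubeE m) (fun z => if z ∈ S ∪ T then 0 else capbAl m S T n z) y =
        nb (offE (cubeE m) (S ∪ T)) (fun z => ∑ i ∈ range n,
          (nb (offE (cubeE m) (S ∪ T)))^[i] (gT T) z / (m : ℝ) ^ (i + 1)) y := by
      rw [capb_nb_ite, capb_nb_ite]
      refine Finset.sum_congr rfl (fun z _ => ?_)
      by_cases hz1 : s(y, z) ∈ cubeE m
      · by_cases hz2 : z ∈ S ∪ T
        · have hno : ¬ s(y, z) ∈ offE (cubeE m) (S ∪ T) := fun h => ((hmem z).mp h).2 hz2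
          rw [if_pos hz1, if_pos hz2, if_neg hno]
        · have hyes : s(y, z) ∈ offE (cubeE m) (S ∪ T) := (hmem z).mpr ⟨hz1, hz2⟩
          rw [if_pos hz1, if_neg hz2, if_pos hyes, ih z hz2]
      · have hno : ¬ s(y, z) ∈ offE (cubeE m) (S ∪ T) := fun h => hz1 ((hmem z).mp h).1
        rw [if_neg hz1, if_neg hno]
    rw [capb_step, h1, capb_nb_sum, Finset.sum_range_succ', Finset.sum_div, add_comm]
    congr 1
    · refine Finset.sum_congr rfl (fun i _ => ?_)
      rw [capb_nb_div, ← Function.iterate_succ_apply' (nb (offE (cubeE m) (S ∪ T))) i, div_div,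
        ← pow_succ]
    · simp

theorem b_capb (m : ℕ) (hm : 8 ≤ m) (S T : Finset (Q m)) (hST : Disjoint S T) :
    (S.card : ℝ) * T.card / 2 ^ m ≤ 2 * ((TT m : ℝ) + 2) * (∑ s ∈ S, gT T s / m +
      ∑ i ∈ range (TT m), ∑ s ∈ S, nb (cubeE m) (fun y => if y ∈ S ∪ T then 0 else
        (nb (offE (cubeE m) (S ∪ T)))^[i] (gT T) y) s / (m : ℝ) ^ (i + 2)) := by
  have hm0 : (0 : ℝ) < m := by
    have : 0 < m := by omega
    exact_mod_cast this
  have hTT : 1 ≤ TT m := by
    unfold TT
    rw [Nat.one_le_ceil_iff]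
    refine mul_pos hm0 (Real.log_pos ?_)
    have : (8 : ℝ) ≤ m := by exact_mod_cast hm
    linarith
  set A : ℝ := ∑ s ∈ S, capbAl m S T (TT m + 1) s with hA
  -- the bracket
  have hbr : ∑ s ∈ S, gT T s / m +
      ∑ i ∈ range (TT m), ∑ s ∈ S, nb (cubeE m) (fun y => if y ∈ S ∪ T then 0 else
        (nb (offE (cubeE m) (S ∪ T)))^[i] (gT T) y) s / (m : ℝ) ^ (i + 2) = A := by
    rw [hA, Finset.sum_comm, ← Finset.sum_add_distrib]
    refine Finset.sum_congr rfl (fun s _ => ?_)
    rw [capb_step]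
    congr 1
    have h1 : (fun z => if z ∈ S ∪ T then 0 else capbAl m S T (TT m) z) =
        fun z => ∑ i ∈ range (TT m), (if z ∈ S ∪ T then 0 else
          (nb (offE (cubeE m) (S ∪ T)))^[i] (gT T) z) / (m : ℝ) ^ (i + 1) := by
      funext z
      split_ifs with hz
      · simp
      · exact capb_walk m S T (TT m) z hz
    rw [h1, capb_nb_sum, Finset.sum_div]
    refine Finset.sum_congr rfl (fun i _ => ?_)
    rw [capb_nb_div, div_div, ← pow_succ]
  rw [hbr]
  have h1 := capb_sum m (by omega) S T (TT m) hTT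
  have h2 := capb_sum m (by omega) S T (TT m + 1) (by omega)
  have h3 : ∑ s ∈ S, capbAl m S T (TT m) s ≤ A :=
    Finset.sum_le_sum (fun s _ => capb_al_succ m S T (TT m) s)
  have h4 : (S.card : ℝ) * T.card ≤ 2 ^ m * (∑ s ∈ S, ∑ t ∈ T,
      wk (cubeE m) (TT m) s t / (m : ℝ) ^ (TT m) +
      ∑ s ∈ S, ∑ t ∈ T, wk (cubeE m) (TT m + 1) s t / (m : ℝ) ^ (TT m + 1)) := by
    rw [← Finset.sum_add_distrib, Finset.mul_sum]
    have e1 : (S.card : ℝ) * T.card = ∑ s ∈ S, ∑ t ∈ T, (1 : ℝ) := by simp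
    rw [e1]
    refine Finset.sum_le_sum (fun s _ => ?_)
    rw [← Finset.sum_add_distrib, Finset.mul_sum]
    exact Finset.sum_le_sum (fun t _ => four_lower m hm (TT m) le_rfl s t)
  have hTn : (0 : ℝ) ≤ TT m := Nat.cast_nonneg _
  have hA0 : 0 ≤ A := Finset.sum_nonneg (fun s _ => capb_al_nonneg m S T _ s)
  have h5 : ∑ s ∈ S, ∑ t ∈ T, wk (cubeE m) (TT m) s t / (m : ℝ) ^ (TT m) +
      ∑ s ∈ S, ∑ t ∈ T, wk (cubeE m) (TT m + 1) s t / (m : ℝ) ^ (TT m + 1) ≤
      2 * ((TT m : ℝ) + 2) * A := by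
    have e2 : ((TT m : ℝ) + 1) * ∑ s ∈ S, capbAl m S T (TT m) s ≤ ((TT m : ℝ) + 1) * A :=
      mul_le_mul_of_nonneg_left h3 (by positivity)
    push_cast at h2
    have e3 : ((TT m : ℝ) + 1 + 1) * ∑ s ∈ S, capbAl m S T (TT m + 1) s =
        ((TT m : ℝ) + 2) * A := by rw [hA]; ring
    rw [e3] at h2
    nlinarith
  have h2m : (0 : ℝ) < 2 ^ m := by positivity
  rw [div_le_iff₀ h2m]
  calc (S.card : ℝ) * T.card ≤ _ := h4
    _ ≤ 2 ^ m * (2 * ((TT m : ℝ) + 2) * A) := mul_le_mul_of_nonneg_left h5 h2m.le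
    _ = 2 * ((TT m : ℝ) + 2) * A * 2 ^ m := by ring

end Pool.Agent.Work.MP_b7dc8a_pr
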