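import Pool.Agent.Work.MP_b7dc8a_pr.B.Mark

/-! Module CHIW (M): adding back an obstacle `D`.

`y ∉ D`. For `ω ⊆ E` let `A = cls (ω ∩ offE E D) {y}` (disjoint from `D`). As in OBST, every vertex of
`cl ω y \ A` lies in `cl (ω ∩ offE E A) b` for some edge `s(a,b) ∈ ω`, `a ∈ A`, `b ∈ D` (last visit of
a path to `A`). So `|cl ω y| <= |A| + ∑_{a ∈ A} ∑_{b ∈ D, s(a,b) ∈ ω} |cl (ω ∩ offE E A) b|`. Take
expectations with `b_mark` (`E' = offE E D`, `S = {y}`; `s(a,b)` touches `A`, so it is in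
`ω \ offE E A`), `chi (offE E A) p b <= chi E p b <= X`:
`chi E p y <= chi (offE E D) p y + X ∑_{a ∉ D} ∑_{b ∈ D} Ex [ind (a ∈ A) ind (s(a,b) ∈ ω)]`, and the
edge `s(a,b)` is not in `offE E D`, so it is independent of `A` (`Ex_mul_indep`):
`Ex [ind (a ∈ A) ind (s(a,b) ∈ ω)] = tau (offE E D) p y a * p` if `s(a,b) ∈ E` and `0` otherwise. -/

namespace Pool.Agent.Work.MP_b7dc8a_pr

open Finset

section CHIW
variable {V : Type} [Fintype V] [DecidableEq V]

private theorem chiw_edge {α : Type} [DecidableEq α] (E : Finset α) (p : ℝ) (e : α) (he : e ∈ E) :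
    Ex E p (fun ω => ind (e ∈ ω)) = p := by
  have h1 : Ex E p (fun ω => ind (e ∈ ω)) = Ex E p (fun ω => (fun ω' => ind (e ∈ ω')) (ω ∩ {e})) := by
    refine Ex_congr _ _ _ _ fun ω _ => ?_
    simp
  rw [h1, Ex_restrict E {e} (singleton_subset_iff.2 he) p (fun ω' => ind (e ∈ ω')),
    ← insert_empty_eq e, Ex_insert e ∅ (notMem_empty e), Ex_empty, Ex_empty]
  simp [ind]

/-- the cluster of `y` outside `D`, its outer edges to `D`, and what hangs there -/
private noncomputable def chH (D : Finset V) (A : Finset V) (ω₁ η : Finset (Sym2 V)) : ℝ :=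
  ∑ a ∈ A, ∑ b ∈ D, ind (s(a, b) ∈ ω₁) * ((cl η b).card : ℝ)

private theorem chiw_point (E ω : Finset (Sym2 V)) (hω : ω ⊆ E) (D : Finset V) (y : V)
    (hy : y ∉ D) (A : Finset V) (hA : A = cls (ω ∩ offE E D) {y}) :
    ((cl ω y).card : ℝ) ≤ (A.card : ℝ) + chH D A (ω \ offE E A) (ω ∩ offE E A) := by
  classical
  have hAD : Disjoint A D := by
    rw [hA, cls_singleton]
    exact xb_cl_off' E _ D inter_subset_right y hy
  have hsub : cl ω y ⊆ A ∪ A.biUnion (fun a => (D.filter fun b => s(a, b) ∈ ω \ offE E A).biUnion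
      fun b => cl (ω ∩ offE E A) b) := by
    intro v hv
    rw [clb_mem_cl] at hv
    refine clb_closed ω {v | v ∈ A ∪ A.biUnion (fun a =>
      (D.filter fun b => s(a, b) ∈ ω \ offE E A).biUnion fun b => cl (ω ∩ offE E A) b)}
      (fun v hv w hvw => ?_) y v ?_ hv
    · rw [Set.mem_ofPred_eq] at hv ⊢
      by_cases hwA : w ∈ A
      · exact mem_union_left _ hwA
      by_cases hvA : v ∈ A
      · have hnot : s(v, w) ∉ offE E D := by
          intro h
          refine hwA ?_
          rw [hA] at hvA ⊢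
          exact xb_cls_closed _ _ v w hvA (mem_inter.2 ⟨hvw, h⟩)
        have hwD : w ∈ D := by
          by_contra hwD
          exact hnot ((xb_mem_offE E D v w).2
            ⟨hω hvw, Finset.disjoint_left.1 hAD hvA, hwD⟩)
        refine mem_union_right _ (mem_biUnion.2 ⟨v, hvA, mem_biUnion.2 ⟨w, ?_, mem_cl_self _ w⟩⟩)
        rw [mem_filter]
        refine ⟨hwD, mem_sdiff.2 ⟨hvw, fun h => ?_⟩⟩
        exact ((xb_mem_offE E A v w).1 h).2.1 hvA
      · rcases mem_union.1 hv with hv | hv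
        · exact absurd hv hvA
        · obtain ⟨a, ha, hv⟩ := mem_biUnion.1 hv
          obtain ⟨b, hb, hv⟩ := mem_biUnion.1 hv
          refine mem_union_right _ (mem_biUnion.2 ⟨a, ha, mem_biUnion.2 ⟨b, hb, ?_⟩⟩)
          refine cl_closed _ b v w hv (mem_inter.2 ⟨hvw, ?_⟩)
          exact (xb_mem_offE E A v w).2 ⟨hω hvw, hvA, hwA⟩
    · rw [Set.mem_ofPred_eq, hA]
      exact mem_union_left _ (subset_cls _ _ (mem_singleton_self y))
  have h1 := (card_le_card hsub).trans (card_union_le _ _)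
  have h2 : (A.biUnion (fun a => (D.filter fun b => s(a, b) ∈ ω \ offE E A).biUnion
      fun b => cl (ω ∩ offE E A) b)).card ≤ ∑ a ∈ A, ∑ b ∈ D.filter (fun b =>
        s(a, b) ∈ ω \ offE E A), (cl (ω ∩ offE E A) b).card :=
    card_biUnion_le.trans (Finset.sum_le_sum fun a _ => card_biUnion_le)
  have h3 : ((∑ a ∈ A, ∑ b ∈ D.filter (fun b => s(a, b) ∈ ω \ offE E A),
      (cl (ω ∩ offE E A) b).card : ℕ) : ℝ) = chH D A (ω \ offE E A) (ω ∩ offE E A) := by
    unfold chH ind
    push_cast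
    refine Finset.sum_congr rfl fun a _ => ?_
    rw [Finset.sum_filter]
    refine Finset.sum_congr rfl fun b _ => ?_
    split_ifs <;> simp
  rw [← h3]
  exact_mod_cast h1.trans (Nat.add_le_add_left h2 _)

open Classical in
theorem b_chiw (E : Finset (Sym2 V)) (p : ℝ) (h0 : 0 ≤ p) (h1 : p ≤ 1) (X : ℝ)
    (hX : ∀ b, chi E p b ≤ X) (D : Finset V) (y : V) (hy : y ∉ D) :
    chi E p y ≤ chi (offE E D) p y + X * p * ∑ a ∈ univ.filter (fun a => a ∉ D),
      ∑ b ∈ D.filter (fun b => s(a, b) ∈ E), tau (offE E D) p y a := by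
  have hoff := xb_offE_subset E D
  -- step 1: the pointwise bound
  have s1 : chi E p y ≤ Ex E p (fun ω => ((cls (ω ∩ offE E D) {y}).card : ℝ)) +
      Ex E p (fun ω => chH D (cls (ω ∩ offE E D) {y}) (ω \ offE E (cls (ω ∩ offE E D) {y}))
        (ω ∩ offE E (cls (ω ∩ offE E D) {y}))) := by
    rw [← Ex_add]
    exact Ex_mono E p h0 h1 _ _ fun ω hω => chiw_point E ω hω D y hy _ rfl
  have s2 : Ex E p (fun ω => ((cls (ω ∩ offE E D) {y}).card : ℝ)) = chi (offE E D) p y := by
    have := Ex_restrict E (offE E D) hoff p (fun ω => ((cls ω {y}).card : ℝ))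
    rw [this]
    unfold chi
    simp only [cls_singleton]
  rw [b_mark E (offE E D) hoff {y} p (chH D), s2] at s1
  refine s1.trans (add_le_add_right ?_ _)
  -- step 2: bound the inner expectation
  have s3 : Ex E p (fun ω => Ex (offE E (cls (ω ∩ offE E D) {y})) p (fun η =>
      chH D (cls (ω ∩ offE E D) {y}) (ω \ offE E (cls (ω ∩ offE E D) {y})) η)) ≤
      Ex E p (fun ω => ∑ a, ∑ b ∈ D, X * (ind (a ∈ cls (ω ∩ offE E D) {y}) * ind (s(a, b) ∈ ω))) := by
    refine Ex_mono E p h0 h1 _ _ fun ω hω => ?_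
    set A := cls (ω ∩ offE E D) {y} with hA
    have e1 : Ex (offE E A) p (fun η => chH D A (ω \ offE E A) η) =
        ∑ a ∈ A, ∑ b ∈ D, ind (s(a, b) ∈ ω \ offE E A) * chi (offE E A) p b := by
      unfold chH
      rw [Ex_sum]
      refine Finset.sum_congr rfl fun a _ => ?_
      rw [Ex_sum]
      refine Finset.sum_congr rfl fun b _ => ?_
      rw [Ex_mul_left]
      rfl
    rw [e1]
    have e2 : ∑ a, ∑ b ∈ D, X * (ind (a ∈ A) * ind (s(a, b) ∈ ω)) =
        ∑ a ∈ A, ∑ b ∈ D, X * ind (s(a, b) ∈ ω) := by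
      rw [← Finset.sum_subset (subset_univ A)]
      · refine Finset.sum_congr rfl fun a ha => Finset.sum_congr rfl fun b _ => ?_
        rw [show ind (a ∈ A) = 1 by rw [ind, if_pos ha], one_mul]
      · intro a _ ha
        refine Finset.sum_eq_zero fun b _ => ?_
        rw [show ind (a ∈ A) = 0 by rw [ind, if_neg ha], zero_mul, mul_zero]
    rw [e2]
    refine Finset.sum_le_sum fun a _ => Finset.sum_le_sum fun b _ => ?_
    rw [mul_comm]
    refine mul_le_mul ?_ (xb_ind_mono fun h => (mem_sdiff.1 h).1) (xb_ind_nonneg _)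
      ((zero_le_one.trans (xb_chi_ge_one E p h0 h1 b)).trans (hX b))
    exact (xb_chi_mono_E E (offE E A) (xb_offE_subset E A) p h0 h1 b).trans (hX b)
  refine s3.trans (le_of_eq ?_)
  -- step 3: independence
  rw [Ex_sum, mul_assoc, Finset.mul_sum, Finset.mul_sum]
  rw [← Finset.sum_filter_add_sum_filter_not univ (fun a => a ∉ D)]
  have z1 : ∑ a ∈ univ.filter (fun a => ¬ a ∉ D), Ex E p (fun ω => ∑ b ∈ D,
      X * (ind (a ∈ cls (ω ∩ offE E D) {y}) * ind (s(a, b) ∈ ω))) = 0 := by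
    refine Finset.sum_eq_zero fun a ha => ?_
    rw [mem_filter, not_not] at ha
    rw [← Ex_const E p 0]
    refine Ex_congr _ _ _ _ fun ω _ => Finset.sum_eq_zero fun b _ => ?_
    have : a ∉ cls (ω ∩ offE E D) {y} := by
      rw [cls_singleton]
      exact fun h => Finset.disjoint_left.1 (xb_cl_off' E _ D inter_subset_right y hy) h ha.2
    rw [show ind (a ∈ cls (ω ∩ offE E D) {y}) = 0 by rw [ind, if_neg this], zero_mul, mul_zero]
  rw [z1, add_zero]
  refine Finset.sum_congr rfl fun a ha => ?_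
  rw [mem_filter] at ha
  rw [Ex_sum, Finset.sum_filter, Finset.mul_sum, Finset.mul_sum]
  refine Finset.sum_congr rfl fun b hb => ?_
  rw [Ex_mul_left]
  by_cases he : s(a, b) ∈ E
  · rw [if_pos he]
    congr 1
    have hdis : Disjoint (offE E D) {s(a, b)} := by
      rw [disjoint_singleton_right]
      exact fun h => ((xb_mem_offE E D a b).1 h).2.2 hb
    rw [Ex_mul_indep E (offE E D) {s(a, b)} hdis p
      (fun ω => ind (a ∈ cls (ω ∩ offE E D) {y})) (fun ω => ind (s(a, b) ∈ ω))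
      (fun ω _ => by simp only [inter_assoc, inter_self])
      (fun ω _ => by simp), chiw_edge E p _ he, mul_comm]
    congr 1
    have := Ex_restrict E (offE E D) hoff p (fun ω => ind (a ∈ cls ω {y}))
    rw [this]
    unfold tau
    simp only [cls_singleton]
  · rw [if_neg he]
    have : Ex E p (fun ω => ind (a ∈ cls (ω ∩ offE E D) {y}) * ind (s(a, b) ∈ ω)) = 0 := by
      rw [← Ex_const E p 0]
      refine Ex_congr _ _ _ _ fun ω hω => ?_
      rw [show ind (s(a, b) ∈ ω) = 0 by rw [ind, if_neg fun h => he (hω h)], mul_zero]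
    rw [this]
    ring

end CHIW

end Pool.Agent.Work.MP_b7dc8a_pr
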