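import Pool.Agent.Work.MP_b7dc8a_pr.B.Mark

/-! Module OBST (M): obstacles and the tree graph inequality without BK.

`Θ` is a monotone, subadditive, nonnegative function of finsets of vertices.

`b_obst`: for `z ∉ D`: `wt E Θ z <= wt (offE E D) Θ z + ∑ d in D, tau E z d * wt E Θ d`.
Proof. For `ω ⊆ E` let `A = cls (ω ∩ offE E D) {z}` (cluster of `z` outside `D`; `A` is disjoint
from `D`, `xb_cl_off'`). Every vertex `u` of `cl ω z` is in `A` or in `cl (ω ∩ offE E A) d` for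
some `d ∈ D` which has an edge `s(a,d) ∈ ω` with `a ∈ A` (take a path from `z` to `u`, its last
vertex `a` in `A`, the next vertex `d`: the edge `s(a,d)` leaves `A`, so it is not in `offE E D`
and `d ∈ D`; the rest of the path avoids `A`. In Lean: show with `clb_closed` that the set
`A ∪ ⋃_{d ∈ D, ∃ a ∈ A, s(a,d) ∈ ω} cl (ω ∩ offE E A) d` is closed under `ω`: an edge `s(u,v) ∈ ω`
with `u` in one of the clusters `cl (ω ∩ offE E A) d` and `v ∉ A`, `u ∉ A` stays in it; with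
`u ∈ A`, `v ∉ A` we get `v ∈ D` and `v ∈ cl (..) v`). So
`Θ (cl ω z) <= Θ A + ∑ d ∈ D, ind (∃ a ∈ A, s(a,d) ∈ ω) * Θ (cl (ω ∩ offE E A) d)`.
Take expectations with `b_mark` (`E' = offE E D`, `S = {z}`,
`H A ω1 ω2 = ∑ d ∈ D, ind (∃ a ∈ A, s(a,d) ∈ ω1) * Θ (cl ω2 d)`; the edges `s(a,d)` touch `A`, so
`s(a,d) ∈ ω <-> s(a,d) ∈ ω \ offE E A`): the second term becomes
`∑ d, Ex [ind (∃ a ∈ A, s(a,d) ∈ ω) * wt (offE E A) Θ d]`, and `wt (offE E A) Θ d <= wt E Θ d`,
`ind (∃ a ∈ A, s(a,d) ∈ ω) <= ind (d ∈ cl ω z)`. The first term is `wt (offE E D) Θ z`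
(`Ex_restrict`).

`b_pair`: `Ex [Θ (cl z) ind (z' ∈ cl z)] <= ∑ d, tau z d * tau z' d * wt Θ d`.
Proof. Let `A = cl ω z'`. By `b_mark_cl` (explore `A`, note `z ∉ A` iff `z' ∉ cl ω z`, and then
`cl ω z = cl (ω ∩ offE E A) z`, `xb_cl_outside`)
`Ex [Θ (cl z) ind (z' ∉ cl z)] = Ex [ind (z ∉ A) * wt (offE E A) Θ z]
  >= Ex [ind (z ∉ A) (wt Θ z - ∑ d ∈ A, tau z d * wt Θ d)]` by `b_obst`.
Hence `Ex [Θ (cl z) ind (z' ∈ cl z)] = wt Θ z - Ex [Θ (cl z) ind (z' ∉ cl z)]
 <= Ex [ind (z ∈ A) wt Θ z + ind (z ∉ A) ∑ d ∈ A, tau z d * wt Θ d] <= Ex [∑ d ∈ A, tau z d wt Θ d]`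
(if `z ∈ A` the term `d = z` is `tau z z * wt Θ z = wt Θ z`), which is the right side.

`b_second`: `Ex |cl z|^2 <= X^3` if `chi <= X` everywhere: sum `b_pair` for `Θ = card` over `z'`. -/

namespace Pool.Agent.Work.MP_b7dc8a_pr

open Finset

section OBST
variable {V : Type} [Fintype V] [DecidableEq V]

omit [Fintype V] in
private theorem obst_subadd (Θ : Finset V → ℝ) (hsub : ∀ A B, Θ (A ∪ B) ≤ Θ A + Θ B)
    (A : Finset V) (C : V → Finset V) (I : Finset V) :
    Θ (A ∪ I.biUnion C) ≤ Θ A + ∑ d ∈ I, Θ (C d) := by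
  induction I using Finset.induction_on with
  | empty => simp
  | insert d I hd ih =>
    rw [Finset.biUnion_insert, Finset.sum_insert hd]
    have h1 : A ∪ (C d ∪ I.biUnion C) = (A ∪ I.biUnion C) ∪ C d := by
      ext x
      simp only [Finset.mem_union]
      tauto
    rw [h1]
    have h2 := hsub (A ∪ I.biUnion C) (C d)
    linarith

/-- every vertex of the cluster of `z` is in `A` or beyond `D` -/
private theorem obst_cover (E : Finset (Sym2 V)) (D : Finset V) (z : V) (hz : z ∉ D)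
    (ω : Finset (Sym2 V)) (hω : ω ⊆ E) (A : Finset V) (hA : A = cls (ω ∩ offE E D) {z})
    (I : Finset V) (hI : ∀ d, d ∈ I ↔ d ∈ D ∧ ∃ a ∈ A, s(a, d) ∈ ω) :
    cl ω z ⊆ A ∪ I.biUnion (fun d => cl (ω ∩ offE E A) d) := by
  intro u hu
  rw [clb_mem_cl] at hu
  have hA' : A = cl (ω ∩ offE E D) z := by rw [hA, cls_singleton]
  have hzA : z ∈ A := by rw [hA']; exact mem_cl_self _ z
  have hdisj : Disjoint A D := by
    rw [hA']
    exact xb_cl_off' E _ D Finset.inter_subset_right z hz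
  have hcl := clb_closed ω (fun x => x ∈ A ∪ I.biUnion (fun d => cl (ω ∩ offE E A) d)) ?_ z u
    (Finset.mem_union_left _ hzA) hu
  · exact hcl
  · intro a ha b hab
    have ha' : a ∈ A ∪ I.biUnion (fun d => cl (ω ∩ offE E A) d) := ha
    show b ∈ A ∪ I.biUnion (fun d => cl (ω ∩ offE E A) d)
    by_cases hbA : b ∈ A
    · exact Finset.mem_union_left _ hbA
    · refine Finset.mem_union_right _ ?_
      rw [Finset.mem_biUnion]
      by_cases haA : a ∈ A
      · have hbD : b ∈ D := by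
          by_contra hbD
          have haD : a ∉ D := Finset.disjoint_left.mp hdisj haA
          have h1 : s(a, b) ∈ ω ∩ offE E D :=
            Finset.mem_inter.mpr ⟨hab, (xb_mem_offE E D a b).mpr ⟨hω hab, haD, hbD⟩⟩
          refine hbA ?_
          rw [hA'] at haA ⊢
          exact cl_closed _ z a b haA h1
        exact ⟨b, (hI b).mpr ⟨hbD, a, haA, hab⟩, mem_cl_self _ b⟩
      · have ha2 := (Finset.mem_union.mp ha').resolve_left haA
        rw [Finset.mem_biUnion] at ha2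
        obtain ⟨d, hd, had⟩ := ha2
        refine ⟨d, hd, cl_closed _ d a b had ?_⟩
        exact Finset.mem_inter.mpr ⟨hab, (xb_mem_offE E A a b).mpr ⟨hω hab, haA, hbA⟩⟩

theorem b_obst (E : Finset (Sym2 V)) (p : ℝ) (h0 : 0 ≤ p) (h1 : p ≤ 1) (Θ : Finset V → ℝ)
    (hmono : ∀ A B, A ⊆ B → Θ A ≤ Θ B) (hsub : ∀ A B, Θ (A ∪ B) ≤ Θ A + Θ B)
    (hnn : ∀ A, 0 ≤ Θ A) (D : Finset V) (z : V) (hz : z ∉ D) :
    wt E p Θ z ≤ wt (offE E D) p Θ z + ∑ d ∈ D, tau E p z d * wt E p Θ d := by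
  classical
  set E' := offE E D with hE'
  have hE'E : E' ⊆ E := xb_offE_subset E D
  set H : Finset V → Finset (Sym2 V) → Finset (Sym2 V) → ℝ := fun B ω1 ω2 =>
    ∑ d ∈ D, ind (∃ a ∈ B, s(a, d) ∈ ω1) * Θ (cl ω2 d) with hH
  have hstep1 : ∀ ω ⊆ E, Θ (cl ω z) ≤ Θ (cl (ω ∩ E') z) +
      H (cls (ω ∩ E') {z}) (ω \ offE E (cls (ω ∩ E') {z})) (ω ∩ offE E (cls (ω ∩ E') {z})) := by
    intro ω hω
    set A := cls (ω ∩ E') {z} with hA
    set I := D.filter (fun d => ∃ a ∈ A, s(a, d) ∈ ω) with hI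
    have hcov := obst_cover E D z hz ω hω A hA I (fun d => by rw [hI, Finset.mem_filter])
    have h2 := (hmono _ _ hcov).trans (obst_subadd Θ hsub A (fun d => cl (ω ∩ offE E A) d) I)
    have h3 : A = cl (ω ∩ E') z := by rw [hA, cls_singleton]
    have h4 : ∑ d ∈ I, Θ (cl (ω ∩ offE E A) d) = H A (ω \ offE E A) (ω ∩ offE E A) := by
      rw [hI, Finset.sum_filter, hH]
      refine Finset.sum_congr rfl (fun d _ => ?_)
      have h5 : (∃ a ∈ A, s(a, d) ∈ ω) ↔ ∃ a ∈ A, s(a, d) ∈ ω \ offE E A := by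
        constructor
        · rintro ⟨a, ha, had⟩
          refine ⟨a, ha, Finset.mem_sdiff.mpr ⟨had, fun h => ?_⟩⟩
          exact ((xb_mem_offE E A a d).mp h).2.1 ha
        · rintro ⟨a, ha, had⟩
          exact ⟨a, ha, (Finset.mem_sdiff.mp had).1⟩
      by_cases h6 : ∃ a ∈ A, s(a, d) ∈ ω
      · have h7 := h5.mp h6
        rw [if_pos h6]
        unfold ind
        rw [if_pos h7, one_mul]
      · have h7 : ¬ ∃ a ∈ A, s(a, d) ∈ ω \ offE E A := fun h => h6 (h5.mpr h)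
        rw [if_neg h6]
        unfold ind
        rw [if_neg h7, zero_mul]
    rw [h4] at h2
    rw [← h3]
    exact h2
  have hstep2 : wt E p Θ z ≤ Ex E p (fun ω => Θ (cl (ω ∩ E') z)) +
      Ex E p (fun ω => H (cls (ω ∩ E') {z}) (ω \ offE E (cls (ω ∩ E') {z}))
        (ω ∩ offE E (cls (ω ∩ E') {z}))) := by
    rw [← Ex_add]
    exact Ex_mono E p h0 h1 _ _ hstep1
  have hfirst : Ex E p (fun ω => Θ (cl (ω ∩ E') z)) = wt E' p Θ z :=
    Ex_restrict E E' hE'E p (fun ω => Θ (cl ω z))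
  have hsecond : Ex E p (fun ω => H (cls (ω ∩ E') {z}) (ω \ offE E (cls (ω ∩ E') {z}))
        (ω ∩ offE E (cls (ω ∩ E') {z}))) ≤ ∑ d ∈ D, tau E p z d * wt E p Θ d := by
    rw [b_mark E E' hE'E {z} p H]
    have h2 : ∀ ω ⊆ E, Ex (offE E (cls (ω ∩ E') {z})) p (fun η =>
        H (cls (ω ∩ E') {z}) (ω \ offE E (cls (ω ∩ E') {z})) η) ≤
        ∑ d ∈ D, wt E p Θ d * ind (d ∈ cl ω z) := by
      intro ω hω
      set A := cls (ω ∩ E') {z} with hA
      rw [hH]
      rw [Ex_sum]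
      refine Finset.sum_le_sum (fun d _ => ?_)
      rw [Ex_mul_left]
      have h3 : Ex (offE E A) p (fun η => Θ (cl η d)) ≤ wt E p Θ d :=
        xb_wt_mono_E E (offE E A) (xb_offE_subset E A) p h0 h1 Θ hmono d
      have h4 : ind (∃ a ∈ A, s(a, d) ∈ ω \ offE E A) ≤ ind (d ∈ cl ω z) := by
        refine xb_ind_mono ?_
        rintro ⟨a, ha, had⟩
        have h5 : A ⊆ cl ω z := by
          rw [hA, cls_singleton]
          exact cl_mono _ _ Finset.inter_subset_left z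
        exact cl_closed ω z a d (h5 ha) (Finset.mem_sdiff.mp had).1
      have h6 : 0 ≤ Ex (offE E A) p (fun η => Θ (cl η d)) :=
        xb_Ex_nonneg _ p h0 h1 _ (fun ω _ => hnn _)
      rw [mul_comm (wt E p Θ d)]
      exact mul_le_mul h4 h3 h6 (xb_ind_nonneg _)
    refine (Ex_mono E p h0 h1 _ _ h2).trans (le_of_eq ?_)
    rw [Ex_sum]
    refine Finset.sum_congr rfl (fun d _ => ?_)
    rw [Ex_mul_left, mul_comm]
    rfl
  rw [hfirst] at hstep2
  linarith

theorem b_pair (E : Finset (Sym2 V)) (p : ℝ) (h0 : 0 ≤ p) (h1 : p ≤ 1) (Θ : Finset V → ℝ)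
    (hmono : ∀ A B, A ⊆ B → Θ A ≤ Θ B) (hsub : ∀ A B, Θ (A ∪ B) ≤ Θ A + Θ B)
    (hnn : ∀ A, 0 ≤ Θ A) (z z' : V) :
    Ex E p (fun ω => Θ (cl ω z) * ind (z' ∈ cl ω z)) ≤
      ∑ d, tau E p z d * tau E p z' d * wt E p Θ d := by
  classical
  have hW0 : ∀ d, 0 ≤ wt E p Θ d := fun d => xb_Ex_nonneg _ p h0 h1 _ (fun ω _ => hnn _)
  set H : Finset V → Finset (Sym2 V) → Finset (Sym2 V) → ℝ := fun B _ ω2 =>
    ind (z ∉ B) * Θ (cl ω2 z) with hH
  -- the part where `z'` is not in the cluster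
  have hout : Ex E p (fun ω => Θ (cl ω z) * ind (z' ∉ cl ω z)) =
      Ex E p (fun ω => ind (z ∉ cl ω z') * wt (offE E (cl ω z')) p Θ z) := by
    have h2 : Ex E p (fun ω => Θ (cl ω z) * ind (z' ∉ cl ω z)) =
        Ex E p (fun ω => H (cl ω z') (ω \ offE E (cl ω z')) (ω ∩ offE E (cl ω z'))) := by
      refine Ex_congr E p _ _ (fun ω hω => ?_)
      simp only [hH]
      have h3 : z' ∉ cl ω z ↔ z ∉ cl ω z' := by rw [cl_symm]
      by_cases h4 : z ∈ cl ω z'
      · have h5 : ¬ z' ∉ cl ω z := fun h => (h3.mp h) h4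
        have h6 : ¬ z ∉ cl ω z' := fun h => h h4
        unfold ind
        rw [if_neg h5, if_neg h6, mul_zero, zero_mul]
      · have h5 := h3.mpr h4
        have h7 : z ∉ cls ω {z'} := by rw [cls_singleton]; exact h4
        have h8 := (xb_cl_outside E ω hω {z'} z h7).1
        rw [cls_singleton] at h8
        unfold ind
        rw [if_pos h5, if_pos h4, mul_one, one_mul, h8]
    rw [h2, b_mark_cl E z' p H]
    refine Ex_congr E p _ _ (fun ω _ => ?_)
    simp only [hH]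
    rw [Ex_mul_left]
    rfl
  have hpt : ∀ ω ⊆ E, wt E p Θ z - ind (z ∉ cl ω z') * wt (offE E (cl ω z')) p Θ z ≤
      ∑ d, tau E p z d * wt E p Θ d * ind (d ∈ cl ω z') := by
    intro ω _
    have hsum : ∑ d, tau E p z d * wt E p Θ d * ind (d ∈ cl ω z') =
        ∑ d ∈ cl ω z', tau E p z d * wt E p Θ d := by
      rw [← Finset.sum_subset (Finset.subset_univ (cl ω z'))
        (fun d _ hd => by unfold ind; rw [if_neg hd, mul_zero])]
      refine Finset.sum_congr rfl (fun d hd => ?_)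
      unfold ind
      rw [if_pos hd, mul_one]
    rw [hsum]
    by_cases h4 : z ∈ cl ω z'
    · have h6 : ¬ z ∉ cl ω z' := fun h => h h4
      have h7 : ind (z ∉ cl ω z') = 0 := by unfold ind; rw [if_neg h6]
      rw [h7, zero_mul, sub_zero]
      have h8 := Finset.single_le_sum (f := fun d => tau E p z d * wt E p Θ d)
        (fun d _ => mul_nonneg (xb_tau_nonneg E p h0 h1 z d) (hW0 d)) h4
      simp only [xb_tau_self, one_mul] at h8
      exact h8
    · have h7 : ind (z ∉ cl ω z') = 1 := by unfold ind; rw [if_pos h4]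
      rw [h7, one_mul]
      have h9 := b_obst E p h0 h1 Θ hmono hsub hnn (cl ω z') z h4
      linarith
  have hsplit : wt E p Θ z = Ex E p (fun ω => Θ (cl ω z) * ind (z' ∈ cl ω z)) +
      Ex E p (fun ω => Θ (cl ω z) * ind (z' ∉ cl ω z)) := by
    rw [← Ex_add]
    refine Ex_congr E p _ _ (fun ω _ => ?_)
    by_cases h : z' ∈ cl ω z
    · have h' : ¬ z' ∉ cl ω z := fun hh => hh h
      unfold ind
      rw [if_pos h, if_neg h']
      ring
    · unfold ind
      rw [if_neg h, if_pos h]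
      ring
  have hfin : Ex E p (fun ω => wt E p Θ z - ind (z ∉ cl ω z') * wt (offE E (cl ω z')) p Θ z) ≤
      ∑ d, tau E p z d * wt E p Θ d * tau E p z' d := by
    refine (Ex_mono E p h0 h1 _ _ hpt).trans (le_of_eq ?_)
    rw [Ex_sum]
    refine Finset.sum_congr rfl (fun d _ => ?_)
    rw [Ex_mul_left]
    rfl
  rw [Ex_sub, Ex_const, ← hout] at hfin
  have hre : ∑ d, tau E p z d * wt E p Θ d * tau E p z' d =
      ∑ d, tau E p z d * tau E p z' d * wt E p Θ d :=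
    Finset.sum_congr rfl (fun d _ => by ring)
  rw [hre] at hfin
  linarith

theorem b_second (E : Finset (Sym2 V)) (p : ℝ) (h0 : 0 ≤ p) (h1 : p ≤ 1) (X : ℝ)
    (hX : ∀ x, chi E p x ≤ X) (z : V) :
    Ex E p (fun ω => ((cl ω z).card : ℝ) ^ 2) ≤ X ^ 3 := by
  classical
  have hX1 : 1 ≤ X := (xb_chi_ge_one E p h0 h1 z).trans (hX z)
  set Θ : Finset V → ℝ := fun A => (A.card : ℝ) with hΘ
  have hmono : ∀ A B : Finset V, A ⊆ B → Θ A ≤ Θ B := fun A B h => by
    simp only [hΘ]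
    exact_mod_cast Finset.card_le_card h
  have hsub : ∀ A B : Finset V, Θ (A ∪ B) ≤ Θ A + Θ B := fun A B => by
    simp only [hΘ]
    exact_mod_cast Finset.card_union_le A B
  have hnn : ∀ A : Finset V, 0 ≤ Θ A := fun A => Nat.cast_nonneg _
  have hW : ∀ d, wt E p Θ d = chi E p d := fun d => rfl
  have h2 : Ex E p (fun ω => ((cl ω z).card : ℝ) ^ 2) =
      ∑ z', Ex E p (fun ω => Θ (cl ω z) * ind (z' ∈ cl ω z)) := by
    rw [← Ex_sum]
    refine Ex_congr E p _ _ (fun ω _ => ?_)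
    rw [← Finset.mul_sum]
    have h3 : ∑ z', ind (z' ∈ cl ω z) = ((cl ω z).card : ℝ) := by
      rw [← Finset.sum_subset (Finset.subset_univ (cl ω z))
        (fun d _ hd => by unfold ind; rw [if_neg hd])]
      have h4 : ∀ d ∈ cl ω z, ind (d ∈ cl ω z) = 1 := fun d hd => by unfold ind; rw [if_pos hd]
      rw [Finset.sum_congr rfl h4]
      simp
    rw [h3, sq]
  have h4 : ∑ z', Ex E p (fun ω => Θ (cl ω z) * ind (z' ∈ cl ω z)) ≤
      ∑ z', ∑ d, tau E p z d * tau E p z' d * wt E p Θ d :=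
    Finset.sum_le_sum (fun z' _ => b_pair E p h0 h1 Θ hmono hsub hnn z z')
  have h5 : ∑ z', ∑ d, tau E p z d * tau E p z' d * wt E p Θ d =
      ∑ d, tau E p z d * chi E p d * chi E p d := by
    rw [Finset.sum_comm]
    refine Finset.sum_congr rfl (fun d _ => ?_)
    rw [hW]
    have h6 : chi E p d = ∑ z', tau E p z' d := by
      rw [xb_chi_sum]
      exact Finset.sum_congr rfl (fun z' _ => xb_tau_comm E p d z')
    calc ∑ z', tau E p z d * tau E p z' d * chi E p d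
        = tau E p z d * (∑ z', tau E p z' d) * chi E p d := by
          rw [Finset.mul_sum, Finset.sum_mul]
      _ = _ := by rw [← h6]
  have h7 : ∑ d, tau E p z d * chi E p d * chi E p d ≤ ∑ d, tau E p z d * (X * X) := by
    refine Finset.sum_le_sum (fun d _ => ?_)
    have h8 := xb_chi_ge_one E p h0 h1 d
    have h9 := xb_tau_nonneg E p h0 h1 z d
    rw [mul_assoc]
    exact mul_le_mul_of_nonneg_left
      (mul_le_mul (hX d) (hX d) (by linarith) (by linarith)) h9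
  have h10 : ∑ d, tau E p z d * (X * X) ≤ X ^ 3 := by
    rw [← Finset.sum_mul, ← xb_chi_sum]
    have h11 := hX z
    have h12 : 0 ≤ X * X := by positivity
    nlinarith
  rw [h2]
  linarith

end OBST

end Pool.Agent.Work.MP_b7dc8a_pr
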