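import Pool.Agent.Work.MP_b7dc8a_pr.B.Xb

/-! Module TWOP (S-M): two point function and walks.

`b_twop1`: for `x ≠ y`: if `y ∈ cl ω x` then there is `z` with `s(x,z) ∈ ω` and
`y ∈ cl (ω ∩ offE E {x}) z` (last visit of the path to `x`), and these two events are independent
(`Ex_mul_indep`), so `tau E x y <= ∑_{z : s(x,z) ∈ E} p * tau (offE E {x}) z y
<= p ∑ tau E z y`. For `x = y`: `tau E x x = 1`.
(Closedness argument: the set `{x} ∪ ⋃_{z : s(x,z) ∈ ω} cl (ω ∩ offE E {x}) z` is closed under `ω`.)

`b_twop`: iterate, `nb E` is monotone and linear: induction on `T` on the statement for the function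
`x => tau E x y`; `wk E i x y = (nb E)^[i] (indicator of y) x`.

`b_chi_sub`: sum `b_twop1` over `y`: `chi x <= 1 + p nb E chi x <= 1 + p m max chi`, hence
`max chi <= 1 / (1 - p m)` if `p m < 1`. -/

namespace Pool.Agent.Work.MP_b7dc8a_pr

open Finset

open Classical in
private theorem twop_nb_ite {V : Type} [Fintype V] (E : Finset (Sym2 V)) (f : V → ℝ) (x : V) :
    nb E f x = ∑ z, if s(x, z) ∈ E then f z else 0 := by
  unfold nb
  rw [Finset.sum_filter]

private theorem twop_nb_mono {V : Type} [Fintype V] (E : Finset (Sym2 V)) (f g : V → ℝ)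
    (h : ∀ z, f z ≤ g z) (x : V) : nb E f x ≤ nb E g x := by
  unfold nb
  exact Finset.sum_le_sum (fun z _ => h z)

private theorem twop_nb_add {V : Type} [Fintype V] (E : Finset (Sym2 V)) (f g : V → ℝ) (x : V) :
    nb E (fun z => f z + g z) x = nb E f x + nb E g x := by
  unfold nb
  exact Finset.sum_add_distrib

private theorem twop_nb_mul {V : Type} [Fintype V] (E : Finset (Sym2 V)) (c : ℝ) (f : V → ℝ)
    (x : V) : nb E (fun z => c * f z) x = c * nb E f x := by
  unfold nb
  rw [Finset.mul_sum]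

private theorem twop_nb_nonneg {V : Type} [Fintype V] (E : Finset (Sym2 V)) (f : V → ℝ)
    (h : ∀ z, 0 ≤ f z) (x : V) : 0 ≤ nb E f x := by
  unfold nb
  exact Finset.sum_nonneg (fun z _ => h z)

private theorem twop_it_mono {V : Type} [Fintype V] (E : Finset (Sym2 V)) (T : ℕ) :
    ∀ (f g : V → ℝ), (∀ z, f z ≤ g z) → ∀ x, (nb E)^[T] f x ≤ (nb E)^[T] g x := by
  induction T with
  | zero => intro f g h x; exact h x
  | succ T ih =>
    intro f g h x
    rw [Function.iterate_succ_apply, Function.iterate_succ_apply]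
    exact ih _ _ (fun z => twop_nb_mono E f g h z) x

private theorem twop_it_lin {V : Type} [Fintype V] (E : Finset (Sym2 V)) (c : ℝ) (T : ℕ) :
    ∀ (f g : V → ℝ) (x : V), (nb E)^[T] (fun z => f z + c * g z) x =
      (nb E)^[T] f x + c * (nb E)^[T] g x := by
  induction T with
  | zero => intro f g x; rfl
  | succ T ih =>
    intro f g x
    rw [Function.iterate_succ_apply, Function.iterate_succ_apply, Function.iterate_succ_apply]
    have h : nb E (fun z => f z + c * g z) = fun z => nb E f z + c * nb E g z := by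
      funext z
      rw [twop_nb_add, twop_nb_mul]
    rw [h]
    exact ih _ _ x

section TWOP
variable {V : Type} [Fintype V] [DecidableEq V]

omit [DecidableEq V] in
private theorem twop_ind_mem (E : Finset (Sym2 V)) (p : ℝ) (e : Sym2 V) (he : e ∈ E) :
    Ex E p (fun ω => ind (e ∈ ω)) = p := by
  classical
  have h1 : Ex E p (fun ω => ind (e ∈ ω)) = Ex E p (fun ω => ind (e ∈ ω ∩ {e})) := by
    refine Ex_congr _ _ _ _ fun ω _ => ?_
    congr 1
    simp
  rw [h1, Ex_restrict E {e} (by simpa using he) p (fun ω => ind (e ∈ ω))]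
  have h2 : ({e} : Finset (Sym2 V)) = insert e ∅ := by simp
  rw [h2, Ex_insert e ∅ (by simp), Ex_empty, Ex_empty]
  simp [ind]

private theorem twop_reach (E ω : Finset (Sym2 V)) (hω : ω ⊆ E) (x y : V) (hxy : x ≠ y)
    (h : y ∈ cl ω x) : ∃ z, s(x, z) ∈ ω ∧ y ∈ cl (ω ∩ offE E {x}) z := by
  rw [clb_mem_cl] at h
  have key := clb_closed ω {w | w = x ∨ ∃ z, s(x, z) ∈ ω ∧ w ∈ cl (ω ∩ offE E {x}) z} ?_ x y
    (Or.inl rfl) h
  · rcases key with h1 | h1
    · exact absurd h1.symm hxy
    · exact h1
  · intro a ha b hab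
    by_cases hax : a = x
    · right
      refine ⟨b, ?_, mem_cl_self _ _⟩
      rw [← hax]; exact hab
    · rcases ha with ha | ⟨z, hz, haz⟩
      · exact absurd ha hax
      · by_cases hbx : b = x
        · exact Or.inl hbx
        · right
          refine ⟨z, hz, cl_closed _ z a b haz ?_⟩
          rw [Finset.mem_inter, xb_mem_offE]
          refine ⟨hab, hω hab, ?_, ?_⟩
          · simpa using hax
          · simpa using hbx

theorem b_twop1 (E : Finset (Sym2 V)) (p : ℝ) (h0 : 0 ≤ p) (h1 : p ≤ 1) (x y : V) :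
    tau E p x y ≤ (if x = y then 1 else 0) + p * nb E (fun z => tau E p z y) x := by
  classical
  by_cases hxy : x = y
  · rw [if_pos hxy, hxy, xb_tau_self]
    have := mul_nonneg h0 (twop_nb_nonneg E (fun z => tau E p z y)
      (fun z => xb_tau_nonneg E p h0 h1 z y) y)
    linarith
  · rw [if_neg hxy, zero_add, twop_nb_ite]
    have hpt : ∀ ω ⊆ E, ind (y ∈ cl ω x) ≤ ∑ z, (if s(x, z) ∈ E then
        ind (s(x, z) ∈ ω) * ind (y ∈ cl (ω ∩ offE E {x}) z) else 0) := by
      intro ω hω
      by_cases h : y ∈ cl ω x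
      · obtain ⟨z, hz, hyz⟩ := twop_reach E ω hω x y hxy h
        have h2 : (if s(x, z) ∈ E then
            ind (s(x, z) ∈ ω) * ind (y ∈ cl (ω ∩ offE E {x}) z) else 0) = 1 := by
          rw [if_pos (hω hz)]
          simp [ind, hz, hyz]
        have h3 := Finset.single_le_sum (f := fun z => (if s(x, z) ∈ E then
            ind (s(x, z) ∈ ω) * ind (y ∈ cl (ω ∩ offE E {x}) z) else 0)) (s := univ)
          (fun z _ => by
            split_ifs
            · exact mul_nonneg (xb_ind_nonneg _) (xb_ind_nonneg _)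
            · exact le_rfl) (Finset.mem_univ z)
        beta_reduce at h3
        rw [h2] at h3
        exact (xb_ind_le_one _).trans h3
      · have h4 : ind (y ∈ cl ω x) = 0 := by simp [ind, h]
        rw [h4]
        refine Finset.sum_nonneg fun z _ => ?_
        split_ifs
        · exact mul_nonneg (xb_ind_nonneg _) (xb_ind_nonneg _)
        · exact le_rfl
    have h5 : tau E p x y ≤ ∑ z, Ex E p (fun ω => (if s(x, z) ∈ E then
        ind (s(x, z) ∈ ω) * ind (y ∈ cl (ω ∩ offE E {x}) z) else 0)) := by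
      rw [← Ex_sum]
      exact Ex_mono E p h0 h1 _ _ hpt
    refine h5.trans ?_
    rw [Finset.mul_sum]
    refine Finset.sum_le_sum fun z _ => ?_
    by_cases hz : s(x, z) ∈ E
    · simp only [if_pos hz]
      have hd : Disjoint ({s(x, z)} : Finset (Sym2 V)) (offE E {x}) := by
        rw [Finset.disjoint_singleton_left, xb_mem_offE]
        rintro ⟨_, h6, _⟩
        simp at h6
      have h7 := Ex_mul_indep E {s(x, z)} (offE E {x}) hd p (fun ω => ind (s(x, z) ∈ ω))
        (fun ω => ind (y ∈ cl (ω ∩ offE E {x}) z))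
        (fun ω _ => by congr 1; simp)
        (fun ω _ => by rw [Finset.inter_assoc, Finset.inter_self])
      rw [h7, twop_ind_mem E p _ hz]
      have h8 : Ex E p (fun ω => ind (y ∈ cl (ω ∩ offE E {x}) z)) = tau (offE E {x}) p z y :=
        Ex_restrict E (offE E {x}) (xb_offE_subset E {x}) p (fun ω => ind (y ∈ cl ω z))
      rw [h8]
      exact mul_le_mul_of_nonneg_left
        (xb_tau_mono_E E (offE E {x}) (xb_offE_subset E {x}) p h0 h1 z y) h0
    · simp only [if_neg hz]
      rw [Ex_const, mul_zero]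

theorem b_twop (E : Finset (Sym2 V)) (p : ℝ) (h0 : 0 ≤ p) (h1 : p ≤ 1) (T : ℕ) (x y : V) :
    tau E p x y ≤ ∑ i ∈ range T, p ^ i * wk E i x y +
      p ^ T * (nb E)^[T] (fun z => tau E p z y) x := by
  induction T with
  | zero => simp
  | succ T ih =>
    refine ih.trans ?_
    rw [Finset.sum_range_succ, add_assoc]
    refine add_le_add le_rfl ?_
    have h2 : (nb E)^[T] (fun z => tau E p z y) x ≤
        (nb E)^[T] (fun z => (if z = y then 1 else 0) + p * nb E (fun z => tau E p z y) z) x :=
      twop_it_mono E T _ _ (fun z => b_twop1 E p h0 h1 z y) x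
    rw [twop_it_lin] at h2
    have h3 : wk E T x y = (nb E)^[T] (fun z => if z = y then 1 else 0) x := by
      have h6 : ∀ z, (if z = y then (1 : ℝ) else 0) =
          @ite ℝ (z = y) (Classical.propDecidable _) 1 0 := fun z => by congr
      unfold wk
      simp only [h6]
    have h4 : (nb E)^[T + 1] (fun z => tau E p z y) x =
        (nb E)^[T] (nb E (fun z => tau E p z y)) x := Function.iterate_succ_apply _ _ _ ▸ rfl
    rw [h3, h4]
    have h5 := mul_le_mul_of_nonneg_left h2 (pow_nonneg h0 T)
    refine h5.trans (le_of_eq ?_)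
    rw [pow_succ]
    ring

theorem b_chi_sub (E : Finset (Sym2 V)) (p : ℝ) (h0 : 0 ≤ p) (h1 : p ≤ 1) (m : ℕ)
    (hdeg : ∀ x, nb E (fun _ => 1) x ≤ m) (hpm : p * m < 1) (x : V) :
    chi E p x ≤ 1 / (1 - p * m) := by
  classical
  have hstep : ∀ w, chi E p w ≤ 1 + p * nb E (fun z => chi E p z) w := by
    intro w
    rw [xb_chi_sum]
    have h2 : ∑ y, tau E p w y ≤ ∑ y, ((if w = y then 1 else 0) +
        p * nb E (fun z => tau E p z y) w) :=
      Finset.sum_le_sum fun y _ => b_twop1 E p h0 h1 w y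
    refine h2.trans (le_of_eq ?_)
    rw [Finset.sum_add_distrib, ← Finset.mul_sum]
    congr 1
    · simp
    · congr 1
      simp only [twop_nb_ite]
      rw [Finset.sum_comm]
      refine Finset.sum_congr rfl fun z _ => ?_
      split_ifs
      · rw [xb_chi_sum]
      · simp
  obtain ⟨w, _, hw⟩ := Finset.exists_max_image univ (fun z => chi E p z) ⟨x, Finset.mem_univ x⟩
  have h3 : chi E p w ≤ 1 + p * (m * chi E p w) := by
    refine (hstep w).trans ?_
    refine add_le_add le_rfl (mul_le_mul_of_nonneg_left ?_ h0)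
    have h4 : nb E (fun z => chi E p z) w ≤ nb E (fun _ => chi E p w * 1) w :=
      twop_nb_mono E _ _ (fun z => by rw [mul_one]; exact hw z (Finset.mem_univ z)) w
    refine h4.trans ?_
    rw [twop_nb_mul]
    have h5 : 0 ≤ chi E p w := le_trans zero_le_one (xb_chi_ge_one E p h0 h1 w)
    calc chi E p w * nb E (fun _ => 1) w ≤ chi E p w * m := mul_le_mul_of_nonneg_left (hdeg w) h5
      _ = m * chi E p w := by ring
  have h6 : 0 < 1 - p * m := by linarith
  refine (hw x (Finset.mem_univ x)).trans ?_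
  rw [le_div_iff₀ h6]
  nlinarith

end TWOP

end Pool.Agent.Work.MP_b7dc8a_pr
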