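import Pool.Agent.Work.MP_b7dc8a_pr.B.Rect
import Pool.Agent.Work.MP_b7dc8a_pr.B.Twop
import Pool.Agent.Work.MP_b7dc8a_pr.B.Obst
import Pool.Agent.Work.MP_b7dc8a_pr.Exlow

/-! Module CHOFF (M): the susceptibility outside an obstacle `S`.

`b_chip` (intermediate value theorem): `p => chi (cubeE m) p o` is a polynomial, `1` at `p = 0`
(`Ex E 0 F = F ∅`), so it takes the value `X` at some `pa ∈ [0, pc]`; all vertices have the same
`chi` (`exlow_trans`); if `pa m < 1` then `X <= 1 / (1 - pa m)` by `b_chi_sub` (with `nb_cube_one`),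
i.e. `1 - 1/X <= pa m`; if `pa m >= 1` this is clear.

`b_choff`: let `T = TT m`, `E = offE (cubeE m) S`, `u z = chi E pa z + 1` (`a = 1` in `b_rect_iter`,
`g = 1`, `sm 1 = card`). Let `Bad = {z : 1/2 < ∑_{s ∈ S} tau (cubeE m) pa z s}`. Since
`∑_z ∑_{s ∈ S} tau z s = |S| X`: `|Bad| <= 2 |S| X`. If `z ∉ Bad` then `z ∉ S` (`tau s s = 1`) and by
`b_obst` (with `Θ = card`): `X <= chi E pa z + X/2`, so `u z >= X/2`. Hence by `b_rect_iter` (`L = T`)
`LL 24000 m * u y >= pa^T (nb E)^[T] u y >= pa^T (X/2) ((nb E)^[T] 1 y - (nb E)^[T] 1_Bad y)`.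
`good m S y`: `(nb E)^[T] 1 y >= m^T / (4 (T+2))`; `four_mix`: `(nb E)^[T] 1_Bad y
<= |Bad| 4 m^T / 2^m <= 8 |S| X m^T / 2^m <= m^T / (16 (T+2))`. `(pa m)^T >= (1 - 1/X)^T
>= (1 - 1/m^2)^T >= 1 - T/m^2 >= 1/2` for large `m`. So `LL 24000 m * u y >= (1/2)(X/2) 3/(16 (T+2))`
and as `chi E pa y >= 1`: `u y <= 2 chi E pa y`; for large `m` this gives the claim. -/

namespace Pool.Agent.Work.MP_b7dc8a_pr

open Finset

private theorem choff_cont {α : Type} (E : Finset α) (F : Finset α → ℝ) :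
    Continuous fun p : ℝ => Ex E p F := by
  unfold Ex
  fun_prop

theorem b_chip (m : ℕ) (hm : 1 ≤ m) (pc X : ℝ) (h0 : 0 ≤ pc) (h1 : pc ≤ 1) (hX1 : 1 ≤ X)
    (o : Q m) (hX : X ≤ chi (cubeE m) pc o) :
    ∃ pa : ℝ, 0 ≤ pa ∧ pa ≤ pc ∧ (∀ x, chi (cubeE m) pa x = X) ∧ 1 - 1 / X ≤ pa * m := by
  have hc : Continuous fun p : ℝ => chi (cubeE m) p o := choff_cont _ _
  have hdeg : ∀ x, nb (cubeE m) (fun _ => 1) x ≤ m := fun x => (nb_cube_one m x).le
  have h00 : chi (cubeE m) 0 o ≤ 1 := by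
    have := b_chi_sub (cubeE m) 0 le_rfl zero_le_one m hdeg (by simp) o
    simpa using this
  obtain ⟨pa, hpa, hpaX⟩ := intermediate_value_Icc h0 hc.continuousOn
    (show X ∈ Set.Icc (chi (cubeE m) 0 o) (chi (cubeE m) pc o) from ⟨h00.trans hX1, hX⟩)
  have hpaX' : chi (cubeE m) pa o = X := hpaX
  have hall : ∀ x, chi (cubeE m) pa x = X := by
    intro x
    rw [← hpaX']
    exact exlow_trans pa x o
  refine ⟨pa, hpa.1, hpa.2, hall, ?_⟩
  have hX0 : 0 < X := by linarith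
  by_cases hpm : pa * m < 1
  · have h2 := b_chi_sub (cubeE m) pa hpa.1 (hpa.2.trans h1) m hdeg hpm o
    rw [hpaX'] at h2
    have h3 : 0 < 1 - pa * m := by linarith
    rw [le_div_iff₀ h3] at h2
    have h4 : 1 - pa * m ≤ 1 / X := by
      rw [le_div_iff₀ hX0]
      linarith
    linarith
  · have h4 : 0 < 1 / X := by positivity
    push Not at hpm
    linarith

/-- few vertices are close to the obstacle -/
private theorem choff_bad (m : ℕ) (pa X : ℝ) (h0 : 0 ≤ pa) (h1 : pa ≤ 1)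
    (hX : ∀ x, chi (cubeE m) pa x = X) (S : Finset (Q m)) :
    ∃ Bad : Finset (Q m), (Bad.card : ℝ) ≤ 2 * (S.card * X) ∧
      ∀ z, z ∉ Bad → z ∉ S ∧ X / 2 ≤ chi (offE (cubeE m) S) pa z := by
  classical
  refine ⟨univ.filter (fun z => 1 / 2 < ∑ s ∈ S, tau (cubeE m) pa z s), ?_, ?_⟩
  · have hs : ∑ z, ∑ s ∈ S, tau (cubeE m) pa z s = S.card * X := by
      rw [Finset.sum_comm]
      have : ∀ s ∈ S, ∑ z, tau (cubeE m) pa z s = X := by
        intro s _
        rw [← hX s, xb_chi_sum]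
        exact Finset.sum_congr rfl fun z _ => xb_tau_comm _ _ _ _
      rw [Finset.sum_congr rfl this, Finset.sum_const, nsmul_eq_mul]
    rw [← hs]
    have hnn : ∀ z, 0 ≤ ∑ s ∈ S, tau (cubeE m) pa z s := fun z =>
      Finset.sum_nonneg fun s _ => xb_tau_nonneg _ _ h0 h1 _ _
    calc ((univ.filter (fun z => 1 / 2 < ∑ s ∈ S, tau (cubeE m) pa z s)).card : ℝ)
        = ∑ z ∈ univ.filter (fun z => 1 / 2 < ∑ s ∈ S, tau (cubeE m) pa z s), (1 : ℝ) := by simp
      _ ≤ ∑ z ∈ univ.filter (fun z => 1 / 2 < ∑ s ∈ S, tau (cubeE m) pa z s),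
          2 * ∑ s ∈ S, tau (cubeE m) pa z s := by
          apply Finset.sum_le_sum
          intro z hz
          rw [Finset.mem_filter] at hz
          linarith [hz.2]
      _ ≤ ∑ z, 2 * ∑ s ∈ S, tau (cubeE m) pa z s := by
          apply Finset.sum_le_sum_of_subset_of_nonneg (Finset.filter_subset _ _)
          intro z _ _
          have := hnn z
          linarith
      _ = _ := by rw [Finset.mul_sum]
  · intro z hz
    rw [Finset.mem_filter] at hz
    have hz' : ∑ s ∈ S, tau (cubeE m) pa z s ≤ 1 / 2 := by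
      by_contra hcon
      push Not at hcon
      exact hz ⟨Finset.mem_univ _, hcon⟩
    have hzS : z ∉ S := by
      intro hzS
      have := Finset.single_le_sum (f := fun s => tau (cubeE m) pa z s)
        (fun s _ => xb_tau_nonneg (cubeE m) pa h0 h1 z s) hzS
      have h3 : tau (cubeE m) pa z z = 1 := xb_tau_self _ _ _
      have h4 : tau (cubeE m) pa z z ≤ ∑ s ∈ S, tau (cubeE m) pa z s := this
      linarith
    refine ⟨hzS, ?_⟩
    have h2 := b_obst (cubeE m) pa h0 h1 (fun A => (A.card : ℝ))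
      (fun A B h => by exact_mod_cast Finset.card_le_card h)
      (fun A B => by exact_mod_cast Finset.card_union_le A B)
      (fun A => Nat.cast_nonneg _) S z hzS
    have h3 : wt (cubeE m) pa (fun A => (A.card : ℝ)) z = X := hX z
    have h4 : ∀ d, wt (cubeE m) pa (fun A => (A.card : ℝ)) d = X := fun d => hX d
    rw [h3, Finset.sum_congr rfl (fun d _ => by rw [h4 d]), ← Finset.sum_mul] at h2
    have h5 : wt (offE (cubeE m) S) pa (fun A => (A.card : ℝ)) z =
        chi (offE (cubeE m) S) pa z := rfl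
    rw [h5] at h2
    have hX0 : 0 ≤ X := by
      rw [← hX z]
      linarith [xb_chi_ge_one (cubeE m) pa h0 h1 z]
    nlinarith [mul_le_mul_of_nonneg_right hz' hX0]

theorem b_choff : ∃ m0 : ℕ, ∀ m ≥ m0, ∀ (pa X : ℝ) (S : Finset (Q m)) (y : Q m), 0 ≤ pa →
    pa * m ≤ 1 + 5000 * dl m → (∀ x, chi (cubeE m) pa x = X) → 1 - 1 / X ≤ pa * m →
    (m : ℝ) ^ 2 ≤ X → LL 30000 m * X ^ 3 ≤ 2 ^ m →
    (S.card : ℝ) * X * (128 * ((TT m : ℝ) + 2)) ≤ 2 ^ m → good m S y →
    LL (-30000) m * X ≤ chi (offE (cubeE m) S) pa y := by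
  obtain ⟨mA, hmA⟩ := b_rect_iter
  obtain ⟨mB, hmB⟩ := xn_dl 5000 (1 / 4) (by norm_num)
  obtain ⟨mC, hmC⟩ := xn_poly 2 128 6000 (by norm_num)
  refine ⟨max 3 (max mA (max mB mC)), fun m hm => ?_⟩
  simp only [ge_iff_le, max_le_iff] at hm
  obtain ⟨hm3, hmA', hmB', hmC'⟩ := hm
  intro pa X S y hpa0 hpam hX hXpa hX2 hLX hSX hgood
  have hm3r : (3 : ℝ) ≤ m := by exact_mod_cast hm3
  have hm0r : (0 : ℝ) < m := by linarith
  have hdl := hmB m hmB'
  have hdl0 := xn_dl_nonneg m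
  have hpa1 : pa ≤ 1 := by
    by_contra hcon
    push Not at hcon
    nlinarith
  have hX1 : 1 ≤ X := by nlinarith
  have hX0 : 0 < X := by linarith
  have hTT := xn_TT m (by omega)
  set T := TT m with hT
  have hT0 : (0 : ℝ) ≤ T := Nat.cast_nonneg _
  set E := offE (cubeE m) S with hE
  have hEsub : E ⊆ cubeE m := xb_offE_subset _ _
  have h2m : (0 : ℝ) < 2 ^ m := by positivity
  have hrect := hmA m hmA' X 1 pa hX1 (by rw [div_le_one h2m]; exact hLX) le_rfl hpa0 hpam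
    (fun x => (hX x).le) S (fun _ => 1) (fun z => ⟨zero_le_one, by linarith⟩) T (by omega) y
  rw [← hE] at hrect
  have hu : (fun z => wt E pa (sm fun _ => 1) z + 1) = fun z => chi E pa z + 1 := by
    funext z
    rw [xb_chi_wt]
  rw [hu, ← xb_chi_wt] at hrect
  obtain ⟨Bad, hBad, hBad2⟩ := choff_bad m pa X hpa0 hpa1 hX S
  rw [← hE] at hBad2
  classical
  have hlow : ∀ z, X / 2 * 1 + -(X / 2) * (if z ∈ Bad then (1 : ℝ) else 0) ≤ chi E pa z + 1 := by
    intro z
    have h1 := xb_chi_ge_one E pa hpa0 hpa1 z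
    by_cases hz : z ∈ Bad
    · rw [if_pos hz]
      linarith
    · rw [if_neg hz]
      have := (hBad2 z hz).2
      linarith
  have h5 := nb_iter_mono E T _ _ hlow y
  rw [nb_iter_add E T (fun _ => X / 2 * 1) (fun z => -(X / 2) * (if z ∈ Bad then (1 : ℝ) else 0)),
    nb_iter_smul, nb_iter_smul] at h5
  have hg := hgood.2
  rw [← hT, ← hE, div_le_div_iff₀ (by positivity) (by positivity), one_mul] at hg
  have hb : (nb E)^[T] (fun z => if z ∈ Bad then (1 : ℝ) else 0) y ≤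
      Bad.card * (4 * (m : ℝ) ^ T / 2 ^ m) := by
    refine (nb_iter_mono_E (cubeE m) E hEsub T _ (fun z => by split_ifs <;> norm_num) y).trans ?_
    rw [nb_iter_eq]
    calc ∑ z, wk (cubeE m) T y z * (if z ∈ Bad then (1 : ℝ) else 0)
        ≤ ∑ z, (if z ∈ Bad then (4 * (m : ℝ) ^ T / 2 ^ m) else 0) := by
          apply Finset.sum_le_sum
          intro z _
          split_ifs
          · rw [mul_one]
            exact four_mix m (by omega) T (by omega) y z
          · rw [mul_zero]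
      _ = _ := by
          rw [Finset.sum_ite_mem, Finset.univ_inter, Finset.sum_const, nsmul_eq_mul]
  have hmT : (0 : ℝ) < (m : ℝ) ^ T := by positivity
  have hb2 : (Bad.card : ℝ) * (4 * (m : ℝ) ^ T / 2 ^ m) ≤ (m : ℝ) ^ T * (1 / (16 * ((T : ℝ) + 2))) := by
    calc (Bad.card : ℝ) * (4 * (m : ℝ) ^ T / 2 ^ m) ≤ (2 * (S.card * X)) * (4 * (m : ℝ) ^ T / 2 ^ m) :=
          mul_le_mul_of_nonneg_right hBad (by positivity)
      _ = (m : ℝ) ^ T * ((S.card * X * (128 * ((T : ℝ) + 2))) / 2 ^ m * (1 / (16 * ((T : ℝ) + 2)))) := by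
          field_simp
          ring
      _ ≤ (m : ℝ) ^ T * (1 * (1 / (16 * ((T : ℝ) + 2)))) := by
          apply mul_le_mul_of_nonneg_left _ hmT.le
          apply mul_le_mul_of_nonneg_right _ (by positivity)
          rw [div_le_one h2m]
          exact hSX
      _ = _ := by rw [one_mul]
  have hg2 : (m : ℝ) ^ T * (1 / (4 * ((T : ℝ) + 2))) ≤ (nb E)^[T] (fun _ => 1) y := by
    rw [mul_one_div, div_le_iff₀ (by positivity)]
    exact hg
  have h6 : X / 2 * ((m : ℝ) ^ T * (3 / (16 * ((T : ℝ) + 2)))) ≤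
      (nb E)^[T] (fun z => chi E pa z + 1) y := by
    refine le_trans ?_ h5
    have e : (3 : ℝ) / (16 * ((T : ℝ) + 2)) = 1 / (4 * ((T : ℝ) + 2)) - 1 / (16 * ((T : ℝ) + 2)) := by
      field_simp
      ring
    rw [e]
    have hX20 : 0 ≤ X / 2 := by linarith
    nlinarith [mul_le_mul_of_nonneg_left hg2 hX20, mul_le_mul_of_nonneg_left (hb.trans hb2) hX20]
  have h7 : (1 : ℝ) / 2 ≤ pa ^ T * (m : ℝ) ^ T := by
    rw [← mul_pow]
    have h8 : (1 : ℝ) + T * (-(1 / X)) ≤ (1 + -(1 / X)) ^ T := by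
      apply one_add_mul_le_pow
      have : 1 / X ≤ 1 := by rw [div_le_one hX0]; exact hX1
      linarith
    have h9 : (1 + -(1 / X)) ^ T ≤ (pa * m) ^ T := by
      apply pow_le_pow_left₀
      · have : 1 / X ≤ 1 := by rw [div_le_one hX0]; exact hX1
        linarith
      · linarith
    have h10 : (T : ℝ) * (1 / X) ≤ 1 / 2 := by
      rw [mul_one_div, div_le_iff₀ hX0]
      have h11 : (m : ℝ) * Real.log m = (m : ℝ) ^ 2 * dl m := by
        unfold dl
        field_simp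
      have h12 := hTT.2.1
      rw [h11] at h12
      nlinarith
    linarith
  have h13 : X / 2 * (3 / (16 * ((T : ℝ) + 2))) * (1 / 2) ≤ LL 24000 m * (chi E pa y + 1) := by
    refine le_trans ?_ hrect
    calc X / 2 * (3 / (16 * ((T : ℝ) + 2))) * (1 / 2) ≤
          X / 2 * (3 / (16 * ((T : ℝ) + 2))) * (pa ^ T * (m : ℝ) ^ T) :=
          mul_le_mul_of_nonneg_left h7 (by positivity)
      _ = pa ^ T * (X / 2 * ((m : ℝ) ^ T * (3 / (16 * ((T : ℝ) + 2))))) := by ring
      _ ≤ _ := mul_le_mul_of_nonneg_left h6 (by positivity)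
  have h14 : chi E pa y + 1 ≤ 2 * chi E pa y := by
    linarith [xb_chi_ge_one E pa hpa0 hpa1 y]
  have hL24 := xn_LL_pos 24000 m
  have hL30 := xn_LL_pos 30000 m
  have h15 : X * 3 ≤ LL 24000 m * chi E pa y * (128 * ((T : ℝ) + 2)) := by
    have h16 : X / 2 * (3 / (16 * ((T : ℝ) + 2))) * (1 / 2) ≤ LL 24000 m * (2 * chi E pa y) :=
      h13.trans (mul_le_mul_of_nonneg_left h14 hL24.le)
    have h17 : X / 2 * (3 / (16 * ((T : ℝ) + 2))) * (1 / 2) = X * 3 / (64 * ((T : ℝ) + 2)) := by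
      field_simp
      ring
    rw [h17, div_le_iff₀ (by positivity)] at h16
    linarith
  have h18 : 128 * ((T : ℝ) + 2) ≤ 3 * LL 6000 m := by
    have h19 := hmC m hmC'
    have h20 := hTT.2.2
    nlinarith
  have hchi0 : 0 ≤ LL 24000 m * chi E pa y := by
    have := xb_chi_ge_one E pa hpa0 hpa1 y
    have h21 : 0 ≤ chi E pa y := by linarith
    positivity
  have h22 : X ≤ LL 30000 m * chi E pa y := by
    have h23 := mul_le_mul_of_nonneg_left h18 hchi0
    have h24 : LL 24000 m * LL 6000 m = LL 30000 m := by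
      rw [xn_LL_add]
      norm_num
    have h25 : LL 24000 m * chi E pa y * (3 * LL 6000 m) = 3 * (LL 30000 m * chi E pa y) := by
      rw [← h24]
      ring
    linarith
  have h26 : LL (-30000) m * LL 30000 m = 1 := by
    rw [xn_LL_add]
    unfold LL
    norm_num
  have h27 := mul_le_mul_of_nonneg_left h22 (xn_LL_pos (-30000) m).le
  rw [← mul_assoc, h26, one_mul] at h27
  exact h27

end Pool.Agent.Work.MP_b7dc8a_pr
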