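import Pool.Agent.Work.MP_b7dc8a_pr.B.Xb

/-! Module RUSS (S): Russo's formula. Induction on `E` (generalizing `F`) with `Ex_insert`: for
`e ∉ E`, `Ex (insert e E) p F = p Ex E p (F (insert e .)) + (1 - p) Ex E p F`; differentiate; the
terms with `e' ∈ E` recombine by `Ex_insert`, and for the element `e` itself
`Ex (insert e E) p (fun ω => F (insert e ω) - F (ω.erase e)) = Ex E p (F (insert e .)) - Ex E p F`.
`russ_cont`: continuity. -/

namespace Pool.Agent.Work.MP_b7dc8a_pr

open Finset

theorem b_russ {α : Type} [DecidableEq α] (E : Finset α) (F : Finset α → ℝ) (p : ℝ) :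
    HasDerivAt (fun p => Ex E p F)
      (∑ e ∈ E, Ex E p (fun ω => F (insert e ω) - F (ω.erase e))) p := by
  induction E using Finset.induction_on generalizing F with
  | empty =>
    simp only [Ex_empty, Finset.sum_empty]
    exact hasDerivAt_const p _
  | insert e E he ih =>
    have h1 : (fun p => Ex (insert e E) p F) =
        fun p => p * Ex E p (fun ω => F (insert e ω)) + (1 - p) * Ex E p F := by
      funext p
      exact Ex_insert e E he p F
    rw [h1, Finset.sum_insert he]
    have hA : Ex (insert e E) p (fun ω => F (insert e ω) - F (ω.erase e)) =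
        Ex E p (fun ω => F (insert e ω)) - Ex E p F := by
      rw [Ex_insert e E he]
      have a1 : Ex E p (fun ω => F (insert e (insert e ω)) - F ((insert e ω).erase e)) =
          Ex E p (fun ω => F (insert e ω)) - Ex E p F := by
        rw [← Ex_sub]
        refine Ex_congr _ _ _ _ fun ω hω => ?_
        rw [Finset.insert_idem, Finset.erase_insert fun h => he (hω h)]
      have a2 : Ex E p (fun ω => F (insert e ω) - F (ω.erase e)) =
          Ex E p (fun ω => F (insert e ω)) - Ex E p F := by
        rw [← Ex_sub]
        refine Ex_congr _ _ _ _ fun ω hω => ?_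
        rw [Finset.erase_eq_of_notMem fun h => he (hω h)]
      rw [a1, a2]
      ring
    have hB : ∀ e' ∈ E, Ex (insert e E) p (fun ω => F (insert e' ω) - F (ω.erase e')) =
        p * Ex E p (fun ω => F (insert e (insert e' ω)) - F (insert e (ω.erase e'))) +
          (1 - p) * Ex E p (fun ω => F (insert e' ω) - F (ω.erase e')) := by
      intro e' he'
      rw [Ex_insert e E he]
      have hne : e ≠ e' := fun h => he (h ▸ he')
      simp only [Finset.insert_comm e' e, Finset.erase_insert_of_ne hne]
    rw [hA, Finset.sum_congr rfl hB, Finset.sum_add_distrib, ← Finset.mul_sum, ← Finset.mul_sum]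
    have d1 := (hasDerivAt_id p).mul (ih (fun ω => F (insert e ω)))
    have d2 := ((hasDerivAt_const p (1 : ℝ)).sub (hasDerivAt_id p)).mul (ih F)
    refine (d1.add d2).congr_deriv ?_
    simp only [id, Pi.sub_apply]
    ring

theorem b_russ_cont {α : Type} (E : Finset α) (F : Finset α → ℝ) :
    Continuous (fun p => Ex E p F) := by
  unfold Ex
  refine continuous_finsetSum _ fun ω _ => ?_
  fun_prop

end Pool.Agent.Work.MP_b7dc8a_pr
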