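import Pool.Agent.Work.MP_b7dc8a_pr.B.Chiw
import Pool.Agent.Work.MP_b7dc8a_pr.B.Russ

/-! Module DCT (L): a differential inequality for the magnetization `M p = Mh E p h y`
(style of Duminil-Copin and Tassion), `A = chi E pa y`, `chi E pa <= X`.

`b_dcta`. Let `G` be a random set of vertices of density `h` (`Ex univ h`, independent of `ω`).
`(1-h)^|C| = Ex univ h (fun G => ind (Disjoint C G))` (`Ex_restrict` and `(1-h)^|C|` is the
probability that the random subset of `C` is empty; induction on `C`), so with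
`F ω = 1 - (1-h)^|cl ω y| = Ex univ h (fun G => ind (y ∈ cls ω G))`. Fix `G`, let
`FG ω = ind (y ∈ cls ω G)`, `D = cls ω G`. `DFG e ω = FG (insert e ω) - FG (ω.erase e) >= 0` does not
depend on whether `e ∈ ω`, so `(1-p) Ex [DFG e] = Ex [ind (e ∉ ω) DFG e]`. If `y ∉ D`, `a ∉ D`,
`b ∈ D`, `s(a,b) ∈ E` and `a ∈ cl (ω ∩ offE E D) y`, then `e = s(a,b) ∉ ω` and `DFG e ω = 1`, and
different pairs `(a,b)` give different edges. Hence, with `b_mark_cls` (`S = G`),
`(1-p) ∑_e Ex [DFG e] >= Ex [ind (y ∉ D) ∑_{a ∉ D} ∑_{b ∈ D, s(a,b) ∈ E} tau (offE E D) p y a]`.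
`tau (offE E D) p >= tau (offE E D) pa`, and `b_chiw` at `pa`:
`pa X ∑∑ tau (offE E D) pa y a >= A - chi (offE E D) pa y >= A - chi (offE E D) p y`. So
`pa X (1-p) ∑_e Ex [DFG e] >= A Ex [ind (y ∉ D)] - Ex [ind (y ∉ D) chi (offE E D) p y]`, and by
`b_mark_cls` again the last term is `Ex [ind (y ∉ cls ω G) |cl ω y|]` (`xb_cl_outside`). Average over
`G` (`xb_Ex_swap`): `pa X (1-p) ∑_e Ex [D_e F] >= A (1 - M) - Ex [|C| (1-h)^|C|]`. Finally
`pa (1-p) <= p` and the sum is nonnegative, divide by `X`.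

`b_dctb`. `|C| (1-h)^|C| <= (1 - (1-h)^|C|) / h` (`n h (1-h)^n <= 1 - (1-h)^n`), so
`Ex [|C| (1-h)^|C|] <= M p / h`. `M` is nondecreasing in `p` (`Ex_mono_p`). Suppose
`M p2 < 1/4` and `M p2 < h A / 4`. For `p ∈ [pa, p2]`: `M p <= M p2`, so by `b_dcta` and `b_russ`
`p M'(p) >= (A * 3/4 - A/4) / X = A / (2X)`. So `p => M p - A/(2X) log p` is nondecreasing on
`[pa, p2]` and `M p2 >= A/(2X) log (p2/pa) >= A/(2X) (1 - pa/p2)`. -/

namespace Pool.Agent.Work.MP_b7dc8a_pr

open Finset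

private theorem dc_ind_not (P : Prop) : ind (¬ P) = 1 - ind P := by
  unfold ind
  by_cases h : P
  · rw [if_pos h, if_neg (not_not.2 h)]; norm_num
  · rw [if_neg h, if_pos h]; norm_num

private theorem dc_edge {α : Type} [DecidableEq α] (E : Finset α) (p : ℝ) (e : α) (he : e ∈ E) :
    Ex E p (fun ω => ind (e ∈ ω)) = p := by
  have h1 : Ex E p (fun ω => ind (e ∈ ω)) = Ex E p (fun ω => (fun ω' => ind (e ∈ ω')) (ω ∩ {e})) := by
    refine Ex_congr _ _ _ _ fun ω _ => ?_
    simp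
  rw [h1, Ex_restrict E {e} (singleton_subset_iff.2 he) p (fun ω' => ind (e ∈ ω')),
    ← insert_empty_eq e, Ex_insert e ∅ (notMem_empty e), Ex_empty, Ex_empty]
  simp [ind]

/-- the probability that a random set misses `C` -/
private theorem dc_ghost {V : Type} [Fintype V] [DecidableEq V] (C : Finset V) (h : ℝ) :
    Ex (univ : Finset V) h (fun G => ind (Disjoint C G)) = (1 - h) ^ C.card := by
  have h1 : Ex (univ : Finset V) h (fun G => ind (Disjoint C G)) =
      Ex (univ : Finset V) h (fun G => (fun G' => ind (G' = ∅)) (G ∩ C)) := by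
    refine Ex_congr _ _ _ _ fun G _ => ?_
    show ind (Disjoint C G) = ind (G ∩ C = ∅)
    rw [Finset.disjoint_iff_inter_eq_empty, Finset.inter_comm]
  rw [h1, Ex_restrict univ C (Finset.subset_univ _) h (fun G' => ind (G' = ∅))]
  unfold Ex
  rw [Finset.sum_eq_single ∅]
  · simp [ind]
  · intro ω _ hne
    simp [ind, hne]
  · intro hne
    exact absurd (Finset.empty_mem_powerset C) hne

section DCT
variable {V : Type} [Fintype V] [DecidableEq V]

private theorem dc_mem (ω : Finset (Sym2 V)) (G : Finset V) (y : V) :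
    y ∉ cls ω G ↔ Disjoint (cl ω y) G := by
  rw [xb_mem_cls, Finset.disjoint_left]
  constructor
  · intro h x hx hG
    exact h ⟨x, hG, (cl_symm ω x y).2 hx⟩
  · rintro h ⟨x, hG, hx⟩
    exact h ((cl_symm ω x y).1 hx) hG

private theorem dc_ghost' (ω : Finset (Sym2 V)) (y : V) (h : ℝ) :
    Ex (univ : Finset V) h (fun G => ind (y ∉ cls ω G)) = (1 - h) ^ (cl ω y).card := by
  rw [← dc_ghost]
  refine Ex_congr _ _ _ _ fun G _ => ?_
  rw [dc_mem]

/-- the discrete derivative for a fixed ghost set -/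
private noncomputable def dcD (G : Finset V) (y : V) (e : Sym2 V) (ω : Finset (Sym2 V)) : ℝ :=
  ind (y ∈ cls (insert e ω) G) - ind (y ∈ cls (ω.erase e) G)

private theorem dcD_nonneg (G : Finset V) (y : V) (e : Sym2 V) (ω : Finset (Sym2 V)) :
    0 ≤ dcD G y e ω := by
  unfold dcD
  have := xb_ind_mono (P := y ∈ cls (ω.erase e) G) (R := y ∈ cls (insert e ω) G)
    (fun h => xb_cls_mono _ _ G G
      ((Finset.erase_subset e ω).trans (Finset.subset_insert e ω)) le_rfl h)
  linarith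

private theorem dcD_indep (E : Finset (Sym2 V)) (p : ℝ) (G : Finset V) (y : V) (e : Sym2 V)
    (he : e ∈ E) :
    Ex E p (fun ω => ind (e ∉ ω) * dcD G y e ω) = (1 - p) * Ex E p (dcD G y e) := by
  rw [Ex_mul_indep E {e} (E.erase e)
    (by rw [Finset.disjoint_singleton_left]; exact Finset.notMem_erase e E) p
    (fun ω => ind (e ∉ ω)) (dcD G y e) (fun ω _ => by simp) (fun ω hω => ?_)]
  · congr 1
    have h1 : (fun ω : Finset (Sym2 V) => ind (e ∉ ω)) = fun ω => 1 - ind (e ∈ ω) := by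
      funext ω
      exact dc_ind_not _
    rw [h1, Ex_sub, Ex_const, dc_edge E p e he]
  · unfold dcD
    have h1 : insert e (ω ∩ E.erase e) = insert e ω := by
      ext x
      simp only [Finset.mem_insert, Finset.mem_inter, Finset.mem_erase]
      constructor
      · rintro (h | h)
        · exact Or.inl h
        · exact Or.inr h.1
      · rintro (h | h)
        · exact Or.inl h
        · by_cases hx : x = e
          · exact Or.inl hx
          · exact Or.inr ⟨h, hx, hω h⟩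
    have h2 : (ω ∩ E.erase e).erase e = ω.erase e := by
      ext x
      simp only [Finset.mem_inter, Finset.mem_erase]
      constructor
      · rintro ⟨h, h', -⟩
        exact ⟨h, h'⟩
      · rintro ⟨h, h'⟩
        exact ⟨h, h', h, hω h'⟩
    rw [h1, h2]

/-- the pointwise bound -/
private theorem dc_point (E ω : Finset (Sym2 V)) (hω : ω ⊆ E) (G : Finset V) (y : V) :
    ind (y ∉ cls ω G) * ∑ a ∈ univ.filter (fun a => a ∉ cls ω G),
      ∑ b ∈ (cls ω G).filter (fun b => s(a, b) ∈ E),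
        ind (a ∈ cl (ω ∩ offE E (cls ω G)) y) ≤
    ∑ e ∈ E, ind (e ∉ ω) * dcD G y e ω := by
  set D := cls ω G with hD
  have hnn : ∀ e ∈ E, 0 ≤ ind (e ∉ ω) * dcD G y e ω := fun e _ =>
    mul_nonneg (xb_ind_nonneg _) (dcD_nonneg G y e ω)
  by_cases hy : y ∈ D
  · have h1 : ind (y ∉ D) = 0 := by unfold ind; rw [if_neg (not_not.2 hy)]
    rw [h1, zero_mul]
    exact Finset.sum_nonneg hnn
  have h1 : ind (y ∉ D) = 1 := by unfold ind; rw [if_pos hy]
  rw [h1, one_mul, Finset.sum_sigma']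
  have h2 := (xb_cl_outside E ω hω G y hy).1
  rw [← hD] at h2
  rw [h2]
  set P := (univ.filter (fun a => a ∉ D)).sigma (fun a => D.filter (fun b => s(a, b) ∈ E)) with hP
  have hinj : Set.InjOn (fun x : (_ : V) × V => s(x.1, x.2)) P := by
    rintro ⟨a, b⟩ h3 ⟨a', b'⟩ h4 h5
    have h3' : (⟨a, b⟩ : (_ : V) × V) ∈ P := h3
    have h4' : (⟨a', b'⟩ : (_ : V) × V) ∈ P := h4
    rw [hP, Finset.mem_sigma, Finset.mem_filter, Finset.mem_filter] at h3' h4'
    have h5' : s(a, b) = s(a', b') := h5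
    rw [Sym2.eq_iff] at h5'
    rcases h5' with ⟨h6, h7⟩ | ⟨h6, h7⟩
    · rw [h6, h7]
    · exfalso
      have h8 : a ∉ D := h3'.1.2
      have h9 : b' ∈ D := h4'.2.1
      rw [h6] at h8
      exact h8 h9
  calc ∑ x ∈ P, ind (x.1 ∈ cl ω y) ≤
        ∑ x ∈ P, ind (s(x.1, x.2) ∉ ω) * dcD G y s(x.1, x.2) ω := by
        refine Finset.sum_le_sum fun x hx => ?_
        rw [hP, Finset.mem_sigma, Finset.mem_filter, Finset.mem_filter] at hx
        have ha : x.1 ∉ D := hx.1.2
        have hb : x.2 ∈ D := hx.2.1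
        by_cases hc : x.1 ∈ cl ω y
        · have h3 : s(x.1, x.2) ∉ ω := by
            intro h4
            rw [Sym2.eq_swap] at h4
            exact ha (xb_cls_closed ω G x.2 x.1 hb h4)
          have h5 : y ∈ cls (insert s(x.1, x.2) ω) G := by
            have h6 : x.2 ∈ cls (insert s(x.1, x.2) ω) G :=
              xb_cls_mono ω _ G G (Finset.subset_insert _ _) le_rfl hb
            have h7 : x.1 ∈ cls (insert s(x.1, x.2) ω) G := by
              refine xb_cls_closed _ G x.2 x.1 h6 ?_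
              rw [Sym2.eq_swap]
              exact Finset.mem_insert_self _ _
            obtain ⟨g, hg, hgx⟩ := (xb_mem_cls _ G x.1).1 h7
            refine (xb_mem_cls _ G y).2 ⟨g, hg, ?_⟩
            have h8 : x.1 ∈ cl (insert s(x.1, x.2) ω) y :=
              cl_mono ω _ (Finset.subset_insert _ _) y hc
            have h9 : cl (insert s(x.1, x.2) ω) x.1 = cl (insert s(x.1, x.2) ω) g :=
              cl_eq_of_mem _ g x.1 hgx
            rw [← h9]
            exact (cl_symm _ x.1 y).2 h8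
          have h10 : ω.erase s(x.1, x.2) = ω := Finset.erase_eq_of_notMem h3
          have h11 : dcD G y s(x.1, x.2) ω = 1 := by
            unfold dcD ind
            rw [h10, if_pos h5, if_neg hy]
            norm_num
          rw [h11]
          unfold ind
          rw [if_pos hc, if_pos h3]
          norm_num
        · have h3 : ind (x.1 ∈ cl ω y) = 0 := by unfold ind; rw [if_neg hc]
          rw [h3]
          exact mul_nonneg (xb_ind_nonneg _) (dcD_nonneg G y _ ω)
    _ = ∑ e ∈ P.image (fun x : (_ : V) × V => s(x.1, x.2)), ind (e ∉ ω) * dcD G y e ω := by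
        rw [Finset.sum_image hinj]
    _ ≤ _ := by
        refine Finset.sum_le_sum_of_subset_of_nonneg ?_ fun e he _ => hnn e he
        intro e he
        rw [Finset.mem_image] at he
        obtain ⟨x, hx, rfl⟩ := he
        rw [hP, Finset.mem_sigma, Finset.mem_filter, Finset.mem_filter] at hx
        exact hx.2.2

/-- the inequality for a fixed ghost set -/
private theorem dc_fixed (E : Finset (Sym2 V)) (pa p X : ℝ) (ha0 : 0 ≤ pa) (hap : pa ≤ p)
    (hp1 : p < 1) (hX0 : 0 < X) (hX : ∀ b, chi E pa b ≤ X) (y : V) (G : Finset V) :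
    chi E pa y * Ex E p (fun ω => ind (y ∉ cls ω G)) -
      Ex E p (fun ω => ind (y ∉ cls ω G) * ((cl ω y).card : ℝ)) ≤
    pa * X * ((1 - p) * ∑ e ∈ E, Ex E p (dcD G y e)) := by
  have hp0 : 0 ≤ p := ha0.trans hap
  have hp1' : p ≤ 1 := hp1.le
  -- step A
  have hA : Ex E p (fun ω => ind (y ∉ cls ω G) * ∑ a ∈ univ.filter (fun a => a ∉ cls ω G),
      ∑ b ∈ (cls ω G).filter (fun b => s(a, b) ∈ E), tau (offE E (cls ω G)) p y a) ≤
      (1 - p) * ∑ e ∈ E, Ex E p (dcD G y e) := by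
    have h1 : (1 - p) * ∑ e ∈ E, Ex E p (dcD G y e) =
        Ex E p (fun ω => ∑ e ∈ E, ind (e ∉ ω) * dcD G y e ω) := by
      rw [Ex_sum, Finset.mul_sum]
      exact Finset.sum_congr rfl fun e he => (dcD_indep E p G y e he).symm
    rw [h1]
    refine le_trans (le_of_eq ?_) (Ex_mono E p hp0 hp1' _ _ fun ω hω => dc_point E ω hω G y)
    have h2 := b_mark_cls E G p (fun A _ η => ind (y ∉ A) *
      ∑ a ∈ univ.filter (fun a => a ∉ A), ∑ b ∈ A.filter (fun b => s(a, b) ∈ E),
        ind (a ∈ cl η y))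
    refine Eq.trans ?_ h2.symm
    refine Ex_congr _ _ _ _ fun ω _ => ?_
    rw [Ex_mul_left, Ex_sum]
    congr 1
    refine Finset.sum_congr rfl fun a _ => ?_
    rw [Ex_sum]
    rfl
  -- step B
  have hB : Ex E p (fun ω => ind (y ∉ cls ω G) * ((cl ω y).card : ℝ)) =
      Ex E p (fun ω => ind (y ∉ cls ω G) * chi (offE E (cls ω G)) p y) := by
    have h2 := b_mark_cls E G p (fun A _ η => ind (y ∉ A) * ((cl η y).card : ℝ))
    refine Eq.trans ?_ (h2.trans ?_)
    · refine Ex_congr _ _ _ _ fun ω hω => ?_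
      by_cases hy : y ∈ cls ω G
      · have h1 : ind (y ∉ cls ω G) = 0 := by unfold ind; rw [if_neg (not_not.2 hy)]
        rw [h1, zero_mul, zero_mul]
      · rw [(xb_cl_outside E ω hω G y hy).1]
    · refine Ex_congr _ _ _ _ fun ω _ => ?_
      rw [Ex_mul_left]
      rfl
  -- step C
  have hC : chi E pa y * Ex E p (fun ω => ind (y ∉ cls ω G)) -
      Ex E p (fun ω => ind (y ∉ cls ω G) * chi (offE E (cls ω G)) p y) ≤
      pa * X * Ex E p (fun ω => ind (y ∉ cls ω G) * ∑ a ∈ univ.filter (fun a => a ∉ cls ω G),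
      ∑ b ∈ (cls ω G).filter (fun b => s(a, b) ∈ E), tau (offE E (cls ω G)) p y a) := by
    rw [← Ex_mul_left, ← Ex_sub, ← Ex_mul_left]
    refine Ex_mono E p hp0 hp1' _ _ fun ω hω => ?_
    by_cases hy : y ∈ cls ω G
    · have h1 : ind (y ∉ cls ω G) = 0 := by unfold ind; rw [if_neg (not_not.2 hy)]
      rw [h1]
      simp
    · have h1 : ind (y ∉ cls ω G) = 1 := by unfold ind; rw [if_pos hy]
      rw [h1, mul_one, one_mul, one_mul]
      have h2 := b_chiw E pa ha0 (hap.trans hp1') X hX (cls ω G) y hy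
      have h3 := xb_chi_mono_p (offE E (cls ω G)) pa p ha0 hap hp1' y
      have h4 : ∑ a ∈ univ.filter (fun a => a ∉ cls ω G),
          ∑ b ∈ (cls ω G).filter (fun b => s(a, b) ∈ E), tau (offE E (cls ω G)) pa y a ≤
          ∑ a ∈ univ.filter (fun a => a ∉ cls ω G),
          ∑ b ∈ (cls ω G).filter (fun b => s(a, b) ∈ E), tau (offE E (cls ω G)) p y a :=
        Finset.sum_le_sum fun a _ => Finset.sum_le_sum fun b _ =>
          xb_tau_mono_p (offE E (cls ω G)) pa p ha0 hap hp1' y a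
      have h5 := mul_le_mul_of_nonneg_left h4 (mul_nonneg hX0.le ha0)
      have h6 : pa * X = X * pa := mul_comm _ _
      rw [h6]
      linarith
  rw [hB]
  exact hC.trans (mul_le_mul_of_nonneg_left hA (mul_nonneg ha0 hX0.le))

theorem b_dcta (E : Finset (Sym2 V)) (pa p h X : ℝ) (ha0 : 0 ≤ pa) (hap : pa ≤ p) (hp1 : p < 1)
    (hh0 : 0 ≤ h) (hh1 : h ≤ 1) (hX0 : 0 < X) (hX : ∀ b, chi E pa b ≤ X) (y : V) :
    (chi E pa y * (1 - Mh E p h y) -
      Ex E p (fun ω => ((cl ω y).card : ℝ) * (1 - h) ^ (cl ω y).card)) / X ≤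
    p * ∑ e ∈ E, Ex E p (fun ω => (1 - (1 - h) ^ (cl (insert e ω) y).card) -
      (1 - (1 - h) ^ (cl (ω.erase e) y).card)) := by
  have hp0 : 0 ≤ p := ha0.trans hap
  have hp1' : p ≤ 1 := hp1.le
  -- average of the discrete derivative
  have hD : ∀ e, Ex (univ : Finset V) h (fun G => Ex E p (dcD G y e)) =
      Ex E p (fun ω => (1 - (1 - h) ^ (cl (insert e ω) y).card) -
      (1 - (1 - h) ^ (cl (ω.erase e) y).card)) := by
    intro e
    rw [← xb_Ex_swap E (univ : Finset V) p h (fun ω G => dcD G y e ω)]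
    refine Ex_congr _ _ _ _ fun ω _ => ?_
    have h1 : (fun G => dcD G y e ω) =
        fun G => (1 - ind (y ∉ cls (insert e ω) G)) - (1 - ind (y ∉ cls (ω.erase e) G)) := by
      funext G
      unfold dcD
      rw [dc_ind_not, dc_ind_not]
      ring
    rw [h1, Ex_sub, Ex_sub, Ex_sub, Ex_const, dc_ghost', dc_ghost']
  have h1 : Ex (univ : Finset V) h (fun G => chi E pa y * Ex E p (fun ω => ind (y ∉ cls ω G)) -
      Ex E p (fun ω => ind (y ∉ cls ω G) * ((cl ω y).card : ℝ))) ≤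
      Ex (univ : Finset V) h (fun G => pa * X * ((1 - p) * ∑ e ∈ E, Ex E p (dcD G y e))) :=
    Ex_mono _ h hh0 hh1 _ _ fun G _ => dc_fixed E pa p X ha0 hap hp1 hX0 hX y G
  rw [Ex_sub, Ex_mul_left, Ex_mul_left, Ex_mul_left, Ex_sum] at h1
  simp_rw [hD] at h1
  have h2 : Ex (univ : Finset V) h (fun G => Ex E p (fun ω => ind (y ∉ cls ω G))) =
      1 - Mh E p h y := by
    rw [← xb_Ex_swap E (univ : Finset V) p h (fun ω G => ind (y ∉ cls ω G))]
    unfold Mh
    rw [sub_sub_cancel]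
    exact Ex_congr _ _ _ _ fun ω _ => dc_ghost' ω y h
  have h3 : Ex (univ : Finset V) h (fun G => Ex E p (fun ω => ind (y ∉ cls ω G) *
      ((cl ω y).card : ℝ))) = Ex E p (fun ω => ((cl ω y).card : ℝ) * (1 - h) ^ (cl ω y).card) := by
    rw [← xb_Ex_swap E (univ : Finset V) p h (fun ω G => ind (y ∉ cls ω G) * ((cl ω y).card : ℝ))]
    refine Ex_congr _ _ _ _ fun ω _ => ?_
    have h4 : (fun G => ind (y ∉ cls ω G) * ((cl ω y).card : ℝ)) =
        fun G => ((cl ω y).card : ℝ) * ind (y ∉ cls ω G) := by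
      funext G
      ring
    rw [h4, Ex_mul_left, dc_ghost']
  rw [h2, h3] at h1
  set Sd := ∑ e ∈ E, Ex E p (fun ω => (1 - (1 - h) ^ (cl (insert e ω) y).card) -
      (1 - (1 - h) ^ (cl (ω.erase e) y).card)) with hSd
  have hSd0 : 0 ≤ Sd := by
    refine Finset.sum_nonneg fun e _ => xb_Ex_nonneg E p hp0 hp1' _ fun ω _ => ?_
    have h4 : (cl (ω.erase e) y).card ≤ (cl (insert e ω) y).card :=
      Finset.card_le_card (cl_mono _ _
        ((Finset.erase_subset e ω).trans (Finset.subset_insert e ω)) y)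
    have h5 : (1 - h) ^ (cl (insert e ω) y).card ≤ (1 - h) ^ (cl (ω.erase e) y).card :=
      pow_le_pow_of_le_one (by linarith) (by linarith) h4
    linarith
  rw [div_le_iff₀ hX0]
  refine h1.trans ?_
  have h6 : pa * (1 - p) ≤ p := by nlinarith
  have h7 : pa * X * ((1 - p) * Sd) = (pa * (1 - p)) * (Sd * X) := by ring
  rw [h7]
  calc pa * (1 - p) * (Sd * X) ≤ p * (Sd * X) :=
        mul_le_mul_of_nonneg_right h6 (mul_nonneg hSd0 hX0.le)
    _ = p * Sd * X := by ring

private theorem dc_pow (h : ℝ) (hh0 : 0 ≤ h) (hh1 : h ≤ 1) (n : ℕ) :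
    h * ((n : ℝ) * (1 - h) ^ n) ≤ 1 - (1 - h) ^ n := by
  induction n with
  | zero => simp
  | succ n ih =>
    have h0 : 0 ≤ 1 - h := by linarith
    have h1 : (1 - h) ^ (n + 1) ≤ (1 - h) ^ n := pow_le_pow_of_le_one h0 (by linarith) (Nat.le_succ n)
    have h2 : (n : ℝ) * (1 - h) ^ (n + 1) ≤ n * (1 - h) ^ n :=
      mul_le_mul_of_nonneg_left h1 (Nat.cast_nonneg n)
    have h3 := mul_le_mul_of_nonneg_left h2 hh0
    have h4 := mul_le_mul_of_nonneg_left h1 hh0
    have h5 : (1 - h) ^ (n + 1) = (1 - h) ^ n - h * (1 - h) ^ n := by ring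
    push_cast
    have h6 : h * (((n : ℝ) + 1) * (1 - h) ^ (n + 1)) =
        h * (n * (1 - h) ^ (n + 1)) + h * (1 - h) ^ (n + 1) := by ring
    rw [h6]
    linarith

theorem b_dctb (E : Finset (Sym2 V)) (pa p2 h X : ℝ) (ha0 : 0 < pa) (hap : pa ≤ p2)
    (hp1 : p2 < 1) (hh0 : 0 < h) (hh1 : h ≤ 1) (hX0 : 0 < X) (hX : ∀ b, chi E pa b ≤ X) (y : V) :
    min (1 / 4) (min (h * chi E pa y / 4) (chi E pa y / (2 * X) * (1 - pa / p2))) ≤
      Mh E p2 h y := by
  by_contra hcon
  push Not at hcon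
  rw [lt_min_iff, lt_min_iff] at hcon
  obtain ⟨c1, c2, c3⟩ := hcon
  set A := chi E pa y with hA
  set F : Finset (Sym2 V) → ℝ := fun ω => 1 - (1 - h) ^ (cl ω y).card with hF
  have hMF : ∀ p, Mh E p h y = Ex E p F := by
    intro p
    rw [hF, Ex_sub, Ex_const]
    rfl
  have hA0 : 0 ≤ A := (zero_le_one).trans (xb_chi_ge_one E pa ha0.le (hap.trans hp1.le) y)
  have hmono : ∀ p, pa ≤ p → p ≤ p2 → Mh E p h y ≤ Mh E p2 h y := by
    intro p h1 h2
    rw [hMF, hMF]
    refine Ex_mono_p E p p2 (ha0.le.trans h1) h2 hp1.le F fun ω ω' hsub _ => ?_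
    show 1 - (1 - h) ^ (cl ω y).card ≤ 1 - (1 - h) ^ (cl ω' y).card
    have h3 := pow_le_pow_of_le_one (show 0 ≤ 1 - h by linarith) (show 1 - h ≤ 1 by linarith)
      (Finset.card_le_card (cl_mono _ _ hsub y))
    linarith
  have hder : ∀ p, HasDerivAt (fun p => Mh E p h y)
      (∑ e ∈ E, Ex E p (fun ω => F (insert e ω) - F (ω.erase e))) p := by
    intro p
    have h1 := b_russ E F p
    have h2 : (fun p => Mh E p h y) = fun p => Ex E p F := funext hMF
    rw [h2]
    exact h1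
  have hlow : ∀ p, pa ≤ p → p ≤ p2 → A / (2 * X) ≤
      p * ∑ e ∈ E, Ex E p (fun ω => F (insert e ω) - F (ω.erase e)) := by
    intro p h1 h2
    have hp0 : 0 ≤ p := ha0.le.trans h1
    have hpl : p < 1 := lt_of_le_of_lt h2 hp1
    have h3 := b_dcta E pa p h X ha0.le h1 hpl hh0.le hh1 hX0 hX y
    refine le_trans ?_ h3
    have h4 : Ex E p (fun ω => ((cl ω y).card : ℝ) * (1 - h) ^ (cl ω y).card) ≤ A / 4 := by
      have h5 : h * Ex E p (fun ω => ((cl ω y).card : ℝ) * (1 - h) ^ (cl ω y).card) ≤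
          Mh E p h y := by
        rw [hMF, ← Ex_mul_left]
        exact Ex_mono E p hp0 hpl.le _ _ fun ω _ => dc_pow h hh0.le hh1 _
      have h6 := hmono p h1 h2
      have h7 : h * Ex E p (fun ω => ((cl ω y).card : ℝ) * (1 - h) ^ (cl ω y).card) ≤
          h * (A / 4) := by
        have : h * (A / 4) = h * A / 4 := by ring
        rw [this]
        linarith
      exact le_of_mul_le_mul_left h7 hh0
    have h8 : A * (3 / 4) ≤ A * (1 - Mh E p h y) := by
      apply mul_le_mul_of_nonneg_left _ hA0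
      have := hmono p h1 h2
      linarith
    have h9 : A / (2 * X) = (A / 2) / X := by field_simp
    rw [h9]
    apply div_le_div_of_nonneg_right _ hX0.le
    linarith
  -- integrate
  have hp20 : 0 < p2 := lt_of_lt_of_le ha0 hap
  have hmon : MonotoneOn (fun p => Mh E p h y - A / (2 * X) * Real.log p) (Set.Icc pa p2) := by
    have hd : ∀ p ∈ Set.Icc pa p2, HasDerivAt (fun p => Mh E p h y - A / (2 * X) * Real.log p)
        (∑ e ∈ E, Ex E p (fun ω => F (insert e ω) - F (ω.erase e)) - A / (2 * X) * p⁻¹) p := by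
      intro p hp
      exact (hder p).sub ((Real.hasDerivAt_log (lt_of_lt_of_le ha0 hp.1).ne').const_mul _)
    refine monotoneOn_of_deriv_nonneg (convex_Icc pa p2)
      (fun p hp => (hd p hp).continuousAt.continuousWithinAt)
      (fun p hp => (hd p (interior_subset hp)).differentiableAt.differentiableWithinAt)
      (fun p hp => ?_)
    have hp' := interior_subset hp
    rw [(hd p hp').deriv]
    have hpp : 0 < p := lt_of_lt_of_le ha0 hp'.1
    have h1 := hlow p hp'.1 hp'.2
    have h2 : A / (2 * X) * p⁻¹ ≤ ∑ e ∈ E, Ex E p (fun ω => F (insert e ω) - F (ω.erase e)) := by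
      rw [← div_eq_mul_inv, div_le_iff₀ hpp]
      linarith
    linarith
  have h1 := hmon ⟨le_rfl, hap⟩ ⟨hap, le_rfl⟩ hap
  simp only at h1
  have h2 : 0 ≤ Mh E pa h y := by
    rw [hMF]
    refine xb_Ex_nonneg E pa ha0.le (hap.trans hp1.le) F fun ω _ => ?_
    show 0 ≤ 1 - (1 - h) ^ (cl ω y).card
    have := pow_le_one₀ (n := (cl ω y).card) (show 0 ≤ 1 - h by linarith)
      (show 1 - h ≤ 1 by linarith)
    linarith
  have h3 : 1 - pa / p2 ≤ Real.log p2 - Real.log pa := by
    rw [← Real.log_div hp20.ne' ha0.ne']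
    have h4 := Real.one_sub_inv_le_log_of_pos (show 0 < p2 / pa by positivity)
    rwa [inv_div] at h4
  have h5 : A / (2 * X) * (1 - pa / p2) ≤ A / (2 * X) * (Real.log p2 - Real.log pa) :=
    mul_le_mul_of_nonneg_left h3 (by positivity)
  have h6 : A / (2 * X) * (Real.log p2 - Real.log pa) =
      A / (2 * X) * Real.log p2 - A / (2 * X) * Real.log pa := by ring
  linarith

end DCT

end Pool.Agent.Work.MP_b7dc8a_pr
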