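import Pool.Agent.Work.MP_b7dc8a_pr.Base

/-! Definitions for the module family B (do not change) -/

namespace Pool.Agent.Work.MP_b7dc8a_pr

open Finset

open Classical in
/-- the edges of `E` which do not touch `S` -/
noncomputable def offE {V : Type} (E : Finset (Sym2 V)) (S : Finset V) : Finset (Sym2 V) :=
  E.filter fun e => ∀ x ∈ e, x ∉ S

/-- two point function: probability that `x` and `y` are connected -/
noncomputable def tau {V : Type} [Fintype V] (E : Finset (Sym2 V)) (p : ℝ) (x y : V) : ℝ :=
  Ex E p (fun ω => ind (y ∈ cl ω x))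

/-- expectation of a function of the cluster of `x` -/
noncomputable def wt {V : Type} [Fintype V] (E : Finset (Sym2 V)) (p : ℝ) (Θ : Finset V → ℝ)
    (x : V) : ℝ :=
  Ex E p (fun ω => Θ (cl ω x))

/-- sum of `g` over `A` -/
noncomputable def sm {V : Type} (g : V → ℝ) (A : Finset V) : ℝ := ∑ z ∈ A, g z

/-- expected size of the cluster of `x` -/
noncomputable def chi {V : Type} [Fintype V] (E : Finset (Sym2 V)) (p : ℝ) (x : V) : ℝ :=
  Ex E p (fun ω => ((cl ω x).card : ℝ))

open Classical in
/-- sum of `f` over the neighbours of `x` in the graph `E` -/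
noncomputable def nb {V : Type} [Fintype V] (E : Finset (Sym2 V)) (f : V → ℝ) (x : V) : ℝ :=
  ∑ z ∈ univ.filter (fun z => s(x, z) ∈ E), f z

open Classical in
/-- number of walks of length `t` from `x` to `y` in the graph `E` -/
noncomputable def wk {V : Type} [Fintype V] (E : Finset (Sym2 V)) (t : ℕ) (x y : V) : ℝ :=
  (nb E)^[t] (fun z => if z = y then 1 else 0) x

/-- magnetization: probability that the cluster of `x` is hit by a random set of density `h` -/
noncomputable def Mh {V : Type} [Fintype V] (E : Finset (Sym2 V)) (p h : ℝ) (x : V) : ℝ :=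
  1 - Ex E p (fun ω => (1 - h) ^ (cl ω x).card)

/-- `log m / m` -/
noncomputable def dl (m : ℕ) : ℝ := Real.log m / m

/-- quasi-polynomial factor `exp (c log^2 m)` -/
noncomputable def LL (c : ℝ) (m : ℕ) : ℝ := Real.exp (c * Real.log m ^ 2)

/-- the mixing time `m log m` -/
noncomputable def TT (m : ℕ) : ℕ := ⌈(m : ℝ) * Real.log m⌉₊

/-- `y` is a good vertex outside `S`: the simple random walk started from `y` stays outside `S`
during `TT m` steps with probability at least `1 / (4 (TT m + 2))` -/
def good (m : ℕ) (S : Finset (Q m)) (y : Q m) : Prop :=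
  y ∉ S ∧ 1 / (4 * ((TT m : ℝ) + 2)) ≤
    (nb (offE (cubeE m) S))^[TT m] (fun _ => 1) y / (m : ℝ) ^ TT m

/-- bound for the number of walks of length `j` between two different vertices of the cube -/
noncomputable def MM (m j : ℕ) : ℝ :=
  min (3 * (1 + 1 / (m : ℝ)) ^ j * (m : ℝ) ^ j / (m : ℝ) ^ 2)
    (2 * (m : ℝ) ^ j * ((1 + Real.exp (-(2 * j / m))) / 2) ^ m)

open Classical in
/-- number of neighbours of `z` in `T` (in the cube) -/
noncomputable def gT {m : ℕ} (T : Finset (Q m)) (z : Q m) : ℝ :=
  ((T.filter fun t => s(z, t) ∈ cubeE m).card : ℝ)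

end Pool.Agent.Work.MP_b7dc8a_pr
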