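import Pool.Agent.Work.MP_b7dc8a_pr.B.Gapx
import Pool.Agent.Work.MP_b7dc8a_pr.B.Choff
import Pool.Agent.Work.MP_b7dc8a_pr.B.Dct

/-! Module GAPN (M-L, assembly with explicit parameters): the gap estimate at `pc (1 + e)`.

Parameters (`T = TT m`, `m` large): `X = LL 31000 m / e`, `c0 = LL (-30000) m`, `σ0 = c0 e / 8`,
`h = c0 e^2 / (512 (T+2))`, `p'' = pc (1 + e/2)`, `p = pc (1+e)`, `q = (p - p'')/(1 - p'')` so that
`p = p'' + q - p'' q` and `q >= p - p'' = pc e / 2 >= e / (2m)`, `q <= 1`.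
By `b_chip`: `pa <= pc` with `chi (cubeE m) pa = X` everywhere, `1 - 1/X <= pa m` (so `pa > 0`).
`pa m <= pc m <= 1 + 5000 dl m`.
Hypothesis `hgood` of `b_gapx`: let `|S| <= R`, `good m S y`, `E = offE (cubeE m) S`. `b_choff`:
`A = chi E pa y >= c0 X` (`m^2 <= X` because `e <= 1` and `LL 31000 m >= m^2`). `b_dctb` for `E`
(`chi E pa b <= chi (cubeE m) pa b = X`), `pa`, `p2 = p''`:
`Mh E p'' h y >= min (1/4) (min (h A / 4) (A/(2X) (1 - pa/p'')))`, where
`h A / 4 >= h c0 X / 4 >= σ0` since `h X = c0 e LL 31000 m / (512 (T+2)) >= e/2` (large `m`: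
`LL 1000 m >= 256 (T+2)`), `1 - pa/p'' >= 1 - 1/(1+e/2) >= e/4` (`e <= 1`) so the last is
`>= c0 e / 8 = σ0`, and `σ0 <= 1/4`. `Mh >= σ0` is `Ex [(1-h)^|cl|] <= 1 - σ0`.
`R` condition of `b_gapx`: `R * 8 (T+2) <= R X 128 (T+2) <= 2^m`.
Bracket: `q σ0 m / (8 (T+2)) - 2h >= e/(2m) * c0 e/8 * m/(8(T+2)) - 2h = c0 e^2/(256 (T+2))
>= e^2 LL (-31000) m` for large `m`. -/

namespace Pool.Agent.Work.MP_b7dc8a_pr

open Finset

private theorem gapn_LL (m : ℕ) : LL (-30000) m * LL 31000 m = LL 1000 m := by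
  rw [xn_LL_add]
  norm_num

private theorem gapn_LL2 (m : ℕ) : LL (-31000) m * LL 1000 m = LL (-30000) m := by
  rw [xn_LL_add]
  norm_num

private theorem gapn_LLle (m : ℕ) : LL (-30000) m ≤ 1 := by
  unfold LL
  rw [Real.exp_le_one_iff]
  have : 0 ≤ Real.log m ^ 2 := by positivity
  linarith

/-- parameters and the hypothesis of the exploration estimates -/
theorem b_hgood : ∃ m0 : ℕ, ∀ m ≥ m0, ∀ (pc e : ℝ) (S : Finset (Q m)) (y o : Q m),
    1 ≤ pc * m → pc * m ≤ 1 + 5000 * dl m → 0 < e → e ≤ 1 →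
    LL 31000 m / e ≤ chi (cubeE m) pc o → LL 30000 m * (LL 31000 m / e) ^ 3 ≤ 2 ^ m →
    (S.card : ℝ) * (LL 31000 m / e) * (128 * ((TT m : ℝ) + 2)) ≤ 2 ^ m → good m S y →
    LL (-30000) m * e / 8 ≤ Mh (offE (cubeE m) S) (pc * (1 + e / 2))
      (LL (-30000) m * e ^ 2 / (512 * ((TT m : ℝ) + 2))) y := by
  obtain ⟨mA, hmA⟩ := b_choff
  obtain ⟨mB, hmB⟩ := xn_dl 5000 1 (by norm_num)
  obtain ⟨mC, hmC⟩ := xn_poly 2 1 31000 (by norm_num)
  obtain ⟨mD, hmD⟩ := xn_poly 2 768 1000 (by norm_num)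
  refine ⟨max 4 (max mA (max mB (max mC mD))), fun m hm => ?_⟩
  simp only [ge_iff_le, max_le_iff] at hm
  obtain ⟨hm4, hmA', hmB', hmC', hmD'⟩ := hm
  intro pc e S y o hpc1 hpc2 he0 he1 hXle hX3 hSX hgood
  have hm4r : (4 : ℝ) ≤ m := by exact_mod_cast hm4
  have hm0r : (0 : ℝ) < m := by linarith
  have hdl := hmB m hmB'
  have hC := hmC m hmC'
  have hD := hmD m hmD'
  have hpc0 : 0 < pc := by
    by_contra hcon
    push Not at hcon
    nlinarith
  have hpch : pc ≤ 1 / 2 := by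
    by_contra hcon
    push Not at hcon
    nlinarith
  have hL31 := xn_LL_pos 31000 m
  set X := LL 31000 m / e with hXdef
  have hXe : X * e = LL 31000 m := by
    rw [hXdef]
    field_simp
  have hX0 : 0 < X := by positivity
  have hXm : (m : ℝ) ^ 2 ≤ X := by
    have : LL 31000 m ≤ X := by
      rw [hXdef, le_div_iff₀ he0]
      nlinarith
    linarith
  have hX1 : 1 ≤ X := by nlinarith
  obtain ⟨pa, hpa0, hpapc, hpaX, hpam⟩ := b_chip m (by omega) pc X hpc0.le (by linarith) hX1 o hXle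
  have hpa2 : pa * m ≤ 1 + 5000 * dl m := by
    refine le_trans ?_ hpc2
    exact mul_le_mul_of_nonneg_right hpapc hm0r.le
  have hA := hmA m hmA' pa X S y hpa0 hpa2 hpaX hpam hXm hX3 hSX hgood
  set c0 := LL (-30000) m with hc0
  have hc0pos : 0 < c0 := xn_LL_pos _ _
  have hc0le : c0 ≤ 1 := gapn_LLle m
  set E := offE (cubeE m) S with hE
  have hEsub : E ⊆ cubeE m := xb_offE_subset _ _
  have hT0 : (0 : ℝ) ≤ TT m := Nat.cast_nonneg _
  have hTT := (xn_TT m (by omega)).2.2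
  set T : ℝ := (TT m : ℝ) with hT
  have hpapos : 0 < pa := by
    have h1 : 1 / X ≤ 1 / 2 := by
      apply one_div_le_one_div_of_le (by norm_num)
      nlinarith
    by_contra hcon
    push Not at hcon
    nlinarith
  have hp2 : pc * (1 + e / 2) < 1 := by nlinarith
  have hap : pa ≤ pc * (1 + e / 2) := by nlinarith
  have he2 : e ^ 2 ≤ 1 := by nlinarith
  have hh0 : 0 < c0 * e ^ 2 / (512 * (T + 2)) := by positivity
  have hh1 : c0 * e ^ 2 / (512 * (T + 2)) ≤ 1 := by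
    rw [div_le_one (by positivity)]
    have : c0 * e ^ 2 ≤ 1 * 1 := mul_le_mul hc0le he2 (by positivity) (by norm_num)
    linarith
  have hpa1 : pa ≤ 1 := by linarith
  have hdct := b_dctb E pa (pc * (1 + e / 2)) (c0 * e ^ 2 / (512 * (T + 2))) X hpapos hap hp2
    hh0 hh1 hX0 (fun b => by
      rw [← hpaX b]
      exact xb_chi_mono_E _ _ hEsub pa hpa0 hpa1 b) y
  refine le_trans ?_ hdct
  set A := chi E pa y with hAdef
  have hce : 0 < c0 * e := mul_pos hc0pos he0
  have hce1 : c0 * e ≤ 1 := by nlinarith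
  refine le_min (by linarith) (le_min ?_ ?_)
  · -- h A / 4
    have h1 : 256 * (T + 2) ≤ c0 * (X * e) := by
      rw [hXe, gapn_LL]
      nlinarith
    have h2 : c0 * e ^ 2 / (512 * (T + 2)) * (c0 * X) ≤ c0 * e ^ 2 / (512 * (T + 2)) * A :=
      mul_le_mul_of_nonneg_left hA hh0.le
    have h3 : c0 * e / 2 ≤ c0 * e ^ 2 / (512 * (T + 2)) * (c0 * X) := by
      rw [div_mul_eq_mul_div, div_le_div_iff₀ (by norm_num) (by positivity)]
      have h4 := mul_le_mul_of_nonneg_left h1 hce.le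
      nlinarith
    linarith
  · have h1 : c0 ≤ A / X := by
      rw [le_div_iff₀ hX0]
      exact hA
    have h2 : e / 4 ≤ 1 - pa / (pc * (1 + e / 2)) := by
      have h3 : pa / (pc * (1 + e / 2)) ≤ 1 / (1 + e / 2) := by
        rw [div_le_div_iff₀ (by positivity) (by positivity)]
        nlinarith
      have h4 : 1 / (1 + e / 2) ≤ 1 - e / 4 := by
        rw [div_le_iff₀ (by positivity)]
        nlinarith
      linarith
    have h5 : A / (2 * X) = A / X / 2 := by
      field_simp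
    rw [h5]
    calc c0 * e / 8 = c0 / 2 * (e / 4) := by ring
      _ ≤ A / X / 2 * (1 - pa / (pc * (1 + e / 2))) := by
          apply mul_le_mul (by linarith) h2 (by positivity)
          have : 0 ≤ A / X := le_trans hc0pos.le h1
          linarith

theorem b_gapn : ∃ m0 : ℕ, ∀ m ≥ m0, ∀ (pc e : ℝ) (R : ℕ) (o : Q m),
    1 ≤ pc * m → pc * m ≤ 1 + 5000 * dl m → 0 < e → e ≤ 1 → pc * (1 + e) ≤ 1 →
    LL 31000 m / e ≤ chi (cubeE m) pc o → LL 30000 m * (LL 31000 m / e) ^ 3 ≤ 2 ^ m →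
    (R : ℝ) * (LL 31000 m / e) * (128 * ((TT m : ℝ) + 2)) ≤ 2 ^ m →
    ∀ (n : ℕ) (x : Q m),
    Ex (cubeE m) (pc * (1 + e)) (fun ω => ind (n < (cl ω x).card ∧ (cl ω x).card ≤ R)) ≤
      Real.exp (-(n * (e ^ 2 * LL (-31000) m))) := by
  obtain ⟨mA, hmA⟩ := b_hgood
  obtain ⟨mB, hmB⟩ := xn_dl 5000 1 (by norm_num)
  obtain ⟨mD, hmD⟩ := xn_poly 2 768 1000 (by norm_num)
  refine ⟨max 4 (max mA (max mB mD)), fun m hm => ?_⟩
  simp only [ge_iff_le, max_le_iff] at hm
  obtain ⟨hm4, hmA', hmB', hmD'⟩ := hm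
  intro pc e R o hpc1 hpc2 he0 he1 hple hXle hX3 hRX n x
  have hm4r : (4 : ℝ) ≤ m := by exact_mod_cast hm4
  have hm0r : (0 : ℝ) < m := by linarith
  have hdl := hmB m hmB'
  have hD := hmD m hmD'
  have hpc0 : 0 < pc := by
    by_contra hcon
    push Not at hcon
    nlinarith
  have hpch : pc ≤ 1 / 2 := by
    by_contra hcon
    push Not at hcon
    nlinarith
  have hL31 := xn_LL_one 31000 (by norm_num) m
  have hX1 : 1 ≤ LL 31000 m / e := by
    rw [le_div_iff₀ he0]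
    linarith
  have hX0 : 0 < LL 31000 m / e := by linarith
  have hc0pos : 0 < LL (-30000) m := xn_LL_pos _ _
  have hc0le : LL (-30000) m ≤ 1 := gapn_LLle m
  have hLL2 := gapn_LL2 m
  have hL31n := xn_LL_pos (-31000) m
  have hT0 : (0 : ℝ) ≤ TT m := Nat.cast_nonneg _
  have hTT := (xn_TT m (by omega)).2.2
  have hg := hmA m hmA' pc e
  set c0 := LL (-30000) m with hc0
  set X := LL 31000 m / e with hXdef
  set T : ℝ := (TT m : ℝ) with hT
  have hp2 : pc * (1 + e / 2) < 1 := by nlinarith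
  have hp20 : 0 < pc * (1 + e / 2) := by positivity
  set p2 := pc * (1 + e / 2) with hp2def
  have h1p2 : 0 < 1 - p2 := by linarith
  have hdiff : pc * (1 + e) - p2 = pc * e / 2 := by
    rw [hp2def]
    ring
  have hdiff0 : 0 ≤ pc * (1 + e) - p2 := by
    rw [hdiff]
    positivity
  set q := (pc * (1 + e) - p2) / (1 - p2) with hq
  have hq0 : 0 ≤ q := div_nonneg hdiff0 h1p2.le
  have hq1 : q ≤ 1 := by
    rw [hq, div_le_one h1p2]
    linarith
  have hpq : p2 + q - p2 * q = pc * (1 + e) := by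
    have : q * (1 - p2) = pc * (1 + e) - p2 := by
      rw [hq]
      field_simp
    linarith
  have hqge : e / (2 * m) ≤ q := by
    have h1 : pc * e / 2 ≤ q := by
      rw [hq, hdiff, le_div_iff₀ h1p2]
      have : 0 ≤ pc * e / 2 := by positivity
      nlinarith
    refine le_trans ?_ h1
    rw [div_le_div_iff₀ (by positivity) (by norm_num)]
    nlinarith
  have he2 : e ^ 2 ≤ 1 := by nlinarith
  have hh0 : 0 ≤ c0 * e ^ 2 / (512 * (T + 2)) := by positivity
  have hh1 : c0 * e ^ 2 / (512 * (T + 2)) ≤ 1 / 2 := by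
    rw [div_le_div_iff₀ (by positivity) (by norm_num)]
    have : c0 * e ^ 2 ≤ 1 * 1 := mul_le_mul hc0le he2 (by positivity) (by norm_num)
    linarith
  have hs0 : 0 ≤ c0 * e / 8 := by positivity
  have hs1 : c0 * e / 8 ≤ 1 := by nlinarith
  have hT2 : (0 : ℝ) < T + 2 := by linarith
  have hR : (R : ℝ) * (8 * (T + 2)) ≤ 2 ^ m := by
    refine le_trans ?_ hRX
    have hR0 : (0 : ℝ) ≤ R := Nat.cast_nonneg _
    calc (R : ℝ) * (8 * (T + 2)) ≤ (R : ℝ) * (128 * (T + 2)) := by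
          apply mul_le_mul_of_nonneg_left _ hR0
          linarith
      _ = (R : ℝ) * 1 * (128 * (T + 2)) := by ring
      _ ≤ (R : ℝ) * X * (128 * (T + 2)) := by
          apply mul_le_mul_of_nonneg_right _ (by linarith)
          exact mul_le_mul_of_nonneg_left hX1 hR0
  have hkey : c0 * e ^ 2 / (256 * (T + 2)) ≤
      q * (c0 * e / 8) * m / (8 * (T + 2)) - 2 * (c0 * e ^ 2 / (512 * (T + 2))) := by
    have h1 : e / (2 * m) * (c0 * e / 8) * m / (8 * (T + 2)) ≤
        q * (c0 * e / 8) * m / (8 * (T + 2)) := by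
      apply div_le_div_of_nonneg_right _ (by positivity)
      apply mul_le_mul_of_nonneg_right _ hm0r.le
      exact mul_le_mul_of_nonneg_right hqge hs0
    have h2 : e / (2 * m) * (c0 * e / 8) * m / (8 * (T + 2)) =
        c0 * e ^ 2 / (256 * (T + 2)) + 2 * (c0 * e ^ 2 / (512 * (T + 2))) := by
      field_simp
      ring
    linarith
  have hkey0 : 0 ≤ c0 * e ^ 2 / (256 * (T + 2)) := by positivity
  have hx := b_gapx m (by omega) p2 q (c0 * e ^ 2 / (512 * (T + 2))) (c0 * e / 8) hp20.le hp2.le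
    hq0 hq1 hh0 hh1 hs0 hs1 R hR
    (by
      intro S y hS hgood
      have hSR : (S.card : ℝ) ≤ R := by exact_mod_cast hS
      have := hg S y o hpc1 hpc2 he0 he1 hXle hX3
        (by
          refine le_trans ?_ hRX
          apply mul_le_mul_of_nonneg_right _ (by linarith)
          exact mul_le_mul_of_nonneg_right hSR hX0.le) hgood
      unfold Mh at this
      linarith)
    (by linarith) n x
  rw [hpq] at hx
  refine hx.trans ?_
  rw [Real.exp_le_exp]
  apply neg_le_neg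
  apply mul_le_mul_of_nonneg_left _ (Nat.cast_nonneg n)
  refine le_trans ?_ hkey
  rw [le_div_iff₀ (by positivity)]
  have h1 : 256 * (T + 2) ≤ LL 1000 m := by nlinarith
  have h2 : LL (-31000) m * (256 * (T + 2)) ≤ c0 := by
    rw [← hLL2]
    exact mul_le_mul_of_nonneg_left h1 hL31n.le
  have h3 := mul_le_mul_of_nonneg_left h2 (sq_nonneg e)
  linarith

end Pool.Agent.Work.MP_b7dc8a_pr
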