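import Pool.Agent.Work.MP_b7dc8a_pr.B.Dct
import Pool.Agent.Work.MP_b7dc8a_pr.Exlow

/-! Module THET (S): lower bound for the probability of a large cluster at `pc (1+e)`.

`b_dctb` with `E = cubeE m`, `pa = pc`, `p2 = pc (1+e)`, `X = chi (cubeE m) pc o` (the same for all
vertices, `exlow_trans`; `X >= 1`), `h = e / X <= 1`: `h A / 4 = e/4`, `A/(2X) (1 - pa/p2)
= (1/2) e/(1+e) >= e/4`, so `e/4 <= Mh = Ex [1 - (1-h)^|C|]`. If `|C| <= N`: `1 - (1-h)^|C| <= h N`,
otherwise `<= 1`: `e/4 <= Ex [ind (N < |C|)] + h N` and `h N = e N / X <= e/8`. -/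

namespace Pool.Agent.Work.MP_b7dc8a_pr

open Finset

theorem b_thet (m : ℕ) (hm : 1 ≤ m) (pc e : ℝ) (hpc : 0 < pc) (he0 : 0 < e) (he1 : e ≤ 1)
    (hp : pc * (1 + e) < 1) (N : ℕ) (x o : Q m) (hN : 8 * (N : ℝ) ≤ chi (cubeE m) pc o) :
    e / 8 ≤ Ex (cubeE m) (pc * (1 + e)) (fun ω => ind (N < (cl ω x).card)) := by
  set p2 := pc * (1 + e) with hp2
  set X := chi (cubeE m) pc o with hX
  have hp20 : 0 < p2 := mul_pos hpc (by linarith)
  have hpcp : pc ≤ p2 := by rw [hp2]; nlinarith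
  have hpc1 : pc ≤ 1 := hpcp.trans hp.le
  have hchi : ∀ y, chi (cubeE m) pc y = X := fun y => exlow_trans pc y o
  have hX1 : 1 ≤ X := xb_chi_ge_one _ pc hpc.le hpc1 o
  have hX0 : 0 < X := by linarith
  set h := e / X with hh
  have hh0 : 0 < h := div_pos he0 hX0
  have hh1 : h ≤ 1 := by
    rw [hh, div_le_one hX0]
    linarith
  have hhX : h * X = e := div_mul_cancel₀ e hX0.ne'
  have h1 := b_dctb (cubeE m) pc p2 h X hpc hpcp hp hh0 hh1 hX0 (fun b => (hchi b).le) x
  rw [hchi x, hhX] at h1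
  have h2 : e / 4 ≤ X / (2 * X) * (1 - pc / p2) := by
    have e1 : X / (2 * X) = 1 / 2 := by field_simp
    have e2 : 1 - pc / p2 = e / (1 + e) := by
      rw [hp2]
      have : (1 + e) ≠ 0 := by linarith
      field_simp
      ring
    rw [e1, e2]
    have : e / 2 ≤ e / (1 + e) := by
      apply div_le_div_of_nonneg_left he0.le (by linarith) (by linarith)
    linarith
  have h3 : e / 4 ≤ Mh (cubeE m) p2 h x := by
    refine le_trans ?_ h1
    refine le_min (by linarith) (le_min le_rfl h2)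
  have h4 : Mh (cubeE m) p2 h x ≤
      Ex (cubeE m) p2 (fun ω => ind (N < (cl ω x).card)) + h * N := by
    unfold Mh
    have e1 : (1 : ℝ) - Ex (cubeE m) p2 (fun ω => (1 - h) ^ (cl ω x).card) =
        Ex (cubeE m) p2 (fun ω => 1 - (1 - h) ^ (cl ω x).card) := by
      rw [Ex_sub, Ex_const]
    have e2 : Ex (cubeE m) p2 (fun ω => ind (N < (cl ω x).card)) + h * N =
        Ex (cubeE m) p2 (fun ω => ind (N < (cl ω x).card) + h * N) := by
      rw [Ex_add, Ex_const]
    rw [e1, e2]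
    refine Ex_mono _ p2 hp20.le hp.le _ _ fun ω _ => ?_
    have hpow : 0 ≤ (1 - h) ^ (cl ω x).card := pow_nonneg (by linarith) _
    by_cases hc : N < (cl ω x).card
    · rw [show ind (N < (cl ω x).card) = 1 by rw [ind, if_pos hc]]
      have : 0 ≤ h * N := by positivity
      linarith
    · rw [show ind (N < (cl ω x).card) = 0 by rw [ind, if_neg hc]]
      have hb := one_add_mul_le_pow (show (-2 : ℝ) ≤ -h by linarith) (cl ω x).card
      have hcN : ((cl ω x).card : ℝ) ≤ N := by exact_mod_cast not_lt.1 hc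
      have e3 : (1 : ℝ) + -h = 1 - h := by ring
      rw [e3] at hb
      nlinarith
  have h5 : h * N ≤ e / 8 := by
    nlinarith
  linarith

end Pool.Agent.Work.MP_b7dc8a_pr
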