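import Pool.Agent.Work.MP_b7dc8a_pr.B.Ucon

/-! Module UALL (M): all large `ζ`-clusters are connected in `ζ ∪ η`.

Union bound over the pairs `(x,y)` (`4^m` of them). Fix `(x,y)`. If `y ∉ cl (ζ ∪ η) x` then
`S = cl ζ x` and `T = cl ζ y` are disjoint, `D = cls ζ {x,y} = S ∪ T`. Apply `b_mark_cls` with the set
`{x,y}`: with `ζ1 = ζ \ offE (cubeE m) D`, `ζ2 = ζ ∩ offE (cubeE m) D` one has `S = cl ζ1 x`,
`T = cl ζ1 y` (`cl_eq_of`) and the event implies that no vertex of `S` is connected to a vertex of `T`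
in `ζ2 ∪ η`. The conditional probability over `ζ2` of density `p1 >= 1/m` is at most the one for density
`1/m` (`Ex_mono_p` for the increasing function `ind (∃ x ∈ S, ∃ y ∈ T, y ∈ cl (ζ2 ∪ η) x)`), then
`b_ucon` with `|S|, |T| >= R`. -/

namespace Pool.Agent.Work.MP_b7dc8a_pr

open Finset

private theorem uall_pair (m : ℕ) (q : ℝ) (hq0 : 0 ≤ q) (hq1 : q ≤ 1) (p1 : ℝ)
    (hp : 1 / (m : ℝ) ≤ p1) (hp1 : p1 ≤ 1) (R : ℕ) (hR : LL 60000 m * (1 + 2 ^ m * q) ≤ R)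
    (hcon : ∀ (q : ℝ) (S T : Finset (Q m)), 0 ≤ q → q ≤ 1 →
      Disjoint S T → LL 60000 m * (1 + 2 ^ m * q) ≤ T.card →
      Ex (offE (cubeE m) (S ∪ T)) (1 / m) (fun ζ => Ex (cubeE m) q (fun η =>
        ind (∀ x ∈ S, ∀ y ∈ T, y ∉ cl (ζ ∪ η) x))) ≤
        2 * Real.exp (-(q ^ 2 * S.card * T.card * LL (-25000) m / 2 ^ m))) (x y : Q m) :
    Ex (cubeE m) p1 (fun ζ => Ex (cubeE m) q (fun η =>
      ind (R ≤ (cl ζ x).card ∧ R ≤ (cl ζ y).card ∧ y ∉ cl (ζ ∪ η) x))) ≤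
      2 * Real.exp (-(q ^ 2 * R ^ 2 * LL (-25000) m / 2 ^ m)) := by
  classical
  have hm0 : (0 : ℝ) ≤ 1 / (m : ℝ) := by positivity
  have hp0 : 0 ≤ p1 := hm0.trans hp
  set B : ℝ := 2 * Real.exp (-(q ^ 2 * R ^ 2 * LL (-25000) m / 2 ^ m)) with hB
  have hB0 : 0 ≤ B := by rw [hB]; positivity
  set H : Finset (Q m) → Finset (Sym2 (Q m)) → Finset (Sym2 (Q m)) → ℝ := fun D ω1 ω2 =>
    Ex (cubeE m) q (fun η => ind ((R ≤ (cl ω1 x).card ∧ R ≤ (cl ω1 y).card ∧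
      Disjoint (cl ω1 x) (cl ω1 y) ∧ D = cl ω1 x ∪ cl ω1 y) ∧
      ∀ a ∈ cl ω1 x, ∀ b ∈ cl ω1 y, b ∉ cl (ω2 ∪ η) a)) with hH
  have step1 : Ex (cubeE m) p1 (fun ζ => Ex (cubeE m) q (fun η =>
      ind (R ≤ (cl ζ x).card ∧ R ≤ (cl ζ y).card ∧ y ∉ cl (ζ ∪ η) x))) ≤
      Ex (cubeE m) p1 (fun ζ => H (cls ζ {x, y}) (ζ \ offE (cubeE m) (cls ζ {x, y}))
        (ζ ∩ offE (cubeE m) (cls ζ {x, y}))) := by
    refine Ex_mono _ _ hp0 hp1 _ _ fun ζ hζ => ?_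
    rw [hH]
    refine Ex_mono _ _ hq0 hq1 _ _ fun η _ => ?_
    refine xb_ind_mono ?_
    rintro ⟨h1, h2, h3⟩
    have hxD : cl ζ x ⊆ cls ζ {x, y} := by
      intro z hz
      rw [xb_mem_cls]
      exact ⟨x, by simp, hz⟩
    have hyD : cl ζ y ⊆ cls ζ {x, y} := by
      intro z hz
      rw [xb_mem_cls]
      exact ⟨y, by simp, hz⟩
    have e : ∀ o, cl ζ o ⊆ cls ζ {x, y} →
        cl (ζ \ offE (cubeE m) (cls ζ {x, y})) o = cl ζ o := by
      intro o ho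
      refine cl_eq_of ζ _ o fun a ha b => ?_
      rw [mem_sdiff, xb_mem_offE]
      constructor
      · intro h
        exact ⟨h, fun h' => h'.2.1 (ho ha)⟩
      · exact fun h => h.1
    rw [e x hxD, e y hyD]
    have hdis : Disjoint (cl ζ x) (cl ζ y) := by
      rw [Finset.disjoint_left]
      intro z hz hz'
      refine h3 (cl_mono ζ _ subset_union_left x ?_)
      rw [← cl_eq_of_mem ζ x z hz, cl_symm]
      exact hz'
    refine ⟨⟨h1, h2, hdis, ?_⟩, ?_⟩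
    · ext z
      rw [xb_mem_cls, mem_union]
      simp
    · intro a ha b hb hab
      refine h3 ?_
      have ha' : a ∈ cl (ζ ∪ η) x := cl_mono ζ _ subset_union_left x ha
      have hb' : b ∈ cl (ζ ∪ η) y := cl_mono ζ _ subset_union_left y hb
      have hab' : b ∈ cl (ζ ∪ η) a := by
        refine cl_mono _ _ ?_ a hab
        exact union_subset_union_left inter_subset_left
      rw [cl_eq_of_mem _ x a ha'] at hab'
      rw [← cl_eq_of_mem _ x b hab', cl_symm]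
      exact hb'
  refine step1.trans ?_
  rw [b_mark_cls (cubeE m) {x, y} p1 H]
  refine xb_Ex_le _ _ hp0 hp1 _ _ fun ζ _ => ?_
  set D := cls ζ {x, y} with hD
  set ω1 := ζ \ offE (cubeE m) D with hω1
  by_cases hc : R ≤ (cl ω1 x).card ∧ R ≤ (cl ω1 y).card ∧
      Disjoint (cl ω1 x) (cl ω1 y) ∧ D = cl ω1 x ∪ cl ω1 y
  · obtain ⟨h1, h2, h3, h4⟩ := hc
    have e1 : Ex (offE (cubeE m) D) p1 (fun η => H D ω1 η) ≤
        Ex (offE (cubeE m) D) p1 (fun ω2 => Ex (cubeE m) q (fun η =>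
          ind (∀ a ∈ cl ω1 x, ∀ b ∈ cl ω1 y, b ∉ cl (ω2 ∪ η) a))) := by
      refine Ex_mono _ _ hp0 hp1 _ _ fun ω2 _ => ?_
      rw [hH]
      refine Ex_mono _ _ hq0 hq1 _ _ fun η _ => ?_
      exact xb_ind_mono fun h => h.2
    have e2 : Ex (offE (cubeE m) D) p1 (fun ω2 => Ex (cubeE m) q (fun η =>
          ind (∀ a ∈ cl ω1 x, ∀ b ∈ cl ω1 y, b ∉ cl (ω2 ∪ η) a))) ≤
        Ex (offE (cubeE m) D) (1 / m) (fun ω2 => Ex (cubeE m) q (fun η =>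
          ind (∀ a ∈ cl ω1 x, ∀ b ∈ cl ω1 y, b ∉ cl (ω2 ∪ η) a))) := by
      have h5 := Ex_mono_p (offE (cubeE m) D) (1 / m) p1 hm0 hp hp1
        (fun ω2 => (-1) * Ex (cubeE m) q (fun η =>
          ind (∀ a ∈ cl ω1 x, ∀ b ∈ cl ω1 y, b ∉ cl (ω2 ∪ η) a))) (by
        intro ω ω' hω _
        have h6 : Ex (cubeE m) q (fun η =>
            ind (∀ a ∈ cl ω1 x, ∀ b ∈ cl ω1 y, b ∉ cl (ω' ∪ η) a)) ≤
            Ex (cubeE m) q (fun η =>
            ind (∀ a ∈ cl ω1 x, ∀ b ∈ cl ω1 y, b ∉ cl (ω ∪ η) a)) := by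
          refine Ex_mono _ _ hq0 hq1 _ _ fun η _ => ?_
          refine xb_ind_mono fun h a ha b hb hab => h a ha b hb ?_
          exact cl_mono _ _ (union_subset_union_left hω) a hab
        linarith)
      rw [Ex_mul_left, Ex_mul_left] at h5
      linarith
    refine e1.trans (e2.trans ?_)
    have hR2 : LL 60000 m * (1 + 2 ^ m * q) ≤ ((cl ω1 y).card : ℝ) :=
      hR.trans (by exact_mod_cast h2)
    have e3 := hcon q (cl ω1 x) (cl ω1 y) hq0 hq1 h3 hR2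
    rw [← h4] at e3
    refine e3.trans ?_
    rw [hB]
    refine mul_le_mul_of_nonneg_left (Real.exp_le_exp.2 ?_) (by norm_num)
    rw [neg_le_neg_iff]
    refine div_le_div_of_nonneg_right ?_ (by positivity)
    refine mul_le_mul_of_nonneg_right ?_ (xn_LL_pos _ _).le
    rw [mul_assoc, sq (R : ℝ)]
    refine mul_le_mul_of_nonneg_left ?_ (sq_nonneg q)
    have h1' : (R : ℝ) ≤ (cl ω1 x).card := by exact_mod_cast h1
    have h2' : (R : ℝ) ≤ (cl ω1 y).card := by exact_mod_cast h2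
    exact mul_le_mul h1' h2' (Nat.cast_nonneg _) (Nat.cast_nonneg _)
  · refine xb_Ex_le _ _ hp0 hp1 _ _ fun ω2 _ => ?_
    refine le_trans ?_ hB0
    rw [hH]
    refine xb_Ex_le _ _ hq0 hq1 _ _ fun η _ => ?_
    rw [ind, if_neg fun h => hc h.1]

theorem b_uall : ∃ m0 : ℕ, ∀ m ≥ m0, ∀ (p1 q : ℝ) (R : ℕ), 1 / m ≤ p1 → p1 ≤ 1 → 0 ≤ q →
    q ≤ 1 → LL 60000 m * (1 + 2 ^ m * q) ≤ R →
    Ex (cubeE m) p1 (fun ζ => Ex (cubeE m) q (fun η =>
      ind (∃ x y, R ≤ (cl ζ x).card ∧ R ≤ (cl ζ y).card ∧ y ∉ cl (ζ ∪ η) x))) ≤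
      4 ^ m * (2 * Real.exp (-(q ^ 2 * R ^ 2 * LL (-25000) m / 2 ^ m))) := by
  classical
  obtain ⟨m0, h0⟩ := b_ucon
  refine ⟨m0, fun m hm p1 q R hp hp1 hq0 hq1 hR => ?_⟩
  have hp0 : 0 ≤ p1 := le_trans (by positivity) hp
  have h1 : Ex (cubeE m) p1 (fun ζ => Ex (cubeE m) q (fun η =>
      ind (∃ x y, R ≤ (cl ζ x).card ∧ R ≤ (cl ζ y).card ∧ y ∉ cl (ζ ∪ η) x))) ≤
      ∑ x : Q m, ∑ y : Q m, Ex (cubeE m) p1 (fun ζ => Ex (cubeE m) q (fun η =>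
      ind (R ≤ (cl ζ x).card ∧ R ≤ (cl ζ y).card ∧ y ∉ cl (ζ ∪ η) x))) := by
    rw [← Finset.sum_product', ← Ex_sum]
    refine Ex_mono _ _ hp0 hp1 _ _ fun ζ _ => ?_
    rw [← Ex_sum]
    refine Ex_mono _ _ hq0 hq1 _ _ fun η _ => ?_
    by_cases hc : ∃ x y, R ≤ (cl ζ x).card ∧ R ≤ (cl ζ y).card ∧ y ∉ cl (ζ ∪ η) x
    · obtain ⟨x, y, hxy⟩ := hc
      set f : Q m × Q m → ℝ := fun i =>
          ind (R ≤ (cl ζ i.1).card ∧ R ≤ (cl ζ i.2).card ∧ i.2 ∉ cl (ζ ∪ η) i.1) with hf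
      have hmem : (x, y) ∈ (univ : Finset (Q m)) ×ˢ (univ : Finset (Q m)) :=
        mem_product.2 ⟨mem_univ x, mem_univ y⟩
      have h2 : f (x, y) ≤ ∑ i ∈ (univ : Finset (Q m)) ×ˢ (univ : Finset (Q m)), f i :=
        Finset.single_le_sum (f := f) (fun i _ => xb_ind_nonneg _) hmem
      have h2' : f (x, y) = 1 := by
        rw [hf]
        exact if_pos hxy
      rw [h2'] at h2
      refine le_trans ?_ h2
      exact xb_ind_le_one _
    · rw [ind, if_neg hc]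
      exact Finset.sum_nonneg fun i _ => xb_ind_nonneg _
  refine h1.trans ?_
  have h3 : ∀ x y : Q m, Ex (cubeE m) p1 (fun ζ => Ex (cubeE m) q (fun η =>
      ind (R ≤ (cl ζ x).card ∧ R ≤ (cl ζ y).card ∧ y ∉ cl (ζ ∪ η) x))) ≤
      2 * Real.exp (-(q ^ 2 * R ^ 2 * LL (-25000) m / 2 ^ m)) := fun x y =>
    uall_pair m q hq0 hq1 p1 hp hp1 R hR (h0 m hm) x y
  refine (Finset.sum_le_sum fun x _ => Finset.sum_le_sum fun y _ => h3 x y).trans ?_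
  rw [Finset.sum_const, Finset.sum_const, Finset.card_univ, smul_smul, nsmul_eq_mul]
  have h4 : ((Fintype.card (Q m) * Fintype.card (Q m) : ℕ) : ℝ) = 4 ^ m := by
    simp only [Fintype.card_fun, Fintype.card_bool, Fintype.card_fin]
    push_cast
    rw [← mul_pow]
    norm_num
  rw [h4]

end Pool.Agent.Work.MP_b7dc8a_pr
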