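import Pool.Agent.Work.MP_b7dc8a_pr.B.Xb
import Pool.Agent.Work.MP_b7dc8a_pr.Subc

/-! Module UASM (M): assembly of the uniqueness statement.

`b_orph`: expected number of `x` with `|cl ζ x| <= K < |cl (ζ ∪ η) x|`. For such `x` some boundary
edge of `A = cl ζ x` in the cube lies in `η`; there are at most `m |A| <= m K` of them (`subc_deg`), so
the conditional probability given `ζ` is at most `q m K`. Sum over `x`.

`b_uasm`: `P = p1 + q - p1 q`, `ω = ζ ∪ η` (`xb_Ex_two`). Bad events: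
(1) some `x` with `K < |cl ζ x| <= R`; (2) some `x` with `K < |cl ω x| <= R`;
(3) some `x, y` with `R <= |cl ζ x|`, `R <= |cl ζ y|`, `y ∉ cl ω x`; (4) at least `R` vertices `x` with
`|cl ζ x| <= K < |cl ω x|`. If none of them happens, then `Uniq K ω`: let `K < |cl ω x|`; by (2)
`|cl ω x| > R`; not all `z ∈ cl ω x` have `|cl ζ z| <= K` (else (4), since `cl ω z = cl ω x`), so some
`z ∈ cl ω x` has `|cl ζ z| > K`, hence `> R` by (1); same for `y` with some `w`; by (3) `w ∈ cl ω z`, so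
`y ∈ cl ω x`. Probabilities: `2^m g1`, `2^m g2`, `u` and Markov (`xb_markov`) with `b_orph` for (4). -/

namespace Pool.Agent.Work.MP_b7dc8a_pr

open Finset

private theorem uasm_ind_le {P : Prop} {x : ℝ} (hx : 0 ≤ x) (h : P → 1 ≤ x) : ind P ≤ x := by
  classical
  unfold ind
  split_ifs with hP
  · exact h hP
  · exact hx

private theorem uasm_bd {m : ℕ} (A : Finset (Q m)) : (bd (cubeE m) A).card ≤ m * A.card := by
  classical
  have hsub : bd (cubeE m) A ⊆ A.biUnion fun v => (cubeE m).filter (fun e => v ∈ e) := by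
    intro e he
    rw [subc_mem_bd] at he
    obtain ⟨hE, x, hx, y, -, rfl⟩ := he
    rw [Finset.mem_biUnion]
    exact ⟨x, hx, Finset.mem_filter.2 ⟨hE, Sym2.mem_mk_left x y⟩⟩
  refine (Finset.card_le_card hsub).trans (Finset.card_biUnion_le.trans ?_)
  calc ∑ v ∈ A, ((cubeE m).filter (fun e => v ∈ e)).card ≤ ∑ _v ∈ A, m :=
        Finset.sum_le_sum fun v _ => subc_deg m v
    _ = m * A.card := by rw [Finset.sum_const, smul_eq_mul, mul_comm]

private theorem uasm_mem {α : Type} [DecidableEq α] (E : Finset α) (q : ℝ) (e : α) (he : e ∈ E) :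
    Ex E q (fun η => ind (e ∈ η)) = q := by
  have hins : insert e (E.erase e) = E := Finset.insert_erase he
  conv_lhs => rw [← hins]
  rw [Ex_insert e _ (Finset.notMem_erase _ _)]
  have h1 : Ex (E.erase e) q (fun ω => ind (e ∈ insert e ω)) = 1 := by
    rw [Ex_congr _ _ _ (fun _ => 1) fun ω _ => ?_, Ex_const]
    unfold ind
    rw [if_pos (Finset.mem_insert_self _ _)]
  have h2 : Ex (E.erase e) q (fun ω => ind (e ∈ ω)) = 0 := by
    rw [Ex_congr _ _ _ (fun _ => 0) fun ω hω => ?_, Ex_const]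
    unfold ind
    rw [if_neg fun h => Finset.notMem_erase _ _ (hω h)]
  rw [h1, h2]
  ring

/-- one vertex -/
private theorem uasm_one (m K : ℕ) (q : ℝ) (hq0 : 0 ≤ q) (hq1 : q ≤ 1) (ζ : Finset (Sym2 (Q m)))
    (x : Q m) : Ex (cubeE m) q (fun η =>
      ind ((cl ζ x).card ≤ K ∧ K < (cl (ζ ∪ η) x).card)) ≤ q * m * K := by
  classical
  by_cases hK : (cl ζ x).card ≤ K
  · have h1 : ∀ η ⊆ cubeE m, ind ((cl ζ x).card ≤ K ∧ K < (cl (ζ ∪ η) x).card) ≤
        ∑ e ∈ bd (cubeE m) (cl ζ x), ind (e ∈ η) := by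
      intro η hη
      refine uasm_ind_le (Finset.sum_nonneg fun e _ => xb_ind_nonneg _) ?_
      rintro ⟨-, h2⟩
      have hex : ∃ e ∈ bd (cubeE m) (cl ζ x), e ∈ η := by
        by_contra hcon
        push Not at hcon
        have hsub : cl (ζ ∪ η) x ⊆ cl ζ x := by
          intro y hy
          rw [clb_mem_cl] at hy
          refine clb_closed (ζ ∪ η) {z | z ∈ cl ζ x} ?_ x y (mem_cl_self ζ x) hy
          intro a ha b hab
          rw [Finset.mem_union] at hab
          rcases hab with hab | hab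
          · exact cl_closed ζ x a b ha hab
          · by_contra hb
            refine hcon s(a, b) ?_ hab
            rw [subc_mem_bd]
            exact ⟨hη hab, a, ha, b, hb, rfl⟩
        have := Finset.card_le_card hsub
        omega
      obtain ⟨e, he, heη⟩ := hex
      calc (1 : ℝ) = ind (e ∈ η) := by
            unfold ind
            rw [if_pos heη]
        _ ≤ _ := Finset.single_le_sum (f := fun e => ind (e ∈ η))
            (fun e _ => xb_ind_nonneg _) he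
    refine (Ex_mono _ _ hq0 hq1 _ _ h1).trans ?_
    rw [Ex_sum]
    calc ∑ e ∈ bd (cubeE m) (cl ζ x), Ex (cubeE m) q (fun η => ind (e ∈ η)) =
        ∑ _e ∈ bd (cubeE m) (cl ζ x), q := Finset.sum_congr rfl fun e he =>
          uasm_mem _ q e ((subc_mem_bd _ _ _).1 he).1
      _ = (bd (cubeE m) (cl ζ x)).card * q := by rw [Finset.sum_const, nsmul_eq_mul]
      _ ≤ (m * K : ℕ) * q := by
          have h3 : (bd (cubeE m) (cl ζ x)).card ≤ m * K :=
            (uasm_bd _).trans (Nat.mul_le_mul_left _ hK)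
          have h4 : ((bd (cubeE m) (cl ζ x)).card : ℝ) ≤ (m * K : ℕ) := by exact_mod_cast h3
          exact mul_le_mul_of_nonneg_right h4 hq0
      _ = q * m * K := by
          push_cast
          ring
  · have h1 : ∀ η ⊆ cubeE m, ind ((cl ζ x).card ≤ K ∧ K < (cl (ζ ∪ η) x).card) = 0 := by
      intro η _
      unfold ind
      rw [if_neg fun h => hK h.1]
    rw [Ex_congr _ _ _ _ h1, Ex_const]
    positivity

open Classical in
theorem b_orph (m K : ℕ) (p1 q : ℝ) (h0 : 0 ≤ p1) (h1 : p1 ≤ 1) (hq0 : 0 ≤ q) (hq1 : q ≤ 1) :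
    Ex (cubeE m) p1 (fun ζ => Ex (cubeE m) q (fun η =>
      ((univ.filter fun x : Q m => (cl ζ x).card ≤ K ∧ K < (cl (ζ ∪ η) x).card).card : ℝ))) ≤
      2 ^ m * (q * m * K) := by
  refine xb_Ex_le _ _ h0 h1 _ _ fun ζ _ => ?_
  have h2 : Ex (cubeE m) q (fun η =>
      ((univ.filter fun x : Q m => (cl ζ x).card ≤ K ∧ K < (cl (ζ ∪ η) x).card).card : ℝ)) =
      ∑ x : Q m, Ex (cubeE m) q (fun η => ind ((cl ζ x).card ≤ K ∧ K < (cl (ζ ∪ η) x).card)) := by
    rw [← Ex_sum]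
    refine Ex_congr _ _ _ _ fun η _ => ?_
    rw [Finset.card_filter]
    push_cast
    refine Finset.sum_congr rfl fun x _ => ?_
    by_cases h : (cl ζ x).card ≤ K ∧ K < (cl (ζ ∪ η) x).card
    · unfold ind
      rw [if_pos h, if_pos h]
    · unfold ind
      rw [if_neg h, if_neg h]
  rw [h2]
  calc ∑ x : Q m, Ex (cubeE m) q (fun η => ind ((cl ζ x).card ≤ K ∧ K < (cl (ζ ∪ η) x).card)) ≤
      ∑ _x : Q m, (q * m * K) := Finset.sum_le_sum fun x _ => uasm_one m K q hq0 hq1 ζ x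
    _ = 2 ^ m * (q * m * K) := by
        rw [Finset.sum_const, nsmul_eq_mul, Finset.card_univ]
        congr 1
        simp

theorem b_uasm (m K R : ℕ) (hR : 1 ≤ R) (p1 q g1 g2 u : ℝ) (h0 : 0 ≤ p1) (h1 : p1 ≤ 1)
    (hq0 : 0 ≤ q) (hq1 : q ≤ 1)
    (hg1 : ∀ x : Q m, Ex (cubeE m) p1 (fun ω => ind (K < (cl ω x).card ∧ (cl ω x).card ≤ R)) ≤ g1)
    (hg2 : ∀ x : Q m, Ex (cubeE m) (p1 + q - p1 * q)
      (fun ω => ind (K < (cl ω x).card ∧ (cl ω x).card ≤ R)) ≤ g2)
    (hu : Ex (cubeE m) p1 (fun ζ => Ex (cubeE m) q (fun η =>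
      ind (∃ x y : Q m, R ≤ (cl ζ x).card ∧ R ≤ (cl ζ y).card ∧ y ∉ cl (ζ ∪ η) x))) ≤ u) :
    Ex (cubeE m) (p1 + q - p1 * q) (fun ω => ind (¬ Uniq K ω)) ≤
      2 ^ m * g1 + 2 ^ m * g2 + u + 2 ^ m * (q * m * K) / R := by
  classical
  have hR0 : (0 : ℝ) < R := by exact_mod_cast hR
  have hcard : ((univ : Finset (Q m)).card : ℝ) = 2 ^ m := by
    rw [Finset.card_univ]
    simp
  rw [xb_Ex_two]
  set N : Finset (Sym2 (Q m)) → Finset (Sym2 (Q m)) → ℝ := fun ζ η =>
    ((univ.filter fun x : Q m => (cl ζ x).card ≤ K ∧ K < (cl (ζ ∪ η) x).card).card : ℝ) with hN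
  have hpoint : ∀ ζ η : Finset (Sym2 (Q m)), ind (¬ Uniq K (ζ ∪ η)) ≤
      ((∑ x : Q m, ind (K < (cl ζ x).card ∧ (cl ζ x).card ≤ R)) +
        (∑ x : Q m, ind (K < (cl (ζ ∪ η) x).card ∧ (cl (ζ ∪ η) x).card ≤ R))) +
      (ind (∃ x y : Q m, R ≤ (cl ζ x).card ∧ R ≤ (cl ζ y).card ∧ y ∉ cl (ζ ∪ η) x) +
        (R : ℝ)⁻¹ * N ζ η) := by
    intro ζ η
    have s1 : 0 ≤ ∑ x : Q m, ind (K < (cl ζ x).card ∧ (cl ζ x).card ≤ R) :=
      Finset.sum_nonneg fun x _ => xb_ind_nonneg _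
    have s2 : 0 ≤ ∑ x : Q m, ind (K < (cl (ζ ∪ η) x).card ∧ (cl (ζ ∪ η) x).card ≤ R) :=
      Finset.sum_nonneg fun x _ => xb_ind_nonneg _
    have s3 := xb_ind_nonneg
      (∃ x y : Q m, R ≤ (cl ζ x).card ∧ R ≤ (cl ζ y).card ∧ y ∉ cl (ζ ∪ η) x)
    have s4 : 0 ≤ (R : ℝ)⁻¹ * N ζ η := by
      simp only [hN]
      positivity
    refine uasm_ind_le (by linarith) fun hU => ?_
    by_contra hcon
    push Not at hcon
    apply hU
    -- no bad event
    have b1 : ∀ x : Q m, K < (cl ζ x).card → R < (cl ζ x).card := by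
      intro x hx
      by_contra hle
      have : (1 : ℝ) ≤ ∑ x : Q m, ind (K < (cl ζ x).card ∧ (cl ζ x).card ≤ R) := by
        refine le_trans (le_of_eq ?_) (Finset.single_le_sum
          (f := fun x : Q m => ind (K < (cl ζ x).card ∧ (cl ζ x).card ≤ R))
          (fun x _ => xb_ind_nonneg _) (Finset.mem_univ x))
        unfold ind
        rw [if_pos ⟨hx, not_lt.1 hle⟩]
      linarith
    have b2 : ∀ x : Q m, K < (cl (ζ ∪ η) x).card → R < (cl (ζ ∪ η) x).card := by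
      intro x hx
      by_contra hle
      have : (1 : ℝ) ≤ ∑ x : Q m, ind (K < (cl (ζ ∪ η) x).card ∧ (cl (ζ ∪ η) x).card ≤ R) := by
        refine le_trans (le_of_eq ?_) (Finset.single_le_sum
          (f := fun x : Q m => ind (K < (cl (ζ ∪ η) x).card ∧ (cl (ζ ∪ η) x).card ≤ R))
          (fun x _ => xb_ind_nonneg _) (Finset.mem_univ x))
        unfold ind
        rw [if_pos ⟨hx, not_lt.1 hle⟩]
      linarith
    have b3 : ∀ x y : Q m, R ≤ (cl ζ x).card → R ≤ (cl ζ y).card → y ∈ cl (ζ ∪ η) x := by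
      intro x y hx hy
      by_contra hxy
      have : ind (∃ x y : Q m, R ≤ (cl ζ x).card ∧ R ≤ (cl ζ y).card ∧ y ∉ cl (ζ ∪ η) x) = 1 := by
        unfold ind
        rw [if_pos ⟨x, y, hx, hy, hxy⟩]
      linarith
    have b4 : N ζ η < R := by
      have h2 : (R : ℝ)⁻¹ * N ζ η < 1 := by linarith
      rwa [inv_mul_lt_iff₀ hR0, mul_one] at h2
    have key : ∀ x : Q m, K < (cl (ζ ∪ η) x).card → ∃ z ∈ cl (ζ ∪ η) x, R ≤ (cl ζ z).card := by
      intro x hx
      by_contra hno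
      push Not at hno
      have hsub : cl (ζ ∪ η) x ⊆
          univ.filter fun z : Q m => (cl ζ z).card ≤ K ∧ K < (cl (ζ ∪ η) z).card := by
        intro z hz
        rw [Finset.mem_filter]
        refine ⟨Finset.mem_univ _, ?_, ?_⟩
        · by_contra h2
          have := b1 z (not_le.1 h2)
          have := hno z hz
          omega
        · rw [cl_eq_of_mem _ x z hz]
          exact hx
      have h3 := Finset.card_le_card hsub
      have h4 := b2 x hx
      have h5 : (R : ℝ) < N ζ η := by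
        simp only [hN]
        exact_mod_cast lt_of_lt_of_le h4 h3
      linarith
    intro x y hx hy
    obtain ⟨z, hz, hz2⟩ := key x hx
    obtain ⟨w, hw, hw2⟩ := key y hy
    have h5 := b3 z w hz2 hw2
    rw [cl_eq_of_mem _ x z hz] at h5
    have h6 := cl_eq_of_mem _ x w h5
    have h7 := cl_eq_of_mem _ y w hw
    rw [← h6, h7]
    exact mem_cl_self _ _
  -- expectations
  have hstep : Ex (cubeE m) p1 (fun ζ => Ex (cubeE m) q (fun η => ind (¬ Uniq K (ζ ∪ η)))) ≤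
      Ex (cubeE m) p1 (fun ζ => Ex (cubeE m) q (fun η =>
        ((∑ x : Q m, ind (K < (cl ζ x).card ∧ (cl ζ x).card ≤ R)) +
          (∑ x : Q m, ind (K < (cl (ζ ∪ η) x).card ∧ (cl (ζ ∪ η) x).card ≤ R))) +
        (ind (∃ x y : Q m, R ≤ (cl ζ x).card ∧ R ≤ (cl ζ y).card ∧ y ∉ cl (ζ ∪ η) x) +
          (R : ℝ)⁻¹ * N ζ η))) :=
    Ex_mono _ _ h0 h1 _ _ fun ζ _ => Ex_mono _ _ hq0 hq1 _ _ fun η _ => hpoint ζ η
  refine hstep.trans ?_
  simp only [Ex_add, Ex_const, Ex_mul_left]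
  have t1 : Ex (cubeE m) p1 (fun ζ => ∑ x : Q m, ind (K < (cl ζ x).card ∧ (cl ζ x).card ≤ R)) ≤
      2 ^ m * g1 := by
    rw [Ex_sum]
    refine (Finset.sum_le_sum fun x _ => hg1 x).trans ?_
    rw [Finset.sum_const, nsmul_eq_mul, hcard]
  have t2 : Ex (cubeE m) p1 (fun ζ => Ex (cubeE m) q (fun η =>
      ∑ x : Q m, ind (K < (cl (ζ ∪ η) x).card ∧ (cl (ζ ∪ η) x).card ≤ R))) ≤ 2 ^ m * g2 := by
    have e := xb_Ex_two (cubeE m) p1 q
      (fun ω => ∑ x : Q m, ind (K < (cl ω x).card ∧ (cl ω x).card ≤ R))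
    rw [← e, Ex_sum]
    refine (Finset.sum_le_sum fun x _ => hg2 x).trans ?_
    rw [Finset.sum_const, nsmul_eq_mul, hcard]
  have t4 : (R : ℝ)⁻¹ * Ex (cubeE m) p1 (fun ζ => Ex (cubeE m) q (fun η => N ζ η)) ≤
      2 ^ m * (q * m * K) / R := by
    have h2 := b_orph m K p1 q h0 h1 hq0 hq1
    rw [div_eq_inv_mul]
    refine mul_le_mul_of_nonneg_left ?_ (by positivity)
    refine le_trans (le_of_eq ?_) h2
    simp only [hN]
  linarith

end Pool.Agent.Work.MP_b7dc8a_pr
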