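import Pool.Agent.Work.MP_b7dc8a_pr.B.Xb
import Pool.Agent.Work.MP_b7dc8a_pr.Var

/-! Module VLOW (M): lower bound for the variance of `XK`.

For neighbours `v, w`, `e = s(v,w)`, let `θ v w = Ex (offE (cubeE m) {v}) p (ind (K < |cl ω w|))`.
(a) `Ex [XK (insert e ω) - XK (ω.erase e)] <= -(1-p)^(m-1) θ v w`: the difference is always `<= 0`
(`var_XK_anti`), and if all other edges at `v` are closed and `K < |cl (ω ∩ offE (cubeE m) {v}) w|`,
then `v` is alone in `ω.erase e` (size `1 <= K`) and in a cluster of size `> K` in `insert e ω`, so it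
is `<= -1` (`var_XK_strict`). The two events are independent (disjoint sets of edges; `var_Ev`, `var_H`
of Var.lean: `offE (cubeE m) {v} = var_H v`, and the proof of `var_edge` there is similar).
(b) If `m K + 1 < |cl ω v|` then for some neighbour `w` with `s(v,w) ∈ ω`:
`K < |cl (ω ∩ offE (cubeE m) {v}) w|` (because `cl ω v = {v} ∪ ⋃_{w : s(v,w) ∈ ω} cl (..) w`, at most
`m` sets). So `θ' <= ∑_{w ~ v} p θ v w`, and by Cauchy-Schwarz `∑_{w ~ v} (θ v w)^2 >= θ'^2/(p^2 m)`.
(c) `first_chaos`: `Var >= p (1-p) ∑_e (Ex D_e)^2 >= p (1-p) (1/2) ∑_v ∑_{w ~ v} (1-p)^(2m-2) (θ v w)^2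
>= p (1-p) (1/2) 2^m (1-p)^(2m-2) θ'^2/(p^2 m)` (each edge has two orientations). -/

namespace Pool.Agent.Work.MP_b7dc8a_pr

open Finset

/-- survival probability of `w` without the edges at `v` -/
private noncomputable def vlow_th {m : ℕ} (K : ℕ) (p : ℝ) (v w : Q m) : ℝ :=
  Ex (var_H v) p (fun ω => ind (K < (cl ω w).card))

private theorem vlow_th_nonneg {m : ℕ} (K : ℕ) (p : ℝ) (h0 : 0 ≤ p) (h1 : p ≤ 1) (v w : Q m) :
    0 ≤ vlow_th K p v w := xb_Ex_nonneg _ _ h0 h1 _ fun _ _ => xb_ind_nonneg _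

private theorem vlow_ne {m : ℕ} {v w : Q m} (hvw : s(v, w) ∈ cubeE m) : v ≠ w := by
  intro hh
  subst hh
  unfold cubeE at hvw
  rw [SimpleGraph.mem_edgeFinset, SimpleGraph.mem_edgeSet] at hvw
  exact (cube m).irrefl hvw

/-- the influence of an edge -/
private theorem vlow_edge (m K : ℕ) (hK1 : 1 ≤ K) (p : ℝ) (h0 : 0 ≤ p) (h1 : p ≤ 1) (v w : Q m)
    (hvw : s(v, w) ∈ cubeE m) :
    Ex (cubeE m) p (fun ω => (XK K (insert s(v, w) ω) : ℝ) - (XK K (ω.erase s(v, w)) : ℝ)) ≤
      -((1 - p) ^ (m - 1) * vlow_th K p v w) := by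
  classical
  have hsE : s(v, w) ∈ var_Ev v := by
    rw [var_mem_Ev]
    exact ⟨hvw, Sym2.mem_mk_left v w⟩
  set A1 := (var_Ev v).erase s(v, w) with hA1
  have hA1card : A1.card = m - 1 := by
    rw [hA1, Finset.card_erase_of_mem hsE, var_Ev_card]
  have hdisj : Disjoint A1 (var_H v) := by
    rw [Finset.disjoint_left]
    intro e he1 he2
    rw [hA1, Finset.mem_erase, var_mem_Ev] at he1
    rw [var_mem_H] at he2
    exact he2.2 he1.2.2
  have hA1E : A1 ⊆ cubeE m := by
    intro e he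
    rw [hA1, Finset.mem_erase, var_mem_Ev] at he
    exact he.2.1
  have hHE : var_H v ⊆ cubeE m := by
    intro e he
    rw [var_mem_H] at he
    exact he.1
  have hprob : Ex (cubeE m) p (fun ω => ind (ω ∩ A1 = ∅) * ind (K < (cl (ω ∩ var_H v) w).card)) =
      (1 - p) ^ (m - 1) * Ex (var_H v) p (fun ω => ind (K < (cl ω w).card)) := by
    rw [Ex_mul_indep (cubeE m) A1 (var_H v) hdisj p (fun ω => ind (ω ∩ A1 = ∅))
      (fun ω => ind (K < (cl (ω ∩ var_H v) w).card))
      (fun ω _ => by rw [Finset.inter_assoc, Finset.inter_self])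
      (fun ω _ => by rw [Finset.inter_assoc, Finset.inter_self]),
      Ex_restrict (cubeE m) A1 hA1E p (fun ω => ind (ω = ∅)),
      Ex_restrict (cubeE m) (var_H v) hHE p (fun ω => ind (K < (cl ω w).card)), var_empty, hA1card]
  have hpoint : ∀ ω ⊆ cubeE m,
      (XK K (insert s(v, w) ω) : ℝ) - (XK K (ω.erase s(v, w)) : ℝ) ≤
      -1 * (ind (ω ∩ A1 = ∅) * ind (K < (cl (ω ∩ var_H v) w).card)) := by
    intro ω hω
    have hsub : ω.erase s(v, w) ⊆ insert s(v, w) ω :=
      (Finset.erase_subset _ _).trans (Finset.subset_insert _ _)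
    by_cases hgood : ω ∩ A1 = ∅ ∧ K < (cl (ω ∩ var_H v) w).card
    · have h2 : XK K (insert s(v, w) ω) + 1 ≤ XK K (ω.erase s(v, w)) := by
        apply var_XK_strict K _ _ hsub v
        · rw [var_iso v]
          · rw [Finset.card_singleton]; exact hK1
          · intro y hy
            rw [Finset.mem_erase] at hy
            have h3 : s(v, y) ∈ ω ∩ A1 := by
              rw [Finset.mem_inter, hA1, Finset.mem_erase, var_mem_Ev]
              exact ⟨hy.2, hy.1, hω hy.2, Sym2.mem_mk_left v y⟩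
            rw [hgood.1] at h3
            exact Finset.notMem_empty _ h3
        · have h3 : w ∈ cl (insert s(v, w) ω) v :=
            cl_closed _ v v w (mem_cl_self _ _) (Finset.mem_insert_self _ _)
          rw [← cl_eq_of_mem _ v w h3]
          refine lt_of_lt_of_le hgood.2 (Finset.card_le_card (cl_mono _ _ ?_ w))
          exact Finset.inter_subset_left.trans (Finset.subset_insert _ _)
      unfold ind
      rw [if_pos hgood.1, if_pos hgood.2]
      have h3 : (XK K (insert s(v, w) ω) : ℝ) + 1 ≤ (XK K (ω.erase s(v, w)) : ℝ) := by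
        exact_mod_cast h2
      linarith
    · have h2 : ind (ω ∩ A1 = ∅) * ind (K < (cl (ω ∩ var_H v) w).card) = 0 := by
        unfold ind
        by_cases h3 : ω ∩ A1 = ∅
        · have h4 : ¬ K < (cl (ω ∩ var_H v) w).card := fun h4 => hgood ⟨h3, h4⟩
          rw [if_neg h4, mul_zero]
        · rw [if_neg h3, zero_mul]
      rw [h2, mul_zero]
      have h3 : (XK K (insert s(v, w) ω) : ℝ) ≤ (XK K (ω.erase s(v, w)) : ℝ) := by
        exact_mod_cast var_XK_anti K _ _ hsub
      linarith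
  refine (Ex_mono (cubeE m) p h0 h1 _ _ hpoint).trans ?_
  rw [Ex_mul_left, hprob]
  unfold vlow_th
  linarith

open Classical in
/-- the neighbours of `v` -/
private noncomputable def vlow_N {m : ℕ} (v : Q m) : Finset (Q m) :=
  univ.filter fun w => s(v, w) ∈ cubeE m

private theorem vlow_mem_N {m : ℕ} (v w : Q m) : w ∈ vlow_N v ↔ s(v, w) ∈ cubeE m := by
  simp [vlow_N]

private theorem vlow_inj {m : ℕ} (v : Q m) : Function.Injective fun w : Q m => s(v, w) := by
  intro a b h
  exact Sym2.congr_right.1 h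

private theorem vlow_card {m : ℕ} (v : Q m) : (vlow_N v).card ≤ m := by
  classical
  have h1 : ((vlow_N v).image fun w => s(v, w)) ⊆ var_Ev v := by
    intro e he
    rw [Finset.mem_image] at he
    obtain ⟨w, hw, rfl⟩ := he
    rw [var_mem_Ev]
    exact ⟨(vlow_mem_N v w).1 hw, Sym2.mem_mk_left v w⟩
  have h2 := Finset.card_le_card h1
  rw [Finset.card_image_of_injective _ (vlow_inj v), var_Ev_card v] at h2
  exact h2

/-- the cluster of `v` is covered by `v` and the clusters of the neighbours -/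
private theorem vlow_cover {m : ℕ} [DecidableEq (Q m)] [DecidableEq (Sym2 (Q m))] (v : Q m)
    (ω : Finset (Sym2 (Q m))) (hω : ω ⊆ cubeE m) :
    cl ω v ⊆ insert v (((vlow_N v).filter fun w => s(v, w) ∈ ω).biUnion
      fun w => cl (ω ∩ var_H v) w) := by
  intro y hy
  rw [clb_mem_cl] at hy
  set T := insert v (((vlow_N v).filter fun w => s(v, w) ∈ ω).biUnion
      fun w => cl (ω ∩ var_H v) w) with hT
  refine clb_closed ω {z | z ∈ T} ?_ v y (Finset.mem_insert_self _ _) hy
  intro a ha b hab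
  have ha' : a ∈ T := ha
  show b ∈ T
  rw [hT, Finset.mem_insert] at ha' ⊢
  by_cases hb : b = v
  · exact Or.inl hb
  right
  rw [Finset.mem_biUnion]
  rcases ha' with rfl | ha'
  · refine ⟨b, ?_, mem_cl_self _ _⟩
    rw [Finset.mem_filter, vlow_mem_N]
    exact ⟨hω hab, hab⟩
  · rw [Finset.mem_biUnion] at ha'
    obtain ⟨w, hw, haw⟩ := ha'
    by_cases hav : a = v
    · subst hav
      refine ⟨b, ?_, mem_cl_self _ _⟩
      rw [Finset.mem_filter, vlow_mem_N]
      exact ⟨hω hab, hab⟩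
    · refine ⟨w, hw, cl_closed _ w a b haw ?_⟩
      rw [Finset.mem_inter, var_mem_H]
      refine ⟨hab, hω hab, ?_⟩
      rw [Sym2.mem_iff]
      rintro (h | h)
      · exact hav h.symm
      · exact hb h.symm

private theorem vlow_mem {α : Type} [DecidableEq α] (E : Finset α) (q : ℝ) (e : α) (he : e ∈ E) :
    Ex E q (fun η => ind (e ∈ η)) = q := by
  have hins : insert e (E.erase e) = E := Finset.insert_erase he
  conv_lhs => rw [← hins]
  rw [Ex_insert e _ (Finset.notMem_erase _ _)]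
  have h1 : Ex (E.erase e) q (fun ω => ind (e ∈ insert e ω)) = 1 := by
    rw [Ex_congr _ _ _ (fun _ => 1) fun ω _ => ?_, Ex_const]
    unfold ind
    rw [if_pos (Finset.mem_insert_self _ _)]
  have h2 : Ex (E.erase e) q (fun ω => ind (e ∈ ω)) = 0 := by
    rw [Ex_congr _ _ _ (fun _ => 0) fun ω hω => ?_, Ex_const]
    unfold ind
    rw [if_neg fun h => Finset.notMem_erase _ _ (hω h)]
  rw [h1, h2]
  ring

/-- large clusters have a large branch -/
private theorem vlow_branch (m K : ℕ) (p : ℝ) (h0 : 0 ≤ p) (h1 : p ≤ 1) (v : Q m) :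
    Ex (cubeE m) p (fun ω => ind (m * K + 1 < (cl ω v).card)) ≤
      ∑ w ∈ vlow_N v, p * vlow_th K p v w := by
  classical
  have hpoint : ∀ ω ⊆ cubeE m, ind (m * K + 1 < (cl ω v).card) ≤
      ∑ w ∈ vlow_N v, ind (s(v, w) ∈ ω) * ind (K < (cl (ω ∩ var_H v) w).card) := by
    intro ω hω
    have hnn : ∀ w ∈ vlow_N v,
        0 ≤ ind (s(v, w) ∈ ω) * ind (K < (cl (ω ∩ var_H v) w).card) := fun w _ =>
      mul_nonneg (xb_ind_nonneg _) (xb_ind_nonneg _)
    by_cases hbig : m * K + 1 < (cl ω v).card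
    · have hex : ∃ w ∈ vlow_N v, s(v, w) ∈ ω ∧ K < (cl (ω ∩ var_H v) w).card := by
        by_contra hcon
        push Not at hcon
        have h2 := Finset.card_le_card (vlow_cover v ω hω)
        have h3 := (Finset.card_insert_le v (((vlow_N v).filter fun w => s(v, w) ∈ ω).biUnion
          fun w => cl (ω ∩ var_H v) w))
        have h4 : (((vlow_N v).filter fun w => s(v, w) ∈ ω).biUnion
            fun w => cl (ω ∩ var_H v) w).card ≤ m * K := by
          refine Finset.card_biUnion_le.trans ?_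
          calc ∑ w ∈ (vlow_N v).filter fun w => s(v, w) ∈ ω, (cl (ω ∩ var_H v) w).card ≤
              ∑ _w ∈ (vlow_N v).filter fun w => s(v, w) ∈ ω, K := by
                refine Finset.sum_le_sum fun w hw => ?_
                rw [Finset.mem_filter] at hw
                exact hcon w hw.1 hw.2
            _ = ((vlow_N v).filter fun w => s(v, w) ∈ ω).card * K := by
                rw [Finset.sum_const, smul_eq_mul]
            _ ≤ m * K := Nat.mul_le_mul_right _
                ((Finset.card_filter_le _ _).trans (vlow_card v))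
        omega
      obtain ⟨w, hw, hw1, hw2⟩ := hex
      refine le_trans ?_ (Finset.single_le_sum hnn hw)
      unfold ind
      rw [if_pos hbig, if_pos hw1, if_pos hw2]
      norm_num
    · unfold ind at hnn ⊢
      rw [if_neg hbig]
      exact Finset.sum_nonneg hnn
  refine (Ex_mono _ _ h0 h1 _ _ hpoint).trans (le_of_eq ?_)
  rw [Ex_sum]
  refine Finset.sum_congr rfl fun w hw => ?_
  have hvw := (vlow_mem_N v w).1 hw
  have hHE : var_H v ⊆ cubeE m := by
    intro e he
    rw [var_mem_H] at he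
    exact he.1
  have hdisj : Disjoint {s(v, w)} (var_H v) := by
    rw [Finset.disjoint_singleton_left, var_mem_H]
    exact fun h => h.2 (Sym2.mem_mk_left v w)
  rw [Ex_mul_indep (cubeE m) {s(v, w)} (var_H v) hdisj p (fun ω => ind (s(v, w) ∈ ω))
      (fun ω => ind (K < (cl (ω ∩ var_H v) w).card))
      (fun ω _ => by simp)
      (fun ω _ => by rw [Finset.inter_assoc, Finset.inter_self]),
      vlow_mem _ _ _ hvw,
      Ex_restrict (cubeE m) (var_H v) hHE p (fun ω => ind (K < (cl ω w).card))]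
  rfl

theorem b_vlow (m K : ℕ) (hm : 1 ≤ m) (hK : 1 ≤ K) (p θ' : ℝ) (h0 : 0 < p) (h1 : p < 1)
    (hθ0 : 0 ≤ θ')
    (hθ : ∀ x : Q m, θ' ≤ Ex (cubeE m) p (fun ω => ind (m * K + 1 < (cl ω x).card))) :
    2 ^ m * (1 - p) ^ (2 * m - 1) * θ' ^ 2 / (2 * m * p) ≤
      Ex (cubeE m) p (fun ω => (XK K ω : ℝ) ^ 2) - (Ex (cubeE m) p (fun ω => (XK K ω : ℝ))) ^ 2 := by
  classical
  refine le_trans ?_ (first_chaos (cubeE m) p h0.le h1.le (fun ω => (XK K ω : ℝ)))
  obtain ⟨c, hc⟩ : ∃ c : Sym2 (Q m) → ℝ, ∀ e, c e =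
      Ex (cubeE m) p (fun ω => (XK K (insert e ω) : ℝ) - (XK K (ω.erase e) : ℝ)) :=
    ⟨_, fun _ => rfl⟩
  simp only [← hc]
  have hm0 : (0 : ℝ) < m := by exact_mod_cast hm
  have h1p : 0 < 1 - p := by linarith
  -- lower bound for one vertex
  have hv : ∀ v : Q m, (1 - p) ^ (2 * (m - 1)) * (θ' ^ 2 / (p ^ 2 * m)) ≤
      ∑ e ∈ (cubeE m).filter (fun e => v ∈ e), c e ^ 2 := by
    intro v
    have a1 : θ' ≤ ∑ w ∈ vlow_N v, p * vlow_th K p v w :=
      (hθ v).trans (vlow_branch m K p h0.le h1.le v)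
    have a2 : θ' ^ 2 ≤ (∑ w ∈ vlow_N v, p * vlow_th K p v w) ^ 2 := pow_le_pow_left₀ hθ0 a1 2
    have a3 : (∑ w ∈ vlow_N v, p * vlow_th K p v w) ^ 2 ≤
        (vlow_N v).card * ∑ w ∈ vlow_N v, (p * vlow_th K p v w) ^ 2 :=
      sq_sum_le_card_mul_sum_sq
    have a4 : ∑ w ∈ vlow_N v, (p * vlow_th K p v w) ^ 2 =
        p ^ 2 * ∑ w ∈ vlow_N v, vlow_th K p v w ^ 2 := by
      rw [Finset.mul_sum]
      exact Finset.sum_congr rfl fun w _ => by ring
    have a5 : 0 ≤ ∑ w ∈ vlow_N v, vlow_th K p v w ^ 2 := Finset.sum_nonneg fun w _ => sq_nonneg _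
    have a6 : ((vlow_N v).card : ℝ) ≤ m := by exact_mod_cast vlow_card v
    have a7 : θ' ^ 2 / (p ^ 2 * m) ≤ ∑ w ∈ vlow_N v, vlow_th K p v w ^ 2 := by
      rw [div_le_iff₀ (by positivity)]
      calc θ' ^ 2 ≤ (vlow_N v).card * (p ^ 2 * ∑ w ∈ vlow_N v, vlow_th K p v w ^ 2) := by
            rw [← a4]
            exact a2.trans a3
        _ ≤ m * (p ^ 2 * ∑ w ∈ vlow_N v, vlow_th K p v w ^ 2) :=
            mul_le_mul_of_nonneg_right a6 (by positivity)
        _ = _ := by ring
    have a8 : (1 - p) ^ (2 * (m - 1)) * ∑ w ∈ vlow_N v, vlow_th K p v w ^ 2 ≤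
        ∑ w ∈ vlow_N v, c s(v, w) ^ 2 := by
      rw [Finset.mul_sum]
      refine Finset.sum_le_sum fun w hw => ?_
      have h2 := vlow_edge m K hK p h0.le h1.le v w ((vlow_mem_N v w).1 hw)
      have h3 : 0 ≤ (1 - p) ^ (m - 1) * vlow_th K p v w :=
        mul_nonneg (by positivity) (vlow_th_nonneg K p h0.le h1.le v w)
      rw [← hc] at h2
      have h4 : ((1 - p) ^ (m - 1) * vlow_th K p v w) ^ 2 ≤ (-c s(v, w)) ^ 2 :=
        pow_le_pow_left₀ h3 (by linarith) 2
      rw [neg_sq, mul_pow, ← pow_mul, mul_comm (m - 1) 2] at h4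
      exact h4
    have a9 : ∑ w ∈ vlow_N v, c s(v, w) ^ 2 ≤
        ∑ e ∈ (cubeE m).filter (fun e => v ∈ e), c e ^ 2 := by
      have e1 : ∑ w ∈ vlow_N v, c s(v, w) ^ 2 =
          ∑ e ∈ (vlow_N v).image (fun w => s(v, w)), c e ^ 2 :=
        (Finset.sum_image (f := fun e => c e ^ 2) (g := fun w => s(v, w)) (s := vlow_N v)
          fun a _ b _ h => vlow_inj v h).symm
      rw [e1]
      refine Finset.sum_le_sum_of_subset_of_nonneg ?_ fun e _ _ => sq_nonneg _
      intro e he
      rw [Finset.mem_image] at he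
      obtain ⟨w, hw, rfl⟩ := he
      rw [Finset.mem_filter]
      exact ⟨(vlow_mem_N v w).1 hw, Sym2.mem_mk_left v w⟩
    refine le_trans ?_ (a8.trans a9)
    exact mul_le_mul_of_nonneg_left a7 (by positivity)
  -- double counting
  have hdc : ∑ v : Q m, ∑ e ∈ (cubeE m).filter (fun e => v ∈ e), c e ^ 2 ≤
      2 * ∑ e ∈ cubeE m, c e ^ 2 := by
    have e1 : ∑ v : Q m, ∑ e ∈ (cubeE m).filter (fun e => v ∈ e), c e ^ 2 =
        ∑ e ∈ cubeE m, ∑ v ∈ univ.filter (fun v : Q m => v ∈ e), c e ^ 2 := by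
      simp only [Finset.sum_filter]
      exact Finset.sum_comm
    rw [e1, Finset.mul_sum]
    refine Finset.sum_le_sum fun e _ => ?_
    rw [Finset.sum_const, nsmul_eq_mul]
    refine mul_le_mul_of_nonneg_right ?_ (sq_nonneg _)
    have h2 : (univ.filter (fun v : Q m => v ∈ e)).card ≤ 2 := by
      induction e using Sym2.ind with
      | _ a b =>
        have hsub : univ.filter (fun v : Q m => v ∈ s(a, b)) ⊆ {a, b} := by
          intro z hz
          rw [Finset.mem_filter, Sym2.mem_iff] at hz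
          simpa using hz.2
        exact (Finset.card_le_card hsub).trans Finset.card_le_two
    exact_mod_cast h2
  have hsum : (2 : ℝ) ^ m * ((1 - p) ^ (2 * (m - 1)) * (θ' ^ 2 / (p ^ 2 * m))) ≤
      2 * ∑ e ∈ cubeE m, c e ^ 2 := by
    refine le_trans ?_ hdc
    refine le_trans (le_of_eq ?_) (Finset.sum_le_sum fun v _ => hv v)
    rw [Finset.sum_const, nsmul_eq_mul, Finset.card_univ]
    congr 1
    simp
  have hpow : (1 - p) ^ (2 * m - 1) = (1 - p) ^ (2 * (m - 1)) * (1 - p) := by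
    rw [← pow_succ]
    congr 1
    omega
  calc 2 ^ m * (1 - p) ^ (2 * m - 1) * θ' ^ 2 / (2 * m * p) =
      p * (1 - p) * ((2 : ℝ) ^ m * ((1 - p) ^ (2 * (m - 1)) * (θ' ^ 2 / (p ^ 2 * m))) / 2) := by
        rw [hpow]
        field_simp
    _ ≤ p * (1 - p) * ∑ e ∈ cubeE m, c e ^ 2 := by
        refine mul_le_mul_of_nonneg_left ?_ (by positivity)
        linarith

end Pool.Agent.Work.MP_b7dc8a_pr
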