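import Pool.Agent.Work.MP_b7dc8a_pr.B.Xb
import Pool.Agent.Work.MP_b7dc8a_pr.App

/-! Module VUP (S-M): upper bound for the variance of `XK` and existence of a large cluster.

`b_vup`: as in `clt_XK` (App.lean) write `XK K ω = ∑_A app_n A ω` over `A ∈ app_I (Q m) K`,
`Y A = app_n A - Ex app_n A`; `app_n A` depends on the edges of `app_S A` only, so
`Ex [Y A Y B] = 0` if `app_S A`, `app_S B` are disjoint, and
`Var = Ex ∑_A Y A ∑_{B near A} Y B <= 2 (m+1) K^2 Ex ∑_A |Y A| <= 2 (m+1) K^2 * 2 * 2^m`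
(`app_near` bounds `∑_{B near A} |Y B| <= 2 (m+1) K^2`; `∑_A Ex app_n A = Ex XK <= 2^m`).
See the proof of `clt_XK` for these facts.

`b_exst`: if no cluster is larger than `K` then `XK = 2^m`, while `Ex XK = 2^m - ∑_x P(K < |cl x|)
<= 2^m (1 - θ)`; Chebyshev. -/

namespace Pool.Agent.Work.MP_b7dc8a_pr

open Finset

private theorem vup_card (m : ℕ) : (Fintype.card (Q m) : ℝ) = 2 ^ m := by simp [Q]

private theorem vup_var (m K : ℕ) (p : ℝ) (μ : ℝ)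
    (hμ : Ex (cubeE m) p (fun ω => (XK K ω : ℝ)) = μ) :
    Ex (cubeE m) p (fun ω => ((XK K ω : ℝ) - μ) ^ 2) =
      Ex (cubeE m) p (fun ω => (XK K ω : ℝ) ^ 2) - μ ^ 2 := by
  have h1 : (fun ω : Finset (Sym2 (Q m)) => ((XK K ω : ℝ) - μ) ^ 2) =
      fun ω => ((XK K ω : ℝ) ^ 2 - (2 * μ) * (XK K ω : ℝ)) + μ ^ 2 := by
    funext ω; ring
  rw [h1, Ex_add, Ex_sub, Ex_mul_left, Ex_const, hμ]
  ring

theorem b_vup (m K : ℕ) (p : ℝ) (h0 : 0 ≤ p) (h1 : p ≤ 1) :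
    Ex (cubeE m) p (fun ω => (XK K ω : ℝ) ^ 2) - (Ex (cubeE m) p (fun ω => (XK K ω : ℝ))) ^ 2 ≤
      4 * (m + 1) * (K : ℝ) ^ 2 * 2 ^ m := by
  classical
  obtain ⟨μ, hμ⟩ : ∃ μ, Ex (cubeE m) p (fun ω => (XK K ω : ℝ)) = μ := ⟨_, rfl⟩
  rw [hμ, ← vup_var m K p μ hμ]
  set I := app_I (Q m) K with hI
  set ν : Finset (Q m) → ℝ := fun A => Ex (cubeE m) p (fun ω => (app_n A ω : ℝ)) with hν
  have hν0 : ∀ A, 0 ≤ ν A := by
    intro A
    have h := Ex_mono (cubeE m) p h0 h1 (fun _ => 0) (fun ω => (app_n A ω : ℝ))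
      (fun ω _ => Nat.cast_nonneg _)
    rwa [Ex_const] at h
  set Y : Finset (Q m) → Finset (Sym2 (Q m)) → ℝ := fun A ω => (app_n A ω : ℝ) - ν A with hY
  have hsum : ∀ ω, (XK K ω : ℝ) = ∑ A ∈ I, (app_n A ω : ℝ) := by
    intro ω
    rw [app_XK]
    push_cast
    rfl
  have hμs : ∑ A ∈ I, ν A = μ := by
    rw [← hμ, hν, ← Ex_sum]
    apply Ex_congr
    intro ω _
    exact (hsum ω).symm
  have hW : ∀ ω, ∑ A ∈ I, Y A ω = (XK K ω : ℝ) - μ := by
    intro ω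
    simp only [hY]
    rw [Finset.sum_sub_distrib, hμs, hsum]
  have hμle : μ ≤ 2 ^ m := by
    have h := Ex_mono (cubeE m) p h0 h1 (fun ω => (XK K ω : ℝ)) (fun _ => 2 ^ m) (by
      intro ω _
      have h2 : XK K ω ≤ 2 ^ m := by
        unfold XK
        refine (Finset.card_filter_le _ _).trans ?_
        rw [Finset.card_univ]
        simp [Q]
      exact_mod_cast h2)
    rwa [Ex_const, hμ] at h
  have habs : ∀ A ω, |Y A ω| ≤ (app_n A ω : ℝ) + ν A := by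
    intro A ω
    simp only [hY]
    have hn : (0:ℝ) ≤ (app_n A ω : ℝ) := Nat.cast_nonneg _
    rw [abs_le]
    constructor <;> linarith [hν0 A]
  have hnear : ∀ A ∈ I, ∀ ω, ∑ B ∈ I.filter (fun B => ¬ Disjoint (app_S A) (app_S B)),
      (app_n B ω : ℝ) ≤ (m + 1) * (K : ℝ) ^ 2 := by
    intro A hA ω
    have h := app_near K A hA ω
    exact_mod_cast h
  have hnearY : ∀ A ∈ I, ∀ ω, ∑ B ∈ I.filter (fun B => ¬ Disjoint (app_S A) (app_S B)),
      |Y B ω| ≤ 2 * (m + 1) * (K : ℝ) ^ 2 := by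
    intro A hA ω
    calc ∑ B ∈ I.filter (fun B => ¬ Disjoint (app_S A) (app_S B)), |Y B ω|
        ≤ ∑ B ∈ I.filter (fun B => ¬ Disjoint (app_S A) (app_S B)), ((app_n B ω : ℝ) + ν B) :=
          Finset.sum_le_sum (fun B _ => habs B ω)
      _ = ∑ B ∈ I.filter (fun B => ¬ Disjoint (app_S A) (app_S B)), (app_n B ω : ℝ) +
          ∑ B ∈ I.filter (fun B => ¬ Disjoint (app_S A) (app_S B)), ν B :=
          Finset.sum_add_distrib
      _ ≤ (m + 1) * (K : ℝ) ^ 2 + (m + 1) * (K : ℝ) ^ 2 := by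
          apply add_le_add (hnear A hA ω)
          rw [hν, ← Ex_sum]
          have h := Ex_mono (cubeE m) p h0 h1
            (fun ω => ∑ B ∈ I.filter (fun B => ¬ Disjoint (app_S A) (app_S B)), (app_n B ω : ℝ))
            (fun _ => (m + 1) * (K : ℝ) ^ 2) (fun ω _ => hnear A hA ω)
          rwa [Ex_const] at h
      _ = 2 * (m + 1) * (K : ℝ) ^ 2 := by ring
  have hYdep : ∀ A, ∀ ω ⊆ cubeE m, Y A ω = Y A (ω ∩ app_S A) := by
    intro A ω hω
    simp only [hY]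
    rw [app_dep A ω hω]
  have hYmean : ∀ A, Ex (cubeE m) p (Y A) = 0 := by
    intro A
    simp only [hY]
    rw [Ex_sub, Ex_const]
    simp [hν]
  have hYabs : ∑ A ∈ I, Ex (cubeE m) p (fun ω => |Y A ω|) ≤ 2 * 2 ^ m := by
    calc ∑ A ∈ I, Ex (cubeE m) p (fun ω => |Y A ω|)
        ≤ ∑ A ∈ I, 2 * ν A := by
          apply Finset.sum_le_sum
          intro A _
          have h := Ex_mono (cubeE m) p h0 h1 (fun ω => |Y A ω|)
            (fun ω => (app_n A ω : ℝ) + ν A) (fun ω _ => habs A ω)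
          rw [Ex_add, Ex_const] at h
          refine h.trans (le_of_eq ?_)
          simp only [hν]
          ring
      _ = 2 * μ := by rw [← Finset.mul_sum, hμs]
      _ ≤ 2 * 2 ^ m := by linarith
  -- expand the square
  have hexp : Ex (cubeE m) p (fun ω => ((XK K ω : ℝ) - μ) ^ 2) =
      ∑ A ∈ I, ∑ B ∈ I, Ex (cubeE m) p (fun ω => Y A ω * Y B ω) := by
    have h2 : ∀ A ∈ I, ∑ B ∈ I, Ex (cubeE m) p (fun ω => Y A ω * Y B ω) =
        Ex (cubeE m) p (fun ω => ∑ B ∈ I, Y A ω * Y B ω) := fun A _ =>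
      (Ex_sum I (cubeE m) p (fun B ω => Y A ω * Y B ω)).symm
    rw [Finset.sum_congr rfl h2, ← Ex_sum]
    refine Ex_congr _ _ _ _ fun ω _ => ?_
    rw [← hW ω, sq, Finset.sum_mul_sum]
  have hterm : ∀ A ∈ I, ∑ B ∈ I, Ex (cubeE m) p (fun ω => Y A ω * Y B ω) ≤
      2 * (m + 1) * (K : ℝ) ^ 2 * Ex (cubeE m) p (fun ω => |Y A ω|) := by
    intro A hA
    have h2 : ∑ B ∈ I, Ex (cubeE m) p (fun ω => Y A ω * Y B ω) =
        ∑ B ∈ I.filter (fun B => ¬ Disjoint (app_S A) (app_S B)),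
          Ex (cubeE m) p (fun ω => Y A ω * Y B ω) := by
      rw [Finset.sum_filter]
      refine Finset.sum_congr rfl fun B _ => ?_
      by_cases h3 : Disjoint (app_S A) (app_S B)
      · rw [if_neg (not_not.mpr h3),
          Ex_mul_indep (cubeE m) (app_S A) (app_S B) h3 p (Y A) (Y B) (hYdep A) (hYdep B),
          hYmean A, zero_mul]
      · rw [if_pos h3]
    rw [h2, ← Ex_sum, ← Ex_mul_left]
    refine Ex_mono _ _ h0 h1 _ _ fun ω _ => ?_
    calc ∑ B ∈ I.filter (fun B => ¬ Disjoint (app_S A) (app_S B)), Y A ω * Y B ω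
        ≤ ∑ B ∈ I.filter (fun B => ¬ Disjoint (app_S A) (app_S B)), |Y A ω| * |Y B ω| := by
          refine Finset.sum_le_sum fun B _ => ?_
          rw [← abs_mul]
          exact le_abs_self _
      _ = |Y A ω| * ∑ B ∈ I.filter (fun B => ¬ Disjoint (app_S A) (app_S B)), |Y B ω| := by
          rw [Finset.mul_sum]
      _ ≤ |Y A ω| * (2 * (m + 1) * (K : ℝ) ^ 2) :=
          mul_le_mul_of_nonneg_left (hnearY A hA ω) (abs_nonneg _)
      _ = 2 * (m + 1) * (K : ℝ) ^ 2 * |Y A ω| := by ring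
  rw [hexp]
  calc ∑ A ∈ I, ∑ B ∈ I, Ex (cubeE m) p (fun ω => Y A ω * Y B ω)
      ≤ ∑ A ∈ I, 2 * (m + 1) * (K : ℝ) ^ 2 * Ex (cubeE m) p (fun ω => |Y A ω|) :=
        Finset.sum_le_sum hterm
    _ = 2 * (m + 1) * (K : ℝ) ^ 2 * ∑ A ∈ I, Ex (cubeE m) p (fun ω => |Y A ω|) := by
        rw [Finset.mul_sum]
    _ ≤ 2 * (m + 1) * (K : ℝ) ^ 2 * (2 * 2 ^ m) :=
        mul_le_mul_of_nonneg_left hYabs (by positivity)
    _ = 4 * (m + 1) * (K : ℝ) ^ 2 * 2 ^ m := by ring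

private theorem vup_XK (m K : ℕ) (ω : Finset (Sym2 (Q m))) :
    (XK K ω : ℝ) = 2 ^ m - ∑ x : Q m, ind (K < (cl ω x).card) := by
  classical
  have h1 : (XK K ω : ℝ) = ∑ x : Q m, (1 - ind (K < (cl ω x).card)) := by
    unfold XK
    rw [Finset.card_filter]
    push_cast
    refine Finset.sum_congr rfl fun x _ => ?_
    by_cases h : (cl ω x).card ≤ K
    · rw [if_pos h]
      simp [ind, not_lt.mpr h]
    · rw [if_neg h]
      simp [ind, not_le.mp h]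
  rw [h1, Finset.sum_sub_distrib]
  congr 1
  rw [← vup_card m]
  simp

theorem b_exst (m K : ℕ) (p θ : ℝ) (h0 : 0 ≤ p) (h1 : p ≤ 1) (hθ0 : 0 < θ)
    (hθ : ∀ x : Q m, θ ≤ Ex (cubeE m) p (fun ω => ind (K < (cl ω x).card))) :
    Ex (cubeE m) p (fun ω => ind (∀ x, (cl ω x).card ≤ K)) ≤
      4 * (m + 1) * (K : ℝ) ^ 2 / (2 ^ m * θ ^ 2) := by
  classical
  obtain ⟨μ, hμ⟩ : ∃ μ, Ex (cubeE m) p (fun ω => (XK K ω : ℝ)) = μ := ⟨_, rfl⟩
  have hv := b_vup m K p h0 h1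
  rw [hμ, ← vup_var m K p μ hμ] at hv
  have hμ2 : μ ≤ 2 ^ m - 2 ^ m * θ := by
    rw [← hμ]
    have h2 : Ex (cubeE m) p (fun ω => (XK K ω : ℝ)) =
        2 ^ m - ∑ x : Q m, Ex (cubeE m) p (fun ω => ind (K < (cl ω x).card)) := by
      rw [← Ex_sum]
      rw [← Ex_const (cubeE m) p (2 ^ m), ← Ex_sub]
      exact Ex_congr _ _ _ _ fun ω _ => vup_XK m K ω
    rw [h2]
    have h3 : ∑ x : Q m, θ ≤ ∑ x : Q m, Ex (cubeE m) p (fun ω => ind (K < (cl ω x).card)) :=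
      Finset.sum_le_sum fun x _ => hθ x
    rw [Finset.sum_const, Finset.card_univ, nsmul_eq_mul, vup_card] at h3
    linarith
  have h2m : (0 : ℝ) < 2 ^ m := by positivity
  have hden : (0 : ℝ) < (2 ^ m * θ) ^ 2 := by positivity
  have hpt : ∀ ω ⊆ cubeE m, (2 ^ m * θ) ^ 2 * ind (∀ x : Q m, (cl ω x).card ≤ K) ≤
      ((XK K ω : ℝ) - μ) ^ 2 := by
    intro ω _
    by_cases h : ∀ x : Q m, (cl ω x).card ≤ K
    · have h4 : (XK K ω : ℝ) = 2 ^ m := by
        rw [vup_XK]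
        have h5 : ∑ x : Q m, ind (K < (cl ω x).card) = 0 :=
          Finset.sum_eq_zero fun x _ => by simp [ind, not_lt.mpr (h x)]
        rw [h5, sub_zero]
      have h6 : ind (∀ x : Q m, (cl ω x).card ≤ K) = 1 := by
        unfold ind
        rw [if_pos h]
      rw [h6, h4, mul_one]
      refine pow_le_pow_left₀ (by positivity) (by linarith) 2
    · have h6 : ind (∀ x : Q m, (cl ω x).card ≤ K) = 0 := by
        unfold ind
        rw [if_neg h]
      rw [h6, mul_zero]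
      positivity
  have h7 := Ex_mono (cubeE m) p h0 h1 _ _ hpt
  rw [Ex_mul_left] at h7
  have h8 := h7.trans hv
  rw [le_div_iff₀ (by positivity)]
  have h9 : Ex (cubeE m) p (fun ω => ind (∀ x, (cl ω x).card ≤ K)) * (2 ^ m * θ ^ 2) * 2 ^ m ≤
      4 * (m + 1) * (K : ℝ) ^ 2 * 2 ^ m := by
    refine le_trans (le_of_eq ?_) h8
    ring
  exact le_of_mul_le_mul_right h9 h2m

end Pool.Agent.Work.MP_b7dc8a_pr
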