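import Pool.Agent.Work.MP_b7dc8a_pr.B.PkgDef
import Pool.Agent.Work.MP_b7dc8a_pr.B.Gapn
import Pool.Agent.Work.MP_b7dc8a_pr.B.Uall
import Pool.Agent.Work.MP_b7dc8a_pr.B.Uasm
import Pool.Agent.Work.MP_b7dc8a_pr.B.Thet
import Pool.Agent.Work.MP_b7dc8a_pr.B.Vlow
import Pool.Agent.Work.MP_b7dc8a_pr.B.Vup

/-! Module PKGB (M, assembly with explicit parameters; `m` large).

`p = pc (1 + ε)`, `2^(-m/25) <= ε <= 2000 dl m`. Parameters: `K = ⌈32 m LL 31000 m / ε^2⌉`,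
`R = ⌊2^m ε LL (-32000) m⌋`, `q = ε^3 LL (-100000) m`, `p1 = (p - q)/(1 - q)` (so
`p = p1 + q - p1 q`), `e1 = p1 / pc - 1`. Then `ε/2 <= e1 <= ε` (`p1 >= p - q`, `q / pc <= q m <= ε/2`),
`p1 >= pc >= 1/m`.
* `X = LL 31000 m / e <= 2 LL 31000 m 2^(m/25)` for `e ∈ {e1, ε}`: `X <= lam 2^(m/3)`,
  `LL 30000 m X^3 <= 2^m`, `R X 128 (TT m + 2) <= 2^m`: `b_gapn` with `n = K` gives
  `g1, g2 <= exp (-K (ε/2)^2 LL (-31000) m) <= exp (-8 m)`, `2^m g <= exp (-7m)`.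
* `b_uall`: `LL 60000 m (1 + 2^m q) <= R` (`60000 - 100000 < -32000`, `ε^3 <= ε`);
  `q^2 R^2 LL (-25000) m / 2^m >= ε^8 2^m LL (-289001) m >= 2^(17m/25) LL (-289001) m >= m^2`, so
  `u <= 4^m 2 exp (-m^2)`.
* `2^m (q m K) / R <= 2 q m K LL 32000 m / ε <= 1/(4m)` (`ε^3` cancels: `31000 + 32000 < 100000`).
* so `b_uasm` gives `Ex [ind (¬ Uniq K)] <= 1/(2m)`.
* `N = m K + 1 <= 2^(m/12)` (`2/25 < 1/12`), `8 N <= lam 2^(m/3)`: `b_thet`: `θ' = ε/8`.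
* `b_exst` with `θ = ε/8`: `<= 4 (m+1) K^2 64 / (2^m ε^2) <= 1/(2m)`.
* `b_vlow`: `(1-p)^(2m-1) >= exp (-5)`, `m p <= 5/4`: `v >= 2^m ε^2 / 30000 >= 2^(23m/25)/30000`.
  With `D = 2 (m+1) K^2 <= 4 m 2^(m/6)`: `8 D^3 (2 2^m) <= 1024 m^3 2^(3m/2) <= v^2 / m` and
  `(D^2 2^m)^2 <= 256 m^4 2^(8m/3) <= v^3 / m` as `8/3 < 69/25`. -/

namespace Pool.Agent.Work.MP_b7dc8a_pr

open Finset

/-- the quantities which are large for large `m` -/
private theorem pkgb_big (lam : ℝ) (hlam : 0 < lam) : ∃ m0 : ℕ, ∀ m ≥ m0, 9 ≤ m ∧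
    2000 * dl m ≤ 1 / 100 ∧ 10 ^ 14 * (m : ℝ) ^ 4 ≤ LL 1000 m ∧
    ∃ r : ℝ, r ^ 75 = 2 ^ m ∧ ((2 : ℝ) ^ m) ^ (1 / 3 : ℝ) = r ^ 25 ∧
      (2 : ℝ) ^ (-(m : ℝ) / 25) * r ^ 3 = 1 ∧ 100 ≤ r ∧ 100 / lam ≤ r ∧ LL 300000 m ≤ r := by
  obtain ⟨mA, hmA⟩ := xn_dl 2000 (1 / 100) (by norm_num)
  obtain ⟨mB, hmB⟩ := xn_poly 4 (10 ^ 14) 1000 (by norm_num)
  have h2 : (1 : ℝ) < (2 : ℝ) ^ (1 / 75 : ℝ) := Real.one_lt_rpow (by norm_num) (by norm_num)
  obtain ⟨mC, hmC⟩ := xn_exp 300000 ((2 : ℝ) ^ (1 / 75 : ℝ)) h2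
  have h3 := (tendsto_pow_atTop_atTop_of_one_lt h2).eventually
    (Filter.eventually_ge_atTop (max 100 (100 / lam)))
  obtain ⟨mD, hmD⟩ := Filter.eventually_atTop.1 h3
  refine ⟨max 9 (max mA (max mB (max mC mD))), fun m hm => ?_⟩
  simp only [ge_iff_le, max_le_iff] at hm
  obtain ⟨hm9, hmA', hmB', hmC', hmD'⟩ := hm
  refine ⟨hm9, hmA m hmA', hmB m hmB', ((2 : ℝ) ^ (1 / 75 : ℝ)) ^ m, ?_, ?_, ?_, ?_, ?_, hmC m hmC'⟩
  · rw [← pow_mul, mul_comm m 75, pow_mul]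
    congr 1
    rw [← Real.rpow_natCast, ← Real.rpow_mul (by norm_num)]
    norm_num
  · rw [← Real.rpow_natCast 2 m, ← Real.rpow_mul (by norm_num), ← pow_mul, ← Real.rpow_natCast,
      ← Real.rpow_mul (by norm_num)]
    congr 1
    push_cast
    ring
  · rw [← pow_mul, ← Real.rpow_natCast, ← Real.rpow_mul (by norm_num),
      ← Real.rpow_add (by norm_num)]
    have : -(m : ℝ) / 25 + 1 / 75 * ((m * 3 : ℕ) : ℝ) = 0 := by
      push_cast
      ring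
    rw [this, Real.rpow_zero]
  · exact (le_max_left _ _).trans (hmD m hmD')
  · exact (le_max_right _ _).trans (hmD m hmD')

private theorem pkgb_exp7 (m : ℕ) (hm : 9 ≤ m) : Real.exp (-(7 * (m : ℝ))) ≤ 1 / (16 * m) := by
  have hm' : (9 : ℝ) ≤ m := by exact_mod_cast hm
  have h1 := Real.quadratic_le_exp_of_nonneg (show 0 ≤ 7 * (m : ℝ) by linarith)
  rw [Real.exp_neg, ← one_div]
  apply one_div_le_one_div_of_le (by positivity)
  nlinarith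

private theorem pkgb_two (m : ℕ) : (2 : ℝ) ^ m ≤ Real.exp m := by
  have h : (2 : ℝ) ≤ Real.exp 1 := by
    have := Real.add_one_le_exp (1 : ℝ)
    linarith
  calc (2 : ℝ) ^ m ≤ Real.exp 1 ^ m := pow_le_pow_left₀ (by norm_num) h m
    _ = Real.exp m := by rw [← Real.exp_nat_mul, mul_one]

private theorem pkgb_gap (m : ℕ) (t : ℝ) (ht : 8 * (m : ℝ) ≤ t) :
    2 ^ m * Real.exp (-t) ≤ Real.exp (-(7 * (m : ℝ))) := by
  calc 2 ^ m * Real.exp (-t) ≤ Real.exp m * Real.exp (-(8 * (m : ℝ))) :=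
        mul_le_mul (pkgb_two m) (Real.exp_le_exp.2 (by linarith)) (Real.exp_pos _).le
          (Real.exp_pos _).le
    _ = _ := by
        rw [← Real.exp_add]
        congr 1
        ring

private theorem pkgb_four (m : ℕ) (hm : 9 ≤ m) (t : ℝ) (ht : (m : ℝ) ^ 2 ≤ t) :
    4 ^ m * (2 * Real.exp (-t)) ≤ 2 * Real.exp (-(7 * (m : ℝ))) := by
  have hm' : (9 : ℝ) ≤ m := by exact_mod_cast hm
  have h4 : (4 : ℝ) ^ m = 2 ^ m * 2 ^ m := by
    rw [← mul_pow]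
    norm_num
  have h5 : (2 : ℝ) ^ m * (2 ^ m * Real.exp (-t)) ≤ Real.exp (-(7 * (m : ℝ))) := by
    calc (2 : ℝ) ^ m * (2 ^ m * Real.exp (-t)) ≤
        Real.exp m * (Real.exp m * Real.exp (-((m : ℝ) ^ 2))) := by
          apply mul_le_mul (pkgb_two m) _ (by positivity) (Real.exp_pos _).le
          exact mul_le_mul (pkgb_two m) (Real.exp_le_exp.2 (by linarith)) (Real.exp_pos _).le
            (Real.exp_pos _).le
      _ = Real.exp (m + (m + -((m : ℝ) ^ 2))) := by rw [Real.exp_add, Real.exp_add]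
      _ ≤ _ := by
          apply Real.exp_le_exp.2
          nlinarith
  calc 4 ^ m * (2 * Real.exp (-t)) = 2 * (2 ^ m * (2 ^ m * Real.exp (-t))) := by rw [h4]; ring
    _ ≤ _ := by linarith

private theorem pkgb_pow1p (m : ℕ) (hm : 1 ≤ m) (p : ℝ) (h0 : 0 ≤ p) (h1 : p ≤ 1 / 2)
    (hpm : p * m ≤ 5 / 4) : 1 / 243 ≤ (1 - p) ^ (2 * m - 1) := by
  have h2 : Real.exp (-(2 * p)) ≤ 1 - p := by
    have h2 : 1 + 2 * p ≤ Real.exp (2 * p) := by
      have := Real.add_one_le_exp (2 * p)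
      linarith
    have h3 : Real.exp (2 * p) * Real.exp (-(2 * p)) = 1 := by
      rw [← Real.exp_add, add_neg_cancel, Real.exp_zero]
    have h4 : 0 < Real.exp (-(2 * p)) := Real.exp_pos _
    have h5 : (1 + 2 * p) * Real.exp (-(2 * p)) ≤ 1 :=
      (mul_le_mul_of_nonneg_right h2 h4.le).trans h3.le
    have h6 : 1 ≤ (1 + 2 * p) * (1 - p) := by nlinarith
    have h7 : 0 < 1 + 2 * p := by linarith
    exact le_of_mul_le_mul_left (h5.trans h6) h7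
  have h3 : (1 - p) ^ (2 * m) ≤ (1 - p) ^ (2 * m - 1) :=
    pow_le_pow_of_le_one (by linarith) (by linarith) (by omega)
  refine le_trans ?_ h3
  have h4 : Real.exp (-(2 * p)) ^ (2 * m) ≤ (1 - p) ^ (2 * m) :=
    pow_le_pow_left₀ (Real.exp_pos _).le h2 _
  refine le_trans ?_ h4
  rw [← Real.exp_nat_mul]
  have h5 : Real.exp (-5) ≤ Real.exp (((2 * m : ℕ) : ℝ) * (-(2 * p))) := by
    apply Real.exp_le_exp.2
    push_cast
    nlinarith
  refine le_trans ?_ h5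
  have h6 : Real.exp 1 ≤ 3 := by
    have := Real.exp_one_lt_d9
    linarith
  have h7 : Real.exp 5 ≤ 243 := by
    calc Real.exp 5 = Real.exp 1 ^ 5 := by rw [← Real.exp_nat_mul]; norm_num
      _ ≤ 3 ^ 5 := pow_le_pow_left₀ (Real.exp_pos _).le h6 5
      _ = 243 := by norm_num
  rw [Real.exp_neg, ← one_div]
  exact one_div_le_one_div_of_le (Real.exp_pos _) h7

private theorem pkgb_LL (m : ℕ) (a b c : ℝ) (h : a + b = c) : LL a m * LL b m = LL c m := by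
  rw [xn_LL_add, h]


/-- consequences of `10^14 m^4 <= P` -/
private theorem pkgb_poly (m P : ℝ) (hm : 9 ≤ m) (hP : 10 ^ 14 * m ^ 4 ≤ P) :
    768 * m ^ 2 ≤ P ∧ 2 * m ≤ P ∧ 4 * m ^ 2 ≤ P ∧ 264 * m ^ 3 ≤ P ∧ 3300 * m ^ 2 ≤ P ∧
      2178 * ((m + 1) * m ^ 2) ≤ P ∧ 16 * 40000 ^ 2 * m ≤ P ∧ 40000 ^ 3 * m ≤ P ∧ 4 ≤ P := by
  have hm1 : 1 ≤ m := by linarith
  have h1 : m ≤ m ^ 4 := by
    calc m = m ^ 1 := by ring
      _ ≤ m ^ 4 := pow_le_pow_right₀ hm1 (by norm_num)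
  have h2 : m ^ 2 ≤ m ^ 4 := pow_le_pow_right₀ hm1 (by norm_num)
  have h3 : m ^ 3 ≤ m ^ 4 := pow_le_pow_right₀ hm1 (by norm_num)
  have h4 : 1 ≤ m ^ 4 := one_le_pow₀ hm1
  have h5 : (m + 1) * m ^ 2 = m ^ 3 + m ^ 2 := by ring
  rw [h5]
  refine ⟨?_, ?_, ?_, ?_, ?_, ?_, ?_, ?_, ?_⟩ <;> linarith

/-- the basic facts -/
private structure PB (m : ℕ) (lam pc ε r : ℝ) : Prop where
  hm9 : 9 ≤ m
  hpc0 : 0 < pc
  hpch : pc ≤ 1 / 8
  hpcm1 : 1 ≤ pc * m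
  hpcm : 1 / (m : ℝ) ≤ pc
  hpc5 : pc * m ≤ 1 + 5000 * dl m
  hp0 : 0 < pc * (1 + ε)
  hph : pc * (1 + ε) ≤ 1 / 4
  hpm : pc * (1 + ε) * m ≤ 5 / 4
  hε0 : 0 < ε
  hε100 : ε ≤ 1 / 100
  hεr : 1 ≤ ε * r ^ 3
  hr100 : 100 ≤ r
  hr75 : r ^ 75 = 2 ^ m
  hlr : 100 ≤ lam * r
  hLr : LL 300000 m ≤ r
  hP : 10 ^ 14 * (m : ℝ) ^ 4 ≤ LL 1000 m
  hchi : chi (cubeE m) pc (fun _ => false) = lam * r ^ 25

private theorem pb_pc (m pc ε d : ℝ) (hm : 9 ≤ m) (hpc1 : 1 ≤ pc * m) (hpc2 : pc * m ≤ 1 + d)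
    (hd : d ≤ 1 / 100) (hε0 : 0 < ε) (hε : ε ≤ 1 / 100) : 0 < pc ∧ pc ≤ 1 / 8 ∧ 1 / m ≤ pc ∧
    0 < pc * (1 + ε) ∧ pc * (1 + ε) ≤ 1 / 4 ∧ pc * (1 + ε) * m ≤ 5 / 4 := by
  have hm0 : 0 < m := by linarith
  have h0 : 0 < pc := by
    by_contra hcon
    push Not at hcon
    nlinarith
  have h1 : pc ≤ 1 / 8 := by
    by_contra hcon
    push Not at hcon
    nlinarith
  refine ⟨h0, h1, ?_, by positivity, by nlinarith, ?_⟩
  · rw [div_le_iff₀ hm0]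
    exact hpc1
  · have : pc * (1 + ε) * m = (pc * m) * (1 + ε) := by ring
    rw [this]
    nlinarith

private theorem pb_r72 (m : ℕ) (lam pc ε r : ℝ) (h : PB m lam pc ε r) : r ^ 72 ≤ 2 ^ m * ε := by
  have hr0 : 0 < r := by linarith [h.hr100]
  rw [← h.hr75]
  calc r ^ 72 = r ^ 72 * 1 := by ring
    _ ≤ r ^ 72 * (ε * r ^ 3) := mul_le_mul_of_nonneg_left h.hεr (by positivity)
    _ = _ := by ring

private theorem pb_epsk (m : ℕ) (lam pc ε r : ℝ) (h : PB m lam pc ε r) (k : ℕ) (hk : 3 * k + 1 ≤ 75) :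
    r ≤ 2 ^ m * ε ^ k := by
  have hr0 : 0 < r := by linarith [h.hr100]
  have hr1 : 1 ≤ r := by linarith [h.hr100]
  rw [← h.hr75]
  have h1 : 1 ≤ (ε * r ^ 3) ^ k := one_le_pow₀ h.hεr
  obtain ⟨j, hj⟩ : ∃ j, 75 = j + 1 + 3 * k := ⟨75 - 1 - 3 * k, by omega⟩
  calc r = r ^ 1 := by ring
    _ ≤ r ^ (j + 1) := pow_le_pow_right₀ hr1 (by omega)
    _ = r ^ (j + 1) * 1 := by ring
    _ ≤ r ^ (j + 1) * (ε * r ^ 3) ^ k := mul_le_mul_of_nonneg_left h1 (by positivity)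
    _ = r ^ 75 * ε ^ k := by
        rw [mul_pow, ← pow_mul, hj, pow_add r (j + 1) (3 * k)]
        ring

/-- the size of `K` -/
private theorem pb_K (m : ℕ) (lam pc ε r : ℝ) (h : PB m lam pc ε r) : ∃ K : ℕ, 1 ≤ K ∧
    32 * m * LL 31000 m ≤ K * ε ^ 2 ∧ K * ε ^ 2 ≤ 33 * m * LL 31000 m := by
  have hm9r : (9 : ℝ) ≤ m := by exact_mod_cast h.hm9
  have hε0 := h.hε0
  have hε2 : 0 < ε ^ 2 := by positivity
  have hε2' : ε ^ 2 ≤ 1 := pow_le_one₀ hε0.le (by linarith [h.hε100])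
  have hL31 : 1 ≤ LL 31000 m := xn_LL_one _ (by norm_num) _
  have hmL : 1 ≤ (m : ℝ) * LL 31000 m := by nlinarith
  have hx0 : 0 ≤ 32 * m * LL 31000 m / ε ^ 2 := by positivity
  have hlow := Nat.le_ceil (32 * m * LL 31000 m / ε ^ 2)
  have hup := (Nat.ceil_lt_add_one hx0).le
  rw [div_le_iff₀ hε2] at hlow
  have h2 := mul_le_mul_of_nonneg_right hup hε2.le
  rw [add_mul, div_mul_cancel₀ _ hε2.ne'] at h2
  refine ⟨⌈32 * m * LL 31000 m / ε ^ 2⌉₊, ?_, hlow, by linarith⟩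
  by_contra hcon
  have h3 : ⌈32 * (m : ℝ) * LL 31000 m / ε ^ 2⌉₊ = 0 := by omega
  rw [h3] at hlow
  simp only [Nat.cast_zero, zero_mul] at hlow
  linarith

/-- the size of `R` -/
private theorem pb_R (m : ℕ) (lam pc ε r : ℝ) (h : PB m lam pc ε r) : ∃ R : ℕ, 1 ≤ R ∧
    (R : ℝ) ≤ 2 ^ m * ε * LL (-32000) m ∧ 2 ^ m * ε * LL (-32000) m / 2 ≤ R ∧
    4 * r ≤ 2 ^ m * ε * LL (-32000) m := by
  have hε0 := h.hε0
  have hr100 := h.hr100
  have hr0 : 0 < r := by linarith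
  have hL32 := xn_LL_pos (-32000) m
  have hrr : r ^ 3 ≤ r ^ 72 := pow_le_pow_right₀ (by linarith) (by norm_num)
  have h2mε := pb_r72 m lam pc ε r h
  have hy : 4 * r ≤ 2 ^ m * ε * LL (-32000) m := by
    have h1 : LL 32000 m ≤ r := (xn_LL_mono _ _ (by norm_num) m).trans h.hLr
    have h2 : LL 32000 m * LL (-32000) m = 1 := by
      rw [pkgb_LL m _ _ 0 (by norm_num)]
      simp [LL]
    have h3 : 1 ≤ r * LL (-32000) m := by
      rw [← h2]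
      exact mul_le_mul_of_nonneg_right h1 hL32.le
    have h4 : 4 * r ≤ r ^ 2 := by nlinarith
    calc 4 * r ≤ r ^ 2 * 1 := by linarith
      _ ≤ r ^ 2 * (r * LL (-32000) m) := mul_le_mul_of_nonneg_left h3 (by positivity)
      _ = r ^ 3 * LL (-32000) m := by ring
      _ ≤ (2 ^ m * ε) * LL (-32000) m := mul_le_mul_of_nonneg_right (hrr.trans h2mε) hL32.le
  have hup : (⌊2 ^ m * ε * LL (-32000) m⌋₊ : ℝ) ≤ 2 ^ m * ε * LL (-32000) m :=
    Nat.floor_le (by positivity)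
  have hlow := Nat.lt_floor_add_one (2 ^ m * ε * LL (-32000) m)
  refine ⟨⌊2 ^ m * ε * LL (-32000) m⌋₊, ?_, hup, by linarith, hy⟩
  apply Nat.one_le_iff_ne_zero.2
  intro h0
  rw [h0] at hlow
  simp only [Nat.cast_zero] at hlow
  linarith

/-- the size of `q` -/
private theorem pb_q (m : ℕ) (lam pc ε r : ℝ) (h : PB m lam pc ε r) (q : ℝ)
    (hq : q = ε ^ 3 * LL (-100000) m) : 0 < q ∧ q ≤ 1 / 2 ∧ q ≤ pc * ε / 2 := by
  have hm9r : (9 : ℝ) ≤ m := by exact_mod_cast h.hm9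
  have hε0 := h.hε0
  have hε100 := h.hε100
  have hpcm1 := h.hpcm1
  have hL100 := xn_LL_pos (-100000) m
  have hL100m : LL (-100000) m * (2 * m) ≤ 1 := by
    have h1 : 2 * (m : ℝ) ≤ LL 100000 m := by
      have h2 := xn_LL_mono 1000 100000 (by norm_num) m
      have h3 := (pkgb_poly m _ hm9r h.hP).2.1
      linarith
    have h2 : LL (-100000) m * LL 100000 m = 1 := by
      rw [pkgb_LL m _ _ 0 (by norm_num)]
      simp [LL]
    rw [← h2]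
    exact mul_le_mul_of_nonneg_left h1 hL100.le
  have hε3 : ε ^ 3 ≤ ε := by
    calc ε ^ 3 = ε * ε ^ 2 := by ring
      _ ≤ ε * 1 := mul_le_mul_of_nonneg_left (pow_le_one₀ hε0.le (by linarith)) hε0.le
      _ = ε := mul_one _
  have hq0 : 0 < q := by rw [hq]; positivity
  have hqm : q * (2 * m) ≤ ε := by
    rw [hq]
    calc ε ^ 3 * LL (-100000) m * (2 * m) = ε ^ 3 * (LL (-100000) m * (2 * m)) := by ring
      _ ≤ ε ^ 3 * 1 := mul_le_mul_of_nonneg_left hL100m (by positivity)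
      _ ≤ ε := by linarith
  clear hL100 hL100m hε3 hq h
  refine ⟨hq0, ?_, ?_⟩
  · by_contra hcon
    push Not at hcon
    nlinarith
  · have h1 : q * (2 * m) ≤ (pc * m) * ε := hqm.trans (by nlinarith)
    have h2 : (pc * ε / 2 - q) * (2 * m) = (pc * m) * ε - q * (2 * m) := by ring
    by_contra hcon
    push Not at hcon
    have h3 : (pc * ε / 2 - q) * (2 * m) < 0 := mul_neg_of_neg_of_pos (by linarith) (by linarith)
    linarith

/-- the intermediate probability `p1` -/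
private theorem pb_p1 (pc ε q : ℝ) (hpc : 0 < pc) (hε : 0 < ε) (hp : pc * (1 + ε) ≤ 1 / 4)
    (hq0 : 0 < q) (hqh : q ≤ 1 / 2) (hqpc : q ≤ pc * ε / 2) : ∃ p1 e1 : ℝ,
    p1 + q - p1 * q = pc * (1 + ε) ∧ pc ≤ p1 ∧ p1 ≤ 1 / 4 ∧ pc * (1 + e1) = p1 ∧
    ε / 2 ≤ e1 ∧ e1 ≤ ε := by
  have h1q : 0 < 1 - q := by linarith
  have hpqp : pc * (1 + ε / 2) ≤ pc * (1 + ε) - q := by linarith
  have hpε : 0 < pc * ε := by positivity
  have hpq0 : 0 < pc * (1 + ε) - q := lt_of_lt_of_le (by positivity) hpqp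
  have hmul : (pc * (1 + ε) - q) / (1 - q) * (1 - q) = pc * (1 + ε) - q := by
    field_simp
  have hlow : pc * (1 + ε / 2) ≤ (pc * (1 + ε) - q) / (1 - q) := by
    refine hpqp.trans ?_
    rw [le_div_iff₀ h1q]
    have : 0 ≤ (pc * (1 + ε) - q) * q := by positivity
    linarith
  have hup : (pc * (1 + ε) - q) / (1 - q) ≤ pc * (1 + ε) := by
    rw [div_le_iff₀ h1q]
    have : pc * (1 + ε) * q ≤ 1 / 4 * q := mul_le_mul_of_nonneg_right hp hq0.le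
    linarith
  set p1 := (pc * (1 + ε) - q) / (1 - q) with hp1
  have hpce : pc * (1 + (p1 / pc - 1)) = p1 := by
    field_simp
    ring
  refine ⟨p1, p1 / pc - 1, by linarith, by linarith, by linarith, hpce, ?_, ?_⟩
  · have h1 : pc * (1 + ε / 2) ≤ pc * (1 + (p1 / pc - 1)) := by rw [hpce]; exact hlow
    have := le_of_mul_le_mul_left h1 hpc
    linarith
  · have h1 : pc * (1 + (p1 / pc - 1)) ≤ pc * (1 + ε) := by rw [hpce]; exact hup
    have := le_of_mul_le_mul_left h1 hpc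
    linarith

private theorem pb_X (m : ℕ) (lam pc ε r : ℝ) (h : PB m lam pc ε r) (e : ℝ) (he : ε / 2 ≤ e) :
    0 < LL 31000 m / e ∧ LL 31000 m / e ≤ 2 * LL 31000 m / ε ∧ LL 31000 m / e ≤ r ^ 5 := by
  have hε0 := h.hε0
  have he0 : 0 < e := by linarith
  have hr100 := h.hr100
  have hr0 : 0 < r := by linarith
  have hL31 : 0 < LL 31000 m := xn_LL_pos _ _
  have hXup : LL 31000 m / e ≤ 2 * LL 31000 m / ε := by
    rw [div_le_div_iff₀ he0 hε0]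
    have : LL 31000 m * ε ≤ LL 31000 m * (2 * e) := mul_le_mul_of_nonneg_left (by linarith) hL31.le
    linarith
  refine ⟨by positivity, hXup, hXup.trans ?_⟩
  rw [div_le_iff₀ hε0]
  have hL31r : LL 31000 m ≤ r := (xn_LL_mono _ _ (by norm_num) m).trans h.hLr
  calc 2 * LL 31000 m = 2 * LL 31000 m * 1 := by ring
    _ ≤ 2 * LL 31000 m * (ε * r ^ 3) := mul_le_mul_of_nonneg_left h.hεr (by positivity)
    _ ≤ 2 * r * (ε * r ^ 3) := by
        apply mul_le_mul_of_nonneg_right _ (by positivity)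
        linarith
    _ ≤ r * r * (ε * r ^ 3) := by
        apply mul_le_mul_of_nonneg_right _ (by positivity)
        apply mul_le_mul_of_nonneg_right _ hr0.le
        linarith
    _ = r ^ 5 * ε := by ring

/-- the gap estimate -/
private theorem pb_gap (m : ℕ) (lam pc ε r : ℝ) (h : PB m lam pc ε r)
    (hgap : ∀ (pc e : ℝ) (R : ℕ) (o : Q m),
      1 ≤ pc * m → pc * m ≤ 1 + 5000 * dl m → 0 < e → e ≤ 1 → pc * (1 + e) ≤ 1 →
      LL 31000 m / e ≤ chi (cubeE m) pc o → LL 30000 m * (LL 31000 m / e) ^ 3 ≤ 2 ^ m →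
      (R : ℝ) * (LL 31000 m / e) * (128 * ((TT m : ℝ) + 2)) ≤ 2 ^ m →
      ∀ (n : ℕ) (x : Q m),
      Ex (cubeE m) (pc * (1 + e)) (fun ω => ind (n < (cl ω x).card ∧ (cl ω x).card ≤ R)) ≤
        Real.exp (-(n * (e ^ 2 * LL (-31000) m))))
    (K R : ℕ) (hRup : (R : ℝ) ≤ 2 ^ m * ε * LL (-32000) m)
    (e : ℝ) (he : ε / 2 ≤ e) (he' : e ≤ ε) (x : Q m) : Ex (cubeE m) (pc * (1 + e))
      (fun ω => ind (K < (cl ω x).card ∧ (cl ω x).card ≤ R)) ≤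
      Real.exp (-(K * (e ^ 2 * LL (-31000) m))) := by
  obtain ⟨hX0, hXup, hXr⟩ := pb_X m lam pc ε r h e he
  have hε0 := h.hε0
  have hε100 := h.hε100
  have he0 : 0 < e := by linarith
  have hr100 := h.hr100
  have hr0 : 0 < r := by linarith
  have h2m : (0 : ℝ) < 2 ^ m := by positivity
  have hL31 : 0 < LL 31000 m := xn_LL_pos _ _
  refine hgap pc e R (fun _ => false) h.hpcm1 h.hpc5 he0 (by linarith) ?_ ?_ ?_ ?_ K x
  · have h1 : pc * (1 + e) ≤ pc * (1 + ε) := mul_le_mul_of_nonneg_left (by linarith) h.hpc0.le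
    linarith [h.hph]
  · rw [h.hchi]
    refine hXr.trans ?_
    calc r ^ 5 ≤ r ^ 24 := pow_le_pow_right₀ (by linarith) (by norm_num)
      _ = 1 * r ^ 24 := by ring
      _ ≤ (lam * r) * r ^ 24 := mul_le_mul_of_nonneg_right (by linarith [h.hlr]) (by positivity)
      _ = _ := by ring
  · have h1 : LL 30000 m ≤ r := (xn_LL_mono _ _ (by norm_num) m).trans h.hLr
    calc LL 30000 m * (LL 31000 m / e) ^ 3 ≤ r * (r ^ 5) ^ 3 :=
          mul_le_mul h1 (pow_le_pow_left₀ hX0.le hXr 3) (by positivity) hr0.le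
      _ = r ^ 16 := by ring
      _ ≤ r ^ 75 := pow_le_pow_right₀ (by linarith) (by norm_num)
      _ = _ := h.hr75
  · have hm9r : (9 : ℝ) ≤ m := by exact_mod_cast h.hm9
    have hTT := (xn_TT m (by have := h.hm9; omega)).2.2
    have hT0 : (0 : ℝ) ≤ TT m := Nat.cast_nonneg _
    have h1 : 256 * ((TT m : ℝ) + 2) ≤ LL 1000 m := by
      have h2 := (pkgb_poly m _ hm9r h.hP).1
      have h3 : (9 : ℝ) ^ 2 ≤ (m : ℝ) ^ 2 := pow_le_pow_left₀ (by norm_num) hm9r 2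
      linarith
    have h2 : (R : ℝ) * (LL 31000 m / e) ≤ (2 ^ m * ε * LL (-32000) m) * (2 * LL 31000 m / ε) :=
      mul_le_mul hRup hXup hX0.le (mul_nonneg (by positivity) (xn_LL_pos _ _).le)
    have h3 : (2 ^ m * ε * LL (-32000) m) * (2 * LL 31000 m / ε) =
        2 ^ m * 2 * (LL (-32000) m * LL 31000 m) := by
      field_simp
    rw [h3, pkgb_LL m _ _ (-1000) (by norm_num)] at h2
    have h4 : LL (-1000) m * LL 1000 m = 1 := by
      rw [pkgb_LL m _ _ 0 (by norm_num)]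
      simp [LL]
    have hLm := xn_LL_pos (-1000) m
    calc (R : ℝ) * (LL 31000 m / e) * (128 * ((TT m : ℝ) + 2)) ≤
          2 ^ m * 2 * LL (-1000) m * (128 * ((TT m : ℝ) + 2)) :=
          mul_le_mul_of_nonneg_right h2 (by positivity)
      _ = 2 ^ m * (LL (-1000) m * (256 * ((TT m : ℝ) + 2))) := by ring
      _ ≤ 2 ^ m * (LL (-1000) m * LL 1000 m) := by
          apply mul_le_mul_of_nonneg_left _ h2m.le
          exact mul_le_mul_of_nonneg_left h1 hLm.le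
      _ = 2 ^ m := by rw [h4, mul_one]

private theorem pb_expo (m : ℕ) (ε : ℝ) (K : ℝ) (hε : 0 < ε) (hK0 : 0 ≤ K)
    (hKlow : 32 * m * LL 31000 m ≤ K * ε ^ 2)
    (e : ℝ) (he : ε / 2 ≤ e) : 8 * (m : ℝ) ≤ K * (e ^ 2 * LL (-31000) m) := by
  have hL31' := xn_LL_pos (-31000) m
  have h2 : LL 31000 m * LL (-31000) m = 1 := by
    rw [pkgb_LL m _ _ 0 (by norm_num)]
    simp [LL]
  have h3 : ε ^ 2 / 4 ≤ e ^ 2 := by
    have := pow_le_pow_left₀ (by positivity) he 2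
    calc ε ^ 2 / 4 = (ε / 2) ^ 2 := by ring
      _ ≤ _ := this
  calc 8 * (m : ℝ) = (32 * m * LL 31000 m) / 4 * LL (-31000) m := by
        rw [show (32 * m * LL 31000 m) / 4 * LL (-31000) m =
          8 * m * (LL 31000 m * LL (-31000) m) by ring, h2, mul_one]
    _ ≤ (K * ε ^ 2) / 4 * LL (-31000) m := by
        apply mul_le_mul_of_nonneg_right _ hL31'.le
        linarith
    _ = K * (ε ^ 2 / 4 * LL (-31000) m) := by ring
    _ ≤ K * (e ^ 2 * LL (-31000) m) := by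
        apply mul_le_mul_of_nonneg_left _ hK0
        exact mul_le_mul_of_nonneg_right h3 hL31'.le

/-- the condition of `b_uall` -/
private theorem pb_ucond (m : ℕ) (lam pc ε r : ℝ) (h : PB m lam pc ε r) (R q : ℝ)
    (hq : q = ε ^ 3 * LL (-100000) m) (hRlow : 2 ^ m * ε * LL (-32000) m / 2 ≤ R)
    (hy : 4 * r ≤ 2 ^ m * ε * LL (-32000) m) : LL 60000 m * (1 + 2 ^ m * q) ≤ R := by
  have hm9r : (9 : ℝ) ≤ m := by exact_mod_cast h.hm9
  have hε0 := h.hε0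
  have hε100 := h.hε100
  have h2m : (0 : ℝ) < 2 ^ m := by positivity
  have hε3 : ε ^ 3 ≤ ε := by
    calc ε ^ 3 = ε * ε ^ 2 := by ring
      _ ≤ ε * 1 := mul_le_mul_of_nonneg_left (pow_le_one₀ hε0.le (by linarith)) hε0.le
      _ = ε := mul_one _
  have h1 : LL 60000 m ≤ r := (xn_LL_mono _ _ (by norm_num) m).trans h.hLr
  have h2 : LL 60000 m * (2 ^ m * q) ≤ 2 ^ m * ε * LL (-32000) m / 4 := by
    have h3 : LL 60000 m * LL (-100000) m = LL (-40000) m := pkgb_LL m _ _ _ (by norm_num)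
    have h4 : LL (-40000) m * 4 ≤ LL (-32000) m := by
      have h5 : LL (-40000) m * LL 8000 m = LL (-32000) m := pkgb_LL m _ _ _ (by norm_num)
      rw [← h5]
      apply mul_le_mul_of_nonneg_left _ (xn_LL_pos _ _).le
      have h6 := xn_LL_mono 1000 8000 (by norm_num) m
      have h7 := (pkgb_poly m _ hm9r h.hP).2.2.2.2.2.2.2.2
      linarith
    have h6 : LL 60000 m * (2 ^ m * q) = 2 ^ m * ε ^ 3 * LL (-40000) m := by
      rw [hq, ← h3]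
      ring
    rw [h6]
    calc 2 ^ m * ε ^ 3 * LL (-40000) m ≤ 2 ^ m * ε * LL (-40000) m := by
          apply mul_le_mul_of_nonneg_right _ (xn_LL_pos _ _).le
          exact mul_le_mul_of_nonneg_left hε3 h2m.le
      _ ≤ 2 ^ m * ε * (LL (-32000) m / 4) := by
          apply mul_le_mul_of_nonneg_left _ (by positivity)
          linarith
      _ = _ := by ring
  calc LL 60000 m * (1 + 2 ^ m * q) = LL 60000 m + LL 60000 m * (2 ^ m * q) := by ring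
    _ ≤ 2 ^ m * ε * LL (-32000) m / 2 := by linarith
    _ ≤ R := hRlow

private theorem pb_ubig (m : ℕ) (lam pc ε r : ℝ) (h : PB m lam pc ε r) (R q : ℝ)
    (hq : q = ε ^ 3 * LL (-100000) m) (hRlow : 2 ^ m * ε * LL (-32000) m / 2 ≤ R) :
    (m : ℝ) ^ 2 ≤ q ^ 2 * R ^ 2 * LL (-25000) m / 2 ^ m := by
  have hm9r : (9 : ℝ) ≤ m := by exact_mod_cast h.hm9
  have hε0 := h.hε0
  have h2m : (0 : ℝ) < 2 ^ m := by positivity
  have hL32 := xn_LL_pos (-32000) m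
  rw [le_div_iff₀ h2m]
  have hR2 : (2 ^ m * ε * LL (-32000) m / 2) ^ 2 ≤ (R : ℝ) ^ 2 :=
    pow_le_pow_left₀ (by positivity) hRlow 2
  have h1 : LL (-100000) m ^ 2 * LL (-32000) m ^ 2 * LL (-25000) m = LL (-289000) m := by
    rw [xn_LL_pow, xn_LL_pow, xn_LL_add, xn_LL_add]
    norm_num
  have h2 : q ^ 2 * (2 ^ m * ε * LL (-32000) m / 2) ^ 2 * LL (-25000) m =
      2 ^ m * (2 ^ m * ε ^ 8 * LL (-289000) m / 4) := by
    rw [← h1, hq]
    ring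
  have h3 : (m : ℝ) ^ 2 ≤ 2 ^ m * ε ^ 8 * LL (-289000) m / 4 := by
    have h4 : 4 * (m : ℝ) ^ 2 * LL 289000 m ≤ r := by
      refine le_trans ?_ h.hLr
      have h5 : LL 1000 m * LL 289000 m = LL 290000 m := pkgb_LL m _ _ _ (by norm_num)
      have h6 := xn_LL_mono 290000 300000 (by norm_num) m
      refine le_trans ?_ h6
      rw [← h5]
      apply mul_le_mul_of_nonneg_right _ (xn_LL_pos _ _).le
      exact (pkgb_poly m _ hm9r h.hP).2.2.1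
    have h5 : LL 289000 m * LL (-289000) m = 1 := by
      rw [pkgb_LL m _ _ 0 (by norm_num)]
      simp [LL]
    have h6 : 4 * (m : ℝ) ^ 2 ≤ r * LL (-289000) m := by
      have := mul_le_mul_of_nonneg_right h4 (xn_LL_pos (-289000) m).le
      rw [mul_assoc, h5, mul_one] at this
      exact this
    have h7 : r ≤ 2 ^ m * ε ^ 8 := pb_epsk m lam pc ε r h 8 (by norm_num)
    have h9 := mul_le_mul_of_nonneg_right h7 (xn_LL_pos (-289000) m).le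
    linarith
  calc (m : ℝ) ^ 2 * 2 ^ m = 2 ^ m * (m : ℝ) ^ 2 := by ring
    _ ≤ 2 ^ m * (2 ^ m * ε ^ 8 * LL (-289000) m / 4) := mul_le_mul_of_nonneg_left h3 h2m.le
    _ = q ^ 2 * (2 ^ m * ε * LL (-32000) m / 2) ^ 2 * LL (-25000) m := h2.symm
    _ ≤ q ^ 2 * R ^ 2 * LL (-25000) m := by
        apply mul_le_mul_of_nonneg_right _ (xn_LL_pos _ _).le
        exact mul_le_mul_of_nonneg_left hR2 (by positivity)

private theorem pb_orph (m : ℕ) (lam pc ε r : ℝ) (h : PB m lam pc ε r) (K R q : ℝ)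
    (hK0 : 0 ≤ K) (hKup : K * ε ^ 2 ≤ 33 * m * LL 31000 m) (hR0 : 0 < R)
    (hq : q = ε ^ 3 * LL (-100000) m) (hRlow : 2 ^ m * ε * LL (-32000) m / 2 ≤ R) :
    2 ^ m * (q * m * K) / R ≤ 1 / (4 * m) := by
  have hm9r : (9 : ℝ) ≤ m := by exact_mod_cast h.hm9
  have hm0r : (0 : ℝ) < m := by linarith
  have hε0 := h.hε0
  have h2m : (0 : ℝ) < 2 ^ m := by positivity
  have hL100 := xn_LL_pos (-100000) m
  have h1 : q * m * K ≤ 33 * m ^ 2 * ε * LL (-69000) m := by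
    have h2 : q * m * K = ε * LL (-100000) m * m * (K * ε ^ 2) := by
      rw [hq]
      ring
    rw [h2]
    have h3 : LL (-100000) m * LL 31000 m = LL (-69000) m := pkgb_LL m _ _ _ (by norm_num)
    calc ε * LL (-100000) m * m * (K * ε ^ 2) ≤
          ε * LL (-100000) m * m * (33 * m * LL 31000 m) :=
          mul_le_mul_of_nonneg_left hKup (by positivity)
      _ = 33 * m ^ 2 * ε * (LL (-100000) m * LL 31000 m) := by ring
      _ = _ := by rw [h3]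
  have h4 : LL (-69000) m * (264 * (m : ℝ) ^ 3) ≤ LL (-32000) m := by
    have h5 : LL (-69000) m * LL 37000 m = LL (-32000) m := pkgb_LL m _ _ _ (by norm_num)
    rw [← h5]
    apply mul_le_mul_of_nonneg_left _ (xn_LL_pos _ _).le
    have h6 := xn_LL_mono 1000 37000 (by norm_num) m
    have h7 := (pkgb_poly m _ hm9r h.hP).2.2.2.1
    linarith
  rw [div_le_div_iff₀ hR0 (by positivity), one_mul]
  refine le_trans ?_ hRlow
  calc 2 ^ m * (q * m * K) * (4 * m) ≤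
        2 ^ m * (33 * m ^ 2 * ε * LL (-69000) m) * (4 * m) := by
        apply mul_le_mul_of_nonneg_right _ (by positivity)
        exact mul_le_mul_of_nonneg_left h1 h2m.le
    _ = 2 ^ m * ε / 2 * (LL (-69000) m * (264 * (m : ℝ) ^ 3)) := by ring
    _ ≤ 2 ^ m * ε / 2 * LL (-32000) m := mul_le_mul_of_nonneg_left h4 (by positivity)
    _ = _ := by ring

/-- uniqueness -/
private theorem pb_unq (m : ℕ) (lam pc ε r : ℝ) (h : PB m lam pc ε r)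
    (hgap : ∀ (pc e : ℝ) (R : ℕ) (o : Q m),
      1 ≤ pc * m → pc * m ≤ 1 + 5000 * dl m → 0 < e → e ≤ 1 → pc * (1 + e) ≤ 1 →
      LL 31000 m / e ≤ chi (cubeE m) pc o → LL 30000 m * (LL 31000 m / e) ^ 3 ≤ 2 ^ m →
      (R : ℝ) * (LL 31000 m / e) * (128 * ((TT m : ℝ) + 2)) ≤ 2 ^ m →
      ∀ (n : ℕ) (x : Q m),
      Ex (cubeE m) (pc * (1 + e)) (fun ω => ind (n < (cl ω x).card ∧ (cl ω x).card ≤ R)) ≤
        Real.exp (-(n * (e ^ 2 * LL (-31000) m))))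
    (huall : ∀ (p1 q : ℝ) (R : ℕ), 1 / m ≤ p1 → p1 ≤ 1 → 0 ≤ q →
      q ≤ 1 → LL 60000 m * (1 + 2 ^ m * q) ≤ R →
      Ex (cubeE m) p1 (fun ζ => Ex (cubeE m) q (fun η =>
        ind (∃ x y, R ≤ (cl ζ x).card ∧ R ≤ (cl ζ y).card ∧ y ∉ cl (ζ ∪ η) x))) ≤
        4 ^ m * (2 * Real.exp (-(q ^ 2 * R ^ 2 * LL (-25000) m / 2 ^ m))))
    (K : ℕ) (hKlow : 32 * m * LL 31000 m ≤ K * ε ^ 2) (hKup : K * ε ^ 2 ≤ 33 * m * LL 31000 m) :
    Ex (cubeE m) (pc * (1 + ε)) (fun ω => ind (¬ Uniq K ω)) ≤ 1 / (2 * m) := by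
  obtain ⟨R, hR1, hRup, hRlow, hy⟩ := pb_R m lam pc ε r h
  obtain ⟨q, hq⟩ : ∃ q : ℝ, q = ε ^ 3 * LL (-100000) m := ⟨_, rfl⟩
  obtain ⟨hq0, hqh, hqpc⟩ := pb_q m lam pc ε r h q hq
  obtain ⟨p1, e1, hpq, hp1low, hp1up, hpce1, he1low, he1up⟩ :=
    pb_p1 pc ε q h.hpc0 h.hε0 h.hph hq0 hqh hqpc
  have hR0 : (0 : ℝ) < R := by exact_mod_cast hR1
  have hK0 : (0 : ℝ) ≤ K := Nat.cast_nonneg _
  have hm0r : (0 : ℝ) < m := by
    have : (9 : ℝ) ≤ m := by exact_mod_cast h.hm9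
    linarith
  have hp10 : 0 ≤ p1 := h.hpc0.le.trans hp1low
  have hu := huall p1 q R (h.hpcm.trans hp1low) (by linarith) hq0.le (by linarith)
    (pb_ucond m lam pc ε r h R q hq hRlow hy)
  have hun := b_uasm m K R hR1 p1 q (Real.exp (-(K * (e1 ^ 2 * LL (-31000) m))))
    (Real.exp (-(K * (ε ^ 2 * LL (-31000) m)))) _ hp10 (by linarith) hq0.le (by linarith)
    (by
      intro x
      have := pb_gap m lam pc ε r h hgap K R hRup e1 he1low he1up x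
      rw [hpce1] at this
      exact this)
    (by
      intro x
      rw [hpq]
      exact pb_gap m lam pc ε r h hgap K R hRup ε (by linarith [h.hε0]) le_rfl x)
    hu
  rw [hpq] at hun
  refine hun.trans ?_
  have b1 := pkgb_gap m _ (pb_expo m ε K h.hε0 hK0 hKlow e1 he1low)
  have b2 := pkgb_gap m _ (pb_expo m ε K h.hε0 hK0 hKlow ε (by linarith [h.hε0]))
  have b3 := pkgb_four m h.hm9 _ (pb_ubig m lam pc ε r h R q hq hRlow)
  have b4 := pkgb_exp7 m h.hm9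
  have b5 := pb_orph m lam pc ε r h K R q hK0 hKup hR0 hq hRlow
  have e1' : 1 / (4 * (m : ℝ)) = 4 * (1 / (16 * m)) := by
    field_simp
    norm_num
  have e2' : 1 / (2 * (m : ℝ)) = 8 * (1 / (16 * m)) := by
    field_simp
    norm_num
  rw [e1'] at b5
  rw [e2']
  linarith

/-- `m K` is small -/
private theorem pb_mK (m : ℕ) (lam pc ε r : ℝ) (h : PB m lam pc ε r) (K : ℝ) (hK0 : 0 ≤ K)
    (hKup : K * ε ^ 2 ≤ 33 * m * LL 31000 m) : (m : ℝ) * K ≤ r ^ 7 / 100 := by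
  have hm9r : (9 : ℝ) ≤ m := by exact_mod_cast h.hm9
  have hm0r : (0 : ℝ) < m := by linarith
  have hr0 : 0 < r := by linarith [h.hr100]
  have hL31 : 0 < LL 31000 m := xn_LL_pos _ _
  have hLK : 33 * (m : ℝ) * LL 31000 m ≤ r / 100 / m := by
    rw [le_div_iff₀ hm0r, le_div_iff₀ (by norm_num)]
    have h5 : LL 1000 m * LL 31000 m = LL 32000 m := pkgb_LL m _ _ _ (by norm_num)
    have h6 := xn_LL_mono 32000 300000 (by norm_num) m
    refine le_trans ?_ (h6.trans h.hLr)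
    rw [← h5]
    calc 33 * (m : ℝ) * LL 31000 m * m * 100 = 3300 * (m : ℝ) ^ 2 * LL 31000 m := by ring
      _ ≤ _ := by
          apply mul_le_mul_of_nonneg_right _ hL31.le
          exact (pkgb_poly m _ hm9r h.hP).2.2.2.2.1
  have hKm : (m : ℝ) * K * ε ^ 2 ≤ r / 100 := by
    calc (m : ℝ) * K * ε ^ 2 = m * (K * ε ^ 2) := by ring
      _ ≤ m * (r / 100 / m) := mul_le_mul_of_nonneg_left (hKup.trans hLK) hm0r.le
      _ = _ := by field_simp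
  have h8 : 1 ≤ (ε * r ^ 3) ^ 2 := one_le_pow₀ h.hεr
  calc (m : ℝ) * K = m * K * 1 := by ring
    _ ≤ m * K * (ε * r ^ 3) ^ 2 := mul_le_mul_of_nonneg_left h8 (by positivity)
    _ = (m * K * ε ^ 2) * r ^ 6 := by ring
    _ ≤ (r / 100) * r ^ 6 := mul_le_mul_of_nonneg_right hKm (by positivity)
    _ = _ := by ring

private theorem pb_thet (m : ℕ) (lam pc ε r : ℝ) (h : PB m lam pc ε r) (K : ℕ)
    (hKup : K * ε ^ 2 ≤ 33 * m * LL 31000 m) (x : Q m) :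
    ε / 8 ≤ Ex (cubeE m) (pc * (1 + ε)) (fun ω => ind (m * K + 1 < (cl ω x).card)) := by
  have hr100 := h.hr100
  have hr0 : 0 < r := by linarith
  have hKr := pb_mK m lam pc ε r h K (Nat.cast_nonneg _) hKup
  refine b_thet m (by have := h.hm9; omega) pc ε h.hpc0 h.hε0 (by linarith [h.hε100])
    (by linarith [h.hph]) (m * K + 1) x (fun _ => false) ?_
  rw [h.hchi]
  push_cast
  have h2 : r ^ 7 ≤ r ^ 24 := pow_le_pow_right₀ (by linarith) (by norm_num)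
  have h3 : 1 ≤ r ^ 24 := one_le_pow₀ (by linarith)
  have h4 : 100 * r ^ 24 ≤ (lam * r) * r ^ 24 :=
    mul_le_mul_of_nonneg_right h.hlr (by positivity)
  have h5 : (lam * r) * r ^ 24 = lam * r ^ 25 := by ring
  linarith

private theorem pb_exst (m : ℕ) (lam pc ε r : ℝ) (h : PB m lam pc ε r) (K : ℕ)
    (hKup : K * ε ^ 2 ≤ 33 * m * LL 31000 m) :
    Ex (cubeE m) (pc * (1 + ε)) (fun ω => ind (∀ x, (cl ω x).card ≤ K)) ≤ 1 / (2 * m) := by
  have hm9 := h.hm9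
  have hm9r : (9 : ℝ) ≤ m := by exact_mod_cast hm9
  have hm0r : (0 : ℝ) < m := by linarith
  have hr100 := h.hr100
  have hr0 : 0 < r := by linarith
  have hε0 := h.hε0
  have hp1 : pc * (1 + ε) ≤ 1 := by linarith [h.hph]
  have hKr := pb_mK m lam pc ε r h K (Nat.cast_nonneg _) hKup
  have hthetK : ∀ x : Q m, ε / 8 ≤ Ex (cubeE m) (pc * (1 + ε)) (fun ω => ind (K < (cl ω x).card)) := by
    intro x
    refine (pb_thet m lam pc ε r h K hKup x).trans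
      (Ex_mono _ _ h.hp0.le hp1 _ _ fun ω _ => xb_ind_mono fun h' => ?_)
    have : K ≤ m * K := Nat.le_mul_of_pos_left K (by omega)
    omega
  refine (b_exst m K (pc * (1 + ε)) (ε / 8) h.hp0.le hp1 (by positivity) hthetK).trans ?_
  have h2m : (0 : ℝ) < 2 ^ m := by positivity
  rw [div_le_div_iff₀ (by positivity) (by positivity), one_mul]
  have h1 : ((m : ℝ) * K) ^ 2 ≤ (r ^ 7 / 100) ^ 2 := pow_le_pow_left₀ (by positivity) hKr 2
  have h2 : 1 ≤ (ε * r ^ 3) ^ 2 := one_le_pow₀ h.hεr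
  have h3 : r ^ 69 ≤ 2 ^ m * ε ^ 2 := by
    rw [← h.hr75]
    calc r ^ 69 = r ^ 69 * 1 := by ring
      _ ≤ r ^ 69 * (ε * r ^ 3) ^ 2 := mul_le_mul_of_nonneg_left h2 (by positivity)
      _ = _ := by ring
  have h4 : r ^ 16 ≤ r ^ 69 := pow_le_pow_right₀ (by linarith) (by norm_num)
  have h5 : 4 * ((m : ℝ) + 1) * (K : ℝ) ^ 2 * (2 * m) ≤ 16 * ((m : ℝ) * K) ^ 2 := by
    have h51 : 4 * ((m : ℝ) + 1) * (2 * m) ≤ 16 * (m : ℝ) ^ 2 := by
      clear h1 h2 h3 h4 hthetK h hKr hKup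
      nlinarith
    calc 4 * ((m : ℝ) + 1) * (K : ℝ) ^ 2 * (2 * m) = 4 * ((m : ℝ) + 1) * (2 * m) * (K : ℝ) ^ 2 := by
          ring
      _ ≤ 16 * (m : ℝ) ^ 2 * (K : ℝ) ^ 2 := mul_le_mul_of_nonneg_right h51 (by positivity)
      _ = _ := by ring
  have h6 : (2 : ℝ) ^ m * (ε / 8) ^ 2 = 2 ^ m * ε ^ 2 / 64 := by ring
  rw [h6]
  have h7 : r ^ 14 * 10000 ≤ r ^ 16 := by
    have : (100 : ℝ) ^ 2 ≤ r ^ 2 := pow_le_pow_left₀ (by norm_num) hr100 2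
    calc r ^ 14 * 10000 = r ^ 14 * 100 ^ 2 := by norm_num
      _ ≤ r ^ 14 * r ^ 2 := mul_le_mul_of_nonneg_left this (by positivity)
      _ = _ := by ring
  have h8 : (r ^ 7 / 100) ^ 2 = r ^ 14 / 10000 := by ring
  rw [h8] at h1
  have h9 : 0 < r ^ 14 := by positivity
  linarith

private theorem pb_vlow (m : ℕ) (lam pc ε r : ℝ) (h : PB m lam pc ε r) (K : ℕ) (hK1 : 1 ≤ K)
    (hKup : K * ε ^ 2 ≤ 33 * m * LL 31000 m) :
    2 ^ m * ε ^ 2 / 40000 ≤ vXK m K (pc * (1 + ε)) := by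
  have hm9 := h.hm9
  have hm9r : (9 : ℝ) ≤ m := by exact_mod_cast hm9
  have hm0r : (0 : ℝ) < m := by linarith
  have hε0 := h.hε0
  have hp0 := h.hp0
  have hvl := b_vlow m K (by omega) hK1 (pc * (1 + ε)) (ε / 8) hp0 (by linarith [h.hph])
    (by positivity) (pb_thet m lam pc ε r h K hKup)
  refine le_trans ?_ hvl
  have h1 := pkgb_pow1p m (by omega) (pc * (1 + ε)) hp0.le (by linarith [h.hph]) h.hpm
  have hpm := h.hpm
  rw [div_le_div_iff₀ (by norm_num) (by positivity)]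
  have h2 : 0 ≤ 2 ^ m * ε ^ 2 := by positivity
  calc 2 ^ m * ε ^ 2 * (2 * m * (pc * (1 + ε))) = 2 ^ m * ε ^ 2 * (2 * (pc * (1 + ε) * m)) := by ring
    _ ≤ 2 ^ m * ε ^ 2 * (2 * (5 / 4)) := by
        apply mul_le_mul_of_nonneg_left _ h2
        linarith
    _ ≤ 2 ^ m * ε ^ 2 * ((1 / 243) / 64 * 40000) := by
        apply mul_le_mul_of_nonneg_left _ h2
        norm_num
    _ ≤ 2 ^ m * ε ^ 2 * ((1 - pc * (1 + ε)) ^ (2 * m - 1) / 64 * 40000) := by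
        apply mul_le_mul_of_nonneg_left _ h2
        linarith
    _ = _ := by ring

private theorem pb_D (m : ℕ) (lam pc ε r : ℝ) (h : PB m lam pc ε r) (K D : ℝ)
    (hK0 : 0 ≤ K) (hKup : K * ε ^ 2 ≤ 33 * m * LL 31000 m)
    (hD : D = 2 * ((m : ℝ) + 1) * K ^ 2) :
    16 * 40000 ^ 2 * m * D ^ 3 ≤ 2 ^ m * ε ^ 4 ∧ 40000 ^ 3 * m * D ^ 4 ≤ 2 ^ m * ε ^ 6 := by
  have hm9r : (9 : ℝ) ≤ m := by exact_mod_cast h.hm9
  have hm0r : (0 : ℝ) < m := by linarith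
  have hε0 := h.hε0
  obtain ⟨-, -, -, -, -, q1, q2, q3, -⟩ := pkgb_poly m _ hm9r h.hP
  have hD0 : 0 ≤ D := by rw [hD]; positivity
  have hDε : D * ε ^ 4 ≤ LL 63000 m := by
    have h1 : (K * ε ^ 2) ^ 2 ≤ (33 * m * LL 31000 m) ^ 2 := pow_le_pow_left₀ (by positivity) hKup 2
    have h2 : LL 31000 m ^ 2 = LL 62000 m := by
      rw [xn_LL_pow]
      norm_num
    have h3 : LL 1000 m * LL 62000 m = LL 63000 m := pkgb_LL m _ _ _ (by norm_num)
    calc D * ε ^ 4 = 2 * ((m : ℝ) + 1) * (K * ε ^ 2) ^ 2 := by rw [hD]; ring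
      _ ≤ 2 * ((m : ℝ) + 1) * (33 * m * LL 31000 m) ^ 2 :=
          mul_le_mul_of_nonneg_left h1 (by positivity)
      _ = 2178 * (((m : ℝ) + 1) * m ^ 2) * LL 62000 m := by rw [← h2]; ring
      _ ≤ LL 1000 m * LL 62000 m := mul_le_mul_of_nonneg_right q1 (xn_LL_pos _ _).le
      _ = _ := h3
  have hDε0 : 0 ≤ D * ε ^ 4 := by positivity
  constructor
  · have hc1 : 16 * 40000 ^ 2 * m * (D * ε ^ 4) ^ 3 ≤ 2 ^ m * ε ^ 16 := by
      have h1 : (D * ε ^ 4) ^ 3 ≤ LL 189000 m := by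
        have := pow_le_pow_left₀ hDε0 hDε 3
        rw [xn_LL_pow] at this
        norm_num at this
        exact this
      have h2 : LL 1000 m * LL 189000 m = LL 190000 m := pkgb_LL m _ _ _ (by norm_num)
      have h3 := xn_LL_mono 190000 300000 (by norm_num) m
      calc 16 * 40000 ^ 2 * m * (D * ε ^ 4) ^ 3 ≤ 16 * 40000 ^ 2 * m * LL 189000 m :=
            mul_le_mul_of_nonneg_left h1 (by positivity)
        _ ≤ LL 1000 m * LL 189000 m := mul_le_mul_of_nonneg_right q2 (xn_LL_pos _ _).le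
        _ ≤ r := by rw [h2]; exact h3.trans h.hLr
        _ ≤ _ := pb_epsk m lam pc ε r h 16 (by norm_num)
    have h1 : 16 * 40000 ^ 2 * m * (D * ε ^ 4) ^ 3 = (16 * 40000 ^ 2 * m * D ^ 3) * ε ^ 12 := by ring
    have h2 : 2 ^ m * ε ^ 16 = (2 ^ m * ε ^ 4) * ε ^ 12 := by ring
    rw [h1, h2] at hc1
    exact le_of_mul_le_mul_right hc1 (by positivity)
  · have hc2 : 40000 ^ 3 * m * (D * ε ^ 4) ^ 4 ≤ 2 ^ m * ε ^ 22 := by
      have h1 : (D * ε ^ 4) ^ 4 ≤ LL 252000 m := by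
        have := pow_le_pow_left₀ hDε0 hDε 4
        rw [xn_LL_pow] at this
        norm_num at this
        exact this
      have h2 : LL 1000 m * LL 252000 m = LL 253000 m := pkgb_LL m _ _ _ (by norm_num)
      have h3 := xn_LL_mono 253000 300000 (by norm_num) m
      calc 40000 ^ 3 * m * (D * ε ^ 4) ^ 4 ≤ 40000 ^ 3 * m * LL 252000 m :=
            mul_le_mul_of_nonneg_left h1 (by positivity)
        _ ≤ LL 1000 m * LL 252000 m := mul_le_mul_of_nonneg_right q3 (xn_LL_pos _ _).le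
        _ ≤ r := by rw [h2]; exact h3.trans h.hLr
        _ ≤ _ := pb_epsk m lam pc ε r h 22 (by norm_num)
    have h1 : 40000 ^ 3 * m * (D * ε ^ 4) ^ 4 = (40000 ^ 3 * m * D ^ 4) * ε ^ 16 := by ring
    have h2 : 2 ^ m * ε ^ 22 = (2 ^ m * ε ^ 6) * ε ^ 16 := by ring
    rw [h1, h2] at hc2
    exact le_of_mul_le_mul_right hc2 (by positivity)

private theorem pb_split (m K : ℕ) (p : ℝ) (h0 : 0 ≤ p) (h1 : p ≤ 1) :
    Ex (cubeE m) p (fun ω => ind (¬ (Uniq K ω ∧ ∃ x, K < (cl ω x).card))) ≤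
      Ex (cubeE m) p (fun ω => ind (¬ Uniq K ω)) +
      Ex (cubeE m) p (fun ω => ind (∀ x, (cl ω x).card ≤ K)) := by
  rw [← Ex_add]
  refine Ex_mono _ _ h0 h1 _ _ fun ω _ => ?_
  have hi : ∀ P : Prop, P → ind P = 1 := fun P hP => by
    unfold ind
    rw [if_pos hP]
  have hi0 : ∀ P : Prop, ¬ P → ind P = 0 := fun P hP => by
    unfold ind
    rw [if_neg hP]
  by_cases hU : Uniq K ω
  · by_cases hx : ∃ x, K < (cl ω x).card
    · rw [hi0 _ (not_not.2 ⟨hU, hx⟩)]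
      exact add_nonneg (xb_ind_nonneg _) (xb_ind_nonneg _)
    · push Not at hx
      rw [hi _ hx]
      have h3 := xb_ind_le_one (¬ (Uniq K ω ∧ ∃ x, K < (cl ω x).card))
      have h4 := xb_ind_nonneg (¬ Uniq K ω)
      linarith
  · rw [hi _ hU]
    have h3 := xb_ind_le_one (¬ (Uniq K ω ∧ ∃ x, K < (cl ω x).card))
    have h4 := xb_ind_nonneg (∀ x, (cl ω x).card ≤ K)
    linarith

private theorem pb_fin (m : ℕ) (D v ε : ℝ) (hm : 0 < (m : ℝ)) (hε : 0 < ε)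
    (h1 : 16 * 40000 ^ 2 * m * D ^ 3 ≤ 2 ^ m * ε ^ 4)
    (h2 : 40000 ^ 3 * m * D ^ 4 ≤ 2 ^ m * ε ^ 6) (hv : 2 ^ m * ε ^ 2 / 40000 ≤ v) :
    8 * D ^ 3 * (2 * 2 ^ m) ≤ v ^ 2 / m ∧ (D ^ 2 * 2 ^ m) ^ 2 ≤ v ^ 3 / m := by
  have h2m : (0 : ℝ) < 2 ^ m := by positivity
  have hv2 := pow_le_pow_left₀ (show 0 ≤ 2 ^ m * ε ^ 2 / 40000 by positivity) hv 2
  have hv3 := pow_le_pow_left₀ (show 0 ≤ 2 ^ m * ε ^ 2 / 40000 by positivity) hv 3
  constructor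
  · rw [le_div_iff₀ hm]
    refine le_trans ?_ hv2
    have e : (2 ^ m * ε ^ 2 / 40000) ^ 2 = 2 ^ m * (2 ^ m * ε ^ 4) / 40000 ^ 2 := by ring
    rw [e, le_div_iff₀ (by norm_num)]
    calc 8 * D ^ 3 * (2 * 2 ^ m) * m * 40000 ^ 2 = 2 ^ m * (16 * 40000 ^ 2 * m * D ^ 3) := by ring
      _ ≤ _ := mul_le_mul_of_nonneg_left h1 h2m.le
  · rw [le_div_iff₀ hm]
    refine le_trans ?_ hv3
    have e : (2 ^ m * ε ^ 2 / 40000) ^ 3 = 2 ^ m * 2 ^ m * (2 ^ m * ε ^ 6) / 40000 ^ 3 := by ring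
    rw [e, le_div_iff₀ (by norm_num)]
    calc (D ^ 2 * 2 ^ m) ^ 2 * m * 40000 ^ 3 = 2 ^ m * 2 ^ m * (40000 ^ 3 * m * D ^ 4) := by ring
      _ ≤ _ := mul_le_mul_of_nonneg_left h2 (by positivity)

theorem b_pkgB (lam : ℝ) (hlam : 0 < lam) : ∃ m0 : ℕ, ∀ m ≥ m0, ∀ pc ε : ℝ,
    1 ≤ pc * m → pc * m ≤ 1 + 2000 * dl m →
    chi (cubeE m) pc (fun _ => false) = lam * ((2 : ℝ) ^ m) ^ (1 / 3 : ℝ) →
    (2 : ℝ) ^ (-(m : ℝ) / 25) ≤ ε → ε ≤ 2000 * dl m → ∃ K : ℕ, Pkg m K (pc * (1 + ε)) := by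
  obtain ⟨mA, hmA⟩ := pkgb_big lam hlam
  obtain ⟨mB, hmB⟩ := b_gapn
  obtain ⟨mC, hmC⟩ := b_uall
  refine ⟨max mA (max mB mC), fun m hm => ?_⟩
  simp only [ge_iff_le, max_le_iff] at hm
  obtain ⟨hmA', hmB', hmC'⟩ := hm
  intro pc ε hpc1 hpc2 hchi heps1 heps2
  obtain ⟨hm9, hdl, hP, r, hr75, hr25, hr3, hr100, hrlam, hLr⟩ := hmA m hmA'
  have hm9r : (9 : ℝ) ≤ m := by exact_mod_cast hm9
  have hm0r : (0 : ℝ) < m := by linarith
  have hdl0 := xn_dl_nonneg m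
  have hr0 : 0 < r := by linarith
  rw [hr25] at hchi
  have hε0 : 0 < ε := lt_of_lt_of_le (Real.rpow_pos_of_pos (by norm_num) _) heps1
  have hεr : 1 ≤ ε * r ^ 3 := by
    rw [← hr3]
    exact mul_le_mul_of_nonneg_right heps1 (by positivity)
  obtain ⟨f1, f2, f3, f4, f5, f6⟩ := pb_pc m pc ε (2000 * dl m) hm9r hpc1 hpc2 hdl hε0
    (by linarith)
  have hlr : 100 ≤ lam * r := by
    rw [div_le_iff₀ hlam] at hrlam
    linarith
  have h : PB m lam pc ε r := ⟨hm9, f1, f2, hpc1, f3, by linarith, f4, f5, f6, hε0, by linarith,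
    hεr, hr100, hr75, hlr, hLr, hP, hchi⟩
  obtain ⟨K, hK1, hKlow, hKup⟩ := pb_K m lam pc ε r h
  have hunq := pb_unq m lam pc ε r h (hmB m hmB') (hmC m hmC') K hKlow hKup
  have hexb := pb_exst m lam pc ε r h K hKup
  have hvlow := pb_vlow m lam pc ε r h K hK1 hKup
  obtain ⟨d1, d2⟩ := pb_D m lam pc ε r h K _ (Nat.cast_nonneg _) hKup rfl
  obtain ⟨g1, g2⟩ := pb_fin m _ _ ε hm0r hε0 d1 d2 hvlow
  refine ⟨K, ?_, g1, g2, lt_of_lt_of_le (by positivity) hvlow⟩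
  refine (pb_split m K _ h.hp0.le (by linarith [h.hph])).trans
    ((add_le_add hunq hexb).trans (le_of_eq ?_))
  field_simp
  norm_num

end Pool.Agent.Work.MP_b7dc8a_pr
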