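import Pool.Agent.Work.MP_b7dc8a_pr.B.PkgA
import Pool.Agent.Work.MP_b7dc8a_pr.B.PkgB
import Pool.Agent.Work.MP_b7dc8a_pr.Final

/-! Module FIN2 (M): the theorem for `ε >= 2^(-m/25)`. Copy of the proof of `main` (Final.lean) with
`m^4` replaced by `K m`, chosen with `b_pkgA` (if `ε m >= 2000 log m / m`) or `b_pkgB` (otherwise);
`final_pc_lower`, `final_pc_upper` give `1 < pc m * m <= 1 + 2000 log m / m`. The error of `clt_XK`:
`sqrt (8 D^3 (2 2^m)) / v <= 1 / sqrt m` and `D^2 (2 2^m) / (2 v^(3/2)) <= 1 / sqrt m`. -/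

namespace Pool.Agent.Work.MP_b7dc8a_pr

open Finset Filter Topology

/-- the error term of the central limit theorem -/
private theorem fin2_err (m : ℕ) (hm : 1 ≤ m) (t D v b : ℝ) (hb : 0 < b) (hbv : b ^ 2 = v)
    (hD : 0 ≤ D) (h1 : 8 * D ^ 3 * (2 * 2 ^ m) ≤ v ^ 2 / m)
    (h2 : (D ^ 2 * 2 ^ m) ^ 2 ≤ v ^ 3 / m) :
    t ^ 2 * Real.sqrt (8 * D ^ 3 * (2 * 2 ^ m)) / b ^ 2 +
      |t| ^ 3 * D ^ 2 * (2 * 2 ^ m) / (2 * b ^ 3) ≤
      (t ^ 2 + |t| ^ 3) * (1 / Real.sqrt m) := by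
  have hm0 : (0 : ℝ) < m := by exact_mod_cast hm
  have hs : 0 < Real.sqrt m := Real.sqrt_pos.2 hm0
  have hs2 : Real.sqrt m ^ 2 = m := Real.sq_sqrt hm0.le
  have hv : 0 < v := by rw [← hbv]; positivity
  have h3 : Real.sqrt (8 * D ^ 3 * (2 * 2 ^ m)) ≤ b ^ 2 / Real.sqrt m := by
    apply Real.sqrt_le_iff.2
    refine ⟨by positivity, ?_⟩
    rw [div_pow, hs2, hbv]
    exact h1
  have h4 : D ^ 2 * 2 ^ m ≤ b ^ 3 / Real.sqrt m := by
    have h5 : (D ^ 2 * 2 ^ m) ^ 2 ≤ (b ^ 3 / Real.sqrt m) ^ 2 := by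
      refine h2.trans (le_of_eq ?_)
      rw [div_pow, hs2, ← hbv]
      ring
    exact (pow_le_pow_iff_left₀ (by positivity) (by positivity) (by norm_num)).1 h5
  have h6 : t ^ 2 * Real.sqrt (8 * D ^ 3 * (2 * 2 ^ m)) / b ^ 2 ≤ t ^ 2 * (1 / Real.sqrt m) := by
    rw [div_le_iff₀ (by positivity)]
    calc t ^ 2 * Real.sqrt (8 * D ^ 3 * (2 * 2 ^ m)) ≤ t ^ 2 * (b ^ 2 / Real.sqrt m) :=
          mul_le_mul_of_nonneg_left h3 (sq_nonneg t)
      _ = t ^ 2 * (1 / Real.sqrt m) * b ^ 2 := by ring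
  have h7 : |t| ^ 3 * D ^ 2 * (2 * 2 ^ m) / (2 * b ^ 3) ≤ |t| ^ 3 * (1 / Real.sqrt m) := by
    rw [div_le_iff₀ (by positivity)]
    calc |t| ^ 3 * D ^ 2 * (2 * 2 ^ m) = |t| ^ 3 * 2 * (D ^ 2 * 2 ^ m) := by ring
      _ ≤ |t| ^ 3 * 2 * (b ^ 3 / Real.sqrt m) :=
          mul_le_mul_of_nonneg_left h4 (by positivity)
      _ = |t| ^ 3 * (1 / Real.sqrt m) * (2 * b ^ 3) := by ring
  calc _ ≤ t ^ 2 * (1 / Real.sqrt m) + |t| ^ 3 * (1 / Real.sqrt m) := add_le_add h6 h7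
    _ = _ := by ring

theorem main2 (lam : ℝ) (hlam : 0 < lam) (pc ε : ℕ → ℝ)
    (hpc : ∀ᶠ m in atTop, 0 ≤ pc m ∧ pc m ≤ 1 ∧
      Ex (cubeE m) (pc m) (fun ω => ((cl ω (fun _ => false)).card : ℝ)) =
        lam * ((2 : ℝ) ^ m) ^ (1 / 3 : ℝ))
    (hε0 : Tendsto ε atTop (𝓝 0))
    (hε : ∀ᶠ m : ℕ in atTop, (2 : ℝ) ^ (-(m : ℝ) / 25) ≤ ε m) :
    ∃ a b : ℕ → ℝ, (∀ m, 0 < b m) ∧ ∀ x : ℝ,
      Tendsto (fun m => Ex (cubeE m) (pc m * (1 + ε m))
        (fun ω => ind (((largest ω : ℝ) - a m) / b m ≤ x))) atTop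
        (𝓝 ((ProbabilityTheory.gaussianReal 0 1).real (Set.Iic x))) := by
  classical
  obtain ⟨mA, hmA⟩ := b_pkgA
  obtain ⟨mB, hmB⟩ := b_pkgB lam hlam
  set p : ℕ → ℝ := fun m => pc m * (1 + ε m) with hp
  -- the range of p
  have hrange : ∀ᶠ m : ℕ in atTop, 3 ≤ m ∧ 0 ≤ p m ∧ p m ≤ 1 ∧ ∃ K : ℕ, Pkg m K (p m) := by
    have h1 := final_pc_lower lam hlam pc hpc
    have h2 := final_pc_upper lam hlam pc hpc
    have h4 := hε0.eventually (gt_mem_nhds (show (0 : ℝ) < 1 / 20 by norm_num))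
    have h5 := final_log_tendsto.eventually (gt_mem_nhds (show (0 : ℝ) < 1 / 20 by norm_num))
    filter_upwards [h1, h2, hε, h4, h5, hpc, eventually_ge_atTop 3, eventually_ge_atTop mA,
      eventually_ge_atTop mB] with m h1 h2 h8 h4 h5 h6 h7 hA hB
    have hmr : (3 : ℝ) ≤ m := by exact_mod_cast h7
    have hm0 : (0 : ℝ) < m := by linarith
    have hεpos : 0 < ε m := lt_of_lt_of_le (Real.rpow_pos_of_pos (by norm_num) _) h8
    have h9 : p m * m = pc m * m * (1 + ε m) := by simp only [hp]; ring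
    have hpm0 : 0 ≤ p m := mul_nonneg h6.1 (by linarith)
    have hpm54 : p m * m ≤ 5 / 4 := by
      rw [h9]
      have h10 : pc m * m ≤ 21 / 20 := by linarith
      nlinarith
    have hlow : 1 + ε m ≤ p m * m := by
      rw [h9]
      nlinarith
    have hle1 : p m ≤ 1 := by nlinarith
    refine ⟨h7, hpm0, hle1, ?_⟩
    by_cases hc : 2000 * Real.log m / m ≤ ε m
    · exact ⟨m ^ 4, hmA m hA (ε m) (p m) hc hlow hpm54⟩
    · push Not at hc
      have hdl : 2000 * dl m = 2000 * Real.log m / m := by unfold dl; ring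
      refine hmB m hB (pc m) (ε m) h1.le ?_ h6.2.2 h8 ?_
      · rw [hdl]; exact h2
      · rw [hdl]; exact hc.le
  -- choice of K
  set K : ℕ → ℕ := fun m => if h : ∃ K : ℕ, Pkg m K (p m) then h.choose else 0 with hK
  have hpkg : ∀ᶠ m : ℕ in atTop, 3 ≤ m ∧ 0 ≤ p m ∧ p m ≤ 1 ∧ Pkg m (K m) (p m) := by
    filter_upwards [hrange] with m hm
    refine ⟨hm.1, hm.2.1, hm.2.2.1, ?_⟩
    simp only [hK]
    rw [dif_pos hm.2.2.2]
    exact hm.2.2.2.choose_spec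
  set X : ∀ m, Finset (Sym2 (Q m)) → ℝ := fun m ω => (XK (K m) ω : ℝ) with hX
  set μ : ℕ → ℝ := fun m => Ex (cubeE m) (p m) (X m) with hμ
  set v : ℕ → ℝ := fun m => Ex (cubeE m) (p m) (fun ω => (X m ω - μ m) ^ 2) with hv
  set b : ℕ → ℝ := fun m => if 0 < v m then Real.sqrt (v m) else 1 with hb
  have hbpos : ∀ m, 0 < b m := by
    intro m
    simp only [hb]
    split_ifs with h
    · exact Real.sqrt_pos.2 h
    · norm_num
  have hvexp : ∀ m, v m = vXK m (K m) (p m) := by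
    intro m
    simp only [hv]
    have h1 : (fun ω : Finset (Sym2 (Q m)) => (X m ω - μ m) ^ 2) =
        fun ω => (X m ω ^ 2 - (2 * μ m) * X m ω) + μ m ^ 2 := by
      funext ω; ring
    rw [h1, Ex_add, Ex_sub, Ex_mul_left, Ex_const]
    simp only [hμ, vXK]
    ring
  have hbv : ∀ᶠ m : ℕ in atTop, b m ^ 2 = v m := by
    filter_upwards [hpkg] with m hm
    have h2 : 0 < v m := by
      rw [hvexp]
      exact hm.2.2.2.2.2.2
    simp only [hb, if_pos h2]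
    exact Real.sq_sqrt h2.le
  refine ⟨fun m => 2 ^ m - μ m, b, hbpos, fun x => ?_⟩
  refine levy (fun m => Sym2 (Q m)) cubeE p ?_ (fun m ω => -((X m ω - μ m) / b m))
    (fun m ω => ((largest ω : ℝ) - (2 ^ m - μ m)) / b m) ?_ ?_ x
  · filter_upwards [hpkg] with m hm
    exact ⟨hm.2.1, hm.2.2.1⟩
  · intro t
    rw [tendsto_iff_norm_sub_tendsto_zero]
    have herr : Tendsto (fun m : ℕ => (t ^ 2 + |t| ^ 3) * (1 / Real.sqrt m)) atTop (𝓝 0) := by
      have h1 : Tendsto (fun m : ℕ => Real.sqrt (m : ℝ)) atTop atTop :=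
        Real.tendsto_sqrt_atTop.comp tendsto_natCast_atTop_atTop
      have h2 : Tendsto (fun m : ℕ => 1 / Real.sqrt (m : ℝ)) atTop (𝓝 0) := by
        have h3 := h1.inv_tendsto_atTop
        refine h3.congr fun m => ?_
        rw [one_div]
        rfl
      have := h2.const_mul (t ^ 2 + |t| ^ 3)
      simpa using this
    refine squeeze_zero' (Eventually.of_forall fun _ => norm_nonneg _) ?_ herr
    filter_upwards [hpkg, hbv] with m hm hbm
    have h1 := clt_XK m (K m) (by omega) (p m) hm.2.1 hm.2.2.1 (μ m) (b m) rfl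
      (hbpos m) hbm.symm (-t)
    have h3 := fin2_err m (by omega) (-t) (2 * ((m : ℝ) + 1) * (K m : ℝ) ^ 2) (v m) (b m)
      (hbpos m) hbm (by positivity) (by rw [hvexp]; exact hm.2.2.2.2.1)
      (by rw [hvexp]; exact hm.2.2.2.2.2.1)
    rw [neg_sq, abs_neg] at h3
    rw [neg_sq, abs_neg] at h1
    refine le_trans ?_ h3
    refine le_of_eq_of_le ?_ h1
    congr 2
    · unfold ExC
      refine Finset.sum_congr rfl fun ω _ => ?_
      congr 4
      simp only [hX]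
      ring_nf
  · have h0 : Tendsto (fun m : ℕ => 1 / (m : ℝ)) atTop (𝓝 0) :=
      tendsto_one_div_atTop_nhds_zero_nat (𝕜 := ℝ)
    refine squeeze_zero' ?_ ?_ h0
    · filter_upwards [hpkg] with m hm
      have := Ex_mono (cubeE m) (p m) hm.2.1 hm.2.2.1 (fun _ => 0)
        (fun ω => ind (((largest ω : ℝ) - (2 ^ m - μ m)) / b m ≠ -((X m ω - μ m) / b m)))
        (fun ω _ => by unfold ind; split_ifs <;> norm_num)
      rwa [Ex_const] at this
    · filter_upwards [hpkg] with m hm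
      refine le_trans ?_ hm.2.2.2.1
      refine Ex_mono _ _ hm.2.1 hm.2.2.1 _ _ fun ω _ => ?_
      refine final_ind_le fun h8 h9 => h8 ?_
      have h10 := largest_eq (K m) ω h9.1 h9.2
      rw [h10]
      have h11 : (Fintype.card (Q m) : ℝ) = 2 ^ m := by
        simp [Q]
      rw [h11]
      simp only [hX]
      ring

end Pool.Agent.Work.MP_b7dc8a_pr
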