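import Pool.Agent.Work.MP_b7dc8a_pr.B.Def

/-! Module XN: numerical facts on `dl m = log m / m`, `LL c m = exp (c log^2 m)`, `TT m`.
All elementary. -/

namespace Pool.Agent.Work.MP_b7dc8a_pr

open Finset

theorem xn_log (m : ℕ) (hm : 3 ≤ m) : 1 ≤ Real.log m := by
  rw [Real.le_log_iff_exp_le (by positivity)]
  have := Real.exp_one_lt_d9
  have h : (3 : ℝ) ≤ m := by exact_mod_cast hm
  linarith

theorem xn_TT (m : ℕ) (hm : 1 ≤ m) : (m : ℝ) * Real.log m ≤ TT m ∧
    (TT m : ℝ) ≤ m * Real.log m + 1 ∧ (TT m : ℝ) ≤ (m : ℝ) ^ 2 := by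
  have h1 : (1 : ℝ) ≤ m := by exact_mod_cast hm
  have h2 : 0 ≤ (m : ℝ) * Real.log m := mul_nonneg (by linarith) (Real.log_nonneg h1)
  have h3 := (Nat.ceil_lt_add_one h2).le
  have h4 := Real.log_le_sub_one_of_pos (show (0 : ℝ) < m by linarith)
  refine ⟨Nat.le_ceil _, h3, h3.trans ?_⟩
  nlinarith

theorem xn_LL_pos (a : ℝ) (m : ℕ) : 0 < LL a m := Real.exp_pos _

theorem xn_LL_add (a b : ℝ) (m : ℕ) : LL a m * LL b m = LL (a + b) m := by
  unfold LL
  rw [← Real.exp_add]
  ring_nf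

theorem xn_LL_pow (a : ℝ) (k m : ℕ) : LL a m ^ k = LL (k * a) m := by
  unfold LL
  rw [← Real.exp_nat_mul]
  ring_nf

theorem xn_LL_mono (a b : ℝ) (h : a ≤ b) (m : ℕ) : LL a m ≤ LL b m := by
  unfold LL
  exact Real.exp_le_exp.2 (mul_le_mul_of_nonneg_right h (by positivity))

theorem xn_LL_one (a : ℝ) (h : 0 ≤ a) (m : ℕ) : 1 ≤ LL a m := by
  unfold LL
  exact Real.one_le_exp (by positivity)

theorem xn_LL_inv (a : ℝ) (m : ℕ) : (LL a m)⁻¹ = LL (-a) m := by
  unfold LL
  rw [← Real.exp_neg]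
  ring_nf

theorem xn_dl_nonneg (m : ℕ) : 0 ≤ dl m := by
  unfold dl
  rcases Nat.eq_zero_or_pos m with h | h
  · simp [h]
  · exact div_nonneg (Real.log_nonneg (by exact_mod_cast h)) (by positivity)

/-- `dl m` tends to zero -/
theorem xn_dl (c η : ℝ) (hη : 0 < η) : ∃ m0 : ℕ, ∀ m ≥ m0, c * dl m ≤ η := by
  have h : Filter.Tendsto (fun x : ℝ => Real.log x / x) Filter.atTop (nhds 0) := by
    have := (Real.isLittleO_pow_log_id_atTop (n := 1)).tendsto_div_nhds_zero
    simpa using this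
  have h2 := (h.comp tendsto_natCast_atTop_atTop).const_mul c
  simp only [mul_zero] at h2
  have h3 := h2.eventually (gt_mem_nhds hη)
  obtain ⟨m0, hm0⟩ := Filter.eventually_atTop.1 h3
  exact ⟨m0, fun m hm => (hm0 m hm).le⟩

/-- a polynomial is smaller than `LL c m` -/
theorem xn_poly (k : ℕ) (C c : ℝ) (hc : 0 < c) : ∃ m0 : ℕ, ∀ m ≥ m0,
    C * (m : ℝ) ^ k ≤ LL c m := by
  have h := (Real.tendsto_log_atTop.comp tendsto_natCast_atTop_atTop).eventually
    (Filter.eventually_ge_atTop (max 1 ((k + abs (Real.log (abs C))) / c)))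
  obtain ⟨m0, hm0⟩ := Filter.eventually_atTop.1 h
  refine ⟨max m0 1, fun m hm => ?_⟩
  have h1 := hm0 m ((le_max_left _ _).trans hm)
  have hm1 : 1 ≤ m := (le_max_right _ _).trans hm
  have hm1' : (0 : ℝ) < m := by exact_mod_cast hm1
  simp only [Function.comp] at h1
  have h2 : 1 ≤ Real.log m := (le_max_left _ _).trans h1
  have h3 : (k + abs (Real.log (abs C))) / c ≤ Real.log m := (le_max_right _ _).trans h1
  rw [div_le_iff₀ hc] at h3
  rcases le_or_gt C 0 with hC | hC
  · exact (mul_nonpos_of_nonpos_of_nonneg hC (by positivity)).trans (Real.exp_pos _).le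
  · have h4 : C * (m : ℝ) ^ k = Real.exp (Real.log C + k * Real.log m) := by
      rw [Real.exp_add, Real.exp_log hC, Real.exp_nat_mul, Real.exp_log hm1']
    rw [h4]
    unfold LL
    apply Real.exp_le_exp.2
    rw [abs_of_pos hC] at h3
    have h5 := le_abs_self (Real.log C)
    have h6 := abs_nonneg (Real.log C)
    have h7 : (k + |Real.log C|) * Real.log m ≤ Real.log m * c * Real.log m :=
      mul_le_mul_of_nonneg_right h3 (by linarith)
    nlinarith [mul_le_mul_of_nonneg_left h2 h6]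

/-- `LL c m` is smaller than an exponential -/
theorem xn_exp (c r : ℝ) (hr : 1 < r) : ∃ m0 : ℕ, ∀ m ≥ m0, LL c m ≤ r ^ m := by
  have h : Filter.Tendsto (fun x : ℝ => Real.log x ^ 2 / x) Filter.atTop (nhds 0) := by
    have := (Real.isLittleO_pow_log_id_atTop (n := 2)).tendsto_div_nhds_zero
    simpa using this
  have h2 := (h.comp tendsto_natCast_atTop_atTop).const_mul c
  simp only [mul_zero] at h2
  have h3 := h2.eventually (gt_mem_nhds (Real.log_pos hr))
  obtain ⟨m0, hm0⟩ := Filter.eventually_atTop.1 h3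
  refine ⟨max m0 1, fun m hm => ?_⟩
  have h4 := (hm0 m ((le_max_left _ _).trans hm)).le
  have hm1 : 1 ≤ m := (le_max_right _ _).trans hm
  have hm1' : (0 : ℝ) < m := by exact_mod_cast hm1
  simp only [Function.comp] at h4
  have h5 : r ^ m = Real.exp (m * Real.log r) := by
    rw [Real.exp_nat_mul, Real.exp_log (by linarith)]
  rw [h5]
  unfold LL
  apply Real.exp_le_exp.2
  have h6 : c * (Real.log m ^ 2 / m) * m ≤ Real.log r * m := mul_le_mul_of_nonneg_right h4 hm1'.le
  have h7 : c * (Real.log m ^ 2 / m) * m = c * Real.log m ^ 2 := by field_simp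
  rw [h7] at h6
  linarith

/-- powers of `1 + c dl m` -/
theorem xn_pow (c : ℝ) (hc : 0 ≤ c) (m k L : ℕ) (hm : 3 ≤ m) (hk : k ≤ m) (hL : L ≤ k * TT m) :
    (1 + c * dl m) ^ L ≤ LL (c * (k + 1)) m := by
  have hm3 : (3 : ℝ) ≤ m := by exact_mod_cast hm
  have hlog := xn_log m hm
  have hTT := xn_TT m (by omega)
  have hdl := xn_dl_nonneg m
  have hL' : (L : ℝ) ≤ k * (m * Real.log m + 1) := by
    have : (L : ℝ) ≤ k * TT m := by exact_mod_cast hL
    exact this.trans (mul_le_mul_of_nonneg_left hTT.2.1 (by positivity))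
  have hk' : (k : ℝ) ≤ m := by exact_mod_cast hk
  have h1 : 1 + c * dl m ≤ Real.exp (c * dl m) := by
    have := Real.add_one_le_exp (c * dl m)
    linarith
  have h2 : (1 + c * dl m) ^ L ≤ Real.exp (c * dl m) ^ L :=
    pow_le_pow_left₀ (by positivity) h1 L
  refine h2.trans ?_
  rw [← Real.exp_nat_mul]
  unfold LL
  apply Real.exp_le_exp.2
  have h3 : (L : ℝ) * (c * dl m) ≤ k * (m * Real.log m + 1) * (c * dl m) :=
    mul_le_mul_of_nonneg_right hL' (by positivity)
  refine h3.trans ?_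
  have h4 : (k : ℝ) * (m * Real.log m + 1) * (c * dl m) =
      c * (k * Real.log m ^ 2 + k * Real.log m / m) := by
    unfold dl
    have : (m : ℝ) ≠ 0 := by positivity
    field_simp
  rw [h4]
  have h5 : (k : ℝ) * Real.log m / m ≤ Real.log m ^ 2 := by
    rw [div_le_iff₀ (by positivity)]
    have : (k : ℝ) * Real.log m ≤ m * Real.log m := mul_le_mul_of_nonneg_right hk' (by linarith)
    nlinarith [mul_le_mul_of_nonneg_left hlog (show (0 : ℝ) ≤ m * Real.log m by positivity)]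
  have : c * (k * Real.log m ^ 2 + k * Real.log m / m) ≤ c * (k * Real.log m ^ 2 + Real.log m ^ 2) :=
    mul_le_mul_of_nonneg_left (by linarith) hc
  refine this.trans (le_of_eq (by ring))

end Pool.Agent.Work.MP_b7dc8a_pr
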