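import Pool.Agent.Work.MP_b7dc8a_pr.B.Walk
import Pool.Agent.Work.MP_b7dc8a_pr.B.Xn

/-! Module FOUR (M): Fourier bounds for the number of walks in the cube.

For `A : Finset (Fin m)` let `chiA x = ∏_{i ∈ A} (-1)^{x i}`. Then `nb (cubeE m) chiA = (m - 2|A|) chiA`
and `∑_A chiA x * chiA y = 2^m` if `x = y` and `0` otherwise, so
`2^m * wk (cubeE m) t x y = ∑_A (m - 2|A|)^t chiA x chiA y`   (F).

`four_upper`: `|.| <= ∑_k C(m,k) |m - 2k|^t <= 2 m^t ∑_{k <= m} C(m,k) exp (-2kt/m)
= 2 m^t (1 + exp (-2t/m))^m`: for `2k <= m` we have `0 <= 1 - 2k/m <= exp (-2k/m)`, and the terms with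
`2k > m` are equal to those with `m - k` (so each is counted in the factor 2).
`four_mix`: for `t >= TT m >= m log m`: `exp (-2t/m) <= 1/m^2`, `(1 + 1/m^2)^m <= exp (1/m) <= 2` for
`m >= 2`, so `wk <= 2 m^t 2 / 2^m`.
`four_lower`: for `t >= TT m`, in (F) for `t` divided by `m^t` plus (F) for `t+1` divided by `m^(t+1)`:
`A = ∅` gives `1 + 1`; `A = univ` gives `s ((-1)^t + (-1)^(t+1)) = 0` with `s = chiA x chiA y`; the
others are at most `2 ∑_{1 <= k <= m-1} C(m,k) |1 - 2k/m|^t <= 4 ∑_{1 <= k <= m/2} C(m,k) exp (-2kt/m)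
<= 4 ((1 + 1/m^2)^m - 1) <= 4 (exp (1/m) - 1) <= 8/m <= 1` for `m >= 8`. -/

namespace Pool.Agent.Work.MP_b7dc8a_pr

open Finset

private def fl {m : ℕ} (i : Fin m) (x : Q m) : Q m := Function.update x i (!x i)

private theorem fl_same {m : ℕ} (i : Fin m) (x : Q m) : fl i x i = !x i := by
  simp [fl]

private theorem fl_ne {m : ℕ} (i j : Fin m) (x : Q m) (h : j ≠ i) : fl i x j = x j := by
  simp [fl, h]

private theorem fl_inj {m : ℕ} (i j : Fin m) (x : Q m) (h : fl i x = fl j x) : i = j := by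
  by_contra hne
  have h1 := congrFun h i
  rw [fl_same, fl_ne j i x hne] at h1
  cases hx : x i <;> simp [hx] at h1

private theorem mem_cube {m : ℕ} (x z : Q m) : s(x, z) ∈ cubeE m ↔ ∃ i, z = fl i x := by
  have h0 : s(x, z) ∈ cubeE m ↔ hammingDist x z = 1 := by
    unfold cubeE
    rw [SimpleGraph.mem_edgeFinset, SimpleGraph.mem_edgeSet]
    rfl
  rw [h0]
  constructor
  · intro h
    unfold hammingDist at h
    rw [Finset.card_eq_one] at h
    obtain ⟨i, hi⟩ := h
    refine ⟨i, ?_⟩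
    funext j
    by_cases hj : j = i
    · subst hj
      have h1 : j ∈ univ.filter (fun i => x i ≠ z i) := by
        rw [hi]; exact Finset.mem_singleton_self _
      rw [Finset.mem_filter] at h1
      rw [fl_same]
      have h2 := h1.2
      cases hx : x j <;> cases hz : z j <;> simp_all
    · have h1 : j ∉ univ.filter (fun i => x i ≠ z i) := by
        rw [hi, Finset.mem_singleton]; exact hj
      rw [Finset.mem_filter] at h1
      rw [fl_ne i j x hj]
      by_contra h2
      exact h1 ⟨Finset.mem_univ _, fun h3 => h2 h3.symm⟩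
  · rintro ⟨i, rfl⟩
    unfold hammingDist
    have : (univ.filter fun j => x j ≠ fl i x j) = {i} := by
      ext j
      simp only [Finset.mem_filter, Finset.mem_univ, true_and, Finset.mem_singleton]
      constructor
      · intro h
        by_contra hne
        exact h (fl_ne i j x hne).symm
      · intro h
        subst h
        rw [fl_same]
        cases x j <;> simp
    rw [this, Finset.card_singleton]

private theorem nb_cube {m : ℕ} (f : Q m → ℝ) (x : Q m) :
    nb (cubeE m) f x = ∑ i : Fin m, f (fl i x) := by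
  classical
  unfold nb
  refine (Finset.sum_congr (s₂ := univ.image (fun i => fl i x)) ?_ fun _ _ => rfl).trans
    (Finset.sum_image ?_)
  · ext z
    simp only [Finset.mem_filter, Finset.mem_univ, true_and, Finset.mem_image]
    rw [mem_cube]
    constructor
    · rintro ⟨i, hi⟩
      exact ⟨i, hi.symm⟩
    · rintro ⟨i, hi⟩
      exact ⟨i, hi.symm⟩
  · exact fun i _ j _ hij => fl_inj i j x hij

private noncomputable def sg (b : Bool) : ℝ := if b then -1 else 1

private theorem sg_not (b : Bool) : sg (!b) = - sg b := by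
  cases b <;> simp [sg]

private theorem sg_abs (b : Bool) : |sg b| = 1 := by
  cases b <;> simp [sg]

private noncomputable def ch {m : ℕ} (A : Finset (Fin m)) (x : Q m) : ℝ := ∏ i ∈ A, sg (x i)

private theorem ch_abs {m : ℕ} (A : Finset (Fin m)) (x : Q m) : |ch A x| = 1 := by
  unfold ch
  rw [Finset.abs_prod]
  exact Finset.prod_eq_one fun i _ => sg_abs _

private theorem ch_fl {m : ℕ} (A : Finset (Fin m)) (i : Fin m) (x : Q m) :
    ch A (fl i x) = (if i ∈ A then -1 else 1) * ch A x := by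
  unfold ch
  by_cases hi : i ∈ A
  · rw [if_pos hi, ← Finset.mul_prod_erase A _ hi, ← Finset.mul_prod_erase A _ hi, fl_same, sg_not]
    have : ∏ j ∈ A.erase i, sg (fl i x j) = ∏ j ∈ A.erase i, sg (x j) :=
      Finset.prod_congr rfl fun j hj => by rw [fl_ne i j x (Finset.ne_of_mem_erase hj)]
    rw [this]
    ring
  · rw [if_neg hi, one_mul]
    exact Finset.prod_congr rfl fun j hj => by
      rw [fl_ne i j x (fun h => hi (h ▸ hj))]

private theorem nb_ch {m : ℕ} (A : Finset (Fin m)) (x : Q m) :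
    nb (cubeE m) (ch A) x = ((m : ℝ) - 2 * A.card) * ch A x := by
  rw [nb_cube]
  simp_rw [ch_fl]
  rw [← Finset.sum_mul]
  congr 1
  have h1 : ∀ i : Fin m, (if i ∈ A then (-1 : ℝ) else 1) = 1 - 2 * (if i ∈ A then 1 else 0) := by
    intro i
    split_ifs <;> norm_num
  simp_rw [h1]
  rw [Finset.sum_sub_distrib, ← Finset.mul_sum, Finset.sum_ite_mem]
  simp

private theorem ch_delta {m : ℕ} (x y : Q m) :
    ∑ A : Finset (Fin m), ch A x * ch A y = if x = y then (2 : ℝ) ^ m else 0 := by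
  have h1 : ∀ A : Finset (Fin m), ch A x * ch A y = ∏ i ∈ A, (sg (x i) * sg (y i)) := by
    intro A
    unfold ch
    rw [Finset.prod_mul_distrib]
  simp_rw [h1]
  have h2 := Finset.prod_one_add (f := fun i : Fin m => sg (x i) * sg (y i)) (univ : Finset (Fin m))
  rw [Finset.powerset_univ] at h2
  rw [← h2]
  by_cases hxy : x = y
  · subst hxy
    rw [if_pos rfl]
    have h3 : ∀ i : Fin m, 1 + sg (x i) * sg (x i) = 2 := by
      intro i
      cases x i <;> norm_num [sg]
    simp_rw [h3]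
    simp
  · rw [if_neg hxy]
    have h3 : ∃ i, x i ≠ y i := by
      by_contra hcon
      push Not at hcon
      exact hxy (funext hcon)
    obtain ⟨i, hi⟩ := h3
    refine Finset.prod_eq_zero (Finset.mem_univ i) ?_
    revert hi
    cases x i <;> cases y i <;> norm_num [sg]

/-- the Fourier formula for the number of walks -/
private theorem wk_fourier (m t : ℕ) (x y : Q m) :
    2 ^ m * wk (cubeE m) t x y =
      ∑ A : Finset (Fin m), ((m : ℝ) - 2 * A.card) ^ t * (ch A x * ch A y) := by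
  induction t generalizing x with
  | zero =>
    simp only [pow_zero, one_mul]
    rw [ch_delta]
    unfold wk
    simp
  | succ t ih =>
    have h1 : wk (cubeE m) (t + 1) x y = nb (cubeE m) (fun z => wk (cubeE m) t z y) x := by
      unfold wk
      rw [Function.iterate_succ_apply']
    have h2 : 2 ^ m * nb (cubeE m) (fun z => wk (cubeE m) t z y) x =
        nb (cubeE m) (fun z => 2 ^ m * wk (cubeE m) t z y) x := by
      rw [nb_cube, nb_cube, Finset.mul_sum]
    rw [h1, h2]
    simp_rw [ih]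
    rw [nb_cube, Finset.sum_comm]
    refine Finset.sum_congr rfl fun A _ => ?_
    have h3 := nb_ch A x
    rw [nb_cube] at h3
    rw [pow_succ, ← Finset.mul_sum, ← Finset.sum_mul, h3]
    ring

private theorem eig_le (m t k : ℕ) (hm : 1 ≤ m) (hk : k ≤ m) :
    |(m : ℝ) - 2 * k| ^ t ≤ (m : ℝ) ^ t * (Real.exp (-(2 * t / m)) ^ k +
      Real.exp (-(2 * t / m)) ^ (m - k)) := by
  have hm0 : (0 : ℝ) < m := by exact_mod_cast hm
  have key : ∀ j : ℕ, 0 ≤ (m : ℝ) - 2 * j →
      ((m : ℝ) - 2 * j) ^ t ≤ (m : ℝ) ^ t * Real.exp (-(2 * t / m)) ^ j := by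
    intro j hj
    have h1 : (m : ℝ) - 2 * j ≤ m * Real.exp (-(2 * j / m)) := by
      have h2 := Real.add_one_le_exp (-(2 * (j : ℝ) / m))
      have h3 := mul_le_mul_of_nonneg_left h2 hm0.le
      have h4 : (m : ℝ) * (-(2 * (j : ℝ) / m) + 1) = m - 2 * j := by field_simp; ring
      linarith
    refine (pow_le_pow_left₀ hj h1 t).trans (le_of_eq ?_)
    rw [mul_pow, ← Real.exp_nat_mul, ← Real.exp_nat_mul]
    congr 2
    ring
  rcases le_total 0 ((m : ℝ) - 2 * k) with h | h
  · rw [abs_of_nonneg h]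
    refine (key k h).trans ?_
    gcongr
    have := Real.exp_pos (-(2 * (t : ℝ) / m))
    linarith [pow_pos this (m - k)]
  · have hcast : ((m - k : ℕ) : ℝ) = (m : ℝ) - k := by
      rw [Nat.cast_sub hk]
    have h5 : |(m : ℝ) - 2 * k| = (m : ℝ) - 2 * ((m - k : ℕ) : ℝ) := by
      rw [abs_of_nonpos h, hcast]; ring
    rw [h5]
    refine (key (m - k) ?_).trans ?_
    · rw [hcast]; linarith
    · gcongr
      have := Real.exp_pos (-(2 * (t : ℝ) / m))
      linarith [pow_pos this k]

private theorem sum_pow_card (m : ℕ) (e : ℝ) :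
    ∑ A : Finset (Fin m), e ^ A.card = (1 + e) ^ m := by
  have h := Finset.sum_pow_mul_eq_add_pow e 1 (univ : Finset (Fin m))
  rw [Finset.powerset_univ] at h
  simp only [one_pow, mul_one, Finset.card_univ, Fintype.card_fin] at h
  rw [h, add_comm]

private theorem sum_pow_card' (m : ℕ) (e : ℝ) :
    ∑ A : Finset (Fin m), e ^ (m - A.card) = (1 + e) ^ m := by
  have h := Finset.sum_pow_mul_eq_add_pow 1 e (univ : Finset (Fin m))
  rw [Finset.powerset_univ] at h
  simpa using h

private theorem card_le_m {m : ℕ} (A : Finset (Fin m)) : A.card ≤ m := by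
  have := Finset.card_le_univ A
  simpa using this

theorem four_upper (m : ℕ) (hm : 1 ≤ m) (t : ℕ) (x y : Q m) :
    wk (cubeE m) t x y ≤ 2 * (m : ℝ) ^ t * ((1 + Real.exp (-(2 * t / m))) / 2) ^ m := by
  have h1 : 2 ^ m * wk (cubeE m) t x y ≤
      2 * (m : ℝ) ^ t * (1 + Real.exp (-(2 * t / m))) ^ m := by
    rw [wk_fourier]
    calc ∑ A : Finset (Fin m), ((m : ℝ) - 2 * A.card) ^ t * (ch A x * ch A y)
        ≤ ∑ A : Finset (Fin m), (m : ℝ) ^ t * (Real.exp (-(2 * t / m)) ^ A.card +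
          Real.exp (-(2 * t / m)) ^ (m - A.card)) := by
          refine Finset.sum_le_sum fun A _ => ?_
          refine (le_abs_self _).trans ?_
          rw [abs_mul, abs_mul, ch_abs, ch_abs, one_mul, mul_one, abs_pow]
          exact eig_le m t A.card hm (card_le_m A)
      _ = _ := by
          rw [← Finset.mul_sum, Finset.sum_add_distrib, sum_pow_card, sum_pow_card']
          ring
  rw [div_pow]
  have h2 : (0 : ℝ) < 2 ^ m := by positivity
  have h3 : 2 * (m : ℝ) ^ t * ((1 + Real.exp (-(2 * t / m))) ^ m / 2 ^ m) =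
      (2 * (m : ℝ) ^ t * (1 + Real.exp (-(2 * t / m))) ^ m) / 2 ^ m := by ring
  rw [h3, le_div_iff₀ h2]
  linarith

private theorem exp_TT (m : ℕ) (hm : 1 ≤ m) (t : ℕ) (ht : TT m ≤ t) :
    Real.exp (-(2 * t / m)) ≤ 1 / (m : ℝ) ^ 2 := by
  have hm0 : (0 : ℝ) < m := by exact_mod_cast hm
  have h1 := (xn_TT m hm).1
  have h2 : (TT m : ℝ) ≤ t := by exact_mod_cast ht
  have h3 : 2 * Real.log m ≤ 2 * t / m := by
    rw [le_div_iff₀ hm0]
    nlinarith
  calc Real.exp (-(2 * t / m)) ≤ Real.exp (-(2 * Real.log m)) := Real.exp_le_exp.2 (by linarith)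
    _ = 1 / (m : ℝ) ^ 2 := by
      rw [Real.exp_neg, two_mul, Real.exp_add, Real.exp_log hm0]
      rw [one_div, pow_two]

private theorem pow_TT (m : ℕ) (hm : 1 ≤ m) (t : ℕ) (ht : TT m ≤ t) :
    (1 + Real.exp (-(2 * t / m))) ^ m ≤ Real.exp (1 / m) := by
  have hm0 : (0 : ℝ) < m := by exact_mod_cast hm
  have h1 := exp_TT m hm t ht
  have h2 : 1 + Real.exp (-(2 * t / m)) ≤ Real.exp (1 / (m : ℝ) ^ 2) := by
    have := Real.add_one_le_exp (1 / (m : ℝ) ^ 2)
    linarith
  have h3 := Real.exp_pos (-(2 * (t : ℝ) / m))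
  refine (pow_le_pow_left₀ (by linarith) h2 m).trans (le_of_eq ?_)
  rw [← Real.exp_nat_mul]
  congr 1
  field_simp

theorem four_mix (m : ℕ) (hm : 2 ≤ m) (t : ℕ) (ht : TT m ≤ t) (x y : Q m) :
    wk (cubeE m) t x y ≤ 4 * (m : ℝ) ^ t / 2 ^ m := by
  have hm1 : 1 ≤ m := by omega
  have hm0 : (0 : ℝ) < m := by exact_mod_cast hm1
  refine (four_upper m hm1 t x y).trans ?_
  rw [div_pow]
  have h1 := pow_TT m hm1 t ht
  have h2 : Real.exp (1 / (m : ℝ)) ≤ 2 := by
    have h3 : 1 / (m : ℝ) ≤ Real.log 2 := by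
      have h4 : (2 : ℝ) ≤ m := by exact_mod_cast hm
      have h5 : 1 / (m : ℝ) ≤ 1 / 2 := one_div_le_one_div_of_le (by norm_num) h4
      have := Real.log_two_gt_d9
      linarith
    calc Real.exp (1 / (m : ℝ)) ≤ Real.exp (Real.log 2) := Real.exp_le_exp.2 h3
      _ = 2 := Real.exp_log (by norm_num)
  have h6 : (0 : ℝ) < 2 ^ m := by positivity
  have h7 : 2 * (m : ℝ) ^ t * ((1 + Real.exp (-(2 * t / m))) ^ m / 2 ^ m) =
      (m : ℝ) ^ t * 2 * (1 + Real.exp (-(2 * t / m))) ^ m / 2 ^ m := by ring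
  rw [h7]
  apply div_le_div_of_nonneg_right _ h6.le
  have h8 : (0 : ℝ) ≤ (m : ℝ) ^ t * 2 := by positivity
  nlinarith [mul_le_mul_of_nonneg_left (h1.trans h2) h8]

theorem four_lower (m : ℕ) (hm : 8 ≤ m) (t : ℕ) (ht : TT m ≤ t) (x y : Q m) :
    1 ≤ 2 ^ m * (wk (cubeE m) t x y / (m : ℝ) ^ t +
      wk (cubeE m) (t + 1) x y / (m : ℝ) ^ (t + 1)) := by
  classical
  have hm1 : 1 ≤ m := by omega
  have hm0 : (0 : ℝ) < m := by exact_mod_cast hm1
  set ε := Real.exp (-(2 * t / m)) with hε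
  have hε0 : 0 < ε := Real.exp_pos _
  let r : Finset (Fin m) → ℝ := fun A => ((m : ℝ) - 2 * A.card) / m
  let tm : Finset (Fin m) → ℝ := fun A => (r A ^ t + r A ^ (t + 1)) * (ch A x * ch A y)
  let c : Finset (Fin m) → ℝ := fun A => tm A + 2 * (ε ^ A.card + ε ^ (m - A.card))
  have hsum : 2 ^ m * (wk (cubeE m) t x y / (m : ℝ) ^ t +
      wk (cubeE m) (t + 1) x y / (m : ℝ) ^ (t + 1)) = ∑ A : Finset (Fin m), tm A := by
    rw [mul_add, mul_div_assoc', mul_div_assoc', wk_fourier, wk_fourier, Finset.sum_div,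
      Finset.sum_div, ← Finset.sum_add_distrib]
    refine Finset.sum_congr rfl fun A _ => ?_
    show _ = ((((m : ℝ) - 2 * A.card) / m) ^ t + (((m : ℝ) - 2 * A.card) / m) ^ (t + 1)) *
      (ch A x * ch A y)
    rw [div_pow, div_pow]
    ring
  have hr1 : ∀ A, |r A| ≤ 1 := by
    intro A
    have h1 : (A.card : ℝ) ≤ m := by exact_mod_cast card_le_m A
    have h2 : (0 : ℝ) ≤ A.card := by positivity
    show |((m : ℝ) - 2 * A.card) / m| ≤ 1
    rw [abs_div, abs_of_pos hm0, div_le_one hm0, abs_le]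
    constructor <;> linarith
  have hrt : ∀ A, |r A| ^ t ≤ ε ^ A.card + ε ^ (m - A.card) := by
    intro A
    have h1 := eig_le m t A.card hm1 (card_le_m A)
    show |((m : ℝ) - 2 * A.card) / m| ^ t ≤ _
    rw [abs_div, abs_of_pos hm0, div_pow, div_le_iff₀ (by positivity)]
    rw [hε]
    linarith
  have hc0 : ∀ A, 0 ≤ c A := by
    intro A
    have h1 : |tm A| ≤ 2 * (ε ^ A.card + ε ^ (m - A.card)) := by
      show |(r A ^ t + r A ^ (t + 1)) * (ch A x * ch A y)| ≤ _
      rw [abs_mul, abs_mul, ch_abs, ch_abs, one_mul, mul_one]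
      refine (abs_add_le _ _).trans ?_
      rw [abs_pow, abs_pow, pow_succ]
      have h2 := hrt A
      have h3 : |r A| ^ t * |r A| ≤ |r A| ^ t * 1 :=
        mul_le_mul_of_nonneg_left (hr1 A) (by positivity)
      linarith
    have h4 := neg_abs_le (tm A)
    show 0 ≤ tm A + 2 * (ε ^ A.card + ε ^ (m - A.card))
    linarith
  have hce : 4 ≤ c ∅ := by
    have h1 : tm ∅ = 2 := by
      show (r ∅ ^ t + r ∅ ^ (t + 1)) * (ch ∅ x * ch ∅ y) = 2
      have h2 : r ∅ = 1 := by
        show ((m : ℝ) - 2 * (∅ : Finset (Fin m)).card) / m = 1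
        rw [Finset.card_empty]
        field_simp
        simp
      rw [h2]
      simp [ch]
      norm_num
    show 4 ≤ tm ∅ + 2 * (ε ^ (∅ : Finset (Fin m)).card + ε ^ (m - (∅ : Finset (Fin m)).card))
    rw [h1, Finset.card_empty, pow_zero]
    have := pow_pos hε0 (m - 0)
    linarith
  have hcu : 2 ≤ c univ := by
    have h1 : tm univ = 0 := by
      show (r univ ^ t + r univ ^ (t + 1)) * (ch univ x * ch univ y) = 0
      have h2 : r univ = -1 := by
        show ((m : ℝ) - 2 * (univ : Finset (Fin m)).card) / m = -1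
        rw [Finset.card_univ, Fintype.card_fin]
        field_simp
        ring
      rw [h2, pow_succ]
      ring
    show 2 ≤ tm univ + 2 * (ε ^ (univ : Finset (Fin m)).card + ε ^ (m - (univ : Finset (Fin m)).card))
    rw [h1, Finset.card_univ, Fintype.card_fin, Nat.sub_self, pow_zero]
    have := pow_pos hε0 m
    linarith
  have hne : (∅ : Finset (Fin m)) ≠ univ := by
    intro h
    have h1 := congrArg Finset.card h
    rw [Finset.card_empty, Finset.card_univ, Fintype.card_fin] at h1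
    omega
  have hcsum : 6 ≤ ∑ A : Finset (Fin m), c A := by
    have h1 : ∑ A ∈ ({∅, univ} : Finset (Finset (Fin m))), c A ≤ ∑ A : Finset (Fin m), c A :=
      Finset.sum_le_sum_of_subset_of_nonneg (Finset.subset_univ _) fun A _ _ => hc0 A
    rw [Finset.sum_pair hne] at h1
    linarith
  have hcs : ∑ A : Finset (Fin m), c A = ∑ A : Finset (Fin m), tm A + 4 * (1 + ε) ^ m := by
    show ∑ A : Finset (Fin m), (tm A + 2 * (ε ^ A.card + ε ^ (m - A.card))) = _
    rw [Finset.sum_add_distrib, ← Finset.mul_sum, Finset.sum_add_distrib, sum_pow_card,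
      sum_pow_card']
    ring
  have hpow : (1 + ε) ^ m ≤ 5 / 4 := by
    refine (pow_TT m hm1 t ht).trans ?_
    have h1 : 1 / (m : ℝ) ≤ 1 / 8 := by
      have : (8 : ℝ) ≤ m := by exact_mod_cast hm
      exact one_div_le_one_div_of_le (by norm_num) this
    have h2 : Real.exp (1 / (m : ℝ)) ≤ Real.exp (1 / 8) := Real.exp_le_exp.2 h1
    have h3 : Real.exp (1 / 8) ≤ 5 / 4 := by
      have h4 := Real.exp_bound' (x := 1 / 8) (by norm_num) (by norm_num) (n := 2) (by norm_num)
      norm_num [Finset.sum_range_succ] at h4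
      linarith
    linarith
  rw [hsum]
  linarith

end Pool.Agent.Work.MP_b7dc8a_pr
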