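import Pool.Agent.Work.MP_b7dc8a_pr.B.Gatom
import Pool.Agent.Work.MP_b7dc8a_pr.B.Capa

/-! Module GAPX (M): the gap estimate from GATOM.

`E = cubeE m`, `P = p + q - p q`. By `xb_Ex_two`, `Ex E P F = Ex E p (ζ => Ex E q (η => F (ζ ∪ η)))`.
Explore `A = cl ζ x` (`b_mark_cl`): with `ζ2 = ζ ∩ offE E A`, `cl (ζ ∪ η) x = cls (ζ2 ∪ η) A`
(`cls_singleton`, `xb_cls_absorb`). Apply `b_gatom` with `S0 = A`, `ρ = 1 - h`,
`σ S y = if S.card <= R ∧ good m S y then σ0 else 0` (antitone: `good m S' y` implies `good m S y` for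
`S ⊆ S'` by `nb_iter_mono_E`, `xb_offE_anti`; the hypothesis for pairs with `σ = 0` is
`Ex [(1-h)^..] <= 1`). Let `C = cl (ζ ∪ η) x`, `N` the number of pairs `s ∈ C`, `y` with
`s(s,y) ∈ E`, `good m C y`. If `|C| <= R`: the weight is `(1 + q σ0)^N (1-h)^(|C| - |A|)
>= (1 + q σ0)^N (1-h)^|C|`, so `Ex [ind (|C| <= R) (1 + q σ0)^N (1-h)^|C|] <= 1`.
For `|C| <= R`: `N >= m |C| / (4 (TT m + 2))` (`b_capa_good`), `1 + q σ0 >= exp (q σ0 / 2)`
(`q σ0 <= 1`), `1 - h >= exp (-2h)` (`h <= 1/2`). So the weight is at least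
`exp (|C| (q σ0 m / (8 (TT m + 2)) - 2 h)) >= exp (n (...))` when `n < |C|` (the bracket is `>= 0`). -/

namespace Pool.Agent.Work.MP_b7dc8a_pr

open Finset

private theorem gapx_exp_half (u : ℝ) (h0 : 0 ≤ u) (h1 : u ≤ 1) :
    Real.exp (u / 2) ≤ 1 + u := by
  have h2 : 1 - u / 2 ≤ Real.exp (-(u / 2)) := by
    have := Real.add_one_le_exp (-(u / 2))
    linarith
  have h3 : Real.exp (u / 2) * Real.exp (-(u / 2)) = 1 := by
    rw [← Real.exp_add, add_neg_cancel, Real.exp_zero]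
  have h4 : 0 < Real.exp (u / 2) := Real.exp_pos _
  have h5 : Real.exp (u / 2) * (1 - u / 2) ≤ 1 :=
    (mul_le_mul_of_nonneg_left h2 h4.le).trans h3.le
  have h6 : 1 ≤ (1 + u) * (1 - u / 2) := by nlinarith
  have h7 : 0 < 1 - u / 2 := by linarith
  exact le_of_mul_le_mul_right (h5.trans h6) h7

private theorem gapx_exp_two (h : ℝ) (h0 : 0 ≤ h) (h1 : h ≤ 1 / 2) :
    Real.exp (-(2 * h)) ≤ 1 - h := by
  have h2 : 1 + 2 * h ≤ Real.exp (2 * h) := by
    have := Real.add_one_le_exp (2 * h)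
    linarith
  have h3 : Real.exp (2 * h) * Real.exp (-(2 * h)) = 1 := by
    rw [← Real.exp_add, add_neg_cancel, Real.exp_zero]
  have h4 : 0 < Real.exp (-(2 * h)) := Real.exp_pos _
  have h5 : (1 + 2 * h) * Real.exp (-(2 * h)) ≤ 1 :=
    (mul_le_mul_of_nonneg_right h2 h4.le).trans h3.le
  have h6 : 1 ≤ (1 + 2 * h) * (1 - h) := by nlinarith
  have h7 : 0 < 1 + 2 * h := by linarith
  exact le_of_mul_le_mul_left (h5.trans h6) h7

open Classical in
private noncomputable def gapxS (m R : ℕ) (σ0 : ℝ) (S : Finset (Q m)) (y : Q m) : ℝ :=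
  if S.card ≤ R ∧ good m S y then σ0 else 0

private theorem gapx_good_anti (m : ℕ) (S S' : Finset (Q m)) (y : Q m) (h : S ⊆ S')
    (hg : good m S' y) : good m S y := by
  refine ⟨fun h' => hg.1 (h h'), hg.2.trans ?_⟩
  refine div_le_div_of_nonneg_right ?_ (by positivity)
  exact nb_iter_mono_E _ _ (xb_offE_anti _ _ _ h) _ _ (fun _ => zero_le_one) y

private theorem gapx_off (m : ℕ) (hm : 2 ≤ m) (p q h σ0 : ℝ) (hp0 : 0 ≤ p) (hp1 : p ≤ 1)
    (hq0 : 0 ≤ q) (hq1 : q ≤ 1) (hh0 : 0 ≤ h) (hh1 : h ≤ 1 / 2) (hσ0 : 0 ≤ σ0) (hσ1 : σ0 ≤ 1)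
    (R : ℕ) (hR : (R : ℝ) * (8 * ((TT m : ℝ) + 2)) ≤ 2 ^ m)
    (hgood : ∀ (S : Finset (Q m)) (y : Q m), S.card ≤ R → good m S y →
      Ex (offE (cubeE m) S) p (fun ζ => (1 - h) ^ (cl ζ y).card) ≤ 1 - σ0)
    (hbr : 0 ≤ q * σ0 * m / (8 * ((TT m : ℝ) + 2)) - 2 * h) (n : ℕ) (A : Finset (Q m)) :
    Ex (offE (cubeE m) A) p (fun ζ => Ex (cubeE m) q (fun η =>
      ind (n < (cls (ζ ∪ η) A).card ∧ (cls (ζ ∪ η) A).card ≤ R))) ≤
      Real.exp (-(n * (q * σ0 * m / (8 * ((TT m : ℝ) + 2)) - 2 * h))) := by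
  classical
  set κ : ℝ := q * σ0 * m / (8 * ((TT m : ℝ) + 2)) - 2 * h with hκ
  have h1h : 0 ≤ 1 - h := by linarith
  have h1h' : 1 - h ≤ 1 := by linarith
  have hT : (0 : ℝ) < (TT m : ℝ) + 2 := by positivity
  have hnn : ∀ (S : Finset (Q m)) (y : Q m), 0 ≤ gapxS m R σ0 S y := by
    intro S y
    unfold gapxS
    split_ifs
    · exact hσ0
    · exact le_rfl
  have key := b_gatom (cubeE m) p q hp0 hp1 hq0 hq1 (fun _ => 1 - h) (fun _ => h1h)
    (fun _ => h1h') (gapxS m R σ0) hnn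
    (by
      intro S y
      unfold gapxS
      split_ifs
      · exact hσ1
      · exact zero_le_one)
    (by
      intro S S' y hSS _
      unfold gapxS
      by_cases hc : S'.card ≤ R ∧ good m S' y
      · rw [if_pos hc, if_pos ⟨(card_le_card hSS).trans hc.1, gapx_good_anti m S S' y hSS hc.2⟩]
      · rw [if_neg hc]
        split_ifs
        · exact hσ0
        · exact le_rfl)
    (by
      intro S y _
      simp only [prod_const]
      unfold gapxS
      by_cases hc : S.card ≤ R ∧ good m S y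
      · rw [if_pos hc]
        exact hgood S y hc.1 hc.2
      · rw [if_neg hc, sub_zero]
        exact xb_Ex_le _ _ hp0 hp1 _ _ fun ω _ => pow_le_one₀ h1h h1h')
    A
  have hfin : Ex (offE (cubeE m) A) p (fun ζ => Ex (cubeE m) q (fun η =>
      ind (n < (cls (ζ ∪ η) A).card ∧ (cls (ζ ∪ η) A).card ≤ R))) ≤
      Real.exp (-(n * κ)) * Ex (offE (cubeE m) A) p (fun ζ => Ex (cubeE m) q (fun η =>
      (∏ x ∈ cls (ζ ∪ η) A, ∏ y ∈ univ.filter (fun y => y ∉ cls (ζ ∪ η) A ∧
        s(x, y) ∈ cubeE m), (1 + q * gapxS m R σ0 (cls (ζ ∪ η) A) y)) *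
          ∏ z ∈ cls (ζ ∪ η) A \ A, (1 - h))) := by
    rw [← Ex_mul_left]
    refine Ex_mono _ _ hp0 hp1 _ _ fun ζ _ => ?_
    rw [← Ex_mul_left]
    refine Ex_mono _ _ hq0 hq1 _ _ fun η _ => ?_
    set C := cls (ζ ∪ η) A with hC
    have hpr0 : ∀ x ∈ C, (0 : ℝ) ≤ ∏ y ∈ univ.filter (fun y => y ∉ C ∧ s(x, y) ∈ cubeE m),
        (1 + q * gapxS m R σ0 C y) := by
      intro x _
      exact prod_nonneg fun y _ => by
        have := hnn C y
        positivity
    by_cases hn : n < C.card ∧ C.card ≤ R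
    · rw [ind, if_pos hn]
      have hCR : (C.card : ℝ) ≤ R := by exact_mod_cast hn.2
      have hcap := b_capa_good m hm C (le_trans
        (mul_le_mul_of_nonneg_right hCR (by positivity)) hR)
      have hu1 : q * σ0 ≤ 1 := by nlinarith
      have hu0 : 0 ≤ q * σ0 := mul_nonneg hq0 hσ0
      have hinner : ∀ x ∈ C,
          (1 + q * σ0) ^ (univ.filter fun y => s(x, y) ∈ cubeE m ∧ good m C y).card ≤
          ∏ y ∈ univ.filter (fun y => y ∉ C ∧ s(x, y) ∈ cubeE m),
            (1 + q * gapxS m R σ0 C y) := by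
        intro x _
        rw [← prod_const]
        have hsub : (univ.filter fun y => s(x, y) ∈ cubeE m ∧ good m C y) ⊆
            univ.filter (fun y => y ∉ C ∧ s(x, y) ∈ cubeE m) := by
          intro y hy
          rw [mem_filter] at hy ⊢
          exact ⟨hy.1, hy.2.2.1, hy.2.1⟩
        calc ∏ y ∈ univ.filter (fun y => s(x, y) ∈ cubeE m ∧ good m C y), (1 + q * σ0)
            = ∏ y ∈ univ.filter (fun y => s(x, y) ∈ cubeE m ∧ good m C y),
              (1 + q * gapxS m R σ0 C y) := by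
              refine prod_congr rfl fun y hy => ?_
              rw [mem_filter] at hy
              unfold gapxS
              rw [if_pos ⟨hn.2, hy.2.2⟩]
          _ ≤ ∏ y ∈ univ.filter (fun y => y ∉ C ∧ s(x, y) ∈ cubeE m),
              (1 + q * gapxS m R σ0 C y) := by
              refine prod_le_prod_of_subset_of_one_le hsub (fun y _ => ?_) (fun y _ _ => ?_)
              · have := mul_nonneg hq0 (hnn C y)
                linarith
              · have := mul_nonneg hq0 (hnn C y)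
                linarith
      set N : ℕ := ∑ x ∈ C, (univ.filter fun y => s(x, y) ∈ cubeE m ∧ good m C y).card with hN
      have hNR : (N : ℝ) = ∑ x ∈ C,
          ((univ.filter fun y => s(x, y) ∈ cubeE m ∧ good m C y).card : ℝ) := by
        rw [hN]; push_cast; rfl
      have hprod : (1 + q * σ0) ^ N ≤ ∏ x ∈ C, ∏ y ∈ univ.filter (fun y => y ∉ C ∧
          s(x, y) ∈ cubeE m), (1 + q * gapxS m R σ0 C y) := by
        rw [hN, ← prod_pow_eq_pow_sum]
        exact prod_le_prod (fun x _ => by positivity) hinner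
      have hexpN : Real.exp (q * σ0 / 2 * N) ≤ (1 + q * σ0) ^ N := by
        rw [mul_comm, Real.exp_nat_mul]
        exact pow_le_pow_left₀ (Real.exp_pos _).le (gapx_exp_half _ hu0 hu1) N
      have hρ : Real.exp (-(2 * h) * C.card) ≤ ∏ z ∈ C \ A, (1 - h) := by
        rw [prod_const, mul_comm, Real.exp_nat_mul]
        calc Real.exp (-(2 * h)) ^ C.card ≤ (1 - h) ^ C.card :=
              pow_le_pow_left₀ (Real.exp_pos _).le (gapx_exp_two h hh0 hh1) _
          _ ≤ (1 - h) ^ (C \ A).card :=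
              pow_le_pow_of_le_one h1h h1h' (card_le_card sdiff_subset)
      have hW : Real.exp (C.card * κ) ≤ (∏ x ∈ C, ∏ y ∈ univ.filter (fun y => y ∉ C ∧
          s(x, y) ∈ cubeE m), (1 + q * gapxS m R σ0 C y)) * ∏ z ∈ C \ A, (1 - h) := by
        have he : Real.exp (C.card * κ) ≤ Real.exp (q * σ0 / 2 * N) *
            Real.exp (-(2 * h) * C.card) := by
          rw [← Real.exp_add]
          refine Real.exp_le_exp.2 ?_
          have h1 : q * σ0 / 2 * (m * C.card / (4 * ((TT m : ℝ) + 2))) ≤ q * σ0 / 2 * N := by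
            rw [hNR]
            exact mul_le_mul_of_nonneg_left hcap (by positivity)
          have h2 : q * σ0 / 2 * (m * C.card / (4 * ((TT m : ℝ) + 2))) =
              C.card * (q * σ0 * m / (8 * ((TT m : ℝ) + 2))) := by
            field_simp
            ring
          rw [hκ]
          rw [h2] at h1
          linarith
        refine he.trans ?_
        exact mul_le_mul (hexpN.trans hprod) hρ (Real.exp_pos _).le
          (prod_nonneg hpr0)
      calc (1 : ℝ) = Real.exp (-(n * κ)) * Real.exp (n * κ) := by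
            rw [← Real.exp_add, neg_add_cancel, Real.exp_zero]
        _ ≤ Real.exp (-(n * κ)) * Real.exp (C.card * κ) := by
            refine mul_le_mul_of_nonneg_left ?_ (Real.exp_pos _).le
            refine Real.exp_le_exp.2 ?_
            refine mul_le_mul_of_nonneg_right ?_ hbr
            exact_mod_cast hn.1.le
        _ ≤ _ := mul_le_mul_of_nonneg_left hW (Real.exp_pos _).le
    · rw [ind, if_neg hn]
      refine mul_nonneg (Real.exp_pos _).le (mul_nonneg (prod_nonneg hpr0) ?_)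
      exact prod_nonneg fun _ _ => h1h
  refine hfin.trans ?_
  calc _ ≤ Real.exp (-(n * κ)) * 1 :=
        mul_le_mul_of_nonneg_left key (Real.exp_pos _).le
    _ = _ := mul_one _

theorem b_gapx (m : ℕ) (hm : 2 ≤ m) (p q h σ0 : ℝ) (hp0 : 0 ≤ p) (hp1 : p ≤ 1) (hq0 : 0 ≤ q)
    (hq1 : q ≤ 1) (hh0 : 0 ≤ h) (hh1 : h ≤ 1 / 2) (hσ0 : 0 ≤ σ0) (hσ1 : σ0 ≤ 1) (R : ℕ)
    (hR : (R : ℝ) * (8 * ((TT m : ℝ) + 2)) ≤ 2 ^ m)
    (hgood : ∀ (S : Finset (Q m)) (y : Q m), S.card ≤ R → good m S y →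
      Ex (offE (cubeE m) S) p (fun ζ => (1 - h) ^ (cl ζ y).card) ≤ 1 - σ0)
    (hbr : 0 ≤ q * σ0 * m / (8 * ((TT m : ℝ) + 2)) - 2 * h) (n : ℕ) (x : Q m) :
    Ex (cubeE m) (p + q - p * q) (fun ω => ind (n < (cl ω x).card ∧ (cl ω x).card ≤ R)) ≤
      Real.exp (-(n * (q * σ0 * m / (8 * ((TT m : ℝ) + 2)) - 2 * h))) := by
  classical
  rw [xb_Ex_two]
  have h1 : Ex (cubeE m) p (fun ζ => Ex (cubeE m) q (fun η =>
      ind (n < (cl (ζ ∪ η) x).card ∧ (cl (ζ ∪ η) x).card ≤ R))) =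
      Ex (cubeE m) p (fun ζ => (fun (A : Finset (Q m)) (_ ζ2 : Finset (Sym2 (Q m))) =>
        Ex (cubeE m) q (fun η => ind (n < (cls (ζ2 ∪ η) A).card ∧
          (cls (ζ2 ∪ η) A).card ≤ R))) (cl ζ x) (ζ \ offE (cubeE m) (cl ζ x))
          (ζ ∩ offE (cubeE m) (cl ζ x))) := by
    refine Ex_congr _ _ _ _ fun ζ hζ => ?_
    refine Ex_congr _ _ _ _ fun η _ => ?_
    have hcl : cl (ζ ∪ η) x = cls (ζ ∩ offE (cubeE m) (cl ζ x) ∪ η) (cl ζ x) := by
      rw [← cls_singleton (ζ ∪ η) x]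
      rw [xb_cls_absorb (ζ ∪ η) (ζ ∩ offE (cubeE m) (cl ζ x) ∪ η) {x} (cl ζ x)
        (union_subset_union_left inter_subset_left)
        (by rw [cls_singleton]; exact cl_mono _ _ subset_union_left x)]
      · congr 1
        rw [union_eq_right, singleton_subset_iff]
        exact mem_cl_self ζ x
      · intro a b hab hab'
        rw [mem_union] at hab
        rw [mem_union, not_or, mem_inter, not_and] at hab'
        rcases hab with hab | hab
        · have h3 := hab'.1 hab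
          rw [xb_mem_offE] at h3
          have h4 : a ∈ cl ζ x ∨ b ∈ cl ζ x := by
            by_contra hcon
            rw [not_or] at hcon
            exact h3 ⟨hζ hab, hcon.1, hcon.2⟩
          rcases h4 with h4 | h4
          · exact ⟨h4, cl_closed ζ x a b h4 hab⟩
          · refine ⟨cl_closed ζ x b a h4 ?_, h4⟩
            rw [Sym2.eq_swap]
            exact hab
        · exact absurd hab hab'.2
    rw [hcl]
  rw [h1, b_mark_cl (cubeE m) x p (fun (A : Finset (Q m)) (_ ζ2 : Finset (Sym2 (Q m))) =>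
        Ex (cubeE m) q (fun η => ind (n < (cls (ζ2 ∪ η) A).card ∧
          (cls (ζ2 ∪ η) A).card ≤ R)))]
  refine xb_Ex_le _ _ hp0 hp1 _ _ fun ζ _ => ?_
  exact gapx_off m hm p q h σ0 hp0 hp1 hq0 hq1 hh0 hh1 hσ0 hσ1 R hR hgood hbr n (cl ζ x)

end Pool.Agent.Work.MP_b7dc8a_pr
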