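import Pool.Agent.Work.MP_b7dc8a_pr.B.Mark

/-! Module GATOM (L): exploration with two independent fields.

Let `0 <= ρ z <= 1`, `0 <= σ S y <= 1`, `σ` antitone in `S`, and for `y ∉ S` the `ρ`-weight of the
cluster of `y` outside `S` has expectation `<= 1 - σ S y`. Then, exploring the cluster `C` of `S0` in
`ζ ∪ η` (`ζ` density `p`, `η` density `q`), the expectation of
`∏ over boundary pairs (x,y) of C (1 + q σ C y) * ∏_{z ∈ C \ S0} ρ z` is at most one.

Proof. For a set `S` and `U ⊆ E` with `offE E S ⊆ U` let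
`Φ(S,U) = Ex (offE E S) p (ζ => Ex U q (η => (∏_{x ∈ C} ∏_{y ∉ C, s(x,y) ∈ U} (1 + q σ C y))
   * ∏_{z ∈ C \ S} ρ z))` with `C = cls (ζ ∪ η) S`.
CLAIM: `Φ(S,U) <= 1`, by induction on `|U|` (all `S`). -/

namespace Pool.Agent.Work.MP_b7dc8a_pr

open Finset

section GATOM
variable {V : Type} [Fintype V] [DecidableEq V]

open Classical in
/-- product over boundary pairs -/
noncomputable def gaB (q : ℝ) (σ : Finset V → V → ℝ) (U : Finset (Sym2 V)) (C : Finset V) : ℝ :=
  ∏ x ∈ C, ∏ y : V, if y ∉ C ∧ s(x, y) ∈ U then (1 + q * σ C y) else 1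

theorem gaB_nonneg (q : ℝ) (hq0 : 0 ≤ q) (σ : Finset V → V → ℝ) (hσ0 : ∀ S y, 0 ≤ σ S y)
    (U : Finset (Sym2 V)) (C : Finset V) : 0 ≤ gaB q σ U C := by
  unfold gaB
  refine Finset.prod_nonneg fun x _ => Finset.prod_nonneg fun y _ => ?_
  have := mul_nonneg hq0 (hσ0 C y)
  split_ifs <;> linarith

/-- no boundary pair -/
theorem gaB_eq_one (q : ℝ) (σ : Finset V → V → ℝ) (U : Finset (Sym2 V)) (C : Finset V)
    (h : ∀ x ∈ C, ∀ y, s(x, y) ∈ U → y ∈ C) : gaB q σ U C = 1 := by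
  unfold gaB
  refine Finset.prod_eq_one fun x hx => Finset.prod_eq_one fun y _ => ?_
  rw [if_neg]
  rintro ⟨h1, h2⟩
  exact h1 (h x hx y h2)

theorem gaB_erase_in (q : ℝ) (σ : Finset V → V → ℝ) (U : Finset (Sym2 V)) (C : Finset V)
    (x0 y0 : V) (hx : x0 ∈ C) (hy : y0 ∈ C) : gaB q σ (U.erase s(x0, y0)) C = gaB q σ U C := by
  unfold gaB
  refine Finset.prod_congr rfl fun x _ => Finset.prod_congr rfl fun y _ => ?_
  have : (y ∉ C ∧ s(x, y) ∈ U.erase s(x0, y0)) ↔ (y ∉ C ∧ s(x, y) ∈ U) := by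
    constructor
    · rintro ⟨h1, h2⟩
      exact ⟨h1, Finset.mem_of_mem_erase h2⟩
    · rintro ⟨h1, h2⟩
      refine ⟨h1, Finset.mem_erase.2 ⟨?_, h2⟩⟩
      intro h3
      rw [Sym2.eq_iff] at h3
      rcases h3 with ⟨_, h4⟩ | ⟨_, h4⟩
      · exact h1 (h4 ▸ hy)
      · exact h1 (h4 ▸ hx)
  simp only [this]

theorem gaB_erase_out (q : ℝ) (σ : Finset V → V → ℝ) (U : Finset (Sym2 V)) (C : Finset V)
    (x0 y0 : V) (hx : x0 ∈ C) (hy : y0 ∉ C) (he : s(x0, y0) ∈ U) :
    gaB q σ U C = (1 + q * σ C y0) * gaB q σ (U.erase s(x0, y0)) C := by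
  classical
  have key : ∀ x ∈ C, ∀ y : V, (if y ∉ C ∧ s(x, y) ∈ U then (1 + q * σ C y) else 1) =
      (if x = x0 then (if y = y0 then (1 + q * σ C y0) else 1) else 1) *
        (if y ∉ C ∧ s(x, y) ∈ U.erase s(x0, y0) then (1 + q * σ C y) else 1) := by
    intro x hxC y
    by_cases h1 : x = x0 ∧ y = y0
    · obtain ⟨rfl, rfl⟩ := h1
      simp [hy, he]
    · have h2 : (y ∉ C ∧ s(x, y) ∈ U.erase s(x0, y0)) ↔ (y ∉ C ∧ s(x, y) ∈ U) := by
        constructor
        · rintro ⟨h1, h2⟩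
          exact ⟨h1, Finset.mem_of_mem_erase h2⟩
        · rintro ⟨h3, h4⟩
          refine ⟨h3, Finset.mem_erase.2 ⟨?_, h4⟩⟩
          intro h5
          rw [Sym2.eq_iff] at h5
          rcases h5 with ⟨h6, h7⟩ | ⟨_, h7⟩
          · exact h1 ⟨h6, h7⟩
          · exact h3 (h7 ▸ hx)
      simp only [h2]
      by_cases h3 : x = x0
      · have h4 : y ≠ y0 := fun h => h1 ⟨h3, h⟩
        rw [if_pos h3, if_neg h4, one_mul]
      · rw [if_neg h3, one_mul]
  have e1 : gaB q σ U C = ∏ x ∈ C, ∏ y : V,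
      ((if x = x0 then (if y = y0 then (1 + q * σ C y0) else 1) else 1) *
        (if y ∉ C ∧ s(x, y) ∈ U.erase s(x0, y0) then (1 + q * σ C y) else 1)) := by
    unfold gaB
    refine Finset.prod_congr rfl fun x hx => Finset.prod_congr rfl fun y _ => ?_
    convert key x hx y
  rw [e1]
  simp only [Finset.prod_mul_distrib]
  congr 1
  · have : ∀ x ∈ C, (∏ y : V, if x = x0 then (if y = y0 then (1 + q * σ C y0) else 1) else 1) =
        if x = x0 then (1 + q * σ C y0) else 1 := by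
      intro x _
      by_cases h : x = x0
      · simp [h]
      · simp [h]
    rw [Finset.prod_congr rfl this, Finset.prod_ite_eq' C x0, if_pos hx]

theorem ga_case1 (E : Finset (Sym2 V)) (p q : ℝ) (ρ : V → ℝ) (σ : Finset V → V → ℝ)
    (S : Finset V) (U : Finset (Sym2 V)) (hS : offE E S ⊆ U)
    (hcase : ∀ x ∈ S, ∀ y, s(x, y) ∈ U → y ∈ S) :
    Ex (offE E S) p (fun ζ => Ex U q (fun η =>
        gaB q σ U (cls (ζ ∪ η) S) * ∏ z ∈ cls (ζ ∪ η) S \ S, ρ z)) = 1 := by
  have h1 : ∀ ζ ⊆ offE E S, Ex U q (fun η =>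
        gaB q σ U (cls (ζ ∪ η) S) * ∏ z ∈ cls (ζ ∪ η) S \ S, ρ z) = 1 := by
    intro ζ hζ
    have h2 : ∀ η ⊆ U, gaB q σ U (cls (ζ ∪ η) S) * ∏ z ∈ cls (ζ ∪ η) S \ S, ρ z = 1 := by
      intro η hη
      have h3 : cls (ζ ∪ η) S = S := by
        refine cls_eq_self _ _ fun x hx y hxy => hcase x hx y ?_
        rcases Finset.mem_union.1 hxy with h | h
        · exact hS (hζ h)
        · exact hη h
      rw [h3, gaB_eq_one q σ U S hcase]
      simp
    rw [Ex_congr U q _ (fun _ => 1) h2, Ex_const]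
  rw [Ex_congr _ p _ (fun _ => 1) h1, Ex_const]

/-- absorbing the cluster of `y0` -/
theorem ga_absorb (E : Finset (Sym2 V)) (S : Finset V) (ζ η : Finset (Sym2 V)) (x0 y0 : V)
    (hx0 : x0 ∈ S) (hζ : ζ ⊆ offE E S) :
    cls (ζ ∪ insert s(x0, y0) η) S =
      cls ((ζ ∩ offE (offE E S) (cl ζ y0)) ∪ η) (S ∪ cl ζ y0) := by
  have h0 : ζ ∪ insert s(x0, y0) η = insert s(x0, y0) (ζ ∪ η) := by
    rw [Finset.union_insert]
  rw [h0, cls_insert _ _ _ _ hx0]
  apply Finset.Subset.antisymm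
  · -- closedness
    intro z hz
    rw [clb_mem_cls] at hz
    obtain ⟨w, hw, hwz⟩ := hz
    refine clb_closed (ζ ∪ η)
      {v | v ∈ cls ((ζ ∩ offE (offE E S) (cl ζ y0)) ∪ η) (S ∪ cl ζ y0)} ?_ w z ?_ hwz
    · intro a ha b hab
      rcases Finset.mem_union.1 hab with h | h
      · by_cases h2 : s(a, b) ∈ offE (offE E S) (cl ζ y0)
        · exact xb_cls_closed _ _ a b ha
            (Finset.mem_union_left _ (Finset.mem_inter.2 ⟨h, h2⟩))
        · rw [xb_mem_offE] at h2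
          have h3 : a ∈ cl ζ y0 ∨ b ∈ cl ζ y0 := by
            by_contra hcon
            push Not at hcon
            exact h2 ⟨hζ h, hcon.1, hcon.2⟩
          apply subset_cls
          apply Finset.mem_union_right
          rcases h3 with h3 | h3
          · exact cl_closed ζ y0 a b h3 h
          · exact h3
      · exact xb_cls_closed _ _ a b ha (Finset.mem_union_right _ h)
    · apply subset_cls
      rcases Finset.mem_insert.1 hw with h | h
      · rw [h]
        exact Finset.mem_union_right _ (mem_cl_self ζ y0)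
      · exact Finset.mem_union_left _ h
  · intro z hz
    rw [clb_mem_cls] at hz
    obtain ⟨w, hw, hwz⟩ := hz
    refine clb_closed ((ζ ∩ offE (offE E S) (cl ζ y0)) ∪ η)
      {v | v ∈ cls (ζ ∪ η) (insert y0 S)} ?_ w z ?_ hwz
    · intro a ha b hab
      refine xb_cls_closed _ _ a b ha ?_
      rcases Finset.mem_union.1 hab with h | h
      · exact Finset.mem_union_left _ (Finset.mem_inter.1 h).1
      · exact Finset.mem_union_right _ h
    · rcases Finset.mem_union.1 hw with h | h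
      · exact subset_cls _ _ (Finset.mem_insert_of_mem h)
      · show w ∈ cls (ζ ∪ η) (insert y0 S)
        rw [clb_mem_cls]
        refine ⟨y0, Finset.mem_insert_self _ _, ?_⟩
        rw [clb_mem_cl] at h
        exact h.mono (SimpleGraph.fromEdgeSet_mono (by
          exact_mod_cast Finset.subset_union_left))

theorem ga_main (E : Finset (Sym2 V)) (p q : ℝ) (hp0 : 0 ≤ p) (hp1 : p ≤ 1) (hq0 : 0 ≤ q)
    (hq1 : q ≤ 1) (ρ : V → ℝ) (hρ0 : ∀ z, 0 ≤ ρ z)
    (σ : Finset V → V → ℝ) (hσ0 : ∀ S y, 0 ≤ σ S y)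
    (hanti : ∀ S S' y, S ⊆ S' → y ∉ S' → σ S' y ≤ σ S y)
    (hσ : ∀ S y, y ∉ S → Ex (offE E S) p (fun ζ => ∏ z ∈ cl ζ y, ρ z) ≤ 1 - σ S y) :
    ∀ (n : ℕ) (S : Finset V) (U : Finset (Sym2 V)), U.card ≤ n → U ⊆ E → offE E S ⊆ U →
      Ex (offE E S) p (fun ζ => Ex U q (fun η =>
        gaB q σ U (cls (ζ ∪ η) S) * ∏ z ∈ cls (ζ ∪ η) S \ S, ρ z)) ≤ 1 := by
  intro n
  induction n with
  | zero =>
    intro S U hU hUE hS
    refine le_of_eq (ga_case1 E p q ρ σ S U hS ?_)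
    intro x _ y hxy
    have : U = ∅ := Finset.card_eq_zero.1 (Nat.le_zero.1 hU)
    rw [this] at hxy
    exact absurd hxy (Finset.notMem_empty _)
  | succ n ih =>
    intro S U hU hUE hS
    by_cases hcase : ∀ x ∈ S, ∀ y, s(x, y) ∈ U → y ∈ S
    · exact le_of_eq (ga_case1 E p q ρ σ S U hS hcase)
    · push Not at hcase
      obtain ⟨x0, hx0, y0, he, hy0⟩ := hcase
      have heS : s(x0, y0) ∉ offE E S := by
        rw [xb_mem_offE]
        exact fun h => h.2.1 hx0
      set U' := U.erase s(x0, y0) with hU'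
      have hUins : U = insert s(x0, y0) U' := (Finset.insert_erase he).symm
      have hnot : s(x0, y0) ∉ U' := Finset.notMem_erase _ _
      have hcard : U'.card ≤ n := by
        rw [hU', Finset.card_erase_of_mem he]
        omega
      have hU'E : U' ⊆ E := (Finset.erase_subset _ _).trans hUE
      have hSU' : offE E S ⊆ U' := by
        intro e h
        refine Finset.mem_erase.2 ⟨?_, hS h⟩
        intro h2
        rw [h2] at h
        exact heS h
      have hσS := hσ0 S y0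
      -- the closed part
      have hclosed : Ex (offE E S) p (fun ζ => Ex U' q (fun η =>
          gaB q σ U (cls (ζ ∪ η) S) * ∏ z ∈ cls (ζ ∪ η) S \ S, ρ z)) ≤ 1 + q * σ S y0 := by
        have h1 := ih S U' hcard hU'E hSU'
        have h2 : Ex (offE E S) p (fun ζ => Ex U' q (fun η =>
            gaB q σ U (cls (ζ ∪ η) S) * ∏ z ∈ cls (ζ ∪ η) S \ S, ρ z)) ≤
            Ex (offE E S) p (fun ζ => (1 + q * σ S y0) * Ex U' q (fun η =>
            gaB q σ U' (cls (ζ ∪ η) S) * ∏ z ∈ cls (ζ ∪ η) S \ S, ρ z)) := by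
          refine Ex_mono _ p hp0 hp1 _ _ fun ζ _ => ?_
          rw [← Ex_mul_left]
          refine Ex_mono _ q hq0 hq1 _ _ fun η _ => ?_
          have hx1 : x0 ∈ cls (ζ ∪ η) S := subset_cls _ _ hx0
          have hpr : 0 ≤ ∏ z ∈ cls (ζ ∪ η) S \ S, ρ z := Finset.prod_nonneg fun z _ => hρ0 z
          have hB := gaB_nonneg q hq0 σ hσ0 U' (cls (ζ ∪ η) S)
          rw [← mul_assoc]
          refine mul_le_mul_of_nonneg_right ?_ hpr
          by_cases hy1 : y0 ∈ cls (ζ ∪ η) S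
          · rw [hU', gaB_erase_in q σ U _ x0 y0 hx1 hy1] at *
            nlinarith [mul_nonneg hq0 hσS]
          · rw [gaB_erase_out q σ U _ x0 y0 hx1 hy1 he]
            refine mul_le_mul_of_nonneg_right ?_ hB
            have := hanti S (cls (ζ ∪ η) S) y0 (subset_cls _ _) hy1
            nlinarith
        rw [Ex_mul_left] at h2
        refine h2.trans ?_
        have : 0 ≤ 1 + q * σ S y0 := by positivity
        nlinarith
      -- the open part
      have hopen : Ex (offE E S) p (fun ζ => Ex U' q (fun η =>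
          gaB q σ U (cls (ζ ∪ insert s(x0, y0) η) S) *
            ∏ z ∈ cls (ζ ∪ insert s(x0, y0) η) S \ S, ρ z)) ≤ 1 - σ S y0 := by
        have h1 : Ex (offE E S) p (fun ζ => Ex U' q (fun η =>
          gaB q σ U (cls (ζ ∪ insert s(x0, y0) η) S) *
            ∏ z ∈ cls (ζ ∪ insert s(x0, y0) η) S \ S, ρ z)) =
            Ex (offE E S) p (fun ζ => (fun (A : Finset V) (_ ζ2 : Finset (Sym2 V)) =>
              (∏ z ∈ A, ρ z) * Ex U' q (fun η => gaB q σ U' (cls (ζ2 ∪ η) (S ∪ A)) *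
                ∏ z ∈ cls (ζ2 ∪ η) (S ∪ A) \ (S ∪ A), ρ z)) (cl ζ y0)
                (ζ \ offE (offE E S) (cl ζ y0)) (ζ ∩ offE (offE E S) (cl ζ y0))) := by
          refine Ex_congr _ p _ _ fun ζ hζ => ?_
          simp only
          rw [← Ex_mul_left]
          refine Ex_congr _ q _ _ fun η _ => ?_
          rw [ga_absorb E S ζ η x0 y0 hx0 hζ]
          set C := cls ((ζ ∩ offE (offE E S) (cl ζ y0)) ∪ η) (S ∪ cl ζ y0) with hC
          have hSC : S ∪ cl ζ y0 ⊆ C := subset_cls _ _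
          have hx1 : x0 ∈ C := hSC (Finset.mem_union_left _ hx0)
          have hy1 : y0 ∈ C := hSC (Finset.mem_union_right _ (mem_cl_self _ _))
          have hdis : Disjoint (cl ζ y0) S := xb_cl_off' E ζ S hζ y0 hy0
          have hsplit : C \ S = cl ζ y0 ∪ (C \ (S ∪ cl ζ y0)) := by
            ext z
            simp only [Finset.mem_sdiff, Finset.mem_union]
            constructor
            · rintro ⟨h1, h2⟩
              by_cases h3 : z ∈ cl ζ y0
              · exact Or.inl h3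
              · exact Or.inr ⟨h1, fun h => h.elim h2 h3⟩
            · rintro (h1 | ⟨h1, h2⟩)
              · exact ⟨hSC (Finset.mem_union_right _ h1),
                  fun h => (Finset.disjoint_left.1 hdis h1 h)⟩
              · exact ⟨h1, fun h => h2 (Or.inl h)⟩
          have hd2 : Disjoint (cl ζ y0) (C \ (S ∪ cl ζ y0)) := by
            rw [Finset.disjoint_left]
            intro z hz1 hz2
            exact (Finset.mem_sdiff.1 hz2).2 (Finset.mem_union_right _ hz1)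
          rw [hsplit, Finset.prod_union hd2, hU', gaB_erase_in q σ U C x0 y0 hx1 hy1]
          ring
        rw [h1, b_mark_cl (offE E S) y0 p (fun (A : Finset V) (_ ζ2 : Finset (Sym2 V)) =>
              (∏ z ∈ A, ρ z) * Ex U' q (fun η => gaB q σ U' (cls (ζ2 ∪ η) (S ∪ A)) *
                ∏ z ∈ cls (ζ2 ∪ η) (S ∪ A) \ (S ∪ A), ρ z))]
        refine le_trans ?_ (hσ S y0 hy0)
        refine Ex_mono _ p hp0 hp1 _ _ fun ζ _ => ?_
        rw [Ex_mul_left]
        have hpr : 0 ≤ ∏ z ∈ cl ζ y0, ρ z := Finset.prod_nonneg fun z _ => hρ0 z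
        have h3 : offE (offE E S) (cl ζ y0) = offE E (S ∪ cl ζ y0) := xb_offE_offE E S _
        have h4 : offE E (S ∪ cl ζ y0) ⊆ U' :=
          (xb_offE_anti E S _ Finset.subset_union_left).trans hSU'
        have h2 := ih (S ∪ cl ζ y0) U' hcard hU'E h4
        rw [h3]
        nlinarith
      -- sum
      have hsum : Ex (offE E S) p (fun ζ => Ex U q (fun η =>
          gaB q σ U (cls (ζ ∪ η) S) * ∏ z ∈ cls (ζ ∪ η) S \ S, ρ z)) =
          q * Ex (offE E S) p (fun ζ => Ex U' q (fun η =>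
          gaB q σ U (cls (ζ ∪ insert s(x0, y0) η) S) *
            ∏ z ∈ cls (ζ ∪ insert s(x0, y0) η) S \ S, ρ z)) +
          (1 - q) * Ex (offE E S) p (fun ζ => Ex U' q (fun η =>
          gaB q σ U (cls (ζ ∪ η) S) * ∏ z ∈ cls (ζ ∪ η) S \ S, ρ z)) := by
        rw [← Ex_mul_left, ← Ex_mul_left, ← Ex_add]
        refine Ex_congr _ p _ _ fun ζ _ => ?_
        conv_lhs => rw [show Ex U q = Ex (insert s(x0, y0) U') q by rw [← hUins]]
        rw [Ex_insert _ _ hnot]
      rw [hsum]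
      have hq2 : 0 ≤ 1 - q := by linarith
      have e1 := mul_le_mul_of_nonneg_left hopen hq0
      have e2 := mul_le_mul_of_nonneg_left hclosed hq2
      nlinarith [mul_nonneg (mul_nonneg hq0 hq0) hσS]

open Classical in
theorem b_gatom (E : Finset (Sym2 V)) (p q : ℝ) (hp0 : 0 ≤ p) (hp1 : p ≤ 1) (hq0 : 0 ≤ q)
    (hq1 : q ≤ 1) (ρ : V → ℝ) (hρ0 : ∀ z, 0 ≤ ρ z) (hρ1 : ∀ z, ρ z ≤ 1)
    (σ : Finset V → V → ℝ) (hσ0 : ∀ S y, 0 ≤ σ S y) (hσ1 : ∀ S y, σ S y ≤ 1)
    (hanti : ∀ S S' y, S ⊆ S' → y ∉ S' → σ S' y ≤ σ S y)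
    (hσ : ∀ S y, y ∉ S → Ex (offE E S) p (fun ζ => ∏ z ∈ cl ζ y, ρ z) ≤ 1 - σ S y)
    (S0 : Finset V) :
    Ex (offE E S0) p (fun ζ => Ex E q (fun η =>
      (∏ x ∈ cls (ζ ∪ η) S0, ∏ y ∈ univ.filter (fun y => y ∉ cls (ζ ∪ η) S0 ∧ s(x, y) ∈ E),
        (1 + q * σ (cls (ζ ∪ η) S0) y)) * ∏ z ∈ cls (ζ ∪ η) S0 \ S0, ρ z)) ≤ 1 := by
  have h := ga_main E p q hp0 hp1 hq0 hq1 ρ hρ0 σ hσ0 hanti hσ E.card S0 E le_rfl
    (Finset.Subset.refl _) (xb_offE_subset E S0)
  refine le_trans (le_of_eq ?_) h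
  refine Ex_congr _ _ _ _ fun ζ _ => Ex_congr _ _ _ _ fun η _ => ?_
  unfold gaB
  simp only [Finset.prod_filter]

end GATOM

end Pool.Agent.Work.MP_b7dc8a_pr
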