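import Pool.Agent.Work.MP_b7dc8a_pr.B.Xb

/-! Module WALK (M): facts on `nb` and on numbers of walks `wk`.

General facts: `nb E` is linear and monotone; induction on the number of steps
(`Function.iterate_succ_apply`, `Function.iterate_succ_apply'`).

`wk_off`: for `x ≠ y` and `t >= 2` the number of walks of length `t` in the cube from `x` to `y` is
at most `a t = 3 (1+1/m)^t m^t / m^2`. Proof: let `M t = sup_{x ≠ y} wk t x y`, `R t = wk t x x`.
`wk (t+1) x y = ∑_{z ~ x} wk t z y <= m M t + R t` (at most one `z` equals `y`; in fact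
`(m-1) M t + R t`), and `R (t+1) = ∑_{z ~ x} wk t z x <= m M t`. Hence
`M (t+1) <= m M t + m M (t-1)` for `t >= 1` (`R t <= m M (t-1)` for `t >= 1`), `M 1 <= 1`,
`M 2 <= 2`, `M 3 <= m M 2 + R 2 <= 2 m + m = 3 m` (`R 2 = m`), and for `t >= 3` by induction
`m a t + m a (t-1) = a (t-1) (m (m+1) + m) <= a (t-1) (m+1)^2 = a (t+1)`.
Bases: `2 <= a 2 = 3 (1+1/m)^2` and `3 m <= a 3 = 3 (1+1/m)^3 m`. (`M 2 <= 2`: two vertices at
Hamming distance 2 have exactly 2 common neighbours, at other distances none.) -/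

namespace Pool.Agent.Work.MP_b7dc8a_pr

open Finset

theorem walk_nb_ind {V : Type} [Fintype V] (E : Finset (Sym2 V)) (f : V → ℝ) (x : V) :
    nb E f x = ∑ z, ind (s(x, z) ∈ E) * f z := by
  unfold nb ind
  rw [Finset.sum_filter]
  apply Finset.sum_congr rfl
  intro z _
  split_ifs <;> simp

theorem walk_ind_pos (P : Prop) (h : P) : ind P = 1 := by
  unfold ind
  rw [if_pos h]

theorem walk_ind_neg (P : Prop) (h : ¬ P) : ind P = 0 := by
  unfold ind
  rw [if_neg h]

theorem walk_ind_nonneg (P : Prop) : 0 ≤ ind P := by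
  unfold ind
  split_ifs
  · exact zero_le_one
  · exact le_rfl

section WALK
variable {V : Type} [Fintype V] [DecidableEq V]

private theorem walk_nb_le (E : Finset (Sym2 V)) (f g : V → ℝ) (x : V)
    (h : ∀ z, s(x, z) ∈ E → f z ≤ g z) : nb E f x ≤ nb E g x := by
  rw [walk_nb_ind, walk_nb_ind]
  apply Finset.sum_le_sum
  intro z _
  by_cases hz : s(x, z) ∈ E
  · rw [walk_ind_pos _ hz, one_mul, one_mul]; exact h z hz
  · rw [walk_ind_neg _ hz, zero_mul, zero_mul]

private theorem walk_nb_zero (E : Finset (Sym2 V)) (f : V → ℝ) (x : V)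
    (h : ∀ z, s(x, z) ∈ E → f z = 0) : nb E f x = 0 := by
  rw [walk_nb_ind]
  apply Finset.sum_eq_zero
  intro z _
  by_cases hz : s(x, z) ∈ E
  · rw [h z hz, mul_zero]
  · rw [walk_ind_neg _ hz, zero_mul]

private theorem walk_nb_add (E : Finset (Sym2 V)) (f g : V → ℝ) (x : V) :
    nb E (fun z => f z + g z) x = nb E f x + nb E g x := by
  rw [walk_nb_ind, walk_nb_ind, walk_nb_ind, ← Finset.sum_add_distrib]
  apply Finset.sum_congr rfl
  intro z _
  ring

/-- a neighbour sum of a function which vanishes off a finite set -/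
private theorem walk_nb_supp (E : Finset (Sym2 V)) (f : V → ℝ) (x : V) (A : Finset V)
    (h1 : ∀ z ∈ A, f z ≤ 1) (h : ∀ z, s(x, z) ∈ E → z ∉ A → f z ≤ 0) :
    nb E f x ≤ A.card := by
  have hc : (A.card : ℝ) = ∑ z, (if z ∈ A then (1 : ℝ) else 0) := by
    rw [Finset.sum_ite_mem, Finset.univ_inter]
    simp
  rw [hc, walk_nb_ind]
  apply Finset.sum_le_sum
  intro z _
  by_cases hz : s(x, z) ∈ E
  · rw [walk_ind_pos _ hz, one_mul]
    split_ifs with hA
    · exact h1 z hA
    · exact h z hz hA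
  · rw [walk_ind_neg _ hz, zero_mul]
    split_ifs
    · exact zero_le_one
    · exact le_rfl

theorem nb_mono (E : Finset (Sym2 V)) (f g : V → ℝ) (h : ∀ z, f z ≤ g z) (x : V) :
    nb E f x ≤ nb E g x := by
  unfold nb
  exact Finset.sum_le_sum (fun z _ => h z)

theorem nb_iter_mono (E : Finset (Sym2 V)) (t : ℕ) (f g : V → ℝ) (h : ∀ z, f z ≤ g z) (x : V) :
    (nb E)^[t] f x ≤ (nb E)^[t] g x := by
  induction t generalizing x with
  | zero => exact h x
  | succ t ih =>
    rw [Function.iterate_succ_apply', Function.iterate_succ_apply']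
    exact nb_mono E _ _ ih x

theorem nb_iter_nonneg (E : Finset (Sym2 V)) (t : ℕ) (f : V → ℝ) (h : ∀ z, 0 ≤ f z) (x : V) :
    0 ≤ (nb E)^[t] f x := by
  induction t generalizing x with
  | zero => exact h x
  | succ t ih =>
    rw [Function.iterate_succ_apply']
    unfold nb
    exact Finset.sum_nonneg (fun z _ => ih z)

private theorem walk_nb_mono_E (E E' : Finset (Sym2 V)) (hE : E' ⊆ E) (f : V → ℝ)
    (h : ∀ z, 0 ≤ f z) (x : V) : nb E' f x ≤ nb E f x := by
  rw [walk_nb_ind, walk_nb_ind]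
  apply Finset.sum_le_sum
  intro z _
  apply mul_le_mul_of_nonneg_right _ (h z)
  by_cases hz : s(x, z) ∈ E'
  · rw [walk_ind_pos _ hz, walk_ind_pos _ (hE hz)]
  · rw [walk_ind_neg _ hz]
    exact walk_ind_nonneg _

theorem nb_iter_mono_E (E E' : Finset (Sym2 V)) (hE : E' ⊆ E) (t : ℕ) (f : V → ℝ)
    (h : ∀ z, 0 ≤ f z) (x : V) : (nb E')^[t] f x ≤ (nb E)^[t] f x := by
  induction t generalizing x with
  | zero => exact le_rfl
  | succ t ih =>
    rw [Function.iterate_succ_apply', Function.iterate_succ_apply']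
    calc nb E' ((nb E')^[t] f) x ≤ nb E' ((nb E)^[t] f) x := nb_mono E' _ _ ih x
      _ ≤ _ := walk_nb_mono_E E E' hE _ (fun z => nb_iter_nonneg E t f h z) x

theorem nb_iter_add (E : Finset (Sym2 V)) (t : ℕ) (f g : V → ℝ) (x : V) :
    (nb E)^[t] (fun z => f z + g z) x = (nb E)^[t] f x + (nb E)^[t] g x := by
  induction t generalizing x with
  | zero => rfl
  | succ t ih =>
    rw [Function.iterate_succ_apply', Function.iterate_succ_apply', Function.iterate_succ_apply',
      funext ih]
    unfold nb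
    exact Finset.sum_add_distrib

theorem nb_iter_smul (E : Finset (Sym2 V)) (t : ℕ) (c : ℝ) (f : V → ℝ) (x : V) :
    (nb E)^[t] (fun z => c * f z) x = c * (nb E)^[t] f x := by
  induction t generalizing x with
  | zero => rfl
  | succ t ih =>
    rw [Function.iterate_succ_apply', Function.iterate_succ_apply', funext ih]
    unfold nb
    rw [Finset.mul_sum]

theorem nb_iter_sum {ι : Type*} (E : Finset (Sym2 V)) (t : ℕ) (I : Finset ι) (f : ι → V → ℝ)
    (x : V) : (nb E)^[t] (fun z => ∑ i ∈ I, f i z) x = ∑ i ∈ I, (nb E)^[t] (f i) x := by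
  induction t generalizing x with
  | zero => rfl
  | succ t ih =>
    rw [Function.iterate_succ_apply', funext ih]
    simp only [Function.iterate_succ_apply']
    unfold nb
    exact Finset.sum_comm

theorem wk_nonneg (E : Finset (Sym2 V)) (t : ℕ) (x y : V) : 0 ≤ wk E t x y := by
  unfold wk
  apply nb_iter_nonneg
  intro z
  split_ifs
  · exact zero_le_one
  · exact le_rfl

theorem wk_zero (E : Finset (Sym2 V)) (x y : V) : wk E 0 x y = if x = y then 1 else 0 := by
  unfold wk
  rw [Function.iterate_zero]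
  simp only [id]
  split_ifs <;> rfl

theorem wk_succ (E : Finset (Sym2 V)) (t : ℕ) (x y : V) :
    wk E (t + 1) x y = nb E (fun z => wk E t z y) x := by
  unfold wk
  rw [Function.iterate_succ_apply']

/-- the iterates of `nb` in terms of walks -/
private theorem walk_iter_eq (E : Finset (Sym2 V)) (t : ℕ) (f : V → ℝ) (x : V) :
    (nb E)^[t] f x = ∑ y, wk E t x y * f y := by
  induction t generalizing x with
  | zero =>
    simp only [wk_zero]
    rw [Function.iterate_zero, id]
    simp
  | succ t ih =>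
    rw [Function.iterate_succ_apply', funext ih]
    simp only [wk_succ]
    unfold nb
    rw [Finset.sum_comm]
    apply Finset.sum_congr rfl
    intro y _
    rw [Finset.sum_mul]

private theorem walk_succ' (E : Finset (Sym2 V)) (t : ℕ) (x y : V) :
    wk E (t + 1) x y = nb E (fun z => wk E t x z) y := by
  have h : wk E (t + 1) x y = (nb E)^[t] (nb E (fun z => wk E 0 z y)) x := by
    unfold wk
    rw [Function.iterate_succ_apply]
    rfl
  rw [h, walk_iter_eq]
  unfold nb
  rw [Finset.sum_filter]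
  apply Finset.sum_congr rfl
  intro z _
  rw [Finset.sum_filter]
  simp only [wk_zero]
  rw [Finset.sum_eq_single y]
  · rw [Sym2.eq_swap]
    split_ifs <;> simp_all
  · intro b _ hb
    simp [hb]
  · intro h
    exact absurd (Finset.mem_univ y) h

theorem wk_comm (E : Finset (Sym2 V)) (t : ℕ) (x y : V) : wk E t x y = wk E t y x := by
  induction t generalizing x y with
  | zero =>
    rw [wk_zero, wk_zero]
    by_cases h : x = y
    · rw [if_pos h, if_pos h.symm]
    · rw [if_neg h, if_neg (Ne.symm h)]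
  | succ t ih =>
    rw [wk_succ, walk_succ']
    congr 1
    funext z
    exact ih z y

theorem wk_mono_E (E E' : Finset (Sym2 V)) (hE : E' ⊆ E) (t : ℕ) (x y : V) :
    wk E' t x y ≤ wk E t x y := by
  unfold wk
  apply nb_iter_mono_E E E' hE
  intro z
  split_ifs
  · exact zero_le_one
  · exact le_rfl

/-- the iterates of `nb` in terms of walks -/
theorem nb_iter_eq (E : Finset (Sym2 V)) (t : ℕ) (f : V → ℝ) (x : V) :
    (nb E)^[t] f x = ∑ y, wk E t x y * f y := walk_iter_eq E t f x

/-- a walk in `offE E S` started outside `S` stays outside `S` -/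
theorem wk_off_zero (E : Finset (Sym2 V)) (S : Finset V) (t : ℕ) (x y : V) (hx : x ∉ S)
    (hy : y ∈ S) : wk (offE E S) t x y = 0 := by
  induction t generalizing x with
  | zero =>
    rw [wk_zero, if_neg]
    rintro rfl
    exact hx hy
  | succ t ih =>
    rw [wk_succ]
    apply walk_nb_zero
    intro z hz
    rw [xb_mem_offE] at hz
    exact ih z hz.2.2

private theorem walk_mem_cube (m : ℕ) (x z : Q m) :
    s(x, z) ∈ cubeE m ↔ ∃ i, z = Function.update x i (!x i) := by
  unfold cubeE
  rw [SimpleGraph.mem_edgeFinset, SimpleGraph.mem_edgeSet]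
  show hammingDist x z = 1 ↔ _
  unfold hammingDist
  rw [Finset.card_eq_one]
  constructor
  · rintro ⟨i, hi⟩
    refine ⟨i, ?_⟩
    funext j
    have hj : j ∈ (univ.filter fun i => x i ≠ z i) ↔ j ∈ ({i} : Finset (Fin m)) := by rw [hi]
    rw [Finset.mem_filter, Finset.mem_singleton] at hj
    by_cases hji : j = i
    · subst hji
      rw [Function.update_self]
      have h1 : x j ≠ z j := (hj.2 rfl).2
      revert h1
      cases x j <;> cases z j <;> simp
    · rw [Function.update_of_ne hji]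
      by_contra hne
      exact hji (hj.1 ⟨Finset.mem_univ _, fun h => hne h.symm⟩)
  · rintro ⟨i, rfl⟩
    refine ⟨i, ?_⟩
    ext j
    rw [Finset.mem_filter, Finset.mem_singleton]
    constructor
    · rintro ⟨_, h⟩
      by_contra hji
      rw [Function.update_of_ne hji] at h
      exact h rfl
    · rintro rfl
      refine ⟨Finset.mem_univ _, ?_⟩
      rw [Function.update_self]
      cases x j <;> simp

private theorem walk_flip_inj (m : ℕ) (x : Q m) :
    Function.Injective (fun i : Fin m => Function.update x i (!x i)) := by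
  intro i j h
  by_contra hij
  have := congrFun h i
  simp only [Function.update_self, Function.update_of_ne hij] at this
  revert this
  cases x i <;> simp

private theorem walk_nb_const (m : ℕ) (c : ℝ) (x : Q m) : nb (cubeE m) (fun _ => c) x = m * c := by
  have hm : (m : ℝ) = ((univ : Finset (Fin m)).card : ℝ) := by
    rw [Finset.card_univ, Fintype.card_fin]
  rw [walk_nb_ind, ← Finset.sum_mul]
  congr 1
  rw [hm, ← Finset.card_image_of_injective _ (walk_flip_inj m x), Finset.cast_card]
  symm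
  have : ∀ z, ind (s(x, z) ∈ cubeE m) =
      if z ∈ (univ : Finset (Fin m)).image (fun i => Function.update x i (!x i)) then (1 : ℝ)
        else 0 := by
    intro z
    by_cases hz : s(x, z) ∈ cubeE m
    · rw [walk_ind_pos _ hz, if_pos]
      obtain ⟨i, hi⟩ := (walk_mem_cube m x z).1 hz
      exact Finset.mem_image.2 ⟨i, Finset.mem_univ _, hi.symm⟩
    · rw [walk_ind_neg _ hz, if_neg]
      intro hi
      obtain ⟨i, _, hi⟩ := Finset.mem_image.1 hi
      exact hz ((walk_mem_cube m x z).2 ⟨i, hi.symm⟩)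
  rw [Finset.sum_congr rfl (fun z _ => this z), Finset.sum_ite_mem, Finset.univ_inter]

theorem nb_cube_one (m : ℕ) (x : Q m) : nb (cubeE m) (fun _ => 1) x = m := by
  rw [walk_nb_const, mul_one]

theorem nb_iter_le (m t : ℕ) (E : Finset (Sym2 (Q m))) (hE : E ⊆ cubeE m) (f : Q m → ℝ) (c : ℝ)
    (hc : 0 ≤ c) (h : ∀ z, f z ≤ c) (x : Q m) : (nb E)^[t] f x ≤ (m : ℝ) ^ t * c := by
  induction t generalizing x with
  | zero => rw [pow_zero, one_mul]; exact h x
  | succ t ih =>
    rw [Function.iterate_succ_apply']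
    have hm : (0 : ℝ) ≤ m := Nat.cast_nonneg m
    have h0 : 0 ≤ (m : ℝ) ^ t * c := mul_nonneg (pow_nonneg hm t) hc
    calc nb E ((nb E)^[t] f) x ≤ nb E (fun _ => (m : ℝ) ^ t * c) x := nb_mono E _ _ ih x
      _ ≤ nb (cubeE m) (fun _ => (m : ℝ) ^ t * c) x := walk_nb_mono_E _ _ hE _ (fun _ => h0) x
      _ = m * ((m : ℝ) ^ t * c) := walk_nb_const m _ x
      _ = (m : ℝ) ^ (t + 1) * c := by ring

private theorem walk_iter_one (m t : ℕ) (x : Q m) :
    (nb (cubeE m))^[t] (fun _ => 1) x = (m : ℝ) ^ t := by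
  induction t generalizing x with
  | zero => rw [pow_zero]; rfl
  | succ t ih =>
    rw [Function.iterate_succ_apply', funext ih, walk_nb_const]
    ring

theorem wk_cube_sum (m t : ℕ) (x : Q m) : ∑ y, wk (cubeE m) t x y = (m : ℝ) ^ t := by
  rw [← walk_iter_one m t x, walk_iter_eq]
  simp

private theorem walk_not_loop (m : ℕ) (x : Q m) : s(x, x) ∉ cubeE m := by
  intro h
  rw [walk_mem_cube] at h
  obtain ⟨i, hi⟩ := h
  have := congrFun hi i
  rw [Function.update_self] at this
  revert this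
  cases x i <;> simp

theorem wk_one (m : ℕ) (x y : Q m) : wk (cubeE m) 1 x y ≤ 1 := by
  have h := walk_nb_supp (cubeE m) (fun z => wk (cubeE m) 0 z y) x {y}
    (by
      intro z _
      show wk (cubeE m) 0 z y ≤ 1
      rw [wk_zero]
      split_ifs
      · exact le_rfl
      · exact zero_le_one)
    (by
      intro z _ hz
      show wk (cubeE m) 0 z y ≤ 0
      rw [Finset.mem_singleton] at hz
      rw [wk_zero, if_neg hz])
  rw [Finset.card_singleton, Nat.cast_one] at h
  have h2 := wk_succ (cubeE m) 0 x y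
  rw [zero_add] at h2
  rw [h2]
  exact h

/-- one step: bound by a bound for the previous step -/
private theorem walk_step (m t : ℕ) (x y : Q m) (B R : ℝ) (hB : 0 ≤ B)
    (h : ∀ z, z ≠ y → wk (cubeE m) t z y ≤ B) (hR : wk (cubeE m) t y y ≤ B + R) (hR0 : 0 ≤ R) :
    wk (cubeE m) (t + 1) x y ≤ m * B + R := by
  rw [wk_succ]
  have h1 : ∀ z, wk (cubeE m) t z y ≤ B + R * wk (cubeE m) 0 z y := by
    intro z
    rw [wk_zero]
    by_cases hz : z = y
    · rw [if_pos hz, hz, mul_one]; exact hR
    · rw [if_neg hz, mul_zero, add_zero]; exact h z hz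
  refine (nb_mono _ _ _ h1 x).trans ?_
  rw [walk_nb_add, walk_nb_const]
  have h3 : nb (cubeE m) (fun z => R * wk (cubeE m) 0 z y) x = R * wk (cubeE m) 1 x y := by
    have := nb_iter_smul (cubeE m) 1 R (fun z => wk (cubeE m) 0 z y) x
    rw [Function.iterate_one] at this
    rw [this, ← wk_succ]
  rw [h3]
  have h4 := mul_le_mul_of_nonneg_left (wk_one m x y) hR0
  linarith

private theorem walk_loop (m t : ℕ) (y : Q m) (B : ℝ) (hB : 0 ≤ B)
    (h : ∀ z, z ≠ y → wk (cubeE m) t z y ≤ B) : wk (cubeE m) (t + 1) y y ≤ m * B := by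
  rw [wk_succ, ← walk_nb_const m B y]
  apply walk_nb_le
  intro z hz
  apply h
  rintro rfl
  exact walk_not_loop m z hz

private theorem walk_two (m : ℕ) (x y : Q m) (hxy : x ≠ y) : wk (cubeE m) 2 x y ≤ 2 := by
  classical
  have h := wk_succ (cubeE m) 1 x y
  norm_num at h
  rw [h]
  obtain ⟨j, hj⟩ : ∃ j, x j ≠ y j := by
    by_contra hcon
    push Not at hcon
    exact hxy (funext hcon)
  have key : ∀ z, s(x, z) ∈ cubeE m → wk (cubeE m) 1 z y ≠ 0 →
      z ∈ ({Function.update x j (!x j), Function.update y j (!y j)} : Finset (Q m)) := by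
    intro z hz hw
    have hzy : s(z, y) ∈ cubeE m := by
      by_contra hcon
      apply hw
      have h2 := wk_succ (cubeE m) 0 z y
      rw [zero_add] at h2
      rw [h2]
      apply walk_nb_zero
      intro w hw'
      rw [wk_zero, if_neg]
      rintro rfl
      exact hcon hw'
    rw [walk_mem_cube] at hz
    obtain ⟨i, hi⟩ := hz
    rw [Finset.mem_insert, Finset.mem_singleton]
    by_cases hij : i = j
    · left
      rw [hi, hij]
    · right
      rw [Sym2.eq_swap, walk_mem_cube] at hzy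
      obtain ⟨k, hk⟩ := hzy
      have hzj : z j = x j := by
        rw [hi, Function.update_of_ne (fun h => hij h.symm)]
      have hkj : k = j := by
        by_contra hkj
        have : z j = y j := by
          rw [hk, Function.update_of_ne (fun h => hkj h.symm)]
        exact hj (hzj.symm.trans this)
      rw [hk, hkj]
  have h3 := walk_nb_supp (cubeE m) (fun z => wk (cubeE m) 1 z y) x
    {Function.update x j (!x j), Function.update y j (!y j)} (fun z _ => wk_one m z y)
    (by
      intro z hz hzA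
      by_contra hcon
      exact hzA (key z hz (fun h0 => hcon (le_of_eq h0))))
  refine h3.trans ?_
  have := Finset.card_le_two (a := Function.update x j (!x j)) (b := Function.update y j (!y j))
  exact_mod_cast this

private theorem walk_off_aux (m : ℕ) (hm : 1 ≤ m) (t : ℕ) :
    (∀ x y : Q m, x ≠ y → wk (cubeE m) (t + 2) x y ≤ 3 * ((m : ℝ) + 1) ^ (t + 2) / (m : ℝ) ^ 2) ∧
    (∀ x y : Q m, x ≠ y → wk (cubeE m) (t + 3) x y ≤ 3 * ((m : ℝ) + 1) ^ (t + 3) / (m : ℝ) ^ 2) := by
  have hm0 : (1 : ℝ) ≤ m := by exact_mod_cast hm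
  have hmp : (0 : ℝ) < (m : ℝ) ^ 2 := by positivity
  induction t with
  | zero =>
    refine ⟨?_, ?_⟩
    · intro x y hxy
      refine (walk_two m x y hxy).trans ?_
      rw [le_div_iff₀ hmp]
      have h3 : ((m : ℝ) + 1) ^ (0 + 2) = (m : ℝ) ^ 2 + 2 * m + 1 := by ring
      rw [h3]
      nlinarith
    · intro x y hxy
      have hb : wk (cubeE m) 2 y y ≤ 2 + m := by
        have := walk_loop m 1 y 1 zero_le_one (fun z _ => wk_one m z y)
        norm_num at this
        linarith
      have := walk_step m 2 x y 2 m (by norm_num) (fun z hz => walk_two m z y hz) hb (by linarith)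
      refine this.trans ?_
      rw [le_div_iff₀ hmp]
      have h3 : ((m : ℝ) + 1) ^ (0 + 3) = (m : ℝ) ^ 3 + 3 * (m : ℝ) ^ 2 + 3 * m + 1 := by ring
      rw [h3]
      nlinarith
  | succ t ih =>
    refine ⟨?_, ?_⟩
    · intro x y hxy
      exact ih.2 x y hxy
    · intro x y hxy
      have h2 := fun z hz => ih.1 z y hz
      have h3 := fun z hz => ih.2 z y hz
      have hB2 : 0 ≤ 3 * ((m : ℝ) + 1) ^ (t + 2) / (m : ℝ) ^ 2 := by positivity
      have hB3 : 0 ≤ 3 * ((m : ℝ) + 1) ^ (t + 3) / (m : ℝ) ^ 2 := by positivity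
      have hl := walk_loop m (t + 2) y _ hB2 h2
      have hR0 : 0 ≤ (m : ℝ) * (3 * ((m : ℝ) + 1) ^ (t + 2) / (m : ℝ) ^ 2) := by positivity
      have := walk_step m (t + 3) x y _ (m * (3 * ((m : ℝ) + 1) ^ (t + 2) / (m : ℝ) ^ 2)) hB3 h3
        (by
          have : wk (cubeE m) (t + 3) y y ≤ m * (3 * ((m : ℝ) + 1) ^ (t + 2) / (m : ℝ) ^ 2) := hl
          linarith) hR0
      have e1 : t + 1 + 3 = t + 3 + 1 := by ring
      rw [e1]
      refine this.trans ?_
      rw [← mul_add, ← add_div, ← mul_div_assoc]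
      apply div_le_div_of_nonneg_right _ hmp.le
      have hq : 0 ≤ ((m : ℝ) + 1) ^ (t + 2) := by positivity
      have e3 : ((m : ℝ) + 1) ^ (t + 3) = ((m : ℝ) + 1) ^ (t + 2) * (m + 1) := by ring
      have e4 : ((m : ℝ) + 1) ^ (t + 3 + 1) = ((m : ℝ) + 1) ^ (t + 2) * (m + 1) ^ 2 := by ring
      rw [e3, e4]
      nlinarith

theorem wk_off (m : ℕ) (hm : 1 ≤ m) (t : ℕ) (ht : 2 ≤ t) (x y : Q m) (hxy : x ≠ y) :
    wk (cubeE m) t x y ≤ 3 * (1 + 1 / (m : ℝ)) ^ t * (m : ℝ) ^ t / (m : ℝ) ^ 2 := by
  have hm0 : (m : ℝ) ≠ 0 := by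
    have : (1 : ℝ) ≤ m := by exact_mod_cast hm
    linarith
  have e : 3 * (1 + 1 / (m : ℝ)) ^ t * (m : ℝ) ^ t = 3 * ((m : ℝ) + 1) ^ t := by
    rw [mul_assoc, ← mul_pow]
    congr 2
    field_simp
  rw [e]
  obtain ⟨s, rfl⟩ : ∃ s, t = s + 2 := ⟨t - 2, by omega⟩
  exact (walk_off_aux m hm s).1 x y hxy

end WALK

end Pool.Agent.Work.MP_b7dc8a_pr
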