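import Pool.Agent.Work.MP_b7dc8a_pr.B.Twop
import Pool.Agent.Work.MP_b7dc8a_pr.B.Walk

/-! Module KERN (M-L): bound for the quadratic term of `b_reci` by walks.

Let `Ey = offE E {y}`, `t z d = tau Ey p z d`, `w i z d = wk Ey i z d`. By `b_twop` and `hϵ`:
`t z d <= ∑_{i<T} p^i w i z d + ϵ`. For neighbours `z ≠ z'` of `y` (so `z, z' ≠ y`, no loops):
`t z d * t z' d <= ∑_{i,j<T} p^(i+j) w i z d * w j z' d + ϵ ∑_{i<T} p^i w i z d
   + ϵ ∑_{j<T} p^j w j z' d + ϵ^2`.
Main term: by symmetry in `(i,z) <-> (j,z')` (nonnegative terms)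
`(p^2/2) ∑_{z ≠ z'} ∑_{i,j} <= p^2 ∑_{i <= j < T} p^(i+j) ∑_{z ≠ z'} ∑_d w i z d * w j z' d * v d`.
If `j = 0` then `i = 0` and the term is `ind (z = d) ind (z' = d) = 0` as `z ≠ z'`. If `j >= 1`: for
`d ≠ y`: `∑_{z' ~ y} w j z' d <= ∑_{z' : s(y,z') ∈ E} wk E j z' d = wk E (j+1) y d
<= wk (cubeE m) (j+1) y d <= M (j+1)`; for `d = y`: `w i z y = 0` (`wk_off_zero`). Then
`∑_{z ~ y} ∑_d w i z d * v d <= ∑_{z ~ y} (nb E)^[i] v z = (nb E)^[i+1] v y`.
So the main term is at most `∑_{i<T} ∑_{max i 1 <= j < T} p^(i+j+2) M (j+1) (nb E)^[i+1] v y`.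
Error terms: at most `m` values of `z` and of `z'`, `∑_d w i z d <= m^i` (`nb_iter_le` with `f = 1`),
`v d <= vmax`, `∑_d 1 = 2^m`: `(p^2/2) (2 ϵ m^2 ∑_i (p m)^i + ϵ^2 m^2 2^m) vmax`. -/

namespace Pool.Agent.Work.MP_b7dc8a_pr

open Finset

private theorem kn_symm (T : ℕ) (f : ℕ → ℕ → ℝ) (hs : ∀ i j, f i j = f j i)
    (h0 : ∀ i j, 0 ≤ f i j) :
    ∑ i ∈ range T, ∑ j ∈ range T, f i j ≤ 2 * ∑ i ∈ range T, ∑ j ∈ Ico i T, f i j := by
  have h1 : ∑ i ∈ range T, ∑ j ∈ range T, f i j =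
      ∑ i ∈ range T, ∑ j ∈ range i, f i j + ∑ i ∈ range T, ∑ j ∈ Ico i T, f i j := by
    rw [← Finset.sum_add_distrib]
    refine Finset.sum_congr rfl fun i hi => ?_
    have hi' := Finset.mem_range.1 hi
    rw [Finset.range_eq_Ico, Finset.range_eq_Ico,
      Finset.sum_Ico_consecutive (f i) (Nat.zero_le i) hi'.le]
  have h2 : ∑ i ∈ range T, ∑ j ∈ range i, f i j = ∑ j ∈ range T, ∑ i ∈ Ico (j + 1) T, f i j := by
    rw [Finset.sum_comm' (t' := range T) (s' := fun j => Ico (j + 1) T)]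
    intro i j
    simp only [Finset.mem_range, Finset.mem_Ico]
    omega
  have h3 : ∑ j ∈ range T, ∑ i ∈ Ico (j + 1) T, f i j ≤ ∑ i ∈ range T, ∑ j ∈ Ico i T, f i j := by
    refine Finset.sum_le_sum fun j _ => ?_
    calc ∑ i ∈ Ico (j + 1) T, f i j = ∑ i ∈ Ico (j + 1) T, f j i :=
          Finset.sum_congr rfl fun i _ => hs i j
      _ ≤ ∑ i ∈ Ico j T, f j i :=
          Finset.sum_le_sum_of_subset_of_nonneg
            (Finset.Ico_subset_Ico (Nat.le_succ j) le_rfl) fun i _ _ => h0 j i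
  rw [h1, h2]
  linarith

theorem b_kern (m : ℕ) (E : Finset (Sym2 (Q m))) (hE : E ⊆ cubeE m) (p : ℝ) (h0 : 0 ≤ p)
    (h1 : p ≤ 1) (y : Q m) (v : Q m → ℝ) (vmax : ℝ) (hv0 : ∀ d, 0 ≤ v d) (hv : ∀ d, v d ≤ vmax)
    (T : ℕ) (M : ℕ → ℝ) (hM : ∀ j x x', 2 ≤ j → x ≠ x' → wk (cubeE m) j x x' ≤ M j)
    (ϵ : ℝ) (hϵ0 : 0 ≤ ϵ)
    (hϵ : ∀ z d, p ^ T * (nb (offE E {y}))^[T] (fun u => tau (offE E {y}) p u d) z ≤ ϵ) :
    p ^ 2 / 2 * nb E (fun z => nb E (fun z' => if z' = z then 0 else
        ∑ d, tau (offE E {y}) p z d * tau (offE E {y}) p z' d * v d) y) y ≤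
      ∑ i ∈ range T, (∑ j ∈ Ico (max i 1) T, p ^ (j + 1) * M (j + 1)) *
        (p ^ (i + 1) * (nb E)^[i + 1] v y) +
      (p * m) ^ 2 * (ϵ * ∑ i ∈ range T, (p * m) ^ i + ϵ ^ 2 * 2 ^ m / 2) * vmax := by
  classical
  obtain ⟨N, hN, hnb⟩ : ∃ N : Finset (Q m), (∀ z, z ∈ N ↔ s(y, z) ∈ E) ∧
      ∀ f : Q m → ℝ, nb E f y = ∑ z ∈ N, f z :=
    ⟨univ.filter (fun z => s(y, z) ∈ E), fun z => by simp, fun f => by
      unfold nb
      exact Finset.sum_congr (by ext z; simp) fun _ _ => rfl⟩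
  have hvm : 0 ≤ vmax := (hv0 y).trans (hv y)
  set Ey := offE E {y} with hEy
  have hEyE : Ey ⊆ E := xb_offE_subset E {y}
  have hEyc : Ey ⊆ cubeE m := hEyE.trans hE
  have hyN : ∀ z ∈ N, z ≠ y := by
    intro z hz hzy
    subst hzy
    have h2 := hE ((hN z).1 hz)
    unfold cubeE at h2
    rw [SimpleGraph.mem_edgeFinset, SimpleGraph.mem_edgeSet] at h2
    exact (cube m).loopless.irrefl z h2
  have hcardN : (N.card : ℝ) ≤ m := by
    have h2 := nb_iter_le m 1 E hE (fun _ => 1) 1 (by norm_num) (fun _ => le_rfl) y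
    rw [Function.iterate_one, hnb] at h2
    simpa using h2
  let w : ℕ → Q m → Q m → ℝ := fun i z d => wk Ey i z d
  have hw0 : ∀ i z d, 0 ≤ w i z d := fun i z d => wk_nonneg Ey i z d
  let t : Q m → Q m → ℝ := fun z d => tau Ey p z d
  have ht0 : ∀ z d, 0 ≤ t z d := fun z d => xb_tau_nonneg Ey p h0 h1 z d
  let a : Q m → Q m → ℝ := fun z d => ∑ i ∈ range T, p ^ i * w i z d
  have ha0 : ∀ z d, 0 ≤ a z d := fun z d =>
    Finset.sum_nonneg fun i _ => mul_nonneg (by positivity) (hw0 i z d)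
  have hta : ∀ z d, t z d ≤ a z d + ϵ := by
    intro z d
    exact (b_twop Ey p h0 h1 T z d).trans (add_le_add le_rfl (hϵ z d))
  set σ := ∑ i ∈ range T, (p * m) ^ i with hσ
  have hσ0 : 0 ≤ σ := Finset.sum_nonneg fun i _ => by positivity
  have hasum : ∀ z, ∑ d, a z d ≤ σ := by
    intro z
    show ∑ d, ∑ i ∈ range T, p ^ i * w i z d ≤ _
    rw [Finset.sum_comm, hσ]
    refine Finset.sum_le_sum fun i _ => ?_
    rw [← Finset.mul_sum, mul_pow]
    refine mul_le_mul_of_nonneg_left ?_ (by positivity)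
    have h2 := nb_iter_eq Ey i (fun _ => 1) z
    simp only [mul_one] at h2
    rw [← h2]
    have h3 := nb_iter_le m i Ey hEyc (fun _ => 1) 1 (by norm_num) (fun _ => le_rfl) z
    rwa [mul_one] at h3
  -- the bound for one pair
  have hpair : ∀ z z', ∑ d, t z d * t z' d * v d ≤
      ∑ d, a z d * a z' d * v d + (2 * ϵ * σ + ϵ ^ 2 * 2 ^ m) * vmax := by
    intro z z'
    have h2 : ∀ d ∈ (univ : Finset (Q m)), t z d * t z' d * v d ≤
        a z d * a z' d * v d + (ϵ * a z d + ϵ * a z' d + ϵ ^ 2) * vmax := by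
      intro d _
      have h3 : t z d * t z' d ≤ (a z d + ϵ) * (a z' d + ϵ) :=
        mul_le_mul (hta z d) (hta z' d) (ht0 z' d) (add_nonneg (ha0 z d) hϵ0)
      have h4 : t z d * t z' d * v d ≤ (a z d + ϵ) * (a z' d + ϵ) * v d :=
        mul_le_mul_of_nonneg_right h3 (hv0 d)
      have h5 : (ϵ * a z d + ϵ * a z' d + ϵ ^ 2) * v d ≤
          (ϵ * a z d + ϵ * a z' d + ϵ ^ 2) * vmax :=
        mul_le_mul_of_nonneg_left (hv d) (by
          have := mul_nonneg hϵ0 (ha0 z d)
          have := mul_nonneg hϵ0 (ha0 z' d)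
          positivity)
      nlinarith
    refine (Finset.sum_le_sum h2).trans ?_
    rw [Finset.sum_add_distrib]
    refine add_le_add le_rfl ?_
    rw [← Finset.sum_mul]
    refine mul_le_mul_of_nonneg_right ?_ hvm
    rw [Finset.sum_add_distrib, Finset.sum_add_distrib, ← Finset.mul_sum, ← Finset.mul_sum,
      Finset.sum_const, Finset.card_univ, nsmul_eq_mul]
    have h6 : (Fintype.card (Q m) : ℝ) = 2 ^ m := by
      rw [Fintype.card_fun]
      simp
    rw [h6]
    have h7 := mul_le_mul_of_nonneg_left (hasum z) hϵ0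
    have h8 := mul_le_mul_of_nonneg_left (hasum z') hϵ0
    linarith
  set c0 := (2 * ϵ * σ + ϵ ^ 2 * 2 ^ m) * vmax with hc0
  have hc00 : 0 ≤ c0 := by positivity
  -- sum over the pairs
  let Sf : ℕ → ℕ → ℝ := fun i j =>
    ∑ z ∈ N, ∑ z' ∈ N, if z' = z then 0 else ∑ d, w i z d * w j z' d * v d
  have hSf0 : ∀ i j, 0 ≤ Sf i j := by
    intro i j
    refine Finset.sum_nonneg fun z _ => Finset.sum_nonneg fun z' _ => ?_
    split_ifs
    · exact le_rfl
    · exact Finset.sum_nonneg fun d _ =>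
        mul_nonneg (mul_nonneg (hw0 i z d) (hw0 j z' d)) (hv0 d)
  have hSfs : ∀ i j, Sf i j = Sf j i := by
    intro i j
    show ∑ z ∈ N, ∑ z' ∈ N, (if z' = z then 0 else ∑ d, w i z d * w j z' d * v d) =
      ∑ z ∈ N, ∑ z' ∈ N, (if z' = z then 0 else ∑ d, w j z d * w i z' d * v d)
    rw [Finset.sum_comm]
    refine Finset.sum_congr rfl fun z _ => Finset.sum_congr rfl fun z' _ => ?_
    by_cases h : z' = z
    · rw [if_pos h.symm, if_pos h]
    · rw [if_neg (fun h' => h h'.symm), if_neg h]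
      exact Finset.sum_congr rfl fun d _ => by ring
  have hmainexp : ∑ z ∈ N, ∑ z' ∈ N, (if z' = z then 0 else ∑ d, a z d * a z' d * v d) =
      ∑ i ∈ range T, ∑ j ∈ range T, p ^ i * p ^ j * Sf i j := by
    have h2 : ∀ z z', (if z' = z then 0 else ∑ d, a z d * a z' d * v d) =
        ∑ i ∈ range T, ∑ j ∈ range T, p ^ i * p ^ j *
          (if z' = z then 0 else ∑ d, w i z d * w j z' d * v d) := by
      intro z z'
      by_cases h : z' = z
      · simp [h]
      · simp only [if_neg h]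
        have h3 : ∀ d, a z d * a z' d * v d = ∑ i ∈ range T, ∑ j ∈ range T,
            p ^ i * p ^ j * (w i z d * w j z' d * v d) := by
          intro d
          show (∑ i ∈ range T, p ^ i * w i z d) * (∑ j ∈ range T, p ^ j * w j z' d) * v d = _
          rw [Finset.sum_mul_sum, Finset.sum_mul]
          refine Finset.sum_congr rfl fun i _ => ?_
          rw [Finset.sum_mul]
          exact Finset.sum_congr rfl fun j _ => by ring
        simp_rw [h3]
        rw [Finset.sum_comm]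
        refine Finset.sum_congr rfl fun i _ => ?_
        rw [Finset.sum_comm]
        refine Finset.sum_congr rfl fun j _ => ?_
        rw [Finset.mul_sum]
    simp_rw [h2]
    calc ∑ z ∈ N, ∑ z' ∈ N, ∑ i ∈ range T, ∑ j ∈ range T, p ^ i * p ^ j *
          (if z' = z then 0 else ∑ d, w i z d * w j z' d * v d)
        = ∑ z ∈ N, ∑ i ∈ range T, ∑ j ∈ range T, ∑ z' ∈ N, p ^ i * p ^ j *
          (if z' = z then 0 else ∑ d, w i z d * w j z' d * v d) := by
          refine Finset.sum_congr rfl fun z _ => ?_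
          rw [Finset.sum_comm]
          exact Finset.sum_congr rfl fun i _ => Finset.sum_comm
      _ = ∑ i ∈ range T, ∑ j ∈ range T, ∑ z ∈ N, ∑ z' ∈ N, p ^ i * p ^ j *
          (if z' = z then 0 else ∑ d, w i z d * w j z' d * v d) := by
          rw [Finset.sum_comm]
          exact Finset.sum_congr rfl fun i _ => Finset.sum_comm
      _ = _ := by
          refine Finset.sum_congr rfl fun i _ => Finset.sum_congr rfl fun j _ => ?_
          show _ = p ^ i * p ^ j * ∑ z ∈ N, ∑ z' ∈ N,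
            (if z' = z then 0 else ∑ d, w i z d * w j z' d * v d)
          rw [Finset.mul_sum]
          exact Finset.sum_congr rfl fun z _ => (Finset.mul_sum _ _ _).symm
  -- bound for `Sf`
  have hSf00 : Sf 0 0 = 0 := by
    refine Finset.sum_eq_zero fun z _ => Finset.sum_eq_zero fun z' _ => ?_
    split_ifs with h
    · rfl
    · refine Finset.sum_eq_zero fun d _ => ?_
      show wk Ey 0 z d * wk Ey 0 z' d * v d = 0
      rw [wk_zero, wk_zero]
      by_cases h2 : z = d
      · rw [if_neg (show ¬ z' = d from fun h3 => h (h3.trans h2.symm))]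
        ring
      · rw [if_neg h2]
        ring
  have hSfle : ∀ i j, 1 ≤ j → Sf i j ≤ M (j + 1) * (nb E)^[i + 1] v y := by
    intro i j hj
    rcases N.eq_empty_or_nonempty with hNe | ⟨z0, hz0⟩
    · have h2 : Sf i j = 0 := by
        show ∑ z ∈ N, ∑ z' ∈ N, (if z' = z then 0 else ∑ d, w i z d * w j z' d * v d) = 0
        rw [hNe]; simp
      have h3 : (nb E)^[i + 1] v y = 0 := by
        rw [Function.iterate_succ_apply', hnb, hNe]; simp
      rw [h2, h3, mul_zero]
    · have hM0 : 0 ≤ M (j + 1) :=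
        (wk_nonneg (cubeE m) (j + 1) y z0).trans
          (hM (j + 1) y z0 (by omega) (hyN z0 hz0).symm)
      have h2 : ∀ d, d ≠ y → ∑ z' ∈ N, w j z' d ≤ M (j + 1) := by
        intro d hd
        calc ∑ z' ∈ N, w j z' d ≤ ∑ z' ∈ N, wk E j z' d :=
              Finset.sum_le_sum fun z' _ => wk_mono_E E Ey hEyE j z' d
          _ = wk E (j + 1) y d := by rw [wk_succ, hnb]
          _ ≤ wk (cubeE m) (j + 1) y d := wk_mono_E (cubeE m) E hE (j + 1) y d
          _ ≤ M (j + 1) := hM (j + 1) y d (by omega) hd.symm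
      calc Sf i j ≤ ∑ z ∈ N, ∑ z' ∈ N, ∑ d, w i z d * w j z' d * v d := by
            refine Finset.sum_le_sum fun z _ => Finset.sum_le_sum fun z' _ => ?_
            split_ifs
            · exact Finset.sum_nonneg fun d _ =>
                mul_nonneg (mul_nonneg (hw0 i z d) (hw0 j z' d)) (hv0 d)
            · exact le_rfl
        _ = ∑ z ∈ N, ∑ d, w i z d * v d * ∑ z' ∈ N, w j z' d := by
            refine Finset.sum_congr rfl fun z _ => ?_
            rw [Finset.sum_comm]
            refine Finset.sum_congr rfl fun d _ => ?_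
            rw [Finset.mul_sum]
            exact Finset.sum_congr rfl fun z' _ => by ring
        _ ≤ ∑ z ∈ N, ∑ d, w i z d * v d * M (j + 1) := by
            refine Finset.sum_le_sum fun z hz => Finset.sum_le_sum fun d _ => ?_
            by_cases hd : d = y
            · have h3 : w i z d = 0 := by
                rw [hd]
                exact wk_off_zero E {y} i z y (by simpa using hyN z hz) (by simp)
              rw [h3]
              simp
            · exact mul_le_mul_of_nonneg_left (h2 d hd) (mul_nonneg (hw0 i z d) (hv0 d))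
        _ = M (j + 1) * ∑ z ∈ N, (nb Ey)^[i] v z := by
            rw [Finset.mul_sum]
            refine Finset.sum_congr rfl fun z _ => ?_
            rw [nb_iter_eq, Finset.mul_sum]
            refine Finset.sum_congr rfl fun d _ => ?_
            show wk Ey i z d * v d * M (j + 1) = _
            ring
        _ ≤ M (j + 1) * ∑ z ∈ N, (nb E)^[i] v z := by
            refine mul_le_mul_of_nonneg_left ?_ hM0
            exact Finset.sum_le_sum fun z _ => nb_iter_mono_E E Ey hEyE i v hv0 z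
        _ = _ := by
            rw [Function.iterate_succ_apply', hnb]
  -- assemble
  have hL : nb E (fun z => nb E (fun z' => if z' = z then 0 else
      ∑ d, tau Ey p z d * tau Ey p z' d * v d) y) y ≤
      ∑ i ∈ range T, ∑ j ∈ range T, p ^ i * p ^ j * Sf i j + (m : ℝ) ^ 2 * c0 := by
    rw [hnb]
    simp_rw [hnb]
    rw [← hmainexp]
    have h2 : ∀ z ∈ N, ∑ z' ∈ N, (if z' = z then 0 else ∑ d, tau Ey p z d * tau Ey p z' d * v d) ≤
        ∑ z' ∈ N, (if z' = z then 0 else ∑ d, a z d * a z' d * v d) + m * c0 := by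
      intro z _
      have h3 : ∀ z' ∈ N, (if z' = z then 0 else ∑ d, tau Ey p z d * tau Ey p z' d * v d) ≤
          (if z' = z then 0 else ∑ d, a z d * a z' d * v d) + c0 := by
        intro z' _
        split_ifs
        · linarith
        · exact hpair z z'
      refine (Finset.sum_le_sum h3).trans ?_
      rw [Finset.sum_add_distrib, Finset.sum_const, nsmul_eq_mul]
      exact add_le_add le_rfl (mul_le_mul_of_nonneg_right hcardN hc00)
    refine (Finset.sum_le_sum h2).trans ?_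
    rw [Finset.sum_add_distrib, Finset.sum_const, nsmul_eq_mul]
    refine add_le_add le_rfl ?_
    calc (N.card : ℝ) * (m * c0) ≤ m * (m * c0) :=
          mul_le_mul_of_nonneg_right hcardN (by positivity)
      _ = (m : ℝ) ^ 2 * c0 := by ring
  have hsym := kn_symm T (fun i j => p ^ i * p ^ j * Sf i j)
    (fun i j => by show p ^ i * p ^ j * Sf i j = p ^ j * p ^ i * Sf j i; rw [hSfs i j]; ring)
    (fun i j => mul_nonneg (by positivity) (hSf0 i j))
  have hfin : p ^ 2 * ∑ i ∈ range T, ∑ j ∈ Ico i T, p ^ i * p ^ j * Sf i j ≤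
      ∑ i ∈ range T, (∑ j ∈ Ico (max i 1) T, p ^ (j + 1) * M (j + 1)) *
        (p ^ (i + 1) * (nb E)^[i + 1] v y) := by
    rw [Finset.mul_sum]
    refine Finset.sum_le_sum fun i _ => ?_
    have h2 : ∑ j ∈ Ico i T, p ^ i * p ^ j * Sf i j =
        ∑ j ∈ Ico (max i 1) T, p ^ i * p ^ j * Sf i j := by
      symm
      refine Finset.sum_subset (Finset.Ico_subset_Ico (le_max_left _ _) le_rfl) ?_
      intro j hj hj'
      rw [Finset.mem_Ico] at hj hj'
      have h3 : i = 0 ∧ j = 0 := by omega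
      rw [h3.1, h3.2, hSf00]
      ring
    rw [h2, Finset.mul_sum, Finset.sum_mul]
    refine Finset.sum_le_sum fun j hj => ?_
    have hj' := Finset.mem_Ico.1 hj
    calc p ^ 2 * (p ^ i * p ^ j * Sf i j) ≤
          p ^ 2 * (p ^ i * p ^ j * (M (j + 1) * (nb E)^[i + 1] v y)) := by
          refine mul_le_mul_of_nonneg_left (mul_le_mul_of_nonneg_left
            (hSfle i j (by omega)) (by positivity)) (by positivity)
      _ = _ := by ring
  calc p ^ 2 / 2 * nb E (fun z => nb E (fun z' => if z' = z then 0 else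
        ∑ d, tau Ey p z d * tau Ey p z' d * v d) y) y
      ≤ p ^ 2 / 2 * (∑ i ∈ range T, ∑ j ∈ range T, p ^ i * p ^ j * Sf i j + (m : ℝ) ^ 2 * c0) :=
        mul_le_mul_of_nonneg_left hL (by positivity)
    _ ≤ p ^ 2 / 2 * (2 * ∑ i ∈ range T, ∑ j ∈ Ico i T, p ^ i * p ^ j * Sf i j +
        (m : ℝ) ^ 2 * c0) := by
        refine mul_le_mul_of_nonneg_left ?_ (by positivity)
        linarith
    _ = p ^ 2 * ∑ i ∈ range T, ∑ j ∈ Ico i T, p ^ i * p ^ j * Sf i j +
        (p * m) ^ 2 * (ϵ * σ + ϵ ^ 2 * 2 ^ m / 2) * vmax := by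
        rw [hc0]
        ring
    _ ≤ _ := by
        linarith

end Pool.Agent.Work.MP_b7dc8a_pr
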