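import Pool.Agent.Work.MP_b7dc8a_pr.B.Xb

/-! Module MARK (M): spatial Markov property of the exploration of the cluster of a set.

`b_mark`: let `E' ⊆ E`, `D = D(ω) = cls (ω ∩ E') S`. Given `D`, the edges of `offE E D` (which do
not touch `D`) are fresh: independent of `D` and of `ω \ offE E D`.

Proof. Expand over the value of `D`: for every finset `A` of vertices
  (*) for `ω ⊆ E`: `D(ω) = A  <->  D(ω \ offE E A) = A`.
((->): the edges of `ω ∩ E'` touching `A = D(ω)` are not in `offE E A`, so nothing changes in the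
exploration (`clb_closed` in both directions: the set `A` is closed under `(ω \ offE E A) ∩ E'`, and
every vertex of `A` is reached from `S` by edges with both endpoints in `A`, hence not in
`offE E A`). (<-): if `cls ((ω \ offE E A) ∩ E') S = A`, then `A` is closed under `ω ∩ E'` because
every edge of `ω` touching `A` is in `ω \ offE E A`, and `cls` is monotone.)
Write `1 = ∑ A, ind (D(ω) = A)` on both sides, exchange sum and `Ex` (`Ex_sum`), and for fixed `A`
split `E = (E \ offE E A) ∪ offE E A` with `Ex_union`: for `ω = ω1 ∪ ω2` with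
`ω1 ⊆ E \ offE E A`, `ω2 ⊆ offE E A` we have `ω \ offE E A = ω1`, `ω ∩ offE E A = ω2` and
`ind (D(ω) = A) = ind (D(ω1) = A)` by (*). So the left side is
`∑ A, Ex (E \ offE E A) p (ω1 => ind (D(ω1) = A) * Ex (offE E A) p (H A ω1 .))` and the right side
is the same by the same splitting (its integrand does not depend on `ω2`; `Ex_const`).

`b_mark_cl` is the case `E' = E`, `S = {x}` (`cls_singleton`), `b_mark_cls` the case `E' = E`. -/

namespace Pool.Agent.Work.MP_b7dc8a_pr

open Finset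

section MARK
variable {V : Type} [Fintype V] [DecidableEq V]


private theorem mark_iff (E E' ω : Finset (Sym2 V)) (S A : Finset V) :
    cls (ω ∩ E') S = A ↔ cls ((ω \ offE E A) ∩ E') S = A := by
  have hsub : (ω \ offE E A) ∩ E' ⊆ ω ∩ E' := inter_subset_inter_right sdiff_subset
  have hin : ∀ a b, a ∈ A → s(a, b) ∈ ω ∩ E' → s(a, b) ∈ (ω \ offE E A) ∩ E' := by
    intro a b ha hab
    rw [mem_inter] at hab ⊢
    refine ⟨mem_sdiff.2 ⟨hab.1, fun h => ?_⟩, hab.2⟩
    exact ((xb_mem_offE E A a b).1 h).2.1 ha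
  constructor
  · intro h
    apply Finset.Subset.antisymm
    · exact (xb_cls_mono _ _ S S hsub (Subset.refl S)).trans h.subset
    · intro y hy
      rw [← h, xb_mem_cls] at hy
      obtain ⟨s, hs, hy⟩ := hy
      rw [clb_mem_cl] at hy
      refine clb_closed (ω ∩ E') {v | v ∈ cls ((ω \ offE E A) ∩ E') S} (fun a ha b hab => ?_) s y
        (subset_cls _ S hs) hy
      have haA : a ∈ A := by
        rw [← h]
        exact xb_cls_mono _ _ S S hsub (Subset.refl S) ha
      exact xb_cls_closed _ S a b ha (hin a b haA hab)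
  · intro h
    apply Finset.Subset.antisymm
    · intro y hy
      rw [xb_mem_cls] at hy
      obtain ⟨s, hs, hy⟩ := hy
      rw [clb_mem_cl] at hy
      refine clb_closed (ω ∩ E') {v | v ∈ A} (fun a ha b hab => ?_) s y ?_ hy
      · rw [Set.mem_ofPred_eq] at ha ⊢
        have ha' := ha
        rw [← h] at ha'
        have := xb_cls_closed _ S a b ha' (hin a b ha hab)
        rwa [h] at this
      · rw [Set.mem_ofPred_eq, ← h]
        exact subset_cls _ S hs
    · exact h.symm.subset.trans (xb_cls_mono _ _ S S hsub (Subset.refl S))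

private theorem mark_sum (E : Finset (Sym2 V)) (p : ℝ) (D : Finset (Sym2 V) → Finset V)
    (G : Finset V → Finset (Sym2 V) → ℝ) :
    Ex E p (fun ω => G (D ω) ω) =
      ∑ A : Finset V, Ex E p (fun ω => ind (D ω = A) * G A ω) := by
  rw [← Ex_sum]
  refine Ex_congr _ _ _ _ fun ω _ => ?_
  unfold ind
  simp only [ite_mul, one_mul, zero_mul]
  rw [Finset.sum_eq_single (D ω)]
  · rw [if_pos rfl]
  · intro A _ hA
    rw [if_neg hA.symm]
  · intro h
    exact absurd (mem_univ _) h

private theorem mark_split (E F : Finset (Sym2 V)) (hF : F ⊆ E) (p : ℝ)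
    (G : Finset (Sym2 V) → Finset (Sym2 V) → ℝ) :
    Ex E p (fun ω => G (ω \ F) (ω ∩ F)) = Ex (E \ F) p (fun ω₁ => Ex F p (fun ω₂ => G ω₁ ω₂)) := by
  have h1 : E = (E \ F) ∪ F := (sdiff_union_of_subset hF).symm
  conv_lhs => rw [h1]
  rw [Ex_union _ _ sdiff_disjoint]
  refine Ex_congr _ _ _ _ fun ω₁ hω₁ => Ex_congr _ _ _ _ fun ω₂ hω₂ => ?_
  have hd : ∀ x ∈ ω₁, x ∉ F := fun x hx => (mem_sdiff.1 (hω₁ hx)).2
  congr 1
  · ext x
    rw [mem_sdiff, mem_union]
    constructor
    · rintro ⟨h | h, h'⟩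
      · exact h
      · exact absurd (hω₂ h) h'
    · exact fun h => ⟨Or.inl h, hd x h⟩
  · ext x
    rw [mem_inter, mem_union]
    constructor
    · rintro ⟨h | h, h'⟩
      · exact absurd h' (hd x h)
      · exact h
    · exact fun h => ⟨Or.inr h, hω₂ h⟩

theorem b_mark (E E' : Finset (Sym2 V)) (hE : E' ⊆ E) (S : Finset V) (p : ℝ)
    (H : Finset V → Finset (Sym2 V) → Finset (Sym2 V) → ℝ) :
    Ex E p (fun ω => H (cls (ω ∩ E') S) (ω \ offE E (cls (ω ∩ E') S))
      (ω ∩ offE E (cls (ω ∩ E') S))) =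
    Ex E p (fun ω => Ex (offE E (cls (ω ∩ E') S)) p (fun η =>
      H (cls (ω ∩ E') S) (ω \ offE E (cls (ω ∩ E') S)) η)) := by
  rw [mark_sum E p (fun ω => cls (ω ∩ E') S) (fun A ω => H A (ω \ offE E A) (ω ∩ offE E A)),
    mark_sum E p (fun ω => cls (ω ∩ E') S)
      (fun A ω => Ex (offE E A) p (fun η => H A (ω \ offE E A) η))]
  refine Finset.sum_congr rfl fun A _ => ?_
  have hoff := xb_offE_subset E A
  have e1 : Ex E p (fun ω => ind (cls (ω ∩ E') S = A) * H A (ω \ offE E A) (ω ∩ offE E A)) =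
      Ex E p (fun ω => (fun ω₁ ω₂ => ind (cls (ω₁ ∩ E') S = A) * H A ω₁ ω₂) (ω \ offE E A)
        (ω ∩ offE E A)) := by
    refine Ex_congr _ _ _ _ fun ω _ => ?_
    simp only
    congr 2
    exact propext (mark_iff E E' ω S A)
  have e2 : Ex E p (fun ω => ind (cls (ω ∩ E') S = A) *
        Ex (offE E A) p (fun η => H A (ω \ offE E A) η)) =
      Ex E p (fun ω => (fun ω₁ (_ : Finset (Sym2 V)) => ind (cls (ω₁ ∩ E') S = A) *
        Ex (offE E A) p (fun η => H A ω₁ η)) (ω \ offE E A) (ω ∩ offE E A)) := by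
    refine Ex_congr _ _ _ _ fun ω _ => ?_
    simp only
    congr 2
    exact propext (mark_iff E E' ω S A)
  rw [e1, e2]
  refine (mark_split E _ hoff p (fun ω₁ ω₂ => ind (cls (ω₁ ∩ E') S = A) * H A ω₁ ω₂)).trans
    (Eq.trans ?_ (mark_split E _ hoff p (fun ω₁ _ => ind (cls (ω₁ ∩ E') S = A) *
      Ex (offE E A) p (fun η => H A ω₁ η))).symm)
  refine Ex_congr _ _ _ _ fun ω₁ _ => ?_
  rw [Ex_const, Ex_mul_left]

theorem b_mark_cls (E : Finset (Sym2 V)) (S : Finset V) (p : ℝ)
    (H : Finset V → Finset (Sym2 V) → Finset (Sym2 V) → ℝ) :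
    Ex E p (fun ω => H (cls ω S) (ω \ offE E (cls ω S)) (ω ∩ offE E (cls ω S))) =
    Ex E p (fun ω => Ex (offE E (cls ω S)) p (fun η =>
      H (cls ω S) (ω \ offE E (cls ω S)) η)) := by
  have h := b_mark E E (Subset.refl E) S p H
  have h1 : ∀ ω ⊆ E, ω ∩ E = ω := fun ω hω => inter_eq_left.2 hω
  rw [Ex_congr E p _ (fun ω => H (cls ω S) (ω \ offE E (cls ω S)) (ω ∩ offE E (cls ω S)))
    (fun ω hω => by rw [h1 ω hω])] at h
  rw [h]
  exact Ex_congr E p _ _ (fun ω hω => by rw [h1 ω hω])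

theorem b_mark_cl (E : Finset (Sym2 V)) (x : V) (p : ℝ)
    (H : Finset V → Finset (Sym2 V) → Finset (Sym2 V) → ℝ) :
    Ex E p (fun ω => H (cl ω x) (ω \ offE E (cl ω x)) (ω ∩ offE E (cl ω x))) =
    Ex E p (fun ω => Ex (offE E (cl ω x)) p (fun η =>
      H (cl ω x) (ω \ offE E (cl ω x)) η)) := by
  have h := b_mark_cls E {x} p H
  simp only [cls_singleton] at h
  exact h

end MARK

end Pool.Agent.Work.MP_b7dc8a_pr
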