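import Pool.Agent.Work.MP_b7dc8a_pr.B.PkgDef
import Pool.Agent.Work.MP_b7dc8a_pr.Numu
import Pool.Agent.Work.MP_b7dc8a_pr.Numv

/-! Module PKGA (S): the package for `ε >= 2000 log m / m` from `num_uniq`, `num_var` with `K = m^4`
(`δ = ε`): `1/m^3 <= 1/m`, `vXK >= 2^m / m^4`, and exponentials beat polynomials (see `final_err` in
Final.lean for similar estimates). -/

namespace Pool.Agent.Work.MP_b7dc8a_pr

open Finset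

private theorem pkgA_poly : ∃ m0 : ℕ, ∀ m ≥ m0, (1024 : ℝ) * (m : ℝ) ^ 49 ≤ 2 ^ m := by
  have h := tendsto_pow_const_div_const_pow_of_one_lt 49 (r := (2 : ℝ)) (by norm_num)
  have h1 := h.eventually (gt_mem_nhds (show (0 : ℝ) < 1 / 1024 by norm_num))
  rw [Filter.eventually_atTop] at h1
  obtain ⟨m0, h1⟩ := h1
  refine ⟨m0, fun m hm => ?_⟩
  have h2 := h1 m hm
  rw [div_lt_div_iff₀ (by positivity) (by norm_num)] at h2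
  linarith

theorem b_pkgA : ∃ m0 : ℕ, ∀ m ≥ m0, ∀ δ p : ℝ, 2000 * Real.log m / m ≤ δ → 1 + δ ≤ p * m →
    p * m ≤ 5 / 4 → Pkg m (m ^ 4) p := by
  obtain ⟨m1, h1⟩ := num_uniq
  obtain ⟨m2, h2⟩ := num_var
  obtain ⟨m3, h3⟩ := pkgA_poly
  refine ⟨max (max m1 m2) (max m3 1), fun m hm δ p hδ hp1 hp2 => ?_⟩
  have hm1 : m1 ≤ m := le_trans (le_trans (le_max_left _ _) (le_max_left _ _)) hm
  have hm2 : m2 ≤ m := le_trans (le_trans (le_max_right _ _) (le_max_left _ _)) hm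
  have hm3 : m3 ≤ m := le_trans (le_trans (le_max_left _ _) (le_max_right _ _)) hm
  have hm0 : 1 ≤ m := le_trans (le_trans (le_max_right _ _) (le_max_right _ _)) hm
  have hmR : (1 : ℝ) ≤ m := by exact_mod_cast hm0
  have hmpos : (0 : ℝ) < m := by linarith
  have hu := h1 m hm1 δ p hδ hp1 hp2
  have hv := h2 m hm2 δ p hδ hp1 hp2
  have hpoly := h3 m hm3
  have hvX : 2 ^ m / (m : ℝ) ^ 4 ≤ vXK m (m ^ 4) p := hv
  have h2m : (0 : ℝ) < 2 ^ m := by positivity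
  have hv0 : 0 < 2 ^ m / (m : ℝ) ^ 4 := by positivity
  have hm1' : (m : ℝ) + 1 ≤ 2 * m := by linarith
  refine ⟨?_, ?_, ?_, lt_of_lt_of_le hv0 hvX⟩
  · refine hu.trans ?_
    exact one_div_le_one_div_of_le hmpos (le_self_pow₀ hmR (by norm_num))
  · have ha : (2 ^ m / (m : ℝ) ^ 4) ^ 2 / m ≤ vXK m (m ^ 4) p ^ 2 / m :=
      div_le_div_of_nonneg_right (pow_le_pow_left₀ hv0.le hvX 2) hmpos.le
    refine le_trans ?_ ha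
    have hb : (2 * ((m : ℝ) + 1) * ((m ^ 4 : ℕ) : ℝ) ^ 2) ^ 3 ≤ (4 * (m : ℝ) ^ 9) ^ 3 := by
      refine pow_le_pow_left₀ (by positivity) ?_ 3
      push_cast
      calc 2 * ((m : ℝ) + 1) * ((m : ℝ) ^ 4) ^ 2 ≤ 2 * (2 * m) * ((m : ℝ) ^ 4) ^ 2 := by
            gcongr
        _ = 4 * (m : ℝ) ^ 9 := by ring
    have hc : (2 ^ m / (m : ℝ) ^ 4) ^ 2 / m = 2 ^ m * (2 ^ m / (m : ℝ) ^ 9) := by
      field_simp
    rw [hc]
    have hd : (1024 : ℝ) * (m : ℝ) ^ 27 ≤ 2 ^ m / (m : ℝ) ^ 9 := by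
      rw [le_div_iff₀ (by positivity)]
      calc (1024 : ℝ) * (m : ℝ) ^ 27 * (m : ℝ) ^ 9 = 1024 * (m : ℝ) ^ 36 := by ring
        _ ≤ 1024 * (m : ℝ) ^ 49 := by
            gcongr
            norm_num
        _ ≤ 2 ^ m := hpoly
    calc 8 * (2 * ((m : ℝ) + 1) * ((m ^ 4 : ℕ) : ℝ) ^ 2) ^ 3 * (2 * 2 ^ m)
        ≤ 8 * (4 * (m : ℝ) ^ 9) ^ 3 * (2 * 2 ^ m) := by gcongr
      _ = 2 ^ m * (1024 * (m : ℝ) ^ 27) := by ring
      _ ≤ 2 ^ m * (2 ^ m / (m : ℝ) ^ 9) := by gcongr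
  · have ha : (2 ^ m / (m : ℝ) ^ 4) ^ 3 / m ≤ vXK m (m ^ 4) p ^ 3 / m :=
      div_le_div_of_nonneg_right (pow_le_pow_left₀ hv0.le hvX 3) hmpos.le
    refine le_trans ?_ ha
    have hb : (2 * ((m : ℝ) + 1) * ((m ^ 4 : ℕ) : ℝ) ^ 2) ^ 2 ≤ (4 * (m : ℝ) ^ 9) ^ 2 := by
      refine pow_le_pow_left₀ (by positivity) ?_ 2
      push_cast
      calc 2 * ((m : ℝ) + 1) * ((m : ℝ) ^ 4) ^ 2 ≤ 2 * (2 * m) * ((m : ℝ) ^ 4) ^ 2 := by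
            gcongr
        _ = 4 * (m : ℝ) ^ 9 := by ring
    have hc : (2 ^ m / (m : ℝ) ^ 4) ^ 3 / m = (2 ^ m) ^ 2 * (2 ^ m / (m : ℝ) ^ 13) := by
      field_simp
    rw [hc]
    have hd : (256 : ℝ) * (m : ℝ) ^ 36 ≤ 2 ^ m / (m : ℝ) ^ 13 := by
      rw [le_div_iff₀ (by positivity)]
      calc (256 : ℝ) * (m : ℝ) ^ 36 * (m : ℝ) ^ 13 = 256 * (m : ℝ) ^ 49 := by ring
        _ ≤ 1024 * (m : ℝ) ^ 49 := by
            gcongr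
            norm_num
        _ ≤ 2 ^ m := hpoly
    calc ((2 * ((m : ℝ) + 1) * ((m ^ 4 : ℕ) : ℝ) ^ 2) ^ 2 * 2 ^ m) ^ 2
        ≤ ((4 * (m : ℝ) ^ 9) ^ 2 * 2 ^ m) ^ 2 := by gcongr
      _ = (2 ^ m) ^ 2 * (256 * (m : ℝ) ^ 36) := by ring
      _ ≤ (2 ^ m) ^ 2 * (2 ^ m / (m : ℝ) ^ 13) := by gcongr

end Pool.Agent.Work.MP_b7dc8a_pr
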