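import Pool.Agent.Work.MP_b7dc8a_pr.B.Def

/-! Definitions for the modules PKGA, PKGB, FIN2 (do not change) -/

namespace Pool.Agent.Work.MP_b7dc8a_pr

open Finset

/-- variance of `XK` -/
noncomputable def vXK (m K : ℕ) (p : ℝ) : ℝ :=
  Ex (cubeE m) p (fun ω => (XK K ω : ℝ) ^ 2) - (Ex (cubeE m) p (fun ω => (XK K ω : ℝ))) ^ 2

/-- what is needed for the central limit theorem at `p` -/
def Pkg (m K : ℕ) (p : ℝ) : Prop :=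
  Ex (cubeE m) p (fun ω => ind (¬ (Uniq K ω ∧ ∃ x, K < (cl ω x).card))) ≤ 1 / m ∧
    8 * (2 * ((m : ℝ) + 1) * (K : ℝ) ^ 2) ^ 3 * (2 * 2 ^ m) ≤ vXK m K p ^ 2 / m ∧
    ((2 * ((m : ℝ) + 1) * (K : ℝ) ^ 2) ^ 2 * 2 ^ m) ^ 2 ≤ vXK m K p ^ 3 / m ∧ 0 < vXK m K p

end Pool.Agent.Work.MP_b7dc8a_pr
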