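import Pool.Agent.Work.MP_b7dc8a_pr.B.Obst

/-! Module RECI (M-L): recursion inequality for `v = wt E (sm g)`.

Let `y` be a vertex, `Ey = offE E {y}`, `N` the set of neighbours `z` of `y` in `E` (`z ≠ y` since
`E` has no loops). For `ω ⊆ E` put `ωy = ω ∩ Ey`, `C z = cl ωy z`. Then
`cl ω y = {y} ∪ ⋃_{z ∈ N, s(y,z) ∈ ω} C z` (closedness argument), `y ∉ C z`, and the sets `C z`,
`C z'` are equal (if `z' ∈ C z`) or disjoint. By Bonferroni (a vertex lying in `k >= 1` of the sets
is counted `k - k (k-1)/2 <= 1` times; `g >= 0`)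
`sm g (cl ω y) >= g y + ∑_{z ∈ N} ind (s(y,z) ∈ ω) sm g (C z)
   - (1/2) ∑_{z ≠ z' ∈ N} ind (s(y,z) ∈ ω) ind (s(y,z') ∈ ω) sm g (C z) ind (z' ∈ C z)`.
Take expectations; the edges `s(y,z)` are independent of `ωy` (`Ex_mul_indep`, or `Ex_union` with
`E = Ey ∪ (E \ Ey)`):
`wt E (sm g) y >= g y + p ∑_z wt Ey (sm g) z
    - (p^2/2) ∑_{z ≠ z'} Ex Ey [sm g (C z) ind (z' ∈ C z)]`.
By `b_obst` with `D = {y}`: `wt Ey (sm g) z >= wt E (sm g) z - tau E z y * wt E (sm g) y`. By
`b_pair` for `Ey` and `wt Ey (sm g) d <= wt E (sm g) d` the last expectation is at most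
`∑_d tau Ey z d * tau Ey z' d * wt E (sm g) d`. (`sm g` is monotone, subadditive, nonnegative.) -/

namespace Pool.Agent.Work.MP_b7dc8a_pr

open Finset

section RECI
variable {V : Type} [Fintype V] [DecidableEq V]

omit [Fintype V] in
private theorem reci_ex_one {α : Type} [DecidableEq α] (E : Finset α) (p : ℝ) (e : α)
    (he : e ∈ E) : Ex E p (fun ω => ind (e ∈ ω)) = p := by
  have h1 : Ex E p (fun ω => (fun η : Finset α => ind (e ∈ η)) (ω ∩ {e})) =
      Ex {e} p (fun η => ind (e ∈ η)) :=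
    Ex_restrict E {e} (by simpa using he) p (fun η => ind (e ∈ η))
  have h2 : Ex E p (fun ω => ind (e ∈ ω)) =
      Ex E p (fun ω => (fun η : Finset α => ind (e ∈ η)) (ω ∩ {e})) := by
    refine Ex_congr E p _ _ (fun ω _ => ?_)
    have h3 : e ∈ ω ∩ {e} ↔ e ∈ ω := by simp
    simp only [h3]
  rw [h2, h1]
  have h4 : ({e} : Finset α) = insert e ∅ := by simp
  rw [h4, Ex_insert e ∅ (by simp), Ex_empty, Ex_empty]
  unfold ind
  simp

private theorem reci_indep1 {α : Type} [DecidableEq α] (E E' : Finset α) (hE : E' ⊆ E) (p : ℝ)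
    (e : α) (he : e ∈ E) (he' : e ∉ E') (F : Finset α → ℝ) :
    Ex E p (fun ω => ind (e ∈ ω) * F (ω ∩ E')) = p * Ex E' p F := by
  have h := Ex_mul_indep E {e} E' (by simpa using he') p (fun ω => ind (e ∈ ω))
    (fun ω => F (ω ∩ E')) (fun ω _ => by
      have h3 : e ∈ ω ∩ {e} ↔ e ∈ ω := by simp
      simp only [h3]) (fun ω _ => by
      simp only [Finset.inter_assoc, Finset.inter_self])
  rw [h, reci_ex_one E p e he, Ex_restrict E E' hE p F]

private theorem reci_indep2 {α : Type} [DecidableEq α] (E E' : Finset α) (hE : E' ⊆ E) (p : ℝ)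
    (e f : α) (he : e ∈ E) (he' : e ∉ E') (hf : f ∈ E) (hf' : f ∉ E') (hef : e ≠ f)
    (F : Finset α → ℝ) :
    Ex E p (fun ω => ind (e ∈ ω) * ind (f ∈ ω) * F (ω ∩ E')) = p ^ 2 * Ex E' p F := by
  have h := Ex_mul_indep E {e} (insert f E') (by simp [hef, he']) p
    (fun ω => ind (e ∈ ω))
    (fun ω => ind (f ∈ ω) * F (ω ∩ E')) (fun ω _ => by
      have h3 : e ∈ ω ∩ {e} ↔ e ∈ ω := by simp
      simp only [h3]) (fun ω _ => by
      have h3 : f ∈ ω ∩ insert f E' ↔ f ∈ ω := by simp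
      have h4 : ω ∩ insert f E' ∩ E' = ω ∩ E' := by
        ext x
        simp only [Finset.mem_inter, Finset.mem_insert]
        tauto
      simp only [h3, h4])
  have h5 : (fun ω : Finset α => ind (e ∈ ω) * ind (f ∈ ω) * F (ω ∩ E')) =
      fun ω => ind (e ∈ ω) * (ind (f ∈ ω) * F (ω ∩ E')) := by
    funext ω
    ring
  rw [h5, h, reci_ex_one E p e he, reci_indep1 E E' hE p f hf hf' F]
  ring

omit [Fintype V] [DecidableEq V] in
/-- Bonferroni for one point -/
private theorem reci_bonf (M : Finset V) [DecidableEq V] (a : V → ℝ)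
    (ha : ∀ z ∈ M, a z = 0 ∨ a z = 1) (c : ℝ) (hc0 : 0 ≤ c) (hc : ∀ z ∈ M, a z ≤ c) :
    ∑ z ∈ M, a z - 1 / 2 * ∑ z ∈ M, ∑ z' ∈ M, (if z' = z then 0 else a z * a z') ≤ c := by
  have h1 : ∀ z ∈ M, ∑ z' ∈ M, (if z' = z then 0 else a z * a z') =
      a z * (∑ z' ∈ M, a z') - a z := by
    intro z hz
    have h2 : ∑ z' ∈ M, (if z' = z then 0 else a z * a z') =
        ∑ z' ∈ M, (a z * a z' - (if z' = z then a z * a z' else 0)) := by
      refine Finset.sum_congr rfl (fun z' _ => ?_)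
      split_ifs <;> ring
    rw [h2, Finset.sum_sub_distrib, ← Finset.mul_sum, Finset.sum_ite_eq' M z, if_pos hz]
    rcases ha z hz with h | h <;> rw [h] <;> ring
  rw [Finset.sum_congr rfl h1, Finset.sum_sub_distrib, ← Finset.sum_mul]
  set k := ∑ z ∈ M, a z with hk
  -- `k` is a natural number
  obtain ⟨n, hn⟩ : ∃ n : ℕ, k = n := by
    refine ⟨(M.filter (fun z => a z = 1)).card, ?_⟩
    rw [hk, Finset.natCast_card_filter]
    refine Finset.sum_congr rfl (fun z hz => ?_)
    rcases ha z hz with h | h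
    · rw [h]; norm_num
    · rw [h]; norm_num
  rcases Nat.eq_zero_or_pos n with h0 | h0
  · rw [hn, h0]
    simpa using hc0
  · have hc1 : 1 ≤ c := by
      by_contra hlt
      push Not at hlt
      have h3 : ∀ z ∈ M, a z = 0 := by
        intro z hz
        rcases ha z hz with h | h
        · exact h
        · have := hc z hz
          rw [h] at this
          linarith
      have h4 : k = 0 := by rw [hk]; exact Finset.sum_eq_zero h3
      rw [hn] at h4
      have : n = 0 := by exact_mod_cast h4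
      omega
    have h5 : k - 1 / 2 * (k * k - k) ≤ 1 := by
      rw [hn]
      have h6 : (1 : ℝ) ≤ n := by exact_mod_cast h0
      rcases Nat.lt_or_ge n 2 with h7 | h7
      · have : n = 1 := by omega
        rw [this]
        norm_num
      · have h8 : (2 : ℝ) ≤ n := by exact_mod_cast h7
        nlinarith
    linarith

/-- the pointwise inequality -/
private theorem reci_point (E : Finset (Sym2 V)) (hE : ∀ e ∈ E, ¬ e.IsDiag) (g : V → ℝ)
    (hg : ∀ z, 0 ≤ g z) (y : V) (N : Finset V) (hN : ∀ z, z ∈ N ↔ s(y, z) ∈ E)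
    (ω : Finset (Sym2 V)) (hω : ω ⊆ E) :
    g y + ∑ z ∈ N, ind (s(y, z) ∈ ω) * sm g (cl (ω ∩ offE E {y}) z) -
      1 / 2 * ∑ z ∈ N, ∑ z' ∈ N, (if z' = z then 0 else
        ind (s(y, z) ∈ ω) * ind (s(y, z') ∈ ω) * (sm g (cl (ω ∩ offE E {y}) z) *
          ind (z' ∈ cl (ω ∩ offE E {y}) z))) ≤ sm g (cl ω y) := by
  classical
  set C : V → Finset V := fun z => cl (ω ∩ offE E {y}) z with hC
  set M : Finset V := N.filter (fun z => s(y, z) ∈ ω) with hM
  have hne : ∀ z ∈ N, z ≠ y := by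
    intro z hz he
    have h1 := hE _ ((hN z).mp hz)
    rw [he] at h1
    exact h1 (by simp)
  have hyC : ∀ z ∈ N, y ∉ C z := by
    intro z hz hy
    have h1 := xb_cl_off' E (ω ∩ offE E {y}) {y} Finset.inter_subset_right z
      (by simpa using hne z hz)
    exact Finset.disjoint_left.mp h1 hy (by simp)
  have hs1 : ∑ z ∈ N, ind (s(y, z) ∈ ω) * sm g (C z) = ∑ z ∈ M, sm g (C z) := by
    rw [hM, Finset.sum_filter]
    refine Finset.sum_congr rfl (fun z _ => ?_)
    unfold ind
    split_ifs <;> simp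
  have hs2 : ∑ z ∈ N, ∑ z' ∈ N, (if z' = z then 0 else
        ind (s(y, z) ∈ ω) * ind (s(y, z') ∈ ω) * (sm g (C z) * ind (z' ∈ C z))) =
      ∑ z ∈ M, ∑ z' ∈ M, (if z' = z then 0 else sm g (C z) * ind (z' ∈ C z)) := by
    rw [hM, Finset.sum_filter]
    refine Finset.sum_congr rfl (fun z _ => ?_)
    by_cases hz : s(y, z) ∈ ω
    · rw [if_pos hz, Finset.sum_filter]
      refine Finset.sum_congr rfl (fun z' _ => ?_)
      have h1 : ind (s(y, z) ∈ ω) = 1 := by unfold ind; rw [if_pos hz]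
      by_cases hz' : s(y, z') ∈ ω
      · have h2 : ind (s(y, z') ∈ ω) = 1 := by unfold ind; rw [if_pos hz']
        rw [if_pos hz', h1, h2]
        split_ifs <;> ring
      · have h2 : ind (s(y, z') ∈ ω) = 0 := by unfold ind; rw [if_neg hz']
        rw [if_neg hz', h2]
        split_ifs <;> ring
    · rw [if_neg hz]
      have h1 : ind (s(y, z) ∈ ω) = 0 := by unfold ind; rw [if_neg hz]
      refine Finset.sum_eq_zero (fun z' _ => ?_)
      rw [h1]
      split_ifs <;> ring
  have hgoal : g y + ∑ z ∈ M, sm g (C z) - 1 / 2 * ∑ z ∈ M, ∑ z' ∈ M,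
      (if z' = z then 0 else sm g (C z) * ind (z' ∈ C z)) ≤ sm g (cl ω y) := by
    set U : Finset V := M.biUnion C with hU
    have hyU : y ∉ U := by
      rw [hU, Finset.mem_biUnion]
      rintro ⟨z, hz, hyz⟩
      exact hyC z (Finset.mem_filter.mp hz).1 hyz
    have hsub : insert y U ⊆ cl ω y := by
      intro u hu
      rcases Finset.mem_insert.mp hu with rfl | hu
      · exact mem_cl_self _ _
      · obtain ⟨z, hz, huz⟩ := Finset.mem_biUnion.mp hu
        have h1 : z ∈ cl ω y := cl_closed ω y y z (mem_cl_self _ _) (Finset.mem_filter.mp hz).2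
        have h2 : u ∈ cl ω z := cl_mono _ _ Finset.inter_subset_left z huz
        rw [cl_eq_of_mem ω y z h1] at h2
        exact h2
    have h3 : g y + sm g U ≤ sm g (cl ω y) := by
      have h4 := xb_sm_mono g hg _ _ hsub
      have h5 : sm g (insert y U) = g y + sm g U := by
        unfold sm
        rw [Finset.sum_insert hyU]
      linarith
    -- sums over all vertices
    have hsm : ∀ A : Finset V, sm g A = ∑ u, g u * ind (u ∈ A) := by
      intro A
      unfold sm
      rw [← Finset.sum_subset (Finset.subset_univ A)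
        (fun u _ hu => by unfold ind; rw [if_neg hu, mul_zero])]
      refine Finset.sum_congr rfl (fun u hu => ?_)
      unfold ind
      rw [if_pos hu, mul_one]
    have h6 : ∑ z ∈ M, sm g (C z) - 1 / 2 * ∑ z ∈ M, ∑ z' ∈ M,
        (if z' = z then 0 else sm g (C z) * ind (z' ∈ C z)) =
        ∑ u, g u * (∑ z ∈ M, ind (u ∈ C z) - 1 / 2 * ∑ z ∈ M, ∑ z' ∈ M,
          (if z' = z then 0 else ind (u ∈ C z) * ind (u ∈ C z'))) := by
      have e1 : ∑ z ∈ M, sm g (C z) = ∑ u, g u * ∑ z ∈ M, ind (u ∈ C z) := by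
        rw [Finset.sum_congr rfl (fun z _ => hsm (C z)), Finset.sum_comm]
        exact Finset.sum_congr rfl (fun u _ => by rw [Finset.mul_sum])
      have e2 : ∑ z ∈ M, ∑ z' ∈ M, (if z' = z then 0 else sm g (C z) * ind (z' ∈ C z)) =
          ∑ u, g u * ∑ z ∈ M, ∑ z' ∈ M,
            (if z' = z then 0 else ind (u ∈ C z) * ind (u ∈ C z')) := by
        have e3 : ∀ z z', (if z' = z then 0 else sm g (C z) * ind (z' ∈ C z)) =
            ∑ u, g u * (if z' = z then 0 else ind (u ∈ C z) * ind (u ∈ C z')) := by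
          intro z z'
          by_cases hzz : z' = z
          · simp [hzz]
          · simp only [if_neg hzz]
            rw [hsm (C z), Finset.sum_mul]
            refine Finset.sum_congr rfl (fun u _ => ?_)
            rw [mul_assoc]
            congr 1
            by_cases hu : u ∈ C z
            · have h7 : z' ∈ C z ↔ u ∈ C z' := by
                constructor
                · intro h8
                  have h9 : C z' = C z := cl_eq_of_mem _ z z' h8
                  rw [h9]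
                  exact hu
                · intro h8
                  have h9 : C u = C z := cl_eq_of_mem _ z u hu
                  have h10 : C u = C z' := cl_eq_of_mem _ z' u h8
                  rw [← h9, h10]
                  exact mem_cl_self _ z'
              simp only [h7]
            · have h11 : ind (u ∈ C z) = 0 := by unfold ind; rw [if_neg hu]
              rw [h11, zero_mul, zero_mul]
        rw [Finset.sum_congr rfl (fun z _ => Finset.sum_congr rfl (fun z' _ => e3 z z'))]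
        rw [Finset.sum_congr rfl (fun z _ => Finset.sum_comm), Finset.sum_comm]
        refine Finset.sum_congr rfl (fun u _ => ?_)
        rw [Finset.mul_sum]
        refine Finset.sum_congr rfl (fun z _ => ?_)
        rw [Finset.mul_sum]
      rw [e1, e2, Finset.mul_sum, ← Finset.sum_sub_distrib]
      refine Finset.sum_congr rfl (fun u _ => ?_)
      ring
    have h12 : ∑ u, g u * (∑ z ∈ M, ind (u ∈ C z) - 1 / 2 * ∑ z ∈ M, ∑ z' ∈ M,
          (if z' = z then 0 else ind (u ∈ C z) * ind (u ∈ C z'))) ≤ sm g U := by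
      rw [hsm U]
      refine Finset.sum_le_sum (fun u _ => mul_le_mul_of_nonneg_left ?_ (hg u))
      refine reci_bonf M (fun z => ind (u ∈ C z)) (fun z _ => ?_) _ (xb_ind_nonneg _)
        (fun z hz => xb_ind_mono (fun h => ?_))
      · unfold ind
        split_ifs
        · exact Or.inr rfl
        · exact Or.inl rfl
      · rw [hU, Finset.mem_biUnion]
        exact ⟨z, hz, h⟩
    linarith
  have hs1' : ∑ z ∈ N, ind (s(y, z) ∈ ω) * sm g (cl (ω ∩ offE E {y}) z) =
    ∑ z ∈ M, sm g (C z) := hs1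
  have hs2' : ∑ z ∈ N, ∑ z' ∈ N, (if z' = z then 0 else
        ind (s(y, z) ∈ ω) * ind (s(y, z') ∈ ω) * (sm g (cl (ω ∩ offE E {y}) z) *
          ind (z' ∈ cl (ω ∩ offE E {y}) z))) =
      ∑ z ∈ M, ∑ z' ∈ M, (if z' = z then 0 else sm g (C z) * ind (z' ∈ C z)) := hs2
  rw [hs1', hs2']
  exact hgoal

theorem b_reci (E : Finset (Sym2 V)) (hE : ∀ e ∈ E, ¬ e.IsDiag) (p : ℝ) (h0 : 0 ≤ p)
    (h1 : p ≤ 1) (g : V → ℝ) (hg : ∀ z, 0 ≤ g z) (y : V) :
    g y + p * nb E (fun z => wt E p (sm g) z - tau E p z y * wt E p (sm g) y) y -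
      p ^ 2 / 2 * nb E (fun z => nb E (fun z' => if z' = z then 0 else
        ∑ d, tau (offE E {y}) p z d * tau (offE E {y}) p z' d * wt E p (sm g) d) y) y ≤
      wt E p (sm g) y := by
  classical
  set Ey := offE E {y} with hEy
  have hEyE : Ey ⊆ E := xb_offE_subset E {y}
  obtain ⟨N, hNnb, hN⟩ : ∃ N : Finset V, (∀ f : V → ℝ, nb E f y = ∑ z ∈ N, f z) ∧
      ∀ z, z ∈ N ↔ s(y, z) ∈ E := by
    refine ⟨univ.filter (fun z => s(y, z) ∈ E), fun f => ?_, fun z => by simp⟩
    unfold nb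
    rw [Finset.sum_filter, Finset.sum_filter]
    refine Finset.sum_congr rfl (fun z _ => ?_)
    by_cases h : s(y, z) ∈ E
    · rw [if_pos h, if_pos h]
    · rw [if_neg h, if_neg h]
  have hne : ∀ z ∈ N, z ≠ y := by
    intro z hz he
    have h1 := hE _ ((hN z).mp hz)
    rw [he] at h1
    exact h1 (by simp)
  have hnot : ∀ z, s(y, z) ∉ Ey := by
    intro z hz
    have := ((xb_mem_offE E {y} y z).mp hz).2.1
    simp at this
  have hmono := xb_sm_mono g hg
  have hsub := xb_sm_subadd g hg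
  have hnn : ∀ A : Finset V, 0 ≤ sm g A := fun A => Finset.sum_nonneg (fun z _ => hg z)
  set W : V → ℝ := fun z => wt E p (sm g) z with hW
  -- expectation of the pointwise inequality
  have hexp := Ex_mono E p h0 h1 _ _ (fun ω hω => reci_point E hE g hg y N hN ω hω)
  rw [Ex_sub, Ex_add, Ex_const, Ex_sum, Ex_mul_left, Ex_sum] at hexp
  have hA : ∀ z ∈ N, Ex E p (fun ω => ind (s(y, z) ∈ ω) * sm g (cl (ω ∩ Ey) z)) =
      p * wt Ey p (sm g) z := fun z hz =>
    reci_indep1 E Ey hEyE p s(y, z) ((hN z).mp hz) (hnot z) (fun ω => sm g (cl ω z))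
  have hB : ∀ z ∈ N, Ex E p (fun ω => ∑ z' ∈ N, (if z' = z then 0 else
        ind (s(y, z) ∈ ω) * ind (s(y, z') ∈ ω) * (sm g (cl (ω ∩ Ey) z) *
          ind (z' ∈ cl (ω ∩ Ey) z)))) ≤
      p ^ 2 * ∑ z' ∈ N, (if z' = z then 0 else
        ∑ d, tau Ey p z d * tau Ey p z' d * wt E p (sm g) d) := by
    intro z hz
    rw [Ex_sum, Finset.mul_sum]
    refine Finset.sum_le_sum (fun z' hz' => ?_)
    by_cases hzz : z' = z
    · simp only [if_pos hzz]
      rw [Ex_const, mul_zero]
    · simp only [if_neg hzz]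
      have hef : s(y, z) ≠ s(y, z') := by
        intro h
        rw [Sym2.eq_iff] at h
        rcases h with ⟨_, h⟩ | ⟨h3, h4⟩
        · exact hzz h.symm
        · exact hzz (h3.symm.trans h4.symm)
      have h2 := reci_indep2 E Ey hEyE p s(y, z) s(y, z') ((hN z).mp hz) (hnot z)
        ((hN z').mp hz') (hnot z') hef (fun ω => sm g (cl ω z) * ind (z' ∈ cl ω z))
      have h3 : Ex E p (fun ω => ind (s(y, z) ∈ ω) * ind (s(y, z') ∈ ω) *
          (sm g (cl (ω ∩ Ey) z) * ind (z' ∈ cl (ω ∩ Ey) z))) =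
          p ^ 2 * Ex Ey p (fun ω => sm g (cl ω z) * ind (z' ∈ cl ω z)) := h2
      rw [h3]
      refine mul_le_mul_of_nonneg_left ?_ (sq_nonneg p)
      refine (b_pair Ey p h0 h1 (sm g) hmono hsub hnn z z').trans ?_
      refine Finset.sum_le_sum (fun d _ => ?_)
      exact mul_le_mul_of_nonneg_left (xb_wt_mono_E E Ey hEyE p h0 h1 (sm g) hmono d)
        (mul_nonneg (xb_tau_nonneg Ey p h0 h1 z d) (xb_tau_nonneg Ey p h0 h1 z' d))
  have hobst : ∀ z ∈ N, wt E p (sm g) z - tau E p z y * wt E p (sm g) y ≤ wt Ey p (sm g) z := by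
    intro z hz
    have h2 := b_obst E p h0 h1 (sm g) hmono hsub hnn {y} z (by simpa using hne z hz)
    rw [Finset.sum_singleton] at h2
    linarith
  rw [hNnb, hNnb]
  have hR1 : p * ∑ z ∈ N, (wt E p (sm g) z - tau E p z y * wt E p (sm g) y) ≤
      ∑ z ∈ N, Ex E p (fun ω => ind (s(y, z) ∈ ω) * sm g (cl (ω ∩ Ey) z)) := by
    rw [Finset.mul_sum]
    refine Finset.sum_le_sum (fun z hz => ?_)
    rw [hA z hz]
    exact mul_le_mul_of_nonneg_left (hobst z hz) h0
  have hR2 : ∑ z ∈ N, Ex E p (fun ω => ∑ z' ∈ N, (if z' = z then 0 else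
        ind (s(y, z) ∈ ω) * ind (s(y, z') ∈ ω) * (sm g (cl (ω ∩ Ey) z) *
          ind (z' ∈ cl (ω ∩ Ey) z)))) ≤
      p ^ 2 * ∑ z ∈ N, nb E (fun z' => if z' = z then 0 else
        ∑ d, tau Ey p z d * tau Ey p z' d * wt E p (sm g) d) y := by
    rw [Finset.mul_sum]
    refine Finset.sum_le_sum (fun z hz => ?_)
    rw [hNnb]
    exact hB z hz
  have hexp' : g y + ∑ z ∈ N, Ex E p (fun ω => ind (s(y, z) ∈ ω) * sm g (cl (ω ∩ Ey) z)) -
      1 / 2 * ∑ z ∈ N, Ex E p (fun ω => ∑ z' ∈ N, (if z' = z then 0 else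
        ind (s(y, z) ∈ ω) * ind (s(y, z') ∈ ω) * (sm g (cl (ω ∩ Ey) z) *
          ind (z' ∈ cl (ω ∩ Ey) z)))) ≤ wt E p (sm g) y := hexp
  linarith

end RECI

end Pool.Agent.Work.MP_b7dc8a_pr
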