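import Pool.Agent.Work.MP_b7dc8a_pr.B.Xn

/-! Module SNUM (M, real analysis): numerical bound for the kernel.

Write `k = j + 1 >= 2`, `T = TT m`. `p^k MM m k = (p m)^k min (3 (1+1/m)^k / m^2) (2 ((1+exp(-2k/m))/2)^m)`
and `∑_{i < k} R^(i+1) <= k R^k`; exchanging the sums, the left side is at most
`∑_{k=2}^{T} k (R p m)^k min (..) (..)`, with `R p m <= (1+5000 dl)(1+12000 dl) <= exp (17000 dl)`.
* `2 <= k <= 6 log m`: `(R p m)^k <= exp (17000*6*log^2 m / m) <= 2` for large `m`, and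
  `(1+1/m)^k <= 2`: total `<= 6 log m * 6 log m * 2 * 6 / m^2 <= 1/(4m)` for large `m`.
* `6 log m < k <= m/2`: `(1+exp(-2k/m))/2 <= 1 - k/m + k^2/m^2` (`exp(-x) <= 1 - x + x^2/2`), so
  its `m`-th power is `<= exp (-k + k^2/m) <= exp (-k/2)`; `(R p m)^k <= exp (17000 k log m / m)
  <= exp (k/12)` for large `m`; so the terms are `<= 2 k exp (-5k/12)`, and as `k > 6 log m`:
  `exp (-5k/12) = exp (-k/3) exp (-k/12) <= m^(-2) exp (-k/12)`,
  `∑ 2 k exp (-k/12) <= C` constant: total `<= C / m^2 <= 1/(4m)`.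
* `m/2 < k <= T`: `((1+exp(-1))/2)^m <= (7/10)^m`, `(R p m)^k <= exp (17000 dl T) <= LL 34000 m`:
  total `<= T^2 * 2 * LL 34000 m * (7/10)^m <= 1/(4m)` for large `m` (`xn_exp`, `xn_poly`).
(The exact way of splitting is free; only `∃ m0` is asked.) -/

namespace Pool.Agent.Work.MP_b7dc8a_pr

open Finset

private theorem sn_log2 (c η : ℝ) (hη : 0 < η) : ∃ m0 : ℕ, ∀ m ≥ m0,
    c * (Real.log m ^ 2 / m) ≤ η := by
  have h : Filter.Tendsto (fun x : ℝ => Real.log x ^ 2 / x) Filter.atTop (nhds 0) := by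
    have := (Real.isLittleO_pow_log_id_atTop (n := 2)).tendsto_div_nhds_zero
    simpa using this
  have h2 := (h.comp tendsto_natCast_atTop_atTop).const_mul c
  simp only [mul_zero] at h2
  have h3 := h2.eventually (gt_mem_nhds hη)
  obtain ⟨m0, hm0⟩ := Filter.eventually_atTop.1 h3
  exact ⟨m0, fun m hm => (hm0 m hm).le⟩

private theorem sn_swap (T : ℕ) (a : ℕ → ℝ) (ha : ∀ j, 0 ≤ a j) (R : ℝ) (hR : 1 ≤ R) :
    ∑ i ∈ range T, (∑ j ∈ Ico (max i 1) T, a j) * R ^ (i + 1) ≤
      ∑ j ∈ Ico 1 T, ((j : ℝ) + 1) * R ^ (j + 1) * a j := by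
  simp_rw [Finset.sum_mul]
  rw [Finset.sum_comm' (t' := Ico 1 T) (s' := fun j => range (j + 1))]
  · refine Finset.sum_le_sum fun j hj => ?_
    rw [← Finset.mul_sum, mul_comm]
    refine mul_le_mul_of_nonneg_right ?_ (ha j)
    calc ∑ i ∈ range (j + 1), R ^ (i + 1) ≤ ∑ i ∈ range (j + 1), R ^ (j + 1) := by
          refine Finset.sum_le_sum fun i hi => ?_
          exact pow_le_pow_right₀ hR (by have := Finset.mem_range.1 hi; omega)
      _ = _ := by
          rw [Finset.sum_const, Finset.card_range, nsmul_eq_mul]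
          push_cast
          ring
  · intro i j
    simp only [Finset.mem_range, Finset.mem_Ico]
    omega

private theorem sn_x (x : ℝ) (h0 : 0 ≤ x) (h1 : x ≤ 1 / 2) :
    (1 + Real.exp (-(2 * x))) / 2 ≤ Real.exp (-(x / 2)) := by
  have h2 : Real.exp (-(2 * x)) ≤ 1 - 2 * x + 2 * x ^ 2 := by
    have h3 := Real.add_one_le_exp (2 * x)
    have h4 := Real.quadratic_le_exp_of_nonneg (show 0 ≤ 2 * x by linarith)
    rw [Real.exp_neg]
    have h5 := Real.exp_pos (2 * x)
    rw [inv_le_iff_one_le_mul₀ h5]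
    have h6 : 0 ≤ 1 - 2 * x + 2 * x ^ 2 := by nlinarith [sq_nonneg (1 - 2 * x)]
    have h7 : (1 - 2 * x + 2 * x ^ 2) * (1 + 2 * x + (2 * x) ^ 2 / 2) = 1 + 4 * x ^ 4 := by ring
    have h8 : 0 ≤ x ^ 4 := by positivity
    nlinarith [mul_le_mul_of_nonneg_left h4 h6]
  have h9 := Real.add_one_le_exp (-(x / 2))
  nlinarith

/-- the large `m` conditions and the bound for one term -/
private theorem sn_term (m : ℕ) (hm : 3 ≤ m) (hA : 17000 * dl m ≤ 1 / 12)
    (hB : 300000 * (Real.log m ^ 2 / m) ≤ 1 / 2)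
    (hC : 2 * (m : ℝ) ^ 6 * LL 34000 m ≤ (10 / 7 : ℝ) ^ m)
    (p R : ℝ) (hp0 : 0 ≤ p) (hp : p * m ≤ 1 + 5000 * dl m) (hR1 : 1 ≤ R)
    (hR : R ≤ 1 + 12000 * dl m) (k : ℕ) (hk : k ≤ TT m) :
    (k : ℝ) * R ^ k * (p ^ k * MM m k) ≤
      (if (k : ℝ) ≤ 12 * Real.log m then 72 * Real.log m / (m : ℝ) ^ 2 else 0) +
        1 / (m : ℝ) ^ 4 := by
  have hm3 : (3 : ℝ) ≤ m := by exact_mod_cast hm
  have hm0 : (0 : ℝ) < m := by linarith
  have hlog := xn_log m hm
  have hdl := xn_dl_nonneg m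
  have hdlm : dl m * m = Real.log m := by
    unfold dl
    field_simp
  set q := R * (p * m) with hq
  have hq0 : 0 ≤ q := by positivity
  have hq1 : q ≤ (1 + 12000 * dl m) * (1 + 5000 * dl m) := by
    rw [hq]
    exact mul_le_mul hR hp (by positivity) (by positivity)
  have hqe : q ≤ Real.exp (17000 * dl m) := by
    refine hq1.trans ?_
    have h1 := Real.add_one_le_exp (12000 * dl m)
    have h2 := Real.add_one_le_exp (5000 * dl m)
    have h3 : Real.exp (17000 * dl m) = Real.exp (12000 * dl m) * Real.exp (5000 * dl m) := by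
      rw [← Real.exp_add]; ring_nf
    rw [h3]
    exact mul_le_mul (by linarith) (by linarith) (by positivity) (Real.exp_pos _).le
  have hqk : ∀ k : ℕ, q ^ k ≤ Real.exp (17000 * dl m * k) := by
    intro k
    refine (pow_le_pow_left₀ hq0 hqe k).trans (le_of_eq ?_)
    rw [← Real.exp_nat_mul]
    ring_nf
  have hid : ∀ c : ℝ, (k : ℝ) * R ^ k * (p ^ k * (c * (m : ℝ) ^ k)) = k * c * q ^ k := by
    intro c
    rw [hq, mul_pow, mul_pow]
    ring
  have hk0 : (0 : ℝ) ≤ k := Nat.cast_nonneg k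
  have hpre : 0 ≤ (k : ℝ) * R ^ k := by positivity
  have hpk : 0 ≤ p ^ k := by positivity
  split_ifs with hcase
  · -- small k
    have h1 : MM m k ≤ 3 * (1 + 1 / (m : ℝ)) ^ k / (m : ℝ) ^ 2 * (m : ℝ) ^ k := by
      unfold MM
      refine (min_le_left _ _).trans (le_of_eq ?_)
      ring
    have h2 : (1 + 1 / (m : ℝ)) ^ k ≤ Real.exp (k / m) := by
      have h3 := Real.add_one_le_exp (1 / (m : ℝ))
      refine (pow_le_pow_left₀ (by positivity) (show 1 + 1 / (m : ℝ) ≤ Real.exp (1 / m) by linarith)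
        k).trans (le_of_eq ?_)
      rw [← Real.exp_nat_mul]
      ring_nf
    have h4 : Real.exp (k / m) * Real.exp (17000 * dl m * k) ≤ 2 := by
      rw [← Real.exp_add]
      have h5 : (k : ℝ) / m + 17000 * dl m * k ≤ 1 / 2 := by
        have h6 : (k : ℝ) / m ≤ 12 * (Real.log m ^ 2 / m) := by
          rw [div_le_iff₀ hm0]
          have : 12 * (Real.log m ^ 2 / m) * m = 12 * Real.log m ^ 2 := by field_simp
          rw [this]
          nlinarith
        have h7 : dl m * k ≤ 12 * (Real.log m ^ 2 / m) := by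
          have h8 : dl m * k ≤ dl m * (12 * Real.log m) := mul_le_mul_of_nonneg_left hcase hdl
          have h9 : dl m * (12 * Real.log m) = 12 * (Real.log m ^ 2 / m) := by
            unfold dl; ring
          linarith
        have h10 : 0 ≤ Real.log m ^ 2 / m := by positivity
        nlinarith
      calc Real.exp ((k : ℝ) / m + 17000 * dl m * k) ≤ Real.exp (Real.log 2) := by
            apply Real.exp_le_exp.2
            have := Real.log_two_gt_d9
            linarith
        _ = 2 := Real.exp_log (by norm_num)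
    have h11 : (k : ℝ) * R ^ k * (p ^ k * MM m k) ≤ 72 * Real.log m / (m : ℝ) ^ 2 := by
      calc (k : ℝ) * R ^ k * (p ^ k * MM m k)
          ≤ (k : ℝ) * R ^ k * (p ^ k * (3 * (1 + 1 / (m : ℝ)) ^ k / (m : ℝ) ^ 2 * (m : ℝ) ^ k)) :=
            mul_le_mul_of_nonneg_left (mul_le_mul_of_nonneg_left h1 hpk) hpre
        _ = k * 3 / (m : ℝ) ^ 2 * ((1 + 1 / (m : ℝ)) ^ k * q ^ k) := by
            rw [hid]; ring
        _ ≤ k * 3 / (m : ℝ) ^ 2 * 2 := by
            apply mul_le_mul_of_nonneg_left _ (by positivity)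
            exact (mul_le_mul h2 (hqk k) (by positivity) (Real.exp_pos _).le).trans h4
        _ ≤ (12 * Real.log m) * 3 / (m : ℝ) ^ 2 * 2 := by gcongr
        _ = _ := by ring
    have h12 : (0 : ℝ) ≤ 1 / (m : ℝ) ^ 4 := by positivity
    linarith
  · push Not at hcase
    rw [zero_add]
    have h1 : MM m k ≤ 2 * ((1 + Real.exp (-(2 * k / m))) / 2) ^ m * (m : ℝ) ^ k := by
      unfold MM
      refine (min_le_right _ _).trans (le_of_eq ?_)
      ring
    have h2 : (k : ℝ) * R ^ k * (p ^ k * MM m k) ≤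
        k * (2 * ((1 + Real.exp (-(2 * k / m))) / 2) ^ m) * q ^ k := by
      rw [← hid]
      exact mul_le_mul_of_nonneg_left (mul_le_mul_of_nonneg_left h1 hpk) hpre
    refine h2.trans ?_
    rcases le_or_gt ((k : ℝ) / m) (1 / 2) with hkm | hkm
    · -- middle k
      have h3 := sn_x ((k : ℝ) / m) (by positivity) hkm
      have h4 : (-(2 * ((k : ℝ) / m))) = -(2 * k / m) := by ring
      rw [h4] at h3
      have h5 : ((1 + Real.exp (-(2 * k / m))) / 2) ^ m ≤ Real.exp (-(k / 2)) := by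
        have h6 := Real.exp_pos (-(2 * (k : ℝ) / m))
        refine (pow_le_pow_left₀ (by positivity) h3 m).trans (le_of_eq ?_)
        rw [← Real.exp_nat_mul]
        congr 1
        field_simp
      have h7 : ((1 + Real.exp (-(2 * k / m))) / 2) ^ m * q ^ k ≤ Real.exp (-(5 * k / 12)) := by
        refine (mul_le_mul h5 (hqk k) (by positivity) (Real.exp_pos _).le).trans ?_
        rw [← Real.exp_add]
        apply Real.exp_le_exp.2
        nlinarith
      have h8 : Real.exp (-(5 * k / 12)) ≤ Real.exp (-(5 * Real.log m)) := by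
        apply Real.exp_le_exp.2
        linarith
      have h9 : Real.exp (-(5 * Real.log m)) = 1 / (m : ℝ) ^ 5 := by
        rw [Real.exp_neg, show (5 : ℝ) * Real.log m = ((5 : ℕ) : ℝ) * Real.log m by norm_num,
          Real.exp_nat_mul, Real.exp_log hm0, one_div]
      have h10 : (k : ℝ) * 2 ≤ m := by
        rw [div_le_iff₀ hm0] at hkm
        linarith
      calc (k : ℝ) * (2 * ((1 + Real.exp (-(2 * k / m))) / 2) ^ m) * q ^ k
          = (k * 2) * (((1 + Real.exp (-(2 * k / m))) / 2) ^ m * q ^ k) := by ring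
        _ ≤ m * (1 / (m : ℝ) ^ 5) := by
            apply mul_le_mul h10 _ _ hm0.le
            · rw [← h9]; exact h7.trans h8
            · have := Real.exp_pos (-(2 * (k : ℝ) / m))
              positivity
        _ = 1 / (m : ℝ) ^ 4 := by
            field_simp
    · -- large k
      have h3 : Real.exp (-(2 * k / m)) ≤ 2 / 5 := by
        have h4 : Real.exp (-(2 * k / m)) ≤ Real.exp (-1) := by
          apply Real.exp_le_exp.2
          have h5 : 2 * (k : ℝ) / m = 2 * (k / m) := by ring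
          rw [h5]
          linarith
        have h6 : Real.exp (-1) ≤ 2 / 5 := by
          rw [Real.exp_neg]
          have := Real.exp_one_gt_d9
          rw [inv_le_comm₀ (Real.exp_pos _) (by norm_num)]
          norm_num
          linarith
        linarith
      have h7 : ((1 + Real.exp (-(2 * k / m))) / 2) ^ m ≤ (7 / 10 : ℝ) ^ m := by
        have h8 := Real.exp_pos (-(2 * (k : ℝ) / m))
        exact pow_le_pow_left₀ (by positivity) (by linarith) m
      have h9 : q ^ k ≤ LL 34000 m := by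
        have h10 := xn_pow 12000 (by norm_num) m 1 k hm (by omega) (by omega)
        have h11 := xn_pow 5000 (by norm_num) m 1 k hm (by omega) (by omega)
        calc q ^ k ≤ ((1 + 12000 * dl m) * (1 + 5000 * dl m)) ^ k := pow_le_pow_left₀ hq0 hq1 k
          _ = (1 + 12000 * dl m) ^ k * (1 + 5000 * dl m) ^ k := mul_pow _ _ _
          _ ≤ LL (12000 * ((1 : ℕ) + 1)) m * LL (5000 * ((1 : ℕ) + 1)) m :=
            mul_le_mul h10 h11 (by positivity) (xn_LL_pos _ _).le
          _ = LL 34000 m := by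
            rw [xn_LL_add]
            norm_num
      have h12 : (k : ℝ) ≤ (m : ℝ) ^ 2 := by
        have : (k : ℝ) ≤ TT m := by exact_mod_cast hk
        exact this.trans (xn_TT m (by omega)).2.2
      have h13 : (7 / 10 : ℝ) ^ m * (10 / 7 : ℝ) ^ m = 1 := by
        rw [← mul_pow]
        norm_num
      have h14 : (0 : ℝ) < (7 / 10 : ℝ) ^ m := by positivity
      calc (k : ℝ) * (2 * ((1 + Real.exp (-(2 * k / m))) / 2) ^ m) * q ^ k
          ≤ (m : ℝ) ^ 2 * (2 * (7 / 10 : ℝ) ^ m) * LL 34000 m := by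
            have := Real.exp_pos (-(2 * (k : ℝ) / m))
            gcongr
        _ = (7 / 10 : ℝ) ^ m * (2 * (m : ℝ) ^ 6 * LL 34000 m) / (m : ℝ) ^ 4 := by
            field_simp
        _ ≤ (7 / 10 : ℝ) ^ m * (10 / 7 : ℝ) ^ m / (m : ℝ) ^ 4 := by gcongr
        _ = 1 / (m : ℝ) ^ 4 := by rw [h13]

theorem b_snum : ∃ m0 : ℕ, ∀ m ≥ m0, ∀ p R : ℝ, 0 ≤ p → p * m ≤ 1 + 5000 * dl m → 1 ≤ R →
    R ≤ 1 + 12000 * dl m →
    ∑ i ∈ range (TT m), (∑ j ∈ Ico (max i 1) (TT m), p ^ (j + 1) * MM m (j + 1)) * R ^ (i + 1) ≤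
      1 / m := by
  obtain ⟨mA, hmA⟩ := xn_dl 17000 (1 / 12) (by norm_num)
  obtain ⟨mB, hmB⟩ := sn_log2 300000 (1 / 2) (by norm_num)
  obtain ⟨mC, hmC⟩ := xn_poly 6 2 1 (by norm_num)
  obtain ⟨mD, hmD⟩ := xn_exp 34001 (10 / 7) (by norm_num)
  refine ⟨max 3 (max mA (max mB (max mC mD))), fun m hm p R hp0 hp hR1 hR => ?_⟩
  simp only [ge_iff_le, max_le_iff] at hm
  obtain ⟨hm3', hmA', hmB', hmC', hmD'⟩ := hm
  have hA := hmA m hmA'
  have hB := hmB m hmB'
  have hC : 2 * (m : ℝ) ^ 6 * LL 34000 m ≤ (10 / 7 : ℝ) ^ m := by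
    calc 2 * (m : ℝ) ^ 6 * LL 34000 m ≤ LL 1 m * LL 34000 m :=
          mul_le_mul_of_nonneg_right (hmC m hmC') (xn_LL_pos _ _).le
      _ = LL 34001 m := by rw [xn_LL_add]; norm_num
      _ ≤ _ := hmD m hmD'
  have hm3 : (3 : ℝ) ≤ m := by exact_mod_cast hm3'
  have hm0 : (0 : ℝ) < m := by linarith
  have hlog := xn_log m hm3'
  have hMM : ∀ k, 0 ≤ MM m k := by
    intro k
    unfold MM
    have := Real.exp_pos (-(2 * (k : ℝ) / m))
    exact le_min (by positivity) (by positivity)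
  refine (sn_swap (TT m) (fun j => p ^ (j + 1) * MM m (j + 1))
    (fun j => mul_nonneg (by positivity) (hMM _)) R hR1).trans ?_
  have h1 : ∀ j ∈ Ico 1 (TT m), ((j : ℝ) + 1) * R ^ (j + 1) * (p ^ (j + 1) * MM m (j + 1)) ≤
      (if ((j + 1 : ℕ) : ℝ) ≤ 12 * Real.log m then 72 * Real.log m / (m : ℝ) ^ 2 else 0) +
        1 / (m : ℝ) ^ 4 := by
    intro j hj
    have hj' := Finset.mem_Ico.1 hj
    have h2 := sn_term m hm3' hA hB hC p R hp0 hp hR1 hR (j + 1) (by omega)
    push_cast at h2 ⊢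
    exact h2
  refine (Finset.sum_le_sum h1).trans ?_
  rw [Finset.sum_add_distrib, Finset.sum_const, ← Finset.sum_filter, Finset.sum_const,
    nsmul_eq_mul, nsmul_eq_mul, Nat.card_Ico]
  have h3 : (((Ico 1 (TT m)).filter fun j => ((j + 1 : ℕ) : ℝ) ≤ 12 * Real.log m).card : ℝ) ≤
      12 * Real.log m := by
    have h4 : ((Ico 1 (TT m)).filter fun j => ((j + 1 : ℕ) : ℝ) ≤ 12 * Real.log m) ⊆
        range ⌊12 * Real.log m⌋₊ := by
      intro j hj
      rw [Finset.mem_filter] at hj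
      rw [Finset.mem_range]
      exact Nat.lt_of_succ_le (Nat.le_floor hj.2)
    have h5 := Finset.card_le_card h4
    rw [Finset.card_range] at h5
    have h6 : ((⌊12 * Real.log m⌋₊ : ℕ) : ℝ) ≤ 12 * Real.log m := Nat.floor_le (by positivity)
    have h7 : (((Ico 1 (TT m)).filter fun j => ((j + 1 : ℕ) : ℝ) ≤ 12 * Real.log m).card : ℝ) ≤
      ((⌊12 * Real.log m⌋₊ : ℕ) : ℝ) := by exact_mod_cast h5
    linarith
  have h8 : ((TT m - 1 : ℕ) : ℝ) ≤ (m : ℝ) ^ 2 := by
    have h9 : ((TT m - 1 : ℕ) : ℝ) ≤ TT m := by exact_mod_cast Nat.sub_le _ _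
    exact h9.trans (xn_TT m (by omega)).2.2
  have h10 : (((Ico 1 (TT m)).filter fun j => ((j + 1 : ℕ) : ℝ) ≤ 12 * Real.log m).card : ℝ) *
      (72 * Real.log m / (m : ℝ) ^ 2) ≤ 1 / (2 * m) := by
    calc _ ≤ 12 * Real.log m * (72 * Real.log m / (m : ℝ) ^ 2) :=
          mul_le_mul_of_nonneg_right h3 (by positivity)
      _ = 864 * (Real.log m ^ 2 / m) / m := by
          field_simp
          ring
      _ ≤ (1 / 2) / m := by
          apply div_le_div_of_nonneg_right _ hm0.le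
          have : 0 ≤ Real.log m ^ 2 / m := by positivity
          linarith
      _ = 1 / (2 * m) := by field_simp
  have h11 : ((TT m - 1 : ℕ) : ℝ) * (1 / (m : ℝ) ^ 4) ≤ 1 / (2 * m) := by
    calc _ ≤ (m : ℝ) ^ 2 * (1 / (m : ℝ) ^ 4) := mul_le_mul_of_nonneg_right h8 (by positivity)
      _ = 1 / ((m : ℝ) * m) := by field_simp
      _ ≤ 1 / (2 * m) := by
          apply one_div_le_one_div_of_le (by positivity)
          nlinarith
  have h12 : 1 / (2 * (m : ℝ)) + 1 / (2 * m) = 1 / m := by field_simp; norm_num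
  linarith

end Pool.Agent.Work.MP_b7dc8a_pr
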