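import Pool.Agent.Work.MP_b7dc8a_pr.B.Gatom
import Pool.Agent.Work.MP_b7dc8a_pr.B.Capb
import Pool.Agent.Work.MP_b7dc8a_pr.B.Rect
import Pool.Agent.Work.MP_b7dc8a_pr.Subc

/-! Module UCON (L): two large sets `S`, `T` are connected by sprinkling.

`LL c m = exp (c log^2 m)`, `t = TT m`, `m` large, `g = gT T` (number of neighbours in `T`).
Let `r = 1 - sqrt (1-q)`, so `q = r + r - r r`, `q/2 <= r <= q`; `η = η_a ∪ η_b` with two independent
fields of density `r` (`xb_Ex_two`). `E1 = offE (cubeE m) T`. For `ζ ⊆ offE (cubeE m) (S ∪ T)` let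
`C = cls (ζ ∪ (η_a ∩ E1)) S` (disjoint from `T`). If `S`, `T` are not connected in `ζ ∪ η`, then no
edge `s(x,t)`, `x ∈ C`, `t ∈ T` is in `η_b`: given `ζ, η_a` this has probability
`Y = ∏_{x ∈ C} ρ x`, `ρ x = (1-r)^(g x)` (exponent a natural number). So the left side is at most
`Ex Y` (`Ex_restrict` for `η_a ∩ E1`).
For `C ∌ y`, `y ∉ T` put `W = C ∪ T`, `EW = offE (cubeE m) W = offE E1 C`,
`b C y = ∑_{i<t} (nb EW)^[i] g y / m^i` (`<= t m`, antitone in `C`), `v y = wt EW (1/m) (sm g) y >= g y`.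
`subcrit`: `chi (cubeE m) (1/m) <= m+1 =: X`; `b_rect_iter` with `a = LL 30000 m (m+1)^3 / 2^m <= 1`:
`(nb EW)^[i] g y / m^i <= LL 24000 m (v y + a)`, so `b C y <= t LL 24000 m (v y + a)`.
`1 - (1-r)^n >= r n - r^2 n^2 / 2`, `Ex EW (1/m) (sm g (cl y))^2 <= m^2 (m+1)^3` (`b_second`), so
`1 - Ex EW (1/m) (∏_{z ∈ cl y} ρ z) >= r v y - r^2 m^2 (m+1)^3 / 2`. Let
`b0 = 2 t LL 24000 m (a + r m^2 (m+1)^3 / 2)`, `c1 = LL (-24000) m / (2t)` and
`σ C y = c1 r b C y` if `b C y >= b0` (and `y ∉ T`), `0` otherwise: then `σ C y <= 1 - Ex ..`, `σ <= 1`,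
antitone. `b_gatom` for `E1`, `p = 1/m`, density `r`, `S0 = S` gives `Ex (B Y') <= 1`,
`B = ∏_{x ∈ C} ∏_{y ∉ C, s(x,y) ∈ E1} (1 + r σ C y)`, `Y' = ∏_{z ∈ C \ S} ρ z >= Y`.
Let `β = c1 r^2 m^2 |S| |T| / (16 2^m (t+2))`. CLAIM: `Y <= exp (-β)` or `B >= exp β`; hence
`Y <= exp (-β) (1 + B Y')` and `Ex Y <= 2 exp (-β)`, and `β >= q^2 |S| |T| LL (-25000) m / 2^m`.
-/

namespace Pool.Agent.Work.MP_b7dc8a_pr

open Finset

theorem ucon_pow (r : ℝ) (h0 : 0 ≤ r) (h1 : r ≤ 1) (N : ℕ) :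
    (1 - r) ^ N ≤ 1 - r * N + r ^ 2 * N ^ 2 / 2 := by
  induction N with
  | zero => simp
  | succ N ih =>
    have h2 : 0 ≤ 1 - r := by linarith
    have hN : (0 : ℝ) ≤ N := Nat.cast_nonneg N
    have h3 := mul_le_mul_of_nonneg_left ih h2
    rw [pow_succ']
    refine h3.trans ?_
    push_cast
    nlinarith [mul_nonneg (mul_nonneg (mul_nonneg h0 h0) h0) (mul_nonneg hN hN), sq_nonneg r]

theorem ucon_alg (A s τ M u : ℝ) (hM : M ≠ 0) (hu : u ≠ 0) :
    A * s * τ / (16 * M * u) = A / (16 * u) * (s * τ / M) := by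
  field_simp

theorem ucon_exp_half (u : ℝ) (h0 : 0 ≤ u) (h1 : u ≤ 1) : Real.exp (u / 2) ≤ 1 + u := by
  have h2 : 1 - u / 2 ≤ Real.exp (-(u / 2)) := by
    have := Real.add_one_le_exp (-(u / 2))
    linarith
  have h3 : Real.exp (u / 2) * Real.exp (-(u / 2)) = 1 := by
    rw [← Real.exp_add]
    simp
  have h4 : 0 < Real.exp (u / 2) := Real.exp_pos _
  have h5 : Real.exp (u / 2) * (1 - u / 2) ≤ 1 :=
    (mul_le_mul_of_nonneg_left h2 h4.le).trans h3.le
  have h6 : 0 < 1 - u / 2 := by linarith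
  have h7 : (1 : ℝ) ≤ (1 + u) * (1 - u / 2) := by nlinarith
  by_contra hcon
  push Not at hcon
  have := mul_lt_mul_of_pos_right hcon h6
  linarith

section GEN
variable {V : Type} [Fintype V] [DecidableEq V]

open Classical in
/-- no edge between `C` and `T` is open -/
theorem ucon_edges (E : Finset (Sym2 V)) (r : ℝ) (C T : Finset V) (hd : Disjoint C T) :
    Ex E r (fun η => ind (∀ x ∈ C, ∀ y ∈ T, s(x, y) ∉ η)) =
      ∏ x ∈ C, (1 - r) ^ ((T.filter fun t => s(x, t) ∈ E).card) := by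
  set A : Finset (Σ _ : V, V) := C.sigma fun x => T.filter fun t => s(x, t) ∈ E with hA
  set B : Finset (Sym2 V) := A.image (fun p => s(p.1, p.2)) with hB
  have hinj : Set.InjOn (fun p : (Σ _ : V, V) => s(p.1, p.2)) (A : Set (Σ _ : V, V)) := by
    rintro ⟨a, b⟩ h1 ⟨c, d⟩ h2 h3
    simp only [hA, Finset.coe_sigma, Set.mem_sigma_iff, Finset.mem_coe, Finset.mem_filter] at h1 h2
    simp only [Sym2.eq_iff] at h3
    rcases h3 with ⟨h4, h5⟩ | ⟨h4, h5⟩
    · subst h4; subst h5; rfl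
    · exfalso
      exact Finset.disjoint_left.1 hd h1.1 (h4 ▸ h2.2.1)
  have hcard : B.card = ∑ x ∈ C, (T.filter fun t => s(x, t) ∈ E).card := by
    rw [hB, Finset.card_image_of_injOn hinj, hA, Finset.card_sigma]
  have hBE : B ⊆ E := by
    intro e he
    rw [hB, Finset.mem_image] at he
    obtain ⟨⟨a, b⟩, h1, rfl⟩ := he
    rw [hA, Finset.mem_sigma] at h1
    exact (Finset.mem_filter.1 h1.2).2
  have h1 : Ex E r (fun η => ind (∀ x ∈ C, ∀ y ∈ T, s(x, y) ∉ η)) =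
      Ex E r (fun η => (fun ω => ind (ω = ∅)) (η ∩ B)) := by
    refine Ex_congr _ _ _ _ fun η hη => ?_
    congr 1
    apply propext
    constructor
    · intro h
      rw [Finset.eq_empty_iff_forall_notMem]
      intro e he
      obtain ⟨he1, he2⟩ := Finset.mem_inter.1 he
      rw [hB, Finset.mem_image] at he2
      obtain ⟨⟨a, b⟩, h1, rfl⟩ := he2
      rw [hA, Finset.mem_sigma] at h1
      exact h a h1.1 b (Finset.mem_filter.1 h1.2).1 he1
    · intro h x hx y hy hxy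
      have : s(x, y) ∈ η ∩ B := by
        refine Finset.mem_inter.2 ⟨hxy, ?_⟩
        rw [hB, Finset.mem_image]
        exact ⟨⟨x, y⟩, by
          rw [hA, Finset.mem_sigma]
          exact ⟨hx, Finset.mem_filter.2 ⟨hy, hη hxy⟩⟩, rfl⟩
      rw [h] at this
      exact absurd this (Finset.notMem_empty _)
  rw [h1, Ex_restrict E B hBE r (fun ω => ind (ω = ∅)), Finset.prod_pow_eq_pow_sum, ← hcard]
  unfold Ex
  rw [Finset.sum_eq_single ∅]
  · simp [ind]
  · intro ω _ hω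
    simp [ind, hω]
  · intro h
    exact absurd (Finset.empty_mem_powerset B) h

theorem ucon_disj (E : Finset (Sym2 V)) (S T : Finset V) (hST : Disjoint S T)
    (ω : Finset (Sym2 V)) (hω : ω ⊆ offE E T) : Disjoint (cls ω S) T := by
  rw [Finset.disjoint_left]
  intro y hy hyT
  obtain ⟨x, hx, hxy⟩ := (xb_mem_cls ω S y).1 hy
  have hxT : x ∉ T := fun h => Finset.disjoint_left.1 hST hx h
  exact Finset.disjoint_left.1 (xb_cl_off' E ω T hω x hxT) hxy hyT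

open Classical in
theorem ucon_reduce (E : Finset (Sym2 V)) (p q r : ℝ) (hp0 : 0 ≤ p) (hp1 : p ≤ 1) (hr0 : 0 ≤ r)
    (hr1 : r ≤ 1) (hq : q = r + r - r * r) (S T : Finset V) (hST : Disjoint S T) :
    Ex (offE E (S ∪ T)) p (fun ζ => Ex E q (fun η =>
      ind (∀ x ∈ S, ∀ y ∈ T, y ∉ cl (ζ ∪ η) x))) ≤
    Ex (offE E (S ∪ T)) p (fun ζ => Ex (offE E T) r (fun η =>
      ∏ x ∈ cls (ζ ∪ η) S, (1 - r) ^ ((T.filter fun t => s(x, t) ∈ E).card))) := by
  refine Ex_mono _ p hp0 hp1 _ _ fun ζ hζ => ?_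
  have hζT : ζ ⊆ offE E T := hζ.trans (xb_offE_anti E T _ Finset.subset_union_right)
  rw [hq, xb_Ex_two]
  have h1 : Ex E r (fun ηa => Ex E r (fun ηb =>
      ind (∀ x ∈ S, ∀ y ∈ T, y ∉ cl (ζ ∪ (ηa ∪ ηb)) x))) ≤
      Ex E r (fun ηa => (fun η => ∏ x ∈ cls (ζ ∪ η) S,
        (1 - r) ^ ((T.filter fun t => s(x, t) ∈ E).card)) (ηa ∩ offE E T)) := by
    refine Ex_mono _ r hr0 hr1 _ _ fun ηa hηa => ?_
    have hsub : ζ ∪ (ηa ∩ offE E T) ⊆ offE E T :=
      Finset.union_subset hζT Finset.inter_subset_right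
    have hdis := ucon_disj E S T hST _ hsub
    simp only
    rw [← ucon_edges E r _ T hdis]
    refine Ex_mono _ r hr0 hr1 _ _ fun ηb hηb => ?_
    apply xb_ind_mono
    intro h x hx y hy hxy
    obtain ⟨w, hw, hwx⟩ := (xb_mem_cls _ S x).1 hx
    refine h w hw y hy ?_
    have h2 : x ∈ cl (ζ ∪ (ηa ∪ ηb)) w := by
      refine cl_mono _ _ ?_ w hwx
      intro e he
      rcases Finset.mem_union.1 he with h3 | h3
      · exact Finset.mem_union_left _ h3
      · exact Finset.mem_union_right _ (Finset.mem_union_left _ (Finset.mem_inter.1 h3).1)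
    exact cl_closed _ w x y h2 (Finset.mem_union_right _ (Finset.mem_union_right _ hxy))
  refine h1.trans (le_of_eq ?_)
  exact Ex_restrict E (offE E T) (xb_offE_subset E T) r (fun η => ∏ x ∈ cls (ζ ∪ η) S,
        (1 - r) ^ ((T.filter fun t => s(x, t) ∈ E).card))

open Classical in
theorem ucon_core (E : Finset (Sym2 V)) (p q r : ℝ) (hp0 : 0 ≤ p) (hp1 : p ≤ 1) (hr0 : 0 ≤ r)
    (hr1 : r ≤ 1) (hq : q = r + r - r * r) (S T : Finset V) (hST : Disjoint S T)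
    (σ : Finset V → V → ℝ) (hσ0 : ∀ C y, 0 ≤ σ C y) (hσ1 : ∀ C y, σ C y ≤ 1)
    (hanti : ∀ C C' y, C ⊆ C' → y ∉ C' → σ C' y ≤ σ C y)
    (hσ : ∀ C y, y ∉ C → Ex (offE E (C ∪ T)) p (fun ζ => ∏ z ∈ cl ζ y,
      (1 - r) ^ ((T.filter fun t => s(z, t) ∈ E).card)) ≤ 1 - σ C y) (β : ℝ)
    (hclaim : ∀ C, S ⊆ C → Disjoint C T →
      (∏ x ∈ C, (1 - r) ^ ((T.filter fun t => s(x, t) ∈ E).card)) ≤ Real.exp (-β) ∨
      Real.exp β ≤ ∏ x ∈ C, ∏ y ∈ univ.filter (fun y => y ∉ C ∧ s(x, y) ∈ offE E T),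
        (1 + r * σ C y)) :
    Ex (offE E (S ∪ T)) p (fun ζ => Ex E q (fun η =>
      ind (∀ x ∈ S, ∀ y ∈ T, y ∉ cl (ζ ∪ η) x))) ≤ 2 * Real.exp (-β) := by
  refine (ucon_reduce E p q r hp0 hp1 hr0 hr1 hq S T hST).trans ?_
  have h1r : 0 ≤ 1 - r := by linarith
  have h1r' : 1 - r ≤ 1 := by linarith
  set ρ : V → ℝ := fun x => (1 - r) ^ ((T.filter fun t => s(x, t) ∈ E).card) with hρ
  have hρ0 : ∀ x, 0 ≤ ρ x := fun x => pow_nonneg h1r _
  have hρ1 : ∀ x, ρ x ≤ 1 := fun x => pow_le_one₀ h1r h1r'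
  have hcomm : ∀ C : Finset V, offE (offE E T) C = offE E (C ∪ T) := by
    intro C
    rw [xb_offE_offE, Finset.union_comm]
  have hg := b_gatom (offE E T) p r hp0 hp1 hr0 hr1 ρ hρ0 hρ1 σ hσ0 hσ1 hanti (by
    intro C y hy
    rw [hcomm]
    exact hσ C y hy) S
  rw [hcomm] at hg
  have h2 : Ex (offE E (S ∪ T)) p (fun ζ => Ex (offE E T) r (fun η =>
      ∏ x ∈ cls (ζ ∪ η) S, ρ x)) ≤ Ex (offE E (S ∪ T)) p (fun ζ =>
        Real.exp (-β) * (1 + Ex (offE E T) r (fun η =>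
      (∏ x ∈ cls (ζ ∪ η) S, ∏ y ∈ univ.filter (fun y => y ∉ cls (ζ ∪ η) S ∧ s(x, y) ∈ offE E T),
        (1 + r * σ (cls (ζ ∪ η) S) y)) * ∏ z ∈ cls (ζ ∪ η) S \ S, ρ z))) := by
    refine Ex_mono _ p hp0 hp1 _ _ fun ζ hζ => ?_
    have hζT : ζ ⊆ offE E T := hζ.trans (xb_offE_anti E T _ Finset.subset_union_right)
    rw [← Ex_const (offE E T) r 1, ← Ex_add, ← Ex_mul_left]
    rw [Ex_const (offE E T) r 1]
    refine Ex_mono _ r hr0 hr1 _ _ fun η hη => ?_
    set C := cls (ζ ∪ η) S with hC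
    have hSC : S ⊆ C := subset_cls _ _
    have hCT : Disjoint C T := ucon_disj E S T hST _ (Finset.union_subset hζT hη)
    have hY' : 0 ≤ ∏ z ∈ C \ S, ρ z := Finset.prod_nonneg fun z _ => hρ0 z
    have hB0 : 0 ≤ ∏ x ∈ C, ∏ y ∈ univ.filter (fun y => y ∉ C ∧ s(x, y) ∈ offE E T),
        (1 + r * σ C y) := by
      refine Finset.prod_nonneg fun x _ => Finset.prod_nonneg fun y _ => ?_
      have := mul_nonneg hr0 (hσ0 C y)
      linarith
    have hYY : ∏ x ∈ C, ρ x ≤ ∏ z ∈ C \ S, ρ z := by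
      rw [← Finset.prod_sdiff hSC]
      have : ∏ x ∈ S, ρ x ≤ 1 := Finset.prod_le_one (fun x _ => hρ0 x) (fun x _ => hρ1 x)
      nlinarith
    have hexp := Real.exp_pos (-β)
    rcases hclaim C hSC hCT with h | h
    · refine h.trans ?_
      have := mul_nonneg hB0 hY'
      nlinarith
    · refine hYY.trans ?_
      have h3 := mul_le_mul_of_nonneg_right h hY'
      have h4 : Real.exp (-β) * Real.exp β = 1 := by
        rw [← Real.exp_add]; simp
      have h5 := mul_le_mul_of_nonneg_left h3 hexp.le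
      rw [← mul_assoc, h4, one_mul] at h5
      nlinarith
  refine h2.trans ?_
  rw [Ex_mul_left, Ex_add, Ex_const]
  have hexp := Real.exp_pos (-β)
  nlinarith

end GEN

/-! ### the function `b` -/

/-- truncated Green function from `y` to the neighbourhood of `T`, outside `C ∪ T` -/
noncomputable def ucb (m : ℕ) (T C : Finset (Q m)) (y : Q m) : ℝ :=
  ∑ i ∈ range (TT m), (nb (offE (cubeE m) (C ∪ T)))^[i] (gT T) y / (m : ℝ) ^ i

theorem gT_nonneg {m : ℕ} (T : Finset (Q m)) (z : Q m) : 0 ≤ gT T z := by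
  unfold gT
  exact Nat.cast_nonneg _

open Classical in
theorem ucon_deg (m : ℕ) (z : Q m) :
    ((univ.filter fun t => s(z, t) ∈ cubeE m).card : ℝ) = m := by
  have h := nb_cube_one m z
  unfold nb at h
  rw [Finset.sum_const, nsmul_eq_mul, mul_one] at h
  refine Eq.trans ?_ h
  congr!

theorem gT_le {m : ℕ} (T : Finset (Q m)) (z : Q m) : gT T z ≤ m := by
  classical
  unfold gT
  rw [← ucon_deg m z]
  have : (T.filter fun t => s(z, t) ∈ cubeE m).card ≤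
      (univ.filter fun t => s(z, t) ∈ cubeE m).card := by
    apply Finset.card_le_card
    intro t ht
    exact Finset.mem_filter.2 ⟨Finset.mem_univ _, (Finset.mem_filter.1 ht).2⟩
  convert (Nat.cast_le (α := ℝ)).2 this using 2

theorem ucb_nonneg (m : ℕ) (T C : Finset (Q m)) (y : Q m) : 0 ≤ ucb m T C y := by
  unfold ucb
  exact Finset.sum_nonneg fun i _ => div_nonneg (nb_iter_nonneg _ i _ (gT_nonneg T) y)
    (by positivity)

theorem ucb_anti (m : ℕ) (T C C' : Finset (Q m)) (h : C ⊆ C') (y : Q m) :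
    ucb m T C' y ≤ ucb m T C y := by
  unfold ucb
  refine Finset.sum_le_sum fun i _ => div_le_div_of_nonneg_right ?_ (by positivity)
  exact nb_iter_mono_E _ _ (xb_offE_anti _ _ _ (Finset.union_subset_union_left h)) i _
    (gT_nonneg T) y

theorem ucon_chi (m : ℕ) (hm : 1 ≤ m) (x : Q m) : chi (cubeE m) (1 / m) x ≤ (m : ℝ) + 1 := by
  unfold chi
  have hm' : (0 : ℝ) < m := by exact_mod_cast hm
  exact subcrit m hm (1 / m) (by positivity) (by field_simp; exact le_rfl) x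

/-- numerical facts for large `m` -/
theorem ucon_num : ∃ m0 : ℕ, ∀ m ≥ m0, 8 ≤ m ∧ LL 30000 m * ((m : ℝ) + 1) ^ 3 / 2 ^ m ≤ 1 ∧
    3072 * (m : ℝ) ^ 9 ≤ LL 1000 m := by
  obtain ⟨m1, h1⟩ := xn_poly 3 8 1 one_pos
  obtain ⟨m2, h2⟩ := xn_exp 30001 2 one_lt_two
  obtain ⟨m3, h3⟩ := xn_poly 9 3072 1000 (by norm_num)
  refine ⟨max (max m1 m2) (max m3 8), fun m hm => ?_⟩
  have hm1 : m ≥ m1 := le_trans (le_trans (le_max_left _ _) (le_max_left _ _)) hm
  have hm2 : m ≥ m2 := le_trans (le_trans (le_max_right _ _) (le_max_left _ _)) hm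
  have hm3 : m ≥ m3 := le_trans (le_trans (le_max_left _ _) (le_max_right _ _)) hm
  have hm4 : 8 ≤ m := le_trans (le_trans (le_max_right _ _) (le_max_right _ _)) hm
  refine ⟨hm4, ?_, h3 m hm3⟩
  have hm5 : (8 : ℝ) ≤ m := by exact_mod_cast hm4
  rw [div_le_one (by positivity)]
  have h4 : ((m : ℝ) + 1) ^ 3 ≤ 8 * (m : ℝ) ^ 3 := by
    have : ((m : ℝ) + 1) ≤ 2 * m := by linarith
    calc ((m : ℝ) + 1) ^ 3 ≤ (2 * m) ^ 3 := pow_le_pow_left₀ (by positivity) this 3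
      _ = 8 * (m : ℝ) ^ 3 := by ring
  have h5 := h4.trans (h1 m hm1)
  have h6 := mul_le_mul_of_nonneg_left h5 (xn_LL_pos 30000 m).le
  rw [xn_LL_add] at h6
  have h7 := h2 m hm2
  norm_num at h6
  linarith

theorem ucb_bound : ∃ m0 : ℕ, ∀ m ≥ m0, ∀ (T C : Finset (Q m)) (y : Q m),
    ucb m T C y ≤ TT m * (LL 24000 m * (wt (offE (cubeE m) (C ∪ T)) (1 / m) (sm (gT T)) y +
      LL 30000 m * ((m : ℝ) + 1) ^ 3 / 2 ^ m)) := by
  obtain ⟨m1, h1⟩ := b_rect_iter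
  obtain ⟨m2, h2⟩ := ucon_num
  refine ⟨max m1 m2, fun m hm T C y => ?_⟩
  have hm1 := h1 m (le_trans (le_max_left _ _) hm)
  obtain ⟨hm8, ha1, -⟩ := h2 m (le_trans (le_max_right _ _) hm)
  have hm0 : (8 : ℝ) ≤ m := by exact_mod_cast hm8
  have hmp : (0 : ℝ) < m := by linarith
  set a : ℝ := LL 30000 m * ((m : ℝ) + 1) ^ 3 / 2 ^ m with ha
  have ha0 : 0 ≤ a := by
    have := xn_LL_pos 30000 m
    positivity
  unfold ucb
  have hterm : ∀ i ∈ range (TT m), (nb (offE (cubeE m) (C ∪ T)))^[i] (gT T) y / (m : ℝ) ^ i ≤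
      LL 24000 m * (wt (offE (cubeE m) (C ∪ T)) (1 / m) (sm (gT T)) y + a) := by
    intro i hi
    have hi' : i < TT m := Finset.mem_range.1 hi
    have h3 := hm1 ((m : ℝ) + 1) a (1 / m) (by linarith) le_rfl ha1 (by positivity)
      (by
        have := xn_dl_nonneg m
        rw [one_div, inv_mul_cancel₀ hmp.ne']
        linarith) (fun x => ucon_chi m (by omega) x) (C ∪ T) (gT T)
      (fun z => ⟨gT_nonneg T z, gT_le T z⟩) i (by omega) y
    refine le_trans ?_ h3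
    rw [one_div, inv_pow, div_eq_inv_mul]
    refine mul_le_mul_of_nonneg_left ?_ (by positivity)
    refine nb_iter_mono _ i _ _ (fun z => ?_) y
    have h4 : gT T z ≤ wt (offE (cubeE m) (C ∪ T)) (m : ℝ)⁻¹ (sm (gT T)) z := by
      unfold wt
      refine xb_Ex_ge _ _ (by positivity) (inv_le_one_of_one_le₀ (by linarith)) _ _ fun ω _ => ?_
      unfold sm
      exact Finset.single_le_sum (f := gT T) (fun w _ => gT_nonneg T w) (mem_cl_self ω z)
    simp only [one_div] at *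
    linarith
  refine (Finset.sum_le_sum hterm).trans ?_
  rw [Finset.sum_const, Finset.card_range, nsmul_eq_mul]

open Classical in
/-- number of neighbours of `z` in `T` -/
noncomputable def gN {m : ℕ} (T : Finset (Q m)) (z : Q m) : ℕ :=
  (T.filter fun t => s(z, t) ∈ cubeE m).card

theorem gN_gT {m : ℕ} (T : Finset (Q m)) (z : Q m) : (gN T z : ℝ) = gT T z := by
  unfold gN gT
  rfl

theorem ucon_sigma (m : ℕ) (hm : 1 ≤ m) (r : ℝ) (hr0 : 0 ≤ r) (hr1 : r ≤ 1)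
    (T C : Finset (Q m)) (y : Q m) :
    Ex (offE (cubeE m) (C ∪ T)) (1 / m) (fun ζ => ∏ z ∈ cl ζ y, (1 - r) ^ gN T z) ≤
      1 - r * wt (offE (cubeE m) (C ∪ T)) (1 / m) (sm (gT T)) y +
        r ^ 2 * (m : ℝ) ^ 2 * ((m : ℝ) + 1) ^ 3 / 2 := by
  have hmp : (1 : ℝ) ≤ m := by exact_mod_cast hm
  have hp0 : (0 : ℝ) ≤ 1 / m := by positivity
  have hp1 : (1 : ℝ) / m ≤ 1 := by
    rw [div_le_one (by linarith)]; exact hmp
  set E := offE (cubeE m) (C ∪ T) with hE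
  have h1 : Ex E (1 / m) (fun ζ => ∏ z ∈ cl ζ y, (1 - r) ^ gN T z) ≤
      Ex E (1 / m) (fun ζ => (1 - r * sm (gT T) (cl ζ y)) +
        (r ^ 2 * (m : ℝ) ^ 2 / 2) * ((cl ζ y).card : ℝ) ^ 2) := by
    refine Ex_mono _ _ hp0 hp1 _ _ fun ζ _ => ?_
    rw [Finset.prod_pow_eq_pow_sum]
    have h2 := ucon_pow r hr0 hr1 (∑ z ∈ cl ζ y, gN T z)
    have h3 : ((∑ z ∈ cl ζ y, gN T z : ℕ) : ℝ) = sm (gT T) (cl ζ y) := by
      unfold sm
      push_cast
      exact Finset.sum_congr rfl fun z _ => gN_gT T z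
    rw [h3] at h2
    refine h2.trans ?_
    have h4 : 0 ≤ sm (gT T) (cl ζ y) := Finset.sum_nonneg fun z _ => gT_nonneg T z
    have h5 : sm (gT T) (cl ζ y) ≤ m * (cl ζ y).card := by
      unfold sm
      refine (Finset.sum_le_sum fun z _ => gT_le T z).trans ?_
      rw [Finset.sum_const, nsmul_eq_mul, mul_comm]
    have h6 : sm (gT T) (cl ζ y) ^ 2 ≤ (m * (cl ζ y).card : ℝ) ^ 2 :=
      pow_le_pow_left₀ h4 h5 2
    nlinarith [mul_le_mul_of_nonneg_left h6 (sq_nonneg r)]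
  refine h1.trans ?_
  rw [Ex_add, Ex_sub, Ex_const, Ex_mul_left, Ex_mul_left]
  have h7 : Ex E (1 / m) (fun ζ => ((cl ζ y).card : ℝ) ^ 2) ≤ ((m : ℝ) + 1) ^ 3 := by
    refine b_second E (1 / m) hp0 hp1 _ (fun x => ?_) y
    exact (xb_chi_mono_E _ _ (xb_offE_subset _ _) _ hp0 hp1 x).trans (ucon_chi m hm x)
  have h8 : (0 : ℝ) ≤ r ^ 2 * (m : ℝ) ^ 2 / 2 := by positivity
  have h9 := mul_le_mul_of_nonneg_left h7 h8
  unfold wt
  linarith

open Classical in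
/-- capacity inequality in terms of `ucb` -/
theorem ucon_cap (m : ℕ) (hm : 8 ≤ m) (C T : Finset (Q m)) (hCT : Disjoint C T) :
    (C.card : ℝ) * T.card / 2 ^ m ≤ 2 * ((TT m : ℝ) + 2) * ((∑ x ∈ C, (gN T x : ℝ)) / m +
      (∑ x ∈ C, ∑ y ∈ univ.filter (fun y => y ∉ C ∧ s(x, y) ∈ offE (cubeE m) T),
        ucb m T C y) / (m : ℝ) ^ 2) := by
  have hmp : (0 : ℝ) < m := by
    have : 0 < m := by omega
    exact_mod_cast this
  have h := b_capb m hm C T hCT
  refine h.trans (le_of_eq ?_)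
  congr 1
  congr 1
  · rw [Finset.sum_div]
    exact Finset.sum_congr rfl fun x _ => by rw [gN_gT]
  · rw [Finset.sum_comm, Finset.sum_div]
    refine Finset.sum_congr rfl fun x hx => ?_
    have hxT : x ∉ T := fun h => Finset.disjoint_left.1 hCT hx h
    unfold nb
    have h1 : ∀ i ∈ range (TT m), (∑ z ∈ univ.filter (fun z => s(x, z) ∈ cubeE m),
        if z ∈ C ∪ T then (0 : ℝ) else (nb (offE (cubeE m) (C ∪ T)))^[i] (gT T) z) /
          (m : ℝ) ^ (i + 2) = ∑ z ∈ univ.filter (fun z => s(x, z) ∈ cubeE m),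
          (if z ∈ C ∪ T then (0 : ℝ) else
            (nb (offE (cubeE m) (C ∪ T)))^[i] (gT T) z / (m : ℝ) ^ i) / (m : ℝ) ^ 2 := by
      intro i _
      rw [Finset.sum_div]
      refine Finset.sum_congr rfl fun z _ => ?_
      split_ifs
      · simp
      · rw [pow_add, div_div]
    have h2 := Finset.sum_congr rfl h1
    have h3 : (∑ i ∈ range (TT m), (∑ z ∈ univ.filter (fun z => s(x, z) ∈ cubeE m),
        if z ∈ C ∪ T then (0 : ℝ) else (nb (offE (cubeE m) (C ∪ T)))^[i] (gT T) z) /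
          (m : ℝ) ^ (i + 2)) = (∑ y ∈ univ.filter (fun y => y ∉ C ∧ s(x, y) ∈ offE (cubeE m) T),
        ucb m T C y) / (m : ℝ) ^ 2 := by
      rw [h2, Finset.sum_comm, Finset.sum_div]
      have h4 : ∀ z ∈ univ.filter (fun z => s(x, z) ∈ cubeE m),
          ∑ i ∈ range (TT m), (if z ∈ C ∪ T then (0 : ℝ) else
            (nb (offE (cubeE m) (C ∪ T)))^[i] (gT T) z / (m : ℝ) ^ i) / (m : ℝ) ^ 2 =
          if z ∈ C ∪ T then (0 : ℝ) else ucb m T C z / (m : ℝ) ^ 2 := by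
        intro z _
        split_ifs
        · simp
        · unfold ucb
          rw [Finset.sum_div]
      rw [Finset.sum_congr rfl h4, Finset.sum_filter, Finset.sum_filter]
      refine Finset.sum_congr rfl fun z _ => ?_
      have h5 : s(x, z) ∈ offE (cubeE m) T ↔ s(x, z) ∈ cubeE m ∧ z ∉ T := by
        rw [xb_mem_offE]
        constructor
        · rintro ⟨h6, _, h7⟩; exact ⟨h6, h7⟩
        · rintro ⟨h6, h7⟩; exact ⟨h6, hxT, h7⟩
      by_cases h6 : s(x, z) ∈ cubeE m <;> by_cases h7 : z ∈ C <;> by_cases h8 : z ∈ T <;>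
        simp [h5, h6, h7, h8]
    refine Eq.trans ?_ h3
    unfold nb
    congr!

open Classical in
/-- the truncated function `σ` -/
noncomputable def ucs (m : ℕ) (T : Finset (Q m)) (c1 r b0 : ℝ) (C : Finset (Q m)) (y : Q m) : ℝ :=
  if y ∉ C ∧ y ∉ T ∧ b0 ≤ ucb m T C y then c1 * r * ucb m T C y else 0

theorem ucs_nonneg (m : ℕ) (T : Finset (Q m)) (c1 r b0 : ℝ) (hc : 0 ≤ c1) (hr : 0 ≤ r)
    (C : Finset (Q m)) (y : Q m) : 0 ≤ ucs m T c1 r b0 C y := by
  unfold ucs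
  have := ucb_nonneg m T C y
  split_ifs
  · positivity
  · exact le_rfl

theorem ucs_anti (m : ℕ) (T : Finset (Q m)) (c1 r b0 : ℝ) (hc : 0 ≤ c1) (hr : 0 ≤ r)
    (C C' : Finset (Q m)) (y : Q m) (h : C ⊆ C') : ucs m T c1 r b0 C' y ≤ ucs m T c1 r b0 C y := by
  have h1 := ucb_anti m T C C' h y
  by_cases h2 : y ∉ C' ∧ y ∉ T ∧ b0 ≤ ucb m T C' y
  · have h3 : y ∉ C ∧ y ∉ T ∧ b0 ≤ ucb m T C y :=
      ⟨fun h4 => h2.1 (h h4), h2.2.1, h2.2.2.trans h1⟩
    unfold ucs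
    rw [if_pos h2, if_pos h3]
    exact mul_le_mul_of_nonneg_left h1 (mul_nonneg hc hr)
  · have h4 : ucs m T c1 r b0 C' y = 0 := by
      unfold ucs
      rw [if_neg h2]
    rw [h4]
    exact ucs_nonneg m T c1 r b0 hc hr C y

open Classical in
theorem ucon_claim (m : ℕ) (hm : 8 ≤ m) (S T C : Finset (Q m)) (hCT : Disjoint C T) (hSC : S ⊆ C)
    (r c1 b0 : ℝ) (hr0 : 0 < r) (hr1 : r ≤ 1) (hc : 0 < c1) (hb00 : 0 ≤ b0)
    (hσ1 : ∀ C y, ucs m T c1 r b0 C y ≤ 1)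
    (hb0 : b0 ≤ m * T.card / (8 * 2 ^ m * ((TT m : ℝ) + 2))) (hc1 : c1 * r * m ≤ 4) (β : ℝ)
    (hβ : β = c1 * r ^ 2 * (m : ℝ) ^ 2 * S.card * T.card / (16 * 2 ^ m * ((TT m : ℝ) + 2))) :
    (∏ x ∈ C, (1 - r) ^ gN T x) ≤ Real.exp (-β) ∨
      Real.exp β ≤ ∏ x ∈ C, ∏ y ∈ univ.filter (fun y => y ∉ C ∧ s(x, y) ∈ offE (cubeE m) T),
        (1 + r * ucs m T c1 r b0 C y) := by
  by_cases hB : Real.exp β ≤ ∏ x ∈ C, ∏ y ∈ univ.filter (fun y => y ∉ C ∧
      s(x, y) ∈ offE (cubeE m) T), (1 + r * ucs m T c1 r b0 C y)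
  · exact Or.inr hB
  left
  push Not at hB
  have hmp : (8 : ℝ) ≤ m := by exact_mod_cast hm
  have hm0 : (0 : ℝ) < m := by linarith
  have hσ0 := ucs_nonneg m T c1 r b0 hc.le hr0.le
  set D : Q m → Finset (Q m) := fun x => univ.filter (fun y => y ∉ C ∧
      s(x, y) ∈ offE (cubeE m) T) with hD
  -- sum of sigma
  have h1 : Real.exp (∑ x ∈ C, ∑ y ∈ D x, r * ucs m T c1 r b0 C y / 2) ≤
      ∏ x ∈ C, ∏ y ∈ D x, (1 + r * ucs m T c1 r b0 C y) := by
    rw [Real.exp_sum]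
    refine Finset.prod_le_prod (fun x _ => (Real.exp_pos _).le) fun x _ => ?_
    rw [Real.exp_sum]
    refine Finset.prod_le_prod (fun y _ => (Real.exp_pos _).le) fun y _ => ?_
    refine ucon_exp_half _ (mul_nonneg hr0.le (hσ0 C y)) ?_
    have := hσ1 C y
    nlinarith [hσ0 C y]
  have h2 : ∑ x ∈ C, ∑ y ∈ D x, r * ucs m T c1 r b0 C y / 2 < β :=
    Real.exp_lt_exp.1 (lt_of_le_of_lt h1 hB)
  have h3 : ∑ x ∈ C, ∑ y ∈ D x, r * ucs m T c1 r b0 C y / 2 =
      (r / 2) * ∑ x ∈ C, ∑ y ∈ D x, ucs m T c1 r b0 C y := by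
    rw [Finset.mul_sum]
    refine Finset.sum_congr rfl fun x _ => ?_
    rw [Finset.mul_sum]
    exact Finset.sum_congr rfl fun y _ => by ring
  rw [h3] at h2
  -- pairs
  have hdeg : ∀ x, ((D x).card : ℝ) ≤ m := by
    intro x
    rw [← ucon_deg m x]
    have : (D x).card ≤ (univ.filter fun t => s(x, t) ∈ cubeE m).card := by
      apply Finset.card_le_card
      intro t ht
      rw [hD, Finset.mem_filter] at ht
      exact Finset.mem_filter.2 ⟨Finset.mem_univ _, (xb_offE_subset _ _) ht.2.2⟩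
    exact_mod_cast this
  have hpair : ∀ x ∈ C, ∀ y ∈ D x, ucb m T C y ≤ ucs m T c1 r b0 C y / (c1 * r) + b0 := by
    intro x hx y hy
    rw [hD, Finset.mem_filter] at hy
    have hyC : y ∉ C := hy.2.1
    have hyT : y ∉ T := ((xb_mem_offE _ _ _ _).1 hy.2.2).2.2
    by_cases h4 : b0 ≤ ucb m T C y
    · have : ucs m T c1 r b0 C y = c1 * r * ucb m T C y := by
        unfold ucs
        rw [if_pos ⟨hyC, hyT, h4⟩]
      rw [this, mul_div_cancel_left₀ _ (mul_pos hc hr0).ne']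
      linarith
    · have : ucs m T c1 r b0 C y = 0 := by
        unfold ucs
        rw [if_neg (fun h => h4 h.2.2)]
      rw [this, zero_div]
      linarith
  set P : ℝ := ∑ x ∈ C, ∑ y ∈ D x, ucb m T C y with hP
  set SG : ℝ := ∑ x ∈ C, ∑ y ∈ D x, ucs m T c1 r b0 C y with hSG
  have h5 : P ≤ SG / (c1 * r) + b0 * (m * C.card) := by
    have h6 : P ≤ ∑ x ∈ C, (∑ y ∈ D x, ucs m T c1 r b0 C y / (c1 * r) + b0 * m) := by
      refine Finset.sum_le_sum fun x hx => ?_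
      refine (Finset.sum_le_sum (hpair x hx)).trans ?_
      rw [Finset.sum_add_distrib, Finset.sum_const, nsmul_eq_mul]
      have := mul_le_mul_of_nonneg_left (hdeg x) hb00
      linarith
    refine h6.trans (le_of_eq ?_)
    rw [Finset.sum_add_distrib, Finset.sum_const, nsmul_eq_mul, hSG, Finset.sum_div]
    congr 1
    · exact Finset.sum_congr rfl fun x _ => by rw [Finset.sum_div]
    · ring
  -- capacity
  have h6 := ucon_cap m hm C T hCT
  have h6' : (C.card : ℝ) * T.card / 2 ^ m ≤ 2 * ((TT m : ℝ) + 2) *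
      ((∑ x ∈ C, (gN T x : ℝ)) / m + P / (m : ℝ) ^ 2) := h6
  set G : ℝ := ∑ x ∈ C, (gN T x : ℝ) with hG
  set t : ℝ := (TT m : ℝ) with ht
  have ht0 : 0 ≤ t := Nat.cast_nonneg _
  set K : ℝ := 2 ^ m * (t + 2) with hK
  have hK0 : 0 < K := by positivity
  set c : ℝ := (C.card : ℝ) with hcC
  set τ : ℝ := (T.card : ℝ) with hτ
  set s' : ℝ := (S.card : ℝ) with hs'
  have hc0 : 0 ≤ c := Nat.cast_nonneg _
  have hτ0 : 0 ≤ τ := Nat.cast_nonneg _
  have hs0 : 0 ≤ s' := Nat.cast_nonneg _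
  have hsc : s' ≤ c := by
    have := Finset.card_le_card hSC
    rw [hs', hcC]
    exact_mod_cast this
  have h7 : (m : ℝ) ^ 2 * c * τ / (2 * K) ≤ m * G + P := by
    have e1 : 2 * (t + 2) * (G / m + P / (m : ℝ) ^ 2) =
        (m * G + P) * (2 * (t + 2) / (m : ℝ) ^ 2) := by
      field_simp
    rw [e1] at h6'
    have e2 : (m : ℝ) ^ 2 * c * τ / (2 * K) =
        (c * τ / 2 ^ m) * ((m : ℝ) ^ 2 / (2 * (t + 2))) := by
      rw [hK]
      field_simp
    rw [e2]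
    have e3 : (0 : ℝ) ≤ (m : ℝ) ^ 2 / (2 * (t + 2)) := by positivity
    have e4 := mul_le_mul_of_nonneg_right h6' e3
    have e5 : (m * G + P) * (2 * (t + 2) / (m : ℝ) ^ 2) * ((m : ℝ) ^ 2 / (2 * (t + 2))) =
        m * G + P := by
      field_simp
    linarith
  have h8 : SG / (c1 * r) ≤ (m : ℝ) ^ 2 * s' * τ / (8 * K) := by
    have e1 : SG ≤ 2 * β / r := by
      rw [le_div_iff₀ hr0]
      linarith
    have e2 : SG / (c1 * r) ≤ (2 * β / r) / (c1 * r) :=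
      div_le_div_of_nonneg_right e1 (by positivity)
    refine e2.trans (le_of_eq ?_)
    rw [hβ, hK]
    field_simp
    ring
  have h9 : b0 * (m * c) ≤ (m : ℝ) ^ 2 * c * τ / (8 * K) := by
    have e1 : b0 * (m * c) ≤ (m * τ / (8 * 2 ^ m * (t + 2))) * (m * c) :=
      mul_le_mul_of_nonneg_right hb0 (by positivity)
    refine e1.trans (le_of_eq ?_)
    rw [hK]
    field_simp
  have h10 : (m : ℝ) ^ 2 * s' * τ / (8 * K) ≤ (m : ℝ) ^ 2 * c * τ / (8 * K) := by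
    apply div_le_div_of_nonneg_right _ (by positivity)
    exact mul_le_mul_of_nonneg_right (mul_le_mul_of_nonneg_left hsc (by positivity)) hτ0
  have e8 : (m : ℝ) ^ 2 * c * τ / (2 * K) = 4 * ((m : ℝ) ^ 2 * c * τ / (8 * K)) := by
    field_simp
    ring
  have h11 : 2 * ((m : ℝ) ^ 2 * s' * τ / (8 * K)) ≤ m * G := by linarith
  have h12 : m * s' * τ / (4 * K) ≤ G := by
    have e1 : 2 * ((m : ℝ) ^ 2 * s' * τ / (8 * K)) = m * (m * s' * τ / (4 * K)) := by
      field_simp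
      ring
    rw [e1] at h11
    exact le_of_mul_le_mul_left h11 hm0
  -- the product
  rw [Finset.prod_pow_eq_pow_sum]
  have h13 : (1 - r) ^ (∑ x ∈ C, gN T x) ≤ Real.exp (-(r * G)) := by
    have e1 : 1 - r ≤ Real.exp (-r) := by
      have := Real.add_one_le_exp (-r)
      linarith
    have e2 := pow_le_pow_left₀ (by linarith : 0 ≤ 1 - r) e1 (∑ x ∈ C, gN T x)
    refine e2.trans (le_of_eq ?_)
    rw [← Real.exp_nat_mul, hG]
    push_cast
    ring_nf
  refine h13.trans (Real.exp_le_exp.2 ?_)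
  have h14 : β ≤ r * (m * s' * τ / (4 * K)) := by
    have e1 : β = (c1 * r * m / 4) * (r * (m * s' * τ / (4 * K))) := by
      rw [hβ, hK]
      field_simp
      norm_num
    rw [e1]
    have e2 : 0 ≤ r * (m * s' * τ / (4 * K)) := by positivity
    have e3 : c1 * r * m / 4 ≤ 1 := by linarith
    nlinarith
  have h15 := mul_le_mul_of_nonneg_left h12 hr0.le
  linarith

theorem b_ucon : ∃ m0 : ℕ, ∀ m ≥ m0, ∀ (q : ℝ) (S T : Finset (Q m)), 0 ≤ q → q ≤ 1 →
    Disjoint S T → LL 60000 m * (1 + 2 ^ m * q) ≤ T.card →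
    Ex (offE (cubeE m) (S ∪ T)) (1 / m) (fun ζ => Ex (cubeE m) q (fun η =>
      ind (∀ x ∈ S, ∀ y ∈ T, y ∉ cl (ζ ∪ η) x))) ≤
      2 * Real.exp (-(q ^ 2 * S.card * T.card * LL (-25000) m / 2 ^ m)) := by
  obtain ⟨m1, h1⟩ := ucb_bound
  obtain ⟨m2, h2⟩ := ucon_num
  refine ⟨max m1 m2, fun m hm q S T hq0 hq1 hST hT => ?_⟩
  have hbd := h1 m (le_trans (le_max_left _ _) hm)
  obtain ⟨hm8, ha1, hpoly⟩ := h2 m (le_trans (le_max_right _ _) hm)
  have hm0 : (8 : ℝ) ≤ m := by exact_mod_cast hm8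
  have hmp : (0 : ℝ) < m := by linarith
  have hp0 : (0 : ℝ) ≤ 1 / m := by positivity
  have hp1 : (1 : ℝ) / m ≤ 1 := by
    rw [div_le_one hmp]; linarith
  -- q = 0
  rcases hq0.eq_or_lt with hq | hqpos
  · rw [← hq]
    have h3 : Real.exp (-((0 : ℝ) ^ 2 * S.card * T.card * LL (-25000) m / 2 ^ m)) = 1 := by
      simp
    rw [h3]
    have h4 : Ex (offE (cubeE m) (S ∪ T)) (1 / m) (fun ζ => Ex (cubeE m) 0 (fun η =>
      ind (∀ x ∈ S, ∀ y ∈ T, y ∉ cl (ζ ∪ η) x))) ≤ 1 :=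
      xb_Ex_le _ _ hp0 hp1 _ _ fun ζ _ => xb_Ex_le _ _ le_rfl zero_le_one _ _ fun η _ =>
        xb_ind_le_one _
    linarith
  -- r
  set r : ℝ := 1 - Real.sqrt (1 - q) with hr
  have hsq : Real.sqrt (1 - q) ^ 2 = 1 - q := Real.sq_sqrt (by linarith)
  have hs0 : 0 ≤ Real.sqrt (1 - q) := Real.sqrt_nonneg _
  have hs1 : Real.sqrt (1 - q) ≤ 1 := by
    exact Real.sqrt_le_one.mpr (by linarith)
  have hr0' : 0 ≤ r := by linarith
  have hr1 : r ≤ 1 := by linarith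
  have hqr : q = r + r - r * r := by
    rw [hr]
    nlinarith
  have hrpos : 0 < r := by
    rcases hr0'.eq_or_lt with h | h
    · rw [← h] at hqr
      norm_num at hqr
      linarith
    · exact h
  have hr2 : q / 2 ≤ r := by nlinarith
  have hrq : r ≤ q := by nlinarith
  -- constants
  set t : ℝ := (TT m : ℝ) with ht
  have htt := xn_TT m (by omega)
  have hlog := xn_log m (by omega)
  have ht1 : 8 ≤ t := by nlinarith [htt.1]
  have ht2 : t ≤ (m : ℝ) ^ 2 := htt.2.2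
  have ht3 : t * (t + 2) ≤ 2 * (m : ℝ) ^ 4 := by nlinarith
  set a : ℝ := LL 30000 m * ((m : ℝ) + 1) ^ 3 / 2 ^ m with ha
  have hLL := fun c => xn_LL_pos c m
  have ha0 : 0 ≤ a := by
    have := hLL 30000
    positivity
  set c1 : ℝ := LL (-24000) m / (2 * t) with hc1
  have hc1pos : 0 < c1 := div_pos (hLL _) (by linarith)
  set b0 : ℝ := 2 * t * LL 24000 m * (a + r * (m : ℝ) ^ 2 * ((m : ℝ) + 1) ^ 3 / 2) with hb0
  have hb0pos : 0 ≤ b0 := by
    have := hLL 24000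
    positivity
  have hLLinv : LL 24000 m * LL (-24000) m = 1 := by
    rw [xn_LL_add]
    norm_num [LL]
  -- sigma condition
  have hσ : ∀ C y, y ∉ C → Ex (offE (cubeE m) (C ∪ T)) (1 / m) (fun ζ => ∏ z ∈ cl ζ y,
      (1 - r) ^ gN T z) ≤ 1 - ucs m T c1 r b0 C y := by
    intro C y hy
    by_cases hcond : y ∉ C ∧ y ∉ T ∧ b0 ≤ ucb m T C y
    · have e1 := ucon_sigma m (by omega) r hr0' hr1 T C y
      refine e1.trans ?_
      unfold ucs
      rw [if_pos hcond]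
      have e2 := hbd T C y
      set v : ℝ := wt (offE (cubeE m) (C ∪ T)) (1 / m) (sm (gT T)) y with hv
      set b : ℝ := ucb m T C y with hb
      have e3 : 2 * c1 * b ≤ v + a := by
        have e4 : 2 * c1 * b ≤ 2 * c1 * (t * (LL 24000 m * (v + a))) :=
          mul_le_mul_of_nonneg_left e2 (by positivity)
        have e5 : 2 * c1 * (t * (LL 24000 m * (v + a))) =
            (LL 24000 m * LL (-24000) m) * (v + a) := by
          rw [hc1]
          field_simp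
        rw [e5, hLLinv, one_mul] at e4
        exact e4
      have e6 : a + r * (m : ℝ) ^ 2 * ((m : ℝ) + 1) ^ 3 / 2 ≤ c1 * b := by
        have e7 : c1 * b0 ≤ c1 * b := mul_le_mul_of_nonneg_left hcond.2.2 hc1pos.le
        have e8 : c1 * b0 = (LL 24000 m * LL (-24000) m) *
            (a + r * (m : ℝ) ^ 2 * ((m : ℝ) + 1) ^ 3 / 2) := by
          rw [hc1, hb0]
          field_simp
        rw [e8, hLLinv, one_mul] at e7
        exact e7
      have e9 := mul_le_mul_of_nonneg_left e3 hr0'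
      have e10 := mul_le_mul_of_nonneg_left e6 hr0'
      nlinarith
    · have e1 : ucs m T c1 r b0 C y = 0 := by
        unfold ucs
        rw [if_neg hcond]
      rw [e1, sub_zero]
      refine xb_Ex_le _ _ hp0 hp1 _ _ fun ζ _ => ?_
      exact Finset.prod_le_one (fun z _ => pow_nonneg (by linarith) _)
        (fun z _ => pow_le_one₀ (by linarith) (by linarith))
  have hσ1 : ∀ C y, ucs m T c1 r b0 C y ≤ 1 := by
    intro C y
    by_cases hy : y ∉ C
    · have e1 := hσ C y hy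
      have e2 : 0 ≤ Ex (offE (cubeE m) (C ∪ T)) (1 / m) (fun ζ => ∏ z ∈ cl ζ y,
          (1 - r) ^ gN T z) :=
        xb_Ex_nonneg _ _ hp0 hp1 _ fun ζ _ => Finset.prod_nonneg fun z _ =>
          pow_nonneg (by linarith) _
      linarith
    · have e1 : ucs m T c1 r b0 C y = 0 := by
        unfold ucs
        rw [if_neg (fun h => hy h.1)]
      rw [e1]
      exact zero_le_one
  set β : ℝ := c1 * r ^ 2 * (m : ℝ) ^ 2 * S.card * T.card / (16 * 2 ^ m * (t + 2)) with hβ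
  have hpow : (m : ℝ) + 1 ≤ 2 * m := by linarith
  have hpow3 : ((m : ℝ) + 1) ^ 3 ≤ 8 * (m : ℝ) ^ 3 := by
    calc ((m : ℝ) + 1) ^ 3 ≤ (2 * m) ^ 3 := pow_le_pow_left₀ (by positivity) hpow 3
      _ = 8 * (m : ℝ) ^ 3 := by ring
  -- LL 6000 is large
  have hLL6 : 3072 * (m : ℝ) ^ 9 ≤ LL 6000 m := hpoly.trans (xn_LL_mono _ _ (by norm_num) m)
  have hb0T : b0 ≤ m * T.card / (8 * 2 ^ m * (t + 2)) := by
    rw [le_div_iff₀ (by positivity)]
    have e1 : m * (LL 60000 m * (1 + 2 ^ m * q)) ≤ m * T.card :=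
      mul_le_mul_of_nonneg_left hT hmp.le
    refine le_trans ?_ e1
    have e2 : b0 * (8 * 2 ^ m * (t + 2)) =
        16 * (t * (t + 2)) * (LL 24000 m * LL 30000 m) * ((m : ℝ) + 1) ^ 3 +
        8 * (t * (t + 2)) * LL 24000 m * (m : ℝ) ^ 2 * ((m : ℝ) + 1) ^ 3 * (2 ^ m * r) := by
      rw [hb0, ha]
      field_simp
      ring
    rw [e2]
    have hL1 : LL 24000 m * LL 30000 m = LL 54000 m := by
      rw [xn_LL_add]; norm_num
    have hL2 : LL 24000 m ≤ LL 54000 m := xn_LL_mono _ _ (by norm_num) m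
    have hL3 : LL 54000 m * LL 6000 m = LL 60000 m := by
      rw [xn_LL_add]; norm_num
    rw [hL1]
    have hLp := hLL 54000
    have hLp2 := hLL 24000
    have hm3 : (0:ℝ) ≤ (m : ℝ) ^ 3 := by positivity
    have h1m : (1 : ℝ) ≤ (m : ℝ) ^ 2 := by nlinarith
    have f1 : 16 * (t * (t + 2)) * ((m : ℝ) + 1) ^ 3 ≤ m * (3072 * (m : ℝ) ^ 9) := by
      have g1 : 16 * (t * (t + 2)) * ((m : ℝ) + 1) ^ 3 ≤ 16 * (2 * (m : ℝ) ^ 4) * (8 * (m : ℝ) ^ 3) := by
        have : 0 ≤ t * (t + 2) := by positivity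
        gcongr
      refine g1.trans ?_
      have g2 : (0:ℝ) ≤ (m : ℝ) ^ 7 := by positivity
      have g3 : m * (3072 * (m : ℝ) ^ 9) = 3072 * (m : ℝ) ^ 7 * ((m : ℝ) ^ 3) := by ring
      have g4 : 16 * (2 * (m : ℝ) ^ 4) * (8 * (m : ℝ) ^ 3) = 256 * (m : ℝ) ^ 7 * 1 := by ring
      rw [g3, g4]
      have g5 : (1 : ℝ) ≤ (m : ℝ) ^ 3 := one_le_pow₀ (by linarith)
      gcongr
      norm_num
    have f2 : 8 * (t * (t + 2)) * (m : ℝ) ^ 2 * ((m : ℝ) + 1) ^ 3 ≤ m * (3072 * (m : ℝ) ^ 9) := by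
      have g1 : 8 * (t * (t + 2)) * (m : ℝ) ^ 2 * ((m : ℝ) + 1) ^ 3 ≤
          8 * (2 * (m : ℝ) ^ 4) * (m : ℝ) ^ 2 * (8 * (m : ℝ) ^ 3) := by
        have : 0 ≤ t * (t + 2) := by positivity
        gcongr
      refine g1.trans ?_
      have g3 : m * (3072 * (m : ℝ) ^ 9) = 3072 * (m : ℝ) ^ 9 * m := by ring
      have g4 : 8 * (2 * (m : ℝ) ^ 4) * (m : ℝ) ^ 2 * (8 * (m : ℝ) ^ 3) = 128 * (m : ℝ) ^ 9 * 1 := by
        ring
      rw [g3, g4]
      have g5 : (1 : ℝ) ≤ m := by linarith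
      gcongr
      norm_num
    have f3 : m * (3072 * (m : ℝ) ^ 9) ≤ m * LL 6000 m := mul_le_mul_of_nonneg_left hLL6 hmp.le
    have f4 : 16 * (t * (t + 2)) * LL 54000 m * ((m : ℝ) + 1) ^ 3 ≤ m * LL 60000 m := by
      have := mul_le_mul_of_nonneg_left (f1.trans f3) hLp.le
      rw [← hL3]
      linarith
    have f5 : 8 * (t * (t + 2)) * LL 24000 m * (m : ℝ) ^ 2 * ((m : ℝ) + 1) ^ 3 ≤
        m * LL 60000 m := by
      have g1 := mul_le_mul_of_nonneg_left (f2.trans f3) hLp2.le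
      have g2 : LL 24000 m * (m * LL 6000 m) ≤ m * LL 60000 m := by
        rw [← hL3]
        have := mul_le_mul_of_nonneg_right hL2 (mul_pos hmp (hLL 6000)).le
        linarith
      linarith
    have f6 : (2 : ℝ) ^ m * r ≤ 2 ^ m * q := mul_le_mul_of_nonneg_left hrq (by positivity)
    have f7 := mul_le_mul_of_nonneg_right f5 (by positivity : (0 : ℝ) ≤ 2 ^ m * r)
    have f8 := mul_le_mul_of_nonneg_left f6 (mul_pos hmp (hLL 60000)).le
    linarith
  have hc1r : c1 * r * m ≤ 4 := by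
    have e1 : c1 ≤ 1 / (2 * m) := by
      rw [hc1]
      have e2 : LL (-24000) m ≤ 1 := by
        have : LL (-24000) m ≤ LL 0 m := xn_LL_mono _ _ (by norm_num) m
        simpa [LL] using this
      have e3 : (m : ℝ) ≤ t := by nlinarith [htt.1]
      refine div_le_div₀ zero_le_one e2 (by positivity) (by linarith)
    have e4 : c1 * m ≤ 1 / 2 := by
      have := mul_le_mul_of_nonneg_right e1 hmp.le
      have e5 : 1 / (2 * (m : ℝ)) * m = 1 / 2 := by field_simp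
      linarith
    nlinarith [mul_nonneg hc1pos.le hmp.le]
  have hclaim := fun C (hSC : S ⊆ C) (hCT : Disjoint C T) =>
    ucon_claim m hm8 S T C hCT hSC r c1 b0 hrpos hr1 hc1pos hb0pos hσ1 hb0T hc1r β hβ
  have hcore := ucon_core (cubeE m) (1 / m) q r hp0 hp1 hr0' hr1 hqr S T hST
    (ucs m T c1 r b0) (ucs_nonneg m T c1 r b0 hc1pos.le hr0') hσ1
    (fun C C' y h _ => ucs_anti m T c1 r b0 hc1pos.le hr0' C C' y h) (by
      intro C y hy
      have := hσ C y hy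
      unfold gN at this
      convert this) β (by
      intro C hSC hCT
      have := hclaim C hSC hCT
      unfold gN at this
      convert this)
  refine hcore.trans ?_
  refine mul_le_mul_of_nonneg_left (Real.exp_le_exp.2 (neg_le_neg ?_)) (by norm_num)
  -- final numerical comparison
  have hLLfin : LL (-25000) m * (128 * (t * (t + 2))) ≤ LL (-24000) m * (m : ℝ) ^ 2 := by
    have e1 : LL (-24000) m = LL (-25000) m * LL 1000 m := by
      rw [xn_LL_add]; norm_num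
    rw [e1, mul_assoc]
    refine mul_le_mul_of_nonneg_left ?_ (hLL _).le
    have e2 : 128 * (t * (t + 2)) ≤ 3072 * (m : ℝ) ^ 9 * (m : ℝ) ^ 2 := by
      have g1 : 128 * (t * (t + 2)) ≤ 128 * (2 * (m : ℝ) ^ 4) := by gcongr
      refine g1.trans ?_
      have g3 : 3072 * (m : ℝ) ^ 9 * (m : ℝ) ^ 2 = 3072 * (m : ℝ) ^ 4 * (m : ℝ) ^ 7 := by ring
      have g4 : 128 * (2 * (m : ℝ) ^ 4) = 256 * (m : ℝ) ^ 4 * 1 := by ring
      rw [g3, g4]
      have g5 : (1 : ℝ) ≤ (m : ℝ) ^ 7 := one_le_pow₀ (by linarith)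
      gcongr
      norm_num
    exact e2.trans (mul_le_mul_of_nonneg_right hpoly (by positivity))
  have hq4 : q ^ 2 / 4 ≤ r ^ 2 := by nlinarith
  have hfin : q ^ 2 * LL (-25000) m ≤ c1 * r ^ 2 * (m : ℝ) ^ 2 / (16 * (t + 2)) := by
    rw [le_div_iff₀ (by positivity), hc1]
    have e1 : LL (-24000) m / (2 * t) * r ^ 2 * (m : ℝ) ^ 2 =
        (LL (-24000) m * (m : ℝ) ^ 2) * r ^ 2 / (2 * t) := by
      field_simp
    rw [e1, le_div_iff₀ (by positivity)]
    have e2 : q ^ 2 * LL (-25000) m * (16 * (t + 2)) * (2 * t) =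
        (LL (-25000) m * (128 * (t * (t + 2)))) * (q ^ 2 / 4) := by ring
    rw [e2]
    have e3 : 0 ≤ LL (-24000) m * (m : ℝ) ^ 2 := by
      have := hLL (-24000)
      positivity
    exact mul_le_mul hLLfin hq4 (by positivity) e3
  have hST0 : (0 : ℝ) ≤ (S.card : ℝ) * (T.card : ℝ) / 2 ^ m :=
    div_nonneg (mul_nonneg (Nat.cast_nonneg _) (Nat.cast_nonneg _)) (by positivity)
  have hfin2 := mul_le_mul_of_nonneg_right hfin hST0
  have e1 : q ^ 2 * S.card * T.card * LL (-25000) m / 2 ^ m =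
      q ^ 2 * LL (-25000) m * (S.card * T.card / 2 ^ m) := by ring
  have e2 : β = c1 * r ^ 2 * (m : ℝ) ^ 2 / (16 * (t + 2)) * (S.card * T.card / 2 ^ m) := by
    rw [hβ]
    exact ucon_alg _ _ _ _ _ (pow_ne_zero m two_ne_zero) (by linarith)
  rw [e1, e2]
  exact hfin2

end Pool.Agent.Work.MP_b7dc8a_pr
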