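import Pool.Agent.Work.MP_b7dc8a_pr.B.Def
import Pool.Agent.Work.MP_b7dc8a_pr.Bin
import Pool.Agent.Work.MP_b7dc8a_pr.Clb
import Pool.Agent.Work.MP_b7dc8a_pr.Joint

/-! Module XB (S-M): basic facts on `offE`, clusters and `Ex`. Everything is elementary; use
`clb_mem_cl`, `clb_mem_cls`, `clb_closed`, `cl_closed`, `cl_eq_of`, `cls_eq_self`, `cl_mono` of
Clb.lean and `Ex_insert` (induction on `E`), `Ex_add`, `Ex_sum`, `Ex_mono` of Bin.lean.

Proofs.
* `xb_Ex_two`: induction on `E` with `Ex_insert`: both sides split over the new edge `e`; the left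
  side has `P = p1 + q - p1 q` times `Ex E P (F (insert e .))` plus `(1 - P)` times `Ex E P F`, the
  right side has four terms `p1 q, p1 (1-q), (1-p1) q` (all giving `F (insert e (ζ ∪ η))`) and
  `(1-p1)(1-q) = 1 - P`.
* `xb_Ex_swap`: unfold both, `Finset.sum_comm`.
* `xb_wt_mono_E`: `Ex E' p F = Ex E p (fun ω => F (ω ∩ E'))` (`Ex_restrict`) and `cl_mono`.
-/

namespace Pool.Agent.Work.MP_b7dc8a_pr

open Finset

section XB
variable {V : Type}

theorem xb_mem_offE (E : Finset (Sym2 V)) (S : Finset V) (x y : V) :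
    s(x, y) ∈ offE E S ↔ s(x, y) ∈ E ∧ x ∉ S ∧ y ∉ S := by
  classical
  simp [offE, Sym2.mem_iff]

theorem xb_offE_subset (E : Finset (Sym2 V)) (S : Finset V) : offE E S ⊆ E := by
  classical
  unfold offE
  exact filter_subset _ _

theorem xb_offE_empty (E : Finset (Sym2 V)) : offE E ∅ = E := by
  unfold offE
  ext e
  simp

theorem xb_offE_offE [DecidableEq V] (E : Finset (Sym2 V)) (S T : Finset V) :
    offE (offE E S) T = offE E (S ∪ T) := by
  ext e
  induction e with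
  | h x y =>
    rw [xb_mem_offE, xb_mem_offE, xb_mem_offE, mem_union, mem_union]
    tauto

theorem xb_offE_anti (E : Finset (Sym2 V)) (S T : Finset V) (h : S ⊆ T) :
    offE E T ⊆ offE E S := by
  intro e he
  induction e with
  | h x y =>
    rw [xb_mem_offE] at he ⊢
    exact ⟨he.1, fun h' => he.2.1 (h h'), fun h' => he.2.2 (h h')⟩

theorem xb_offE_mono (E E' : Finset (Sym2 V)) (S : Finset V) (h : E ⊆ E') :
    offE E S ⊆ offE E' S := by
  intro e he
  induction e with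
  | h x y =>
    rw [xb_mem_offE] at he ⊢
    exact ⟨h he.1, he.2⟩

variable [Fintype V] [DecidableEq V]

theorem xb_mem_cls (ω : Finset (Sym2 V)) (S : Finset V) (y : V) :
    y ∈ cls ω S ↔ ∃ x ∈ S, y ∈ cl ω x := by
  rw [clb_mem_cls]
  simp only [clb_mem_cl]

theorem xb_cls_mono (ω ω' : Finset (Sym2 V)) (S S' : Finset V) (h : ω ⊆ ω') (hS : S ⊆ S') :
    cls ω S ⊆ cls ω' S' := by
  intro y hy
  rw [xb_mem_cls] at hy ⊢
  obtain ⟨x, hx, hy⟩ := hy
  exact ⟨x, hS hx, cl_mono ω ω' h x hy⟩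

/-- no edge of `ω` leaves `cls ω S` -/
theorem xb_cls_closed (ω : Finset (Sym2 V)) (S : Finset V) (x y : V) (hx : x ∈ cls ω S)
    (h : s(x, y) ∈ ω) : y ∈ cls ω S := by
  rw [xb_mem_cls] at hx ⊢
  obtain ⟨z, hz, hxz⟩ := hx
  exact ⟨z, hz, cl_closed ω z x y hxz h⟩

/-- a vertex of `S` is isolated in `ω ⊆ offE E S` -/
theorem xb_cl_off (E ω : Finset (Sym2 V)) (S : Finset V) (h : ω ⊆ offE E S) (x : V)
    (hx : x ∈ S) : cl ω x = {x} := by
  rw [← cls_singleton]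
  refine cls_eq_self ω {x} fun a ha y hy => ?_
  rw [mem_singleton] at ha
  subst ha
  exact absurd hx ((xb_mem_offE E S a y).1 (h hy)).2.1

/-- clusters of `ω ⊆ offE E S` started outside `S` avoid `S` -/
theorem xb_cl_off' (E ω : Finset (Sym2 V)) (S : Finset V) (h : ω ⊆ offE E S) (x : V)
    (hx : x ∉ S) : Disjoint (cl ω x) S := by
  rw [Finset.disjoint_left]
  intro z hz hzS
  rw [cl_symm, xb_cl_off E ω S h z hzS, mem_singleton] at hz
  exact hx (hz ▸ hzS)

/-- a cluster outside `D = cls ω S` does not see `D` -/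
theorem xb_cl_outside (E ω : Finset (Sym2 V)) (hω : ω ⊆ E) (S : Finset V) (x : V)
    (hx : x ∉ cls ω S) : cl (ω ∩ offE E (cls ω S)) x = cl ω x ∧ Disjoint (cl ω x) (cls ω S) := by
  have hd : Disjoint (cl ω x) (cls ω S) := by
    rw [Finset.disjoint_left]
    intro z hz hzD
    rw [xb_mem_cls] at hzD
    obtain ⟨s, hs, hsz⟩ := hzD
    refine hx ?_
    rw [xb_mem_cls]
    refine ⟨s, hs, ?_⟩
    rw [← cl_eq_of_mem ω s z hsz, cl_symm]
    exact hz
  refine ⟨?_, hd⟩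
  refine cl_eq_of ω _ x fun a ha b => ?_
  rw [mem_inter]
  refine ⟨fun h => ⟨h, ?_⟩, fun h => h.1⟩
  rw [xb_mem_offE]
  exact ⟨hω h, Finset.disjoint_left.1 hd ha,
    Finset.disjoint_left.1 hd (cl_closed ω x a b ha h)⟩

/-- if the edges of `ω` touching `A ⊆ cls ω S` and not in `ω'` are inside `A`, then `ω'` started
from `S ∪ A` gives the same cluster -/
theorem xb_cls_absorb (ω ω' : Finset (Sym2 V)) (S A : Finset V) (h : ω' ⊆ ω) (hA : A ⊆ cls ω S)
    (hin : ∀ x y, s(x, y) ∈ ω → s(x, y) ∉ ω' → x ∈ A ∧ y ∈ A) :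
    cls ω S = cls ω' (S ∪ A) := by
  apply Finset.Subset.antisymm
  · intro y hy
    rw [xb_mem_cls] at hy
    obtain ⟨s, hs, hy⟩ := hy
    rw [clb_mem_cl] at hy
    refine clb_closed ω {v | v ∈ cls ω' (S ∪ A)} (fun a ha b hab => ?_) s y ?_ hy
    · by_cases hab' : s(a, b) ∈ ω'
      · exact xb_cls_closed ω' _ a b ha hab'
      · exact subset_cls ω' _ (mem_union_right _ (hin a b hab hab').2)
    · exact subset_cls ω' _ (mem_union_left _ hs)
  · intro y hy
    rw [xb_mem_cls] at hy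
    obtain ⟨s, hs, hy⟩ := hy
    have hs' : s ∈ cls ω S := by
      rcases mem_union.1 hs with hs | hs
      · exact subset_cls ω S hs
      · exact hA hs
    have hy' := cl_mono ω' ω h s hy
    rw [clb_mem_cl] at hy'
    exact clb_closed ω {v | v ∈ cls ω S} (fun a ha b hab => xb_cls_closed ω S a b ha hab) s y
      hs' hy'

theorem xb_Ex_nonneg {α : Type} (E : Finset α) (p : ℝ) (h0 : 0 ≤ p) (h1 : p ≤ 1)
    (F : Finset α → ℝ) (h : ∀ ω ⊆ E, 0 ≤ F ω) : 0 ≤ Ex E p F := by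
  have := Ex_mono E p h0 h1 (fun _ => 0) F h
  rwa [Ex_const] at this

theorem xb_Ex_le {α : Type} (E : Finset α) (p : ℝ) (h0 : 0 ≤ p) (h1 : p ≤ 1)
    (F : Finset α → ℝ) (c : ℝ) (h : ∀ ω ⊆ E, F ω ≤ c) : Ex E p F ≤ c := by
  have := Ex_mono E p h0 h1 F (fun _ => c) h
  rwa [Ex_const] at this

theorem xb_Ex_ge {α : Type} (E : Finset α) (p : ℝ) (h0 : 0 ≤ p) (h1 : p ≤ 1)
    (F : Finset α → ℝ) (c : ℝ) (h : ∀ ω ⊆ E, c ≤ F ω) : c ≤ Ex E p F := by
  have := Ex_mono E p h0 h1 (fun _ => c) F h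
  rwa [Ex_const] at this

theorem xb_ind_nonneg (P : Prop) : 0 ≤ ind P := by
  unfold ind
  split_ifs <;> norm_num

theorem xb_ind_le_one (P : Prop) : ind P ≤ 1 := by
  unfold ind
  split_ifs <;> norm_num

theorem xb_ind_mono {P R : Prop} (h : P → R) : ind P ≤ ind R := by
  unfold ind
  split_ifs with h1 h2
  · exact le_rfl
  · exact absurd (h h1) h2
  · norm_num
  · exact le_rfl

/-- union of two independent percolations -/
theorem xb_Ex_two {α : Type} [DecidableEq α] (E : Finset α) (p1 q : ℝ) (F : Finset α → ℝ) :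
    Ex E (p1 + q - p1 * q) F = Ex E p1 (fun ζ => Ex E q (fun η => F (ζ ∪ η))) := by
  induction E using Finset.induction_on generalizing F with
  | empty => simp only [Ex_empty, union_empty]
  | insert e E he ih =>
    have hR : Ex (insert e E) p1 (fun ζ => Ex (insert e E) q (fun η => F (ζ ∪ η))) =
        p1 * (q * Ex E p1 (fun ζ => Ex E q (fun η => F (insert e (ζ ∪ η)))) +
          (1 - q) * Ex E p1 (fun ζ => Ex E q (fun η => F (insert e (ζ ∪ η))))) +
        (1 - p1) * (q * Ex E p1 (fun ζ => Ex E q (fun η => F (insert e (ζ ∪ η)))) +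
          (1 - q) * Ex E p1 (fun ζ => Ex E q (fun η => F (ζ ∪ η)))) := by
      rw [Ex_insert e E he]
      have h1 : (fun ζ => Ex (insert e E) q (fun η => F (insert e ζ ∪ η))) =
          fun ζ => q * Ex E q (fun η => F (insert e (ζ ∪ η))) +
            (1 - q) * Ex E q (fun η => F (insert e (ζ ∪ η))) := by
        funext ζ
        rw [Ex_insert e E he]
        simp only [union_insert, insert_union, Finset.insert_idem]
      have h2 : (fun ζ => Ex (insert e E) q (fun η => F (ζ ∪ η))) =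
          fun ζ => q * Ex E q (fun η => F (insert e (ζ ∪ η))) +
            (1 - q) * Ex E q (fun η => F (ζ ∪ η)) := by
        funext ζ
        rw [Ex_insert e E he]
        simp only [union_insert]
      rw [h1, h2, Ex_add, Ex_mul_left, Ex_mul_left, Ex_add, Ex_mul_left, Ex_mul_left]
    rw [hR, Ex_insert e E he, ih, ih]
    ring

theorem xb_Ex_swap {α β : Type} (E : Finset α) (E' : Finset β) (p q : ℝ)
    (F : Finset α → Finset β → ℝ) :
    Ex E p (fun ω => Ex E' q (fun η => F ω η)) = Ex E' q (fun η => Ex E p (fun ω => F ω η)) := by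
  unfold Ex
  simp only [Finset.mul_sum]
  rw [Finset.sum_comm]
  refine Finset.sum_congr rfl fun η _ => Finset.sum_congr rfl fun ω _ => ?_
  ring

/-- Markov inequality -/
theorem xb_markov {α : Type} (E : Finset α) (p : ℝ) (h0 : 0 ≤ p) (h1 : p ≤ 1)
    (F : Finset α → ℝ) (hF : ∀ ω ⊆ E, 0 ≤ F ω) (a : ℝ) (ha : 0 < a) :
    Ex E p (fun ω => ind (a ≤ F ω)) ≤ Ex E p F / a := by
  rw [div_eq_inv_mul, ← Ex_mul_left]
  refine Ex_mono E p h0 h1 _ _ fun ω hω => ?_
  unfold ind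
  split_ifs with h
  · rw [← div_eq_inv_mul, le_div_iff₀ ha, one_mul]
    exact h
  · exact mul_nonneg (inv_nonneg.2 ha.le) (hF ω hω)

theorem xb_wt_mono_E (E E' : Finset (Sym2 V)) (hE : E' ⊆ E) (p : ℝ) (h0 : 0 ≤ p) (h1 : p ≤ 1)
    (Θ : Finset V → ℝ) (hΘ : ∀ A B, A ⊆ B → Θ A ≤ Θ B) (x : V) : wt E' p Θ x ≤ wt E p Θ x := by
  unfold wt
  rw [← Ex_restrict E E' hE p (fun ω => Θ (cl ω x))]
  exact Ex_mono E p h0 h1 _ _ fun ω _ => hΘ _ _ (cl_mono _ _ inter_subset_left x)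

theorem xb_wt_mono_p (E : Finset (Sym2 V)) (p p' : ℝ) (h0 : 0 ≤ p) (hp : p ≤ p') (h1 : p' ≤ 1)
    (Θ : Finset V → ℝ) (hΘ : ∀ A B, A ⊆ B → Θ A ≤ Θ B) (x : V) : wt E p Θ x ≤ wt E p' Θ x := by
  unfold wt
  exact Ex_mono_p E p p' h0 hp h1 _ fun ω ω' h _ => hΘ _ _ (cl_mono _ _ h x)

theorem xb_chi_mono_E (E E' : Finset (Sym2 V)) (hE : E' ⊆ E) (p : ℝ) (h0 : 0 ≤ p) (h1 : p ≤ 1)
    (x : V) : chi E' p x ≤ chi E p x := by
  exact xb_wt_mono_E E E' hE p h0 h1 (fun A => (A.card : ℝ))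
    (fun A B h => by exact_mod_cast card_le_card h) x

theorem xb_chi_mono_p (E : Finset (Sym2 V)) (p p' : ℝ) (h0 : 0 ≤ p) (hp : p ≤ p') (h1 : p' ≤ 1)
    (x : V) : chi E p x ≤ chi E p' x := by
  exact xb_wt_mono_p E p p' h0 hp h1 (fun A => (A.card : ℝ))
    (fun A B h => by exact_mod_cast card_le_card h) x

theorem xb_chi_ge_one (E : Finset (Sym2 V)) (p : ℝ) (h0 : 0 ≤ p) (h1 : p ≤ 1) (x : V) :
    1 ≤ chi E p x := by
  unfold chi
  refine xb_Ex_ge E p h0 h1 _ 1 fun ω _ => ?_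
  exact_mod_cast card_pos.2 ⟨x, mem_cl_self ω x⟩

theorem xb_tau_nonneg (E : Finset (Sym2 V)) (p : ℝ) (h0 : 0 ≤ p) (h1 : p ≤ 1) (x y : V) :
    0 ≤ tau E p x y := by
  unfold tau
  exact xb_Ex_nonneg E p h0 h1 _ fun ω _ => xb_ind_nonneg _

theorem xb_tau_le_one (E : Finset (Sym2 V)) (p : ℝ) (h0 : 0 ≤ p) (h1 : p ≤ 1) (x y : V) :
    tau E p x y ≤ 1 := by
  unfold tau
  exact xb_Ex_le E p h0 h1 _ 1 fun ω _ => xb_ind_le_one _

theorem xb_tau_self (E : Finset (Sym2 V)) (p : ℝ) (x : V) : tau E p x x = 1 := by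
  unfold tau
  rw [← Ex_const E p 1]
  refine Ex_congr _ _ _ _ fun ω _ => ?_
  rw [ind, if_pos (mem_cl_self ω x)]

theorem xb_tau_comm (E : Finset (Sym2 V)) (p : ℝ) (x y : V) : tau E p x y = tau E p y x := by
  unfold tau
  refine Ex_congr _ _ _ _ fun ω _ => ?_
  rw [cl_symm]

theorem xb_tau_mono_E (E E' : Finset (Sym2 V)) (hE : E' ⊆ E) (p : ℝ) (h0 : 0 ≤ p) (h1 : p ≤ 1)
    (x y : V) : tau E' p x y ≤ tau E p x y := by
  exact xb_wt_mono_E E E' hE p h0 h1 (fun A => ind (y ∈ A))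
    (fun A B h => xb_ind_mono fun h' => h h') x

theorem xb_tau_mono_p (E : Finset (Sym2 V)) (p p' : ℝ) (h0 : 0 ≤ p) (hp : p ≤ p') (h1 : p' ≤ 1)
    (x y : V) : tau E p x y ≤ tau E p' x y := by
  exact xb_wt_mono_p E p p' h0 hp h1 (fun A => ind (y ∈ A))
    (fun A B h => xb_ind_mono fun h' => h h') x

theorem xb_tau_off (E : Finset (Sym2 V)) (S : Finset V) (p : ℝ) (x y : V) (hx : x ∉ S)
    (hy : y ∈ S) : tau (offE E S) p x y = 0 := by
  unfold tau
  rw [← Ex_const (offE E S) p 0]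
  refine Ex_congr _ _ _ _ fun ω hω => ?_
  rw [ind, if_neg fun h => Finset.disjoint_left.1 (xb_cl_off' E ω S hω x hx) h hy]

theorem xb_wt_sm (E : Finset (Sym2 V)) (p : ℝ) (g : V → ℝ) (x : V) :
    wt E p (sm g) x = ∑ z, g z * tau E p x z := by
  have h1 : wt E p (sm g) x = Ex E p (fun ω => ∑ z, g z * ind (z ∈ cl ω x)) := by
    unfold wt
    refine Ex_congr _ _ _ _ fun ω _ => ?_
    unfold sm ind
    simp only [mul_ite, mul_one, mul_zero]
    rw [← Finset.sum_filter]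
    congr 1
    ext z
    simp
  rw [h1, Ex_sum]
  refine Finset.sum_congr rfl fun z _ => ?_
  rw [Ex_mul_left]
  rfl

theorem xb_chi_sum (E : Finset (Sym2 V)) (p : ℝ) (x : V) : chi E p x = ∑ z, tau E p x z := by
  have h1 : chi E p x = wt E p (sm fun _ => 1) x := by
    unfold chi wt sm
    refine Ex_congr _ _ _ _ fun ω _ => ?_
    simp
  rw [h1, xb_wt_sm]
  simp

theorem xb_chi_wt (E : Finset (Sym2 V)) (p : ℝ) (x : V) :
    chi E p x = wt E p (sm fun _ => 1) x := by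
  unfold chi wt sm
  refine Ex_congr _ _ _ _ fun ω _ => ?_
  simp

theorem xb_sm_mono (g : V → ℝ) (hg : ∀ z, 0 ≤ g z) (A B : Finset V) (h : A ⊆ B) :
    sm g A ≤ sm g B := by
  unfold sm
  exact Finset.sum_le_sum_of_subset_of_nonneg h fun z _ _ => hg z

theorem xb_sm_subadd (g : V → ℝ) (hg : ∀ z, 0 ≤ g z) (A B : Finset V) :
    sm g (A ∪ B) ≤ sm g A + sm g B := by
  unfold sm
  rw [← Finset.sum_union_inter]
  exact le_add_of_nonneg_right (Finset.sum_nonneg fun z _ => hg z)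

end XB

end Pool.Agent.Work.MP_b7dc8a_pr
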